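import Pool.Agent.H459.UT.Llt
import Pool.Graph.R_pool_sql_team_seeded_63374d34.N704.PJ.Hensel

/-!
# The type at two: completions (helper459)
-/

set_option autoImplicit false
set_option linter.all false

open Polynomial IsDedekindDomain Matrix NumberField WithZero
open scoped Classical IntermediateField

namespace Pool.Agent.H459.UT

open Pool.Agent.N783.PF (IsGen fF)
open Pool.Agent.H459.UF (cu cu_monic cu_deg below val_pow mem_below lies_below)

section cpt

variable {K : Type} [Field K] [NumberField K]

theorem charzero_cpt (w : HeightOneSpectrum (𝓞 K)) : CharZero (w.adicCompletion K) :=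
  charZero_of_injective_algebraMap (algebraMap K (w.adicCompletion K)).injective

/-- units close to one are squares -/
theorem sq4 (w : HeightOneSpectrum (𝓞 K)) (x : w.adicCompletion K)
    (hx : Valued.v (Γ₀ := WithZero (Multiplicative ℤ)) x <
      Valued.v (Γ₀ := WithZero (Multiplicative ℤ)) (4 : w.adicCompletion K)) : IsSquare (1 + x) := by
  haveI := charzero_cpt w
  have h4 : Valued.v (Γ₀ := WithZero (Multiplicative ℤ)) (4 : w.adicCompletion K) ≠ 0 :=
    (Valuation.ne_zero_iff _).2 (by norm_num)
  obtain ⟨u, hu, -⟩ := Pool.Agent.N530.QM.quad_root (L := w.adicCompletion K) (x / 4) (by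
    rw [map_div₀, div_lt_iff₀ (zero_lt_iff.2 h4), one_mul]
    exact hx)
  refine ⟨1 + 2 * u, ?_⟩
  have h5 : 4 * (u ^ 2 + u) = x := by
    rw [hu]
    field_simp
  linear_combination -h5

/-- The type at a prime over two. -/
structure TF (v : HeightOneSpectrum (𝓞 K)) (A B : K) : Prop where
  two : (2 : 𝓞 K) ∈ v.asIdeal
  n0 : 27 + 3 * A + B ≠ 0
  hN : v.valuation K (27 + 3 * A + B) < v.valuation K 64
  hA : v.valuation K (A + 27) ≤ v.valuation K (27 + 3 * A + B)

theorem val_nat {v : HeightOneSpectrum (𝓞 K)} (n : ℕ) :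
    Valued.v (Γ₀ := WithZero (Multiplicative ℤ)) (n : v.adicCompletion K) =
      v.valuation K (n : K) := by
  rw [← map_natCast (algebraMap K (v.adicCompletion K)), Pool.Agent.N704.PP.vx]

theorem two_lt {v : HeightOneSpectrum (𝓞 K)} (h : (2 : 𝓞 K) ∈ v.asIdeal) :
    v.valuation K 2 < 1 := by
  have e : algebraMap (𝓞 K) K (2 : 𝓞 K) = 2 := map_ofNat _ 2
  rw [← e]
  exact (HeightOneSpectrum.valuation_lt_one_iff_mem (K := K) v 2).2 h

variable {L : Type} [Field L] [NumberField L] [Algebra K L]

/-- Transfer to the completions of an extension. -/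
theorem TF.up {w : HeightOneSpectrum (𝓞 L)} {A B : K} (h : TF (below K w) A B) :
    TT (Valued.v (R := w.adicCompletion L) (Γ₀ := WithZero (Multiplicative ℤ)))
      (algebraMap L (w.adicCompletion L) (algebraMap K L A))
      (algebraMap L (w.adicCompletion L) (algebraMap K L B)) := by
  obtain ⟨e, he, hv⟩ := val_pow (K := K) w
  have hv' : ∀ x : K, Valued.v (Γ₀ := WithZero (Multiplicative ℤ))
      (algebraMap L (w.adicCompletion L) (algebraMap K L x)) = (below K w).valuation K x ^ e := by
    intro x
    rw [Pool.Agent.N704.PP.vx, hv]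
  haveI := charzero_cpt w
  have e1 : (27 : w.adicCompletion L) + 3 * algebraMap L (w.adicCompletion L) (algebraMap K L A) +
      algebraMap L (w.adicCompletion L) (algebraMap K L B) =
      algebraMap L (w.adicCompletion L) (algebraMap K L (27 + 3 * A + B)) := by
    simp only [map_add, map_mul, map_ofNat]
  have e2 : algebraMap L (w.adicCompletion L) (algebraMap K L A) + (27 : w.adicCompletion L) =
      algebraMap L (w.adicCompletion L) (algebraMap K L (A + 27)) := by
    simp only [map_add, map_ofNat]
  have e3 : (64 : w.adicCompletion L) = algebraMap L (w.adicCompletion L) (algebraMap K L 64) := by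
    simp only [map_ofNat]
  have e4 : (2 : w.adicCompletion L) = algebraMap L (w.adicCompletion L) (algebraMap K L 2) := by
    simp only [map_ofNat]
  refine ⟨?_, sq4 w, ?_, ?_, ?_⟩
  · rw [e4, hv']
    exact pow_lt_one' (two_lt h.two) (by omega)
  · rw [e1]
    exact (_root_.map_ne_zero _).2 ((_root_.map_ne_zero _).2 h.n0)
  · rw [e1, e3, hv', hv']
    exact pow_lt_pow_left₀ h.hN zero_le (by omega)
  · rw [e1, e2, hv', hv']
    exact pow_le_pow_left' h.hA e

theorem TF.self {v : HeightOneSpectrum (𝓞 K)} {A B : K} (h : TF v A B) :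
    TT (Valued.v (R := v.adicCompletion K) (Γ₀ := WithZero (Multiplicative ℤ)))
      (algebraMap K (v.adicCompletion K) A) (algebraMap K (v.adicCompletion K) B) := by
  have h1 : TF (below K v) A B := by
    rw [Pool.Agent.H459.UF.below_self]
    exact h
  exact h1.up

end cpt

section root

variable {k : Type} [Field k] [CharZero k] {v : Valuation k (WithZero (Multiplicative ℤ))}
  {A B : k}

theorem TT.vA (H : TT v A B) : v A = 1 := by
  have e : A = (A + 27) - 27 := by ring
  have h27 : v 27 = 1 := by
    have : (27 : k) = 9 * 3 := by norm_num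
    rw [this, map_mul, H.v9, H.v3, mul_one]
  rw [e, Valuation.map_sub_eq_of_lt_right, h27]
  rw [h27]
  exact H.hA.trans_lt H.N1

theorem TT.uniq (H : TT v A B) {r s : k} (hr : r ^ 3 + A * r + B = 0) (hv : v r < 1)
    (hs : s ^ 3 + A * s + B = 0) (hvs : v s < 1) : r = s := by
  have e : (r - s) * (r ^ 2 + r * s + s ^ 2 + A) = 0 := by linear_combination hr - hs
  rcases mul_eq_zero.1 e with h | h
  · exact sub_eq_zero.1 h
  · exfalso
    have h1 : v (r ^ 2 + r * s + s ^ 2) < 1 := by
      refine (Valuation.map_add _ _ _).trans_lt (max_lt ((Valuation.map_add _ _ _).trans_lt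
        (max_lt ?_ ?_)) ?_)
      · rw [map_pow]
        exact pow_lt_one' hv (by norm_num)
      · rw [map_mul]
        exact mul_lt_one' hv hvs
      · rw [map_pow]
        exact pow_lt_one' hvs (by norm_num)
    have h2 : v (r ^ 2 + r * s + s ^ 2 + A) = 1 := by
      rw [Valuation.map_add_eq_of_lt_right, H.vA]
      rw [H.vA]
      exact h1
    rw [h, map_zero] at h2
    exact zero_ne_one h2

end root

section root2

variable {K : Type} [Field K] [NumberField K]

theorem TT.ex {w : HeightOneSpectrum (𝓞 K)} {A B : w.adicCompletion K}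
    (H : TT (Valued.v (R := w.adicCompletion K) (Γ₀ := WithZero (Multiplicative ℤ))) A B) :
    ∃ r : w.adicCompletion K, r ^ 3 + A * r + B = 0 ∧
      Valued.v (Γ₀ := WithZero (Multiplicative ℤ)) r < 1 := by
  haveI := charzero_cpt w
  have hB : Valued.v (Γ₀ := WithZero (Multiplicative ℤ)) B < 1 := by
    have e : B = (27 + 3 * A + B) - 3 * (A + 27) + 2 * 27 := by ring
    rw [e]
    refine (Valuation.map_add _ _ _).trans_lt (max_lt ((Valuation.map_sub _ _ _).trans_lt
      (max_lt H.N1 ?_)) ?_)
    · rw [map_mul, H.v3, one_mul]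
      exact H.hA.trans_lt H.N1
    · rw [map_mul]
      have h27 : Valued.v (Γ₀ := WithZero (Multiplicative ℤ)) (27 : w.adicCompletion K) ≤ 1 := by
        exact_mod_cast v_nat_le _ 27
      refine (mul_le_mul' le_rfl h27).trans_lt ?_
      rw [mul_one]
      exact H.two
  obtain ⟨r, hr, hv⟩ := Pool.Agent.N704.PJ.hensel (L := w.adicCompletion K) (cu A B) (by
    intro i
    unfold cu
    by_cases h3 : i = 3
    · subst h3
      simp [coeff_X, coeff_C]
    by_cases h1 : i = 1
    · subst h1
      simp [coeff_X, coeff_C]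
      exact H.vA.le
    by_cases h0 : i = 0
    · subst h0
      simp [coeff_X, coeff_C]
      exact hB.le
    · have : (X ^ 3 + C A * X + C B : (w.adicCompletion K)[X]).coeff i = 0 := by
        simp [coeff_X, coeff_C, coeff_X_pow, h3, h0, Ne.symm h1]
      rw [this, map_zero]
      exact zero_le) (a := 0) (by rw [map_zero]; exact zero_le) (by
      have : (cu A B).eval 0 = B := by simp [cu]
      rw [this]
      exact hB) (by
      have : (derivative (cu A B)).eval 0 = A := by simp [cu]
      rw [this]
      exact H.vA)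
  refine ⟨r, ?_, ?_⟩
  · rw [← hr]
    simp [cu]
  · rwa [sub_zero] at hv

end root2

end Pool.Agent.H459.UT
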