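import Pool.Agent.H459.UT.Exq
import Pool.Graph.R_pool_sql_team_seeded_63374d34.N459.PF.Ram
import Pool.Graph.R_pool_sql_team_seeded_63374d34.N426.PF.Par

/-!
# Parities and ramified primes, without a condition at the other primes (helper459)

After `N426/PF/Par.lean` (helper426) and `N459/PF/Ram.lean` of the library.
-/

set_option autoImplicit false
set_option linter.all false

open Polynomial IsDedekindDomain WithZero UniqueFactorizationMonoid NumberField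
open scoped Classical

namespace Pool.Agent.H459.UT

open Pool.Agent.N783.PF (IsGen fF rd Cg GoodS dsc Ov)
open Pool.Agent.N874.PP (Ev Sq1)
open Pool.Agent.N862.PP (val_eq ev_iff_count ev_mul_sq cn cn_sum cn_pow
  cn_zero cn_one not_ev_of_exp exists_two sq1_mul_sq)
open Pool.Agent.N426.PF (toG parity cn_eq cn_deg_one cn_irr mem_nf fac fd perf map_ne tf_O
  exists_den_p algL_inj algO_inj)
open Pool.Agent.N73.PF (ev ev_L ev_f ev_ker ev_C ev_X ov_iff mem_of_dvd theta_ex rd_surj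
  map_eq_of_cg coeff_of_rd_eq_zero ev_mem_of_coeff algMap_coe)

variable {g : ℕ} {F L : Type} [Field F] [NumberField F] [Field L] [NumberField L] [Algebra F L]
  {f : (𝓞 F)[X]} {θ : L}

theorem finO (h : IsGen g f θ) : Module.Finite (𝓞 F) (𝓞 L) := by
  haveI := Pool.Agent.N31.PF.fin h
  exact IsIntegralClosure.finite (𝓞 F) F L (𝓞 L)

theorem cn_map (h : IsGen g f θ) {𝔭 : Ideal (𝓞 F)} (hpp : 𝔭.IsPrime) (hpb : 𝔭 ≠ ⊥) :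
    cn (𝓞 F) 𝔭 (𝔭.map (algebraMap (𝓞 F) (𝓞 L))) = 2 * g + 1 := by
  haveI := finO h
  haveI : Module.IsTorsionFree (𝓞 F) (𝓞 L) := tf_O (K := F) (L := L)
  have hirr : Irreducible 𝔭 := (Ideal.prime_of_isPrime hpb hpp).irreducible
  unfold cn
  have hr : Module.finrank (𝓞 F) (𝓞 L) = 2 * g + 1 := by
    rw [← IsFractionRing.finrank_eq (𝓞 F) F (𝓞 L) L, h.rank]
  rw [Ideal.relNorm_algebraMap, hr, normalizedFactors_pow, Multiset.count_nsmul,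
    normalizedFactors_irreducible hirr, normalize_eq, Multiset.count_singleton_self, mul_one]

/-- All elements are congruent to elements of `𝓞 F`. -/
theorem exists_res (h : IsGen g f θ) {𝔭 : Ideal (𝓞 F)} (hp : 𝔭.IsPrime) (hp0 : 𝔭 ≠ ⊥)
    (hsq : dsc g f ∉ 𝔭 ^ 2) {t : 𝓞 L} (ht : algebraMap (𝓞 L) L t = θ)
    {𝔓 : HeightOneSpectrum (𝓞 L)} (hov : Ov 𝔭 𝔓) {c : 𝓞 F}
    (hc : t - algebraMap (𝓞 F) (𝓞 L) c ∈ 𝔓.asIdeal) (y : 𝓞 L) :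
    ∃ r : 𝓞 F, y - algebraMap (𝓞 F) (𝓞 L) r ∈ 𝔓.asIdeal := by
  obtain ⟨s, p, hs, hsp, -⟩ := ev_at h hp hp0 hsq ht y
  haveI hm : 𝔭.IsMaximal := hp.isMaximal hp0
  obtain ⟨z, i, hi, hzi⟩ := hm.exists_inv hs
  refine ⟨z * p.eval c, ?_⟩
  have h1 : ev t p - algebraMap (𝓞 F) (𝓞 L) (p.eval c) ∈ 𝔓.asIdeal := by
    have e1 : algebraMap (𝓞 F) (𝓞 L) (p.eval c) = ev (algebraMap (𝓞 F) (𝓞 L) c) p := by
      unfold ev
      rw [coe_eval₂RingHom, eval₂_at_apply]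
    rw [e1]
    unfold ev
    rw [coe_eval₂RingHom, coe_eval₂RingHom, eval₂_eq_eval_map, eval₂_eq_eval_map]
    exact Ideal.mem_of_dvd _ (sub_dvd_eval_sub _ _ _) hc
  rw [hsp] at h1
  have e : y - algebraMap (𝓞 F) (𝓞 L) (z * p.eval c) =
      algebraMap (𝓞 F) (𝓞 L) z * (algebraMap (𝓞 F) (𝓞 L) s * y -
        algebraMap (𝓞 F) (𝓞 L) (p.eval c)) + algebraMap (𝓞 F) (𝓞 L) i * y := by
    have e := congrArg (fun a => algebraMap (𝓞 F) (𝓞 L) a) hzi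
    simp only [map_add, map_mul, map_one] at e
    rw [map_mul]
    linear_combination (-y) * e
  rw [e]
  exact 𝔓.asIdeal.add_mem (𝔓.asIdeal.mul_mem_left _ h1) (𝔓.asIdeal.mul_mem_right _ (hov i hi))

/-- The primes which divide `f'(θ)`. -/
theorem ram (hG : IsGen g f θ) {𝔭 : Ideal (𝓞 F)} (h𝔭 : 𝔭.IsPrime) (h𝔭0 : 𝔭 ≠ ⊥)
    (hsq : dsc g f ∉ 𝔭 ^ 2) {𝔓₀ : HeightOneSpectrum (𝓞 L)} (hOv : Ov 𝔭 𝔓₀)
    (hlt : 𝔓₀.valuation L (aeval θ (derivative (fF f))) < 1) :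
    (∃ c : 𝓞 F, 𝔓₀.valuation L (θ - algebraMap F L (c : F)) < 1) ∧
    ∀ 𝔓 : HeightOneSpectrum (𝓞 L), Ov 𝔭 𝔓 → 𝔓 ≠ 𝔓₀ →
      𝔓.valuation L (aeval θ (derivative (fF f))) = 1 := by
  have hd : dsc g f ≠ 0 := dsc_ne hG
  obtain ⟨d, hd1, hd2⟩ := Pool.Agent.N459.PF.rel hG hd
  obtain ⟨θ', hθ'⟩ : ∃ θ' : 𝓞 L, algebraMap (𝓞 L) L θ' = θ := ⟨⟨θ, Pool.Agent.N459.PF.theta_int hG⟩, rfl⟩
  haveI h𝔭m : 𝔭.IsMaximal := h𝔭.isMaximal h𝔭0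
  have hlo : ∀ 𝔓 : HeightOneSpectrum (𝓞 L), Ov 𝔭 𝔓 → 𝔓.asIdeal.LiesOver 𝔭 := by
    intro 𝔓 h
    refine ⟨?_⟩
    refine h𝔭m.eq_of_le ?_ fun a ha => h a ha
    exact (Ideal.IsPrime.under (𝓞 F) 𝔓.asIdeal).ne_top
  have hrn : ∀ 𝔓 : HeightOneSpectrum (𝓞 L), Ov 𝔭 𝔓 →
      Ideal.relNorm (𝓞 F) 𝔓.asIdeal = 𝔭 ^ 𝔓.asIdeal.inertiaDeg (𝓞 F) ∧
        0 < 𝔓.asIdeal.inertiaDeg (𝓞 F) := by
    intro 𝔓 h
    haveI := hlo 𝔓 h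
    haveI := 𝔓.isMaximal
    exact ⟨Ideal.relNorm_eq_pow_of_isMaximal 𝔓.asIdeal 𝔭, Ideal.inertiaDeg_pos _ _⟩
  have hmem : ∀ 𝔓 : HeightOneSpectrum (𝓞 L),
      𝔓.valuation L (aeval θ (derivative (fF f))) < 1 ↔ d ∈ 𝔓.asIdeal := by
    intro 𝔓
    rw [← hd1, HeightOneSpectrum.valuation_lt_one_iff_mem]
  have hnot : ∀ (I : Ideal (𝓞 L)) (k : ℕ), d ∈ I → 2 ≤ k → Ideal.relNorm (𝓞 F) I = 𝔭 ^ k →
      False := by
    intro I k h1 h2 h3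
    have h4 : Ideal.relNorm (𝓞 F) (Ideal.span {d}) ≤ Ideal.relNorm (𝓞 F) I :=
      Ideal.relNorm_mono _ ((Ideal.span_singleton_le_iff_mem _).2 h1)
    rw [hd2, h3] at h4
    exact hsq (Ideal.pow_le_pow_right h2 ((Ideal.span_singleton_le_iff_mem _).1 h4))
  have hd0 : d ∈ 𝔓₀.asIdeal := (hmem 𝔓₀).1 hlt
  obtain ⟨hr0, hp0⟩ := hrn 𝔓₀ hOv
  constructor
  · have hf1 : 𝔓₀.asIdeal.inertiaDeg (𝓞 F) = 1 := by
      by_contra hne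
      exact hnot _ _ hd0 (by omega) hr0
    haveI := hlo 𝔓₀ hOv
    haveI := 𝔓₀.isMaximal
    rw [Ideal.inertiaDeg_eq_of_isMaximal 𝔭] at hf1
    letI : Field (𝓞 F ⧸ 𝔭) := Ideal.Quotient.field 𝔭
    obtain ⟨c, hc⟩ := (Subalgebra.bot_eq_top_of_finrank_eq_one hf1).symm ▸
      (Algebra.mem_top : (Ideal.Quotient.mk 𝔓₀.asIdeal θ') ∈
        (⊤ : Subalgebra (𝓞 F ⧸ 𝔭) (𝓞 L ⧸ 𝔓₀.asIdeal)))
    obtain ⟨c, rfl⟩ := Ideal.Quotient.mk_surjective c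
    refine ⟨c, ?_⟩
    have h5 : Ideal.Quotient.mk 𝔓₀.asIdeal (algebraMap (𝓞 F) (𝓞 L) c) =
        Ideal.Quotient.mk 𝔓₀.asIdeal θ' := hc
    have h6 : θ' - algebraMap (𝓞 F) (𝓞 L) c ∈ 𝔓₀.asIdeal := by
      rw [← Ideal.Quotient.eq]
      exact h5.symm
    have h7 : θ - algebraMap F L (c : F) = algebraMap (𝓞 L) L (θ' - algebraMap (𝓞 F) (𝓞 L) c) := by
      rw [map_sub, hθ']
      rfl
    rw [h7, HeightOneSpectrum.valuation_lt_one_iff_mem]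
    exact h6
  · intro 𝔓 h1 h2
    refine le_antisymm ?_ (not_lt.1 fun h3 => ?_)
    · rw [← hd1]
      exact 𝔓.valuation_le_one _
    · have h4 : d ∈ 𝔓.asIdeal := (hmem 𝔓).1 h3
      obtain ⟨hr1, hp1⟩ := hrn 𝔓 h1
      refine hnot (𝔓.asIdeal * 𝔓₀.asIdeal)
        (𝔓.asIdeal.inertiaDeg (𝓞 F) + 𝔓₀.asIdeal.inertiaDeg (𝓞 F)) ?_ (by omega) ?_
      · haveI := 𝔓.isMaximal
        haveI := 𝔓₀.isMaximal
        have h5 : IsCoprime 𝔓.asIdeal 𝔓₀.asIdeal := by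
          rw [Ideal.isCoprime_iff_sup_eq]
          exact Ideal.IsMaximal.coprime_of_ne 𝔓.isMaximal 𝔓₀.isMaximal
            fun h => h2 (HeightOneSpectrum.ext h)
        rw [← Ideal.inf_eq_mul_of_isCoprime h5]
        exact ⟨h4, hd0⟩
      · rw [map_mul, hr1, hr0, pow_add]

/-- **PAR.** -/
theorem par (h0 : IsGen g f θ) {𝔭 : Ideal (𝓞 F)} (hp : 𝔭.IsPrime) (hp0 : 𝔭 ≠ ⊥)
    (hsq : dsc g f ∉ 𝔭 ^ 2) {𝔓₀ : HeightOneSpectrum (𝓞 L)} {c : 𝓞 F} (hov : Ov 𝔭 𝔓₀)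
    (hθ : 𝔓₀.valuation L (θ - algebraMap F L (c : F)) < 1) {x : L} (hx : x ≠ 0)
    (hnx : IsSquare (Algebra.norm F x))
    (hoth : ∀ 𝔓 : HeightOneSpectrum (𝓞 L), Ov 𝔭 𝔓 → 𝔓 ≠ 𝔓₀ → Ev 𝔓 x) : Ev 𝔓₀ x := by
  have h := toG h0
  obtain ⟨t, ht⟩ := theta_ex h0
  have hfin : Module.Finite (𝓞 F) (𝓞 L) := finO h0
  have htf : Module.IsTorsionFree (𝓞 F) (𝓞 L) := tf_O (K := F) (L := L)
  have hfd := fd h
  have hpf := perf (F := F)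
  have hc : t - algebraMap (𝓞 F) (𝓞 L) c ∈ 𝔓₀.asIdeal := by
    rw [← 𝔓₀.valuation_lt_one_iff_mem (K := L)]
    change 𝔓₀.valuation L (algebraMap (𝓞 L) L (t - algebraMap (𝓞 F) (𝓞 L) c)) < 1
    rw [map_sub, ht]
    exact hθ
  have h1 := cn_deg_one hp hp0 hov (exists_res h0 hp hp0 hsq ht hov hc)
  exact parity hp hp0 𝔓₀ (by rw [h1]; exact odd_one) hx hnx
    fun 𝔓 ho hne => Or.inl (hoth 𝔓 ho hne)

/-- **PIN.** -/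
theorem pin (h0 : IsGen g f θ) {𝔭 : Ideal (𝓞 F)} (hp : 𝔭.IsPrime) (hp0 : 𝔭 ≠ ⊥)
    (hf : Irreducible (rd 𝔭 f)) {x : L} (hx : x ≠ 0)
    (hnx : IsSquare (Algebra.norm F x)) {𝔓 : HeightOneSpectrum (𝓞 L)} (hov : Ov 𝔭 𝔓) :
    Ev 𝔓 x := by
  have h := toG h0
  obtain ⟨t, ht⟩ := theta_ex h0
  have hfin : Module.Finite (𝓞 F) (𝓞 L) := finO h0
  have htf : Module.IsTorsionFree (𝓞 F) (𝓞 L) := tf_O (K := F) (L := L)
  have hfd := fd h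
  have hI := map_ne (L := L) hp0
  have hsum := cn_map h0 hp hp0
  rw [cn_sum _ hI] at hsum
  have hterm : ∀ 𝔔 : HeightOneSpectrum (𝓞 L), Ov 𝔭 𝔔 →
      𝔔.asIdeal ∈ (normalizedFactors (𝔭.map (algebraMap (𝓞 F) (𝓞 L)))).toFinset ∧
      cn (𝓞 F) 𝔭 𝔔.asIdeal ≤ (normalizedFactors (𝔭.map (algebraMap (𝓞 F) (𝓞 L)))).count
        𝔔.asIdeal * cn (𝓞 F) 𝔭 𝔔.asIdeal := by
    intro 𝔔 h𝔔
    have h1 := (mem_nf hI 𝔔).2 h𝔔
    refine ⟨Multiset.mem_toFinset.2 h1, ?_⟩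
    exact Nat.le_mul_of_pos_left _ (Multiset.count_pos.2 h1)
  have hle : ∀ 𝔔 : HeightOneSpectrum (𝓞 L), Ov 𝔭 𝔔 → cn (𝓞 F) 𝔭 𝔔.asIdeal = 2 * g + 1 := by
    intro 𝔔 h𝔔
    obtain ⟨h1, h2⟩ := hterm 𝔔 h𝔔
    have h3 := Finset.single_le_sum (f := fun J => (normalizedFactors (𝔭.map
      (algebraMap (𝓞 F) (𝓞 L)))).count J * cn (𝓞 F) 𝔭 J) (fun i _ => Nat.zero_le _) h1
    rw [hsum] at h3
    have h4 := cn_irr h0 ht hp hp0 hf h𝔔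
    omega
  refine parity hp hp0 𝔓 (by rw [hle 𝔓 hov]; exact ⟨g, rfl⟩) hx hnx fun 𝔔 ho hne => ?_
  exfalso
  obtain ⟨h1, h2⟩ := hterm 𝔓 hov
  obtain ⟨h3, h4⟩ := hterm 𝔔 ho
  have hne' : 𝔔.asIdeal ≠ 𝔓.asIdeal := fun h' => hne (HeightOneSpectrum.ext h')
  have h5 : ∑ J ∈ {𝔔.asIdeal, 𝔓.asIdeal}, (normalizedFactors (𝔭.map
      (algebraMap (𝓞 F) (𝓞 L)))).count J * cn (𝓞 F) 𝔭 J ≤
      ∑ J ∈ (normalizedFactors (𝔭.map (algebraMap (𝓞 F) (𝓞 L)))).toFinset, (normalizedFactors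
        (𝔭.map (algebraMap (𝓞 F) (𝓞 L)))).count J * cn (𝓞 F) 𝔭 J := by
    refine Finset.sum_le_sum_of_subset ?_
    intro J hJ
    rw [Finset.mem_insert, Finset.mem_singleton] at hJ
    rcases hJ with rfl | rfl
    · exact h3
    · exact h1
  rw [Finset.sum_pair hne', hsum] at h5
  rw [hle 𝔓 hov] at h2 h5
  rw [hle 𝔔 ho] at h4 h5
  omega

/-- **PARQ.** -/
theorem parq {W : ℕ} {S : Finset ℕ} {𝔮 : ℕ → Ideal (𝓞 F)} {hh P : ℕ → (𝓞 F)[X]} (hg : 1 ≤ g)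
    (h0 : IsGen g f θ) (hS : GoodS g W S 𝔮 hh P) {q : ℕ} (hQS : q ∈ S)
    (hCg : Cg (𝔮 q) f (X * hh q)) {x : L} (hx : x ≠ 0) (hnx : IsSquare (Algebra.norm F x))
    {𝔓 : HeightOneSpectrum (𝓞 L)} (hov : Ov (𝔮 q) 𝔓) (hθ : 𝔓.valuation L θ < 1) : Ev 𝔓 x := by
  have h := toG h0
  have hsq := (dsc_q hg h0.mon h0.deg hS hQS hCg).2
  obtain ⟨t, ht⟩ := theta_ex h0
  have hfin : Module.Finite (𝓞 F) (𝓞 L) := finO h0
  have htf : Module.IsTorsionFree (𝓞 F) (𝓞 L) := tf_O (K := F) (L := L)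
  have hfd := fd h
  have hpf := perf (F := F)
  obtain ⟨𝔓₁, 𝔓₂, ov1, ov2, hv1, hv2, hQ1, hQ2, hall⟩ :=
    exq g W F L f θ S 𝔮 hh P hg h0 hS q hQS hCg
  obtain ⟨hqp, -, -, -, -, hp, hqm, -⟩ := hS q hQS
  have hq0 : (q : 𝓞 F) ≠ 0 := Nat.cast_ne_zero.2 hqp.ne_zero
  have hp0 : 𝔮 q ≠ ⊥ := by
    intro h'
    rw [h', Ideal.mem_bot] at hqm
    exact hq0 hqm
  have h𝔓 : 𝔓 = 𝔓₁ := by
    rcases hall 𝔓 hov with h' | h'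
    · exact h'
    · rw [h', hv2] at hθ
      exact absurd hθ (lt_irrefl _)
  have hne : 𝔓₁ ≠ 𝔓₂ := by
    intro h'
    rw [h', hv2] at hv1
    exact absurd hv1 (lt_irrefl _)
  obtain ⟨hc1, hc2, hset⟩ := fac hp0 hqm hqp.ne_zero hne ov1 ov2 hQ1 hQ2 hall
  have ht1 : t - algebraMap (𝓞 F) (𝓞 L) 0 ∈ 𝔓₁.asIdeal := by
    rw [map_zero, sub_zero, ← 𝔓₁.valuation_lt_one_iff_mem (K := L)]
    change 𝔓₁.valuation L (algebraMap (𝓞 L) L t) < 1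
    rw [ht]
    exact hv1
  have h1 := cn_deg_one hp hp0 ov1 (exists_res h0 hp hp0 hsq ht ov1 ht1)
  have hsum := cn_map h0 hp hp0
  rw [cn_sum _ (map_ne (L := L) hp0), hset,
    Finset.sum_pair (fun h' => hne (HeightOneSpectrum.ext h')), hc1, hc2, h1] at hsum
  have h2 : cn (𝓞 F) (𝔮 q) 𝔓₂.asIdeal = 2 * g := by omega
  rw [h𝔓]
  refine parity hp hp0 𝔓₁ (by rw [h1]; exact odd_one) hx hnx fun 𝔓' ho hne' => Or.inr ?_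
  rcases hall 𝔓' ho with h' | h'
  · exact absurd h' hne'
  · rw [h', h2]
    exact even_two_mul g

end Pool.Agent.H459.UT
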