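import Pool.Agent.H459.UT.Ll

/-!
# The self-dual lattice and its distinguished vectors (helper459)
-/

set_option autoImplicit false
set_option linter.all false

open Polynomial IsDedekindDomain Matrix NumberField WithZero
open scoped Classical

namespace Pool.Agent.H459.UT

open Pool.Agent.N783.PF
open Pool.Agent.N352.PJ (Mt Typ dd)
open Pool.Agent.N874.PP (Ev Sq1 U0)
open Pool.Agent.N783.PQ (tp Gm)
open Pool.Agent.N862.PF (top_pow theta_int theta_ex int_iff dvd_of_sqf)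
open Pool.Agent.N747.PF (denw)
open Pool.Agent.N783.PF.R2 (top_aeval)
open Pool.Agent.N73.PF (ev ev_C)

variable {F L : Type} [Field F] [NumberField F] [Field L] [NumberField L] [Algebra F L]
  {g : ℕ} {f : (𝓞 F)[X]} {θ : L}

/-- **SD.** -/
theorem sd (hG : IsGen g f θ) (Bw : HeightOneSpectrum (𝓞 F) → Prop) (hfin : {w | Bw w}.Finite)
    (hB : ∀ w, ¬ Bw w → dsc g f ∉ w.asIdeal ^ 2) {α : L} (hα : α ≠ 0)
    (hev : ∀ 𝔓 : HeightOneSpectrum (𝓞 L), (∀ w, Bw w → ¬ Ov w.asIdeal 𝔓) → Ev 𝔓 α)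
    (hbad : ∀ w, Bw w → ∃ (G : Mt g (w.adicCompletion F))
      (lam : L → Fin (2 * g + 1) → w.adicCompletion F), UG G ∧ LL hG w α G lam) :
    ∃ C : HeightOneSpectrum (𝓞 F) → L → Prop, LocC hG α C ∧
      ∀ w, ¬ Bw w → ∀ x, C w x ↔ Cgd α w x := by
  have hex : ∀ w, ∃ (G : Mt g (w.adicCompletion F))
      (lam : L → Fin (2 * g + 1) → w.adicCompletion F), Bw w → (UG G ∧ LL hG w α G lam) := by
    intro w
    by_cases h : Bw w
    · obtain ⟨G, lam, h1⟩ := hbad w h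
      exact ⟨G, lam, fun _ => h1⟩
    · exact ⟨0, 0, fun h' => absurd h' h⟩
  choose G lam hH using hex
  have hev' : ∀ w, ¬ Bw w → ∀ 𝔓 : HeightOneSpectrum (𝓞 L), Ov w.asIdeal 𝔓 → Ev 𝔓 α := by
    intro w hw 𝔓 h𝔓
    refine hev 𝔓 fun w' hw' ho => hw ?_
    have e1 : Pool.Agent.H459.UF.below F 𝔓 = w := Pool.Agent.H459.UF.eq_below h𝔓
    have e2 : Pool.Agent.H459.UF.below F 𝔓 = w' := Pool.Agent.H459.UF.eq_below ho
    rwa [← e1, e2]
  refine ⟨fun w x => (¬ Bw w → Cgd α w x) ∧ (Bw w → ∀ i, Valued.v (lam w x i) ≤ 1), ?_, ?_⟩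
  · constructor
    · intro w x y hx hy
      refine ⟨fun h => cgd_add (hx.1 h) (hy.1 h), fun h i => ?_⟩
      rw [(hH w h).2.add, Pi.add_apply]
      exact Valuation.map_add_le _ (hx.2 h i) (hy.2 h i)
    · intro w a x ha hx
      refine ⟨fun h => cgd_smul ha (hx.1 h), fun h i => ?_⟩
      rw [(hH w h).2.smul, Pi.smul_apply, smul_eq_mul, map_mul, Pool.Agent.N591.PF.vx]
      exact mul_le_one' ha (hx.2 h i)
    · intro x
      obtain ⟨N₀, hN₀, hC₀⟩ := cgd_den (F := F) α x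
      have h1 : ∀ w : HeightOneSpectrum (𝓞 F), ∃ N : 𝓞 F, N ≠ 0 ∧ (Bw w → ∀ i,
          Valued.v (algebraMap F (w.adicCompletion F) (N : F) * lam w x i) ≤ 1) := by
        intro w
        by_cases h : Bw w
        · obtain ⟨n, hn⟩ : ∃ n : ℕ, ∀ i, Valued.v (lam w x i) ≤ WithZero.exp (n : ℤ) := by
            have h4 : ∀ i, ∃ n : ℕ, Valued.v (lam w x i) ≤ WithZero.exp (n : ℤ) := by
              intro i
              by_cases h0 : Valued.v (lam w x i) = (0 : WithZero (Multiplicative ℤ))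
              · exact ⟨0, by rw [h0]; exact zero_le⟩
              · refine ⟨(WithZero.log (Valued.v (lam w x i))).toNat, ?_⟩
                conv_lhs => rw [← WithZero.exp_log h0]
                rw [WithZero.exp_le_exp]
                exact Int.self_le_toNat _
            choose n hn using h4
            refine ⟨∑ i, n i, fun i => (hn i).trans ?_⟩
            rw [WithZero.exp_le_exp]
            exact_mod_cast Finset.single_le_sum (f := n) (fun _ _ => Nat.zero_le _)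
              (Finset.mem_univ i)
          obtain ⟨a, ha, ha0⟩ := Submodule.exists_mem_ne_zero_of_ne_bot
            (pow_ne_zero n w.ne_bot : w.asIdeal ^ n ≠ ⊥)
          refine ⟨a, ha0, fun _ i => ?_⟩
          rw [map_mul, Pool.Agent.N591.PF.vx]
          have h5 : w.valuation F (a : F) ≤ WithZero.exp (-(n : ℤ)) := by
            rw [w.valuation_of_algebraMap, HeightOneSpectrum.intValuation_le_pow_iff_mem]
            exact ha
          refine (mul_le_mul' h5 (hn i)).trans ?_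
          rw [← WithZero.exp_add, neg_add_cancel, WithZero.exp_zero]
        · exact ⟨1, one_ne_zero, fun h' => absurd h' h⟩
      choose N hN hC using h1
      refine ⟨N₀ * ∏ w ∈ hfin.toFinset, N w, mul_ne_zero hN₀ (Finset.prod_ne_zero_iff.2
        fun w _ => hN w), fun w => ⟨fun h => ?_, fun h i => ?_⟩⟩
      · have e : algebraMap F L ((N₀ * ∏ w ∈ hfin.toFinset, N w : 𝓞 F) : F) * x =
            algebraMap F L ((∏ w ∈ hfin.toFinset, N w : 𝓞 F) : F) *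
              (algebraMap F L (N₀ : F) * x) := by
          have e1 : ((N₀ * ∏ w ∈ hfin.toFinset, N w : 𝓞 F) : F) = (N₀ : F) *
            ((∏ w ∈ hfin.toFinset, N w : 𝓞 F) : F) := map_mul (algebraMap (𝓞 F) F) _ _
          rw [e1, map_mul]
          ring
        rw [e]
        exact cgd_smul (w.valuation_le_one _) (hC₀ w)
      · have hmem : w ∈ hfin.toFinset := hfin.mem_toFinset.2 h
        rw [(hH w h).2.smul, Pi.smul_apply, smul_eq_mul]
        have e1 : ((N₀ * ∏ w ∈ hfin.toFinset, N w : 𝓞 F) : F) =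
            ((N₀ * ∏ w' ∈ hfin.toFinset.erase w, N w' : 𝓞 F) : F) * (N w : F) := by
          rw [← Finset.mul_prod_erase _ _ hmem]
          have : (N₀ * (N w * ∏ w' ∈ hfin.toFinset.erase w, N w')) =
            (N₀ * ∏ w' ∈ hfin.toFinset.erase w, N w') * N w := by ring
          rw [this]
          exact map_mul (algebraMap (𝓞 F) F) _ _
        have e2 : algebraMap F (w.adicCompletion F)
            (((N₀ * ∏ w' ∈ hfin.toFinset.erase w, N w' : 𝓞 F) : F) * (N w : F)) * lam w x i =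
            algebraMap F (w.adicCompletion F)
              ((N₀ * ∏ w' ∈ hfin.toFinset.erase w, N w' : 𝓞 F) : F) *
              (algebraMap F (w.adicCompletion F) (N w : F) * lam w x i) := by
          rw [map_mul, mul_assoc]
        rw [e1, e2, map_mul Valued.v, Pool.Agent.N591.PF.vx]
        exact mul_le_one' (w.valuation_le_one _) (hC w h i)
    · intro w x hx
      refine ⟨fun h => cgd_mul (hx.1 h) fun 𝔓 _ => val_theta' hG 𝔓, fun h => ?_⟩
      exact (hH w h).2.stab x (hx.2 h)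
    · intro w x y hx hy
      by_cases h : Bw w
      · exact (hH w h).2.int (hH w h).1 (hx.2 h) (hy.2 h)
      · exact cgd_int hG (hB w h) (hx.1 h) (hy.1 h)
    · intro w y hy
      refine ⟨fun h => cgd_dual hG hα (hev' w h) fun x hx => hy x ⟨fun _ => hx, fun h' =>
        absurd h' h⟩, fun h => ?_⟩
      exact (hH w h).2.dual hα (hH w h).1 fun x hx => hy x ⟨fun h' => absurd h h', fun _ => hx⟩
  · intro w hw x
    exact ⟨fun h => h.1 hw, fun h => ⟨fun _ => h, fun h' => absurd h' hw⟩⟩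

/-- weak approximation -/
theorem approx_w (T : Finset (HeightOneSpectrum (𝓞 L))) (s : HeightOneSpectrum (𝓞 L) → L)
    (hs : ∀ 𝔓 ∈ T, s 𝔓 ≠ 0) : ∃ y : L, ∀ 𝔓 ∈ T, 𝔓.valuation L (y - s 𝔓) < 𝔓.valuation L (s 𝔓) := by
  obtain ⟨b, hb⟩ := IsLocalization.exist_integer_multiples_of_finset (nonZeroDivisors (𝓞 L))
    (T.image s)
  have hb0 : algebraMap (𝓞 L) L (b : 𝓞 L) ≠ 0 :=
    IsLocalization.to_map_ne_zero_of_mem_nonZeroDivisors L le_rfl b.2
  have h1 : ∀ 𝔓 : HeightOneSpectrum (𝓞 L), ∃ a : 𝓞 L, 𝔓 ∈ T →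
      algebraMap (𝓞 L) L a = algebraMap (𝓞 L) L (b : 𝓞 L) * s 𝔓 := by
    intro 𝔓
    by_cases h : 𝔓 ∈ T
    · obtain ⟨a, ha⟩ := hb (s 𝔓) (Finset.mem_image_of_mem s h)
      refine ⟨a, fun _ => ?_⟩
      rw [ha, Algebra.smul_def]
    · exact ⟨0, fun h' => absurd h' h⟩
  choose a ha using h1
  have hn : ∀ 𝔓 : HeightOneSpectrum (𝓞 L), ∃ n : ℕ, 𝔓 ∈ T →
      WithZero.exp (-(n : ℤ)) < 𝔓.valuation L (algebraMap (𝓞 L) L (a 𝔓)) := by
    intro 𝔓
    by_cases h : 𝔓 ∈ T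
    · have h0 : 𝔓.valuation L (algebraMap (𝓞 L) L (a 𝔓)) ≠ 0 := by
        rw [Valuation.ne_zero_iff, ha 𝔓 h]
        exact mul_ne_zero hb0 (hs 𝔓 h)
      refine ⟨(-(WithZero.log (𝔓.valuation L (algebraMap (𝓞 L) L (a 𝔓))))).toNat + 1, fun _ => ?_⟩
      conv_rhs => rw [← WithZero.exp_log h0]
      rw [WithZero.exp_lt_exp]
      have := Int.self_le_toNat (-(WithZero.log (𝔓.valuation L (algebraMap (𝓞 L) L (a 𝔓)))))
      push_cast
      linarith
    · exact ⟨0, fun h' => absurd h' h⟩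
  choose n hn using hn
  obtain ⟨N, hN⟩ : ∃ N : ℕ, ∀ 𝔓 ∈ T, n 𝔓 ≤ N :=
    ⟨∑ 𝔓 ∈ T, n 𝔓, fun 𝔓 h => Finset.single_le_sum (f := n) (fun _ _ => Nat.zero_le _) h⟩
  obtain ⟨y, hy⟩ := IsDedekindDomain.exists_forall_sub_mem_ideal (s := T)
    (fun 𝔓 : HeightOneSpectrum (𝓞 L) => 𝔓.asIdeal) (fun _ => N) (fun 𝔓 _ => 𝔓.prime)
    (fun 𝔓 _ 𝔓' _ hne h => hne (HeightOneSpectrum.ext h)) (fun 𝔓 => a 𝔓)
  refine ⟨algebraMap (𝓞 L) L y / algebraMap (𝓞 L) L (b : 𝓞 L), fun 𝔓 h𝔓 => ?_⟩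
  have h2 : 𝔓.valuation L (algebraMap (𝓞 L) L (y - a 𝔓)) ≤ WithZero.exp (-(N : ℤ)) := by
    rw [𝔓.valuation_of_algebraMap, HeightOneSpectrum.intValuation_le_pow_iff_mem]
    exact hy 𝔓 h𝔓
  have h3 : 𝔓.valuation L (algebraMap (𝓞 L) L (y - a 𝔓)) <
      𝔓.valuation L (algebraMap (𝓞 L) L (a 𝔓)) := by
    refine h2.trans_lt (lt_of_le_of_lt ?_ (hn 𝔓 h𝔓))
    rw [WithZero.exp_le_exp]
    have := hN 𝔓 h𝔓
    omega
  have e1 : algebraMap (𝓞 L) L y / algebraMap (𝓞 L) L (b : 𝓞 L) - s 𝔓 =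
      algebraMap (𝓞 L) L (y - a 𝔓) / algebraMap (𝓞 L) L (b : 𝓞 L) := by
    rw [map_sub, ha 𝔓 h𝔓]
    field_simp
  have e2 : s 𝔓 = algebraMap (𝓞 L) L (a 𝔓) / algebraMap (𝓞 L) L (b : 𝓞 L) := by
    rw [ha 𝔓 h𝔓]
    field_simp
  have e3 : 𝔓.valuation L (s 𝔓) = 𝔓.valuation L (algebraMap (𝓞 L) L (a 𝔓) /
    algebraMap (𝓞 L) L (b : 𝓞 L)) := congrArg _ e2
  rw [e1, e3, map_div₀, map_div₀]
  exact div_lt_div_of_pos_right h3 (zero_lt_iff.2 ((Valuation.ne_zero_iff _).2 hb0))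

/-- an integer in all primes over `w` -/
theorem key (hG : IsGen g f θ) {w : HeightOneSpectrum (𝓞 F)} (hsq : dsc g f ∉ w.asIdeal ^ 2)
    (hsep : (rd w.asIdeal f).Separable) {z : L}
    (hz : ∀ 𝔓 : HeightOneSpectrum (𝓞 L), Ov w.asIdeal 𝔓 → 𝔓.valuation L z < 1) (k : ℕ) :
    w.valuation F (hG.top (θ ^ k * z)) < 1 := by
  obtain ⟨t, ht⟩ := theta_ex hG
  obtain ⟨m, hm, z', hz'⟩ := denw w z fun 𝔓 h => (hz 𝔓 h).le
  obtain ⟨s, p, hs, hp, hdeg⟩ := ev_at hG w.isPrime w.ne_bot hsq ht z'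
  haveI := w.isPrime
  haveI hmax : w.asIdeal.IsMaximal := w.isMaximal
  letI : Field (𝓞 F ⧸ w.asIdeal) := Ideal.Quotient.field w.asIdeal
  have hmon : (rd w.asIdeal f).Monic := hG.mon.map _
  have hz1 : ∀ 𝔓 : HeightOneSpectrum (𝓞 L), Ov w.asIdeal 𝔓 → z' ∈ 𝔓.asIdeal := by
    intro 𝔓 h𝔓
    rw [← HeightOneSpectrum.valuation_lt_one_iff_mem (K := L)]
    show 𝔓.valuation L (algebraMap (𝓞 L) L z') < 1
    rw [hz', map_mul]
    exact lt_of_le_of_lt (mul_le_mul' (val_F h𝔓 (w.valuation_le_one m)) le_rfl)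
      (by rw [one_mul]; exact hz 𝔓 h𝔓)
  have h1 : rd w.asIdeal f ∣ rd w.asIdeal p := by
    refine dvd_of_sqf hmon.ne_zero hsep.squarefree fun r hr hrf => ?_
    obtain ⟨ψ, hψ⟩ := ex_psi hG w.isPrime w.ne_bot hsq ht r hrf
    haveI i2 : Fact (Irreducible r) := ⟨hr⟩
    have hq1 : ∀ a ∈ w.asIdeal, algebraMap (𝓞 F) (𝓞 L) a ∈ RingHom.ker ψ := by
      intro a ha
      rw [RingHom.mem_ker, ← ev_C t a, hψ]
      have e : rd w.asIdeal (C a) = 0 := by
        rw [rd, Polynomial.map_C, Ideal.Quotient.eq_zero_iff_mem.2 ha, map_zero]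
      rw [e, map_zero]
    have hne : RingHom.ker ψ ≠ ⊥ := by
      intro h0
      obtain ⟨a, ha, ha0⟩ := Submodule.exists_mem_ne_zero_of_ne_bot w.ne_bot
      have h1 := hq1 a ha
      rw [h0, Ideal.mem_bot] at h1
      exact ha0 ((map_eq_zero_iff _ (FaithfulSMul.algebraMap_injective (𝓞 F) (𝓞 L))).1 h1)
    have h2 := hz1 ⟨RingHom.ker ψ, RingHom.ker_isPrime ψ, hne⟩ hq1
    have h3 : ψ z' = 0 := h2
    have h4 : ψ (ev t p) = 0 := by rw [hp, map_mul, h3, mul_zero]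
    rw [hψ, AdjoinRoot.mk_eq_zero] at h4
    exact h4
  have h2 : rd w.asIdeal p = 0 := by
    by_contra hne
    have h2 := degree_le_of_dvd h1 hne
    rw [degree_eq_natDegree hmon.ne_zero, rd, hG.mon.natDegree_map, hG.deg] at h2
    exact absurd (h2.trans degree_map_le) (not_le.2 hdeg)
  have hcoef : ∀ i, p.coeff i ∈ w.asIdeal := by
    intro i
    have h1 := congrArg (fun r => coeff r i) h2
    simp only [coeff_map, coeff_zero] at h1
    exact Ideal.Quotient.eq_zero_iff_mem.1 h1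
  -- the value
  have h3 : algebraMap F L ((s : F) * (m : F)) * z = aeval θ (fF p) := by
    have h4 := congrArg (algebraMap (𝓞 L) L) hp
    rw [map_mul, hz'] at h4
    have h5 : algebraMap (𝓞 L) L (ev t p) = aeval θ (fF p) := by
      have e1 : ev t p = aeval t p := rfl
      rw [e1, ← aeval_algebraMap_apply, ht, fF, aeval_map_algebraMap]
    have h6 : algebraMap (𝓞 L) L (algebraMap (𝓞 F) (𝓞 L) s) = algebraMap F L (s : F) := by
      rw [← IsScalarTower.algebraMap_apply]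
      exact IsScalarTower.algebraMap_apply (𝓞 F) F L s
    rw [h5, h6] at h4
    rw [h4, map_mul]
    ring
  have h4 : ((s : F) * (m : F)) * hG.top (θ ^ k * z) =
      ∑ i ∈ Finset.range (p.natDegree + 1), (p.coeff i : F) * hG.top (θ ^ (k + i)) := by
    have e1 : ((s : F) * (m : F)) * hG.top (θ ^ k * z) =
        hG.top (θ ^ k * (algebraMap F L ((s : F) * (m : F)) * z)) := by
      rw [← smul_eq_mul, ← map_smul, Algebra.smul_def]
      congr 1
      ring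
    rw [e1, h3, fF, aeval_map_algebraMap, aeval_eq_sum_range, Finset.mul_sum, map_sum]
    refine Finset.sum_congr rfl fun i _ => ?_
    rw [← smul_eq_mul (p.coeff i : F), ← map_smul, Algebra.smul_def, Algebra.smul_def, pow_add,
      IsScalarTower.algebraMap_apply (𝓞 F) F L]
    congr 1
    ring
  have hm1 : w.valuation F (m : F) = 1 := by
    refine le_antisymm (w.valuation_le_one m) (not_lt.1 fun h5 => hm ?_)
    exact (w.valuation_lt_one_iff_mem m).1 h5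
  have hs1 : w.valuation F (s : F) = 1 := by
    refine le_antisymm (w.valuation_le_one s) (not_lt.1 fun h5 => hs ?_)
    exact (w.valuation_lt_one_iff_mem s).1 h5
  have h5 := congrArg (w.valuation F) h4
  rw [map_mul, map_mul, hm1, hs1, one_mul, one_mul] at h5
  rw [h5]
  refine Valuation.map_sum_lt _ one_ne_zero fun i _ => ?_
  rw [map_mul]
  have h6 : w.valuation F (p.coeff i : F) < 1 := (w.valuation_lt_one_iff_mem _).2 (hcoef i)
  exact lt_of_le_of_lt (mul_le_mul' le_rfl (top_val hG w _)) (by rw [mul_one]; exact h6)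

/-- **TV.** -/
theorem tv {hG : IsGen g f θ} {α : L} (hα : α ≠ 0) {C : HeightOneSpectrum (𝓞 F) → L → Prop}
    (H : LocC hG α C) {Λ : Submodule (𝓞 F) L} (hΛ : ∀ x, x ∈ Λ ↔ ∀ w, C w x)
    {w : HeightOneSpectrum (𝓞 F)} (hw : ∀ x, C w x ↔ Cgd α w x)
    (hsq : dsc g f ∉ w.asIdeal ^ 2) (hsep : (rd w.asIdeal f).Separable)
    (hS : ∀ 𝔓 : HeightOneSpectrum (𝓞 L), Ov w.asIdeal 𝔓 → Sq1 𝔓 α) :
    DVec hG α Λ w.asIdeal := by
  have hfin := Pool.Agent.N862.PF.fin_ov (L := L) w.ne_bot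
  have hex : ∀ 𝔓 : HeightOneSpectrum (𝓞 L), ∃ s : L, Ov w.asIdeal 𝔓 →
      𝔓.valuation L (α - s ^ 2) < 𝔓.valuation L α := by
    intro 𝔓
    by_cases h : Ov w.asIdeal 𝔓
    · obtain ⟨s, hs⟩ := hS 𝔓 h
      exact ⟨s, fun _ => hs⟩
    · exact ⟨0, fun h' => absurd h' h⟩
  choose s hs using hex
  have hvs : ∀ 𝔓 : HeightOneSpectrum (𝓞 L), Ov w.asIdeal 𝔓 →
      𝔓.valuation L (s 𝔓) ^ 2 = 𝔓.valuation L α := by
    intro 𝔓 h𝔓
    rw [← map_pow]
    have h1 : s 𝔓 ^ 2 = α - (α - s 𝔓 ^ 2) := by ring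
    rw [h1]
    exact Valuation.map_sub_eq_of_lt_left _ (hs 𝔓 h𝔓)
  have hvα : ∀ 𝔓 : HeightOneSpectrum (𝓞 L), 𝔓.valuation L α ≠ 0 := fun 𝔓 =>
    (Valuation.ne_zero_iff _).2 hα
  obtain ⟨y, hy⟩ := approx_w hfin.toFinset s fun 𝔓 h𝔓 h0 => by
    have h1 := hvs 𝔓 (hfin.mem_toFinset.1 h𝔓)
    rw [h0, map_zero, zero_pow two_ne_zero] at h1
    exact hvα 𝔓 h1.symm
  have hy' : ∀ 𝔓 : HeightOneSpectrum (𝓞 L), Ov w.asIdeal 𝔓 →
      𝔓.valuation L (y - s 𝔓) < 𝔓.valuation L (s 𝔓) := fun 𝔓 h𝔓 =>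
    hy 𝔓 (hfin.mem_toFinset.2 h𝔓)
  obtain ⟨z, hz⟩ : ∃ z : L, z = y ^ 2 / α - 1 := ⟨_, rfl⟩
  have hz1 : ∀ 𝔓 : HeightOneSpectrum (𝓞 L), Ov w.asIdeal 𝔓 → 𝔓.valuation L z < 1 := by
    intro 𝔓 h𝔓
    have e1 : z = (y ^ 2 - α) / α := by rw [hz]; field_simp
    rw [e1, map_div₀, div_lt_one₀ (zero_lt_iff.2 (hvα 𝔓))]
    have e2 : y ^ 2 - α = (y - s 𝔓) * ((y - s 𝔓) + (s 𝔓 + s 𝔓)) - (α - s 𝔓 ^ 2) := by ring
    rw [e2]
    refine Valuation.map_sub_lt _ ?_ (hs 𝔓 h𝔓)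
    rw [map_mul, ← hvs 𝔓 h𝔓, sq]
    have h1 : 𝔓.valuation L ((y - s 𝔓) + (s 𝔓 + s 𝔓)) ≤ 𝔓.valuation L (s 𝔓) :=
      Valuation.map_add_le _ (hy' 𝔓 h𝔓).le (Valuation.map_add_le _ le_rfl le_rfl)
    have h2 : 0 < 𝔓.valuation L (s 𝔓) := by
      rw [zero_lt_iff]
      intro h0
      have h2 := hvs 𝔓 h𝔓
      rw [h0, zero_pow two_ne_zero] at h2
      exact hvα 𝔓 h2.symm
    exact (mul_le_mul' le_rfl h1).trans_lt (mul_lt_mul_of_pos_right (hy' 𝔓 h𝔓) h2)
  obtain ⟨m, hm, hC⟩ := H.exm w y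
  have hCy : C w y := by
    rw [hw]
    intro 𝔓 h𝔓
    have e : y ^ 2 / α = z + 1 := by rw [hz]; ring
    rw [e]
    exact Valuation.map_add_le _ (hz1 𝔓 h𝔓).le (by rw [map_one])
  have hmem : algebraMap F L (m : F) * y ∈ Λ := by
    refine (hΛ _).2 fun w' => ?_
    by_cases h : w' = w
    · rw [h]
      exact H.smul w _ _ (w.valuation_le_one m) hCy
    · exact hC w' h
  have hpow : ∀ k : ℕ, θ ^ k * (algebraMap F L (m : F) * y) ∈ Λ := by
    intro k
    refine (hΛ _).2 fun w' => ?_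
    induction k with
    | zero =>
      rw [pow_zero, one_mul]
      exact (hΛ _).1 hmem w'
    | succ k ih =>
      rw [pow_succ', mul_assoc]
      exact H.stab w' _ ih
  refine ⟨_, hmem, m, hm, fun k hk => ?_⟩
  obtain ⟨b, hb⟩ := int_F fun w' => H.int w' _ _ ((hΛ _).1 (hpow k) w') ((hΛ _).1 hmem w')
  have e1 : θ ^ k * (algebraMap F L (m : F) * y) * (algebraMap F L (m : F) * y) / α =
      (m : F) ^ 2 • (θ ^ k + θ ^ k * z) := by
    rw [hz, Algebra.smul_def, map_pow]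
    field_simp
    ring
  have e2 : θ ^ k * (algebraMap F L (m : F) * y) ^ 2 / α =
      θ ^ k * (algebraMap F L (m : F) * y) * (algebraMap F L (m : F) * y) / α := by ring
  rw [e1, map_smul, map_add, smul_eq_mul, top_pow hG k hk] at hb
  have h5 := key hG hsq hsep hz1 k
  by_cases hk2 : k = 2 * g
  · rw [if_pos hk2] at hb ⊢
    refine ⟨b - m ^ 2, ?_, ?_⟩
    · rw [← w.valuation_lt_one_iff_mem (K := F)]
      show w.valuation F (algebraMap (𝓞 F) F (b - m ^ 2)) < 1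
      have e3 : algebraMap (𝓞 F) F (b - m ^ 2) = (m : F) ^ 2 * hG.top (θ ^ k * z) := by
        rw [map_sub, map_pow]
        have hb' : algebraMap (𝓞 F) F b = (m : F) ^ 2 * (1 + hG.top (θ ^ k * z)) := hb
        rw [hb']
        ring
      rw [e3, map_mul, map_pow]
      exact lt_of_le_of_lt (mul_le_mul' (pow_le_one' (w.valuation_le_one m) 2) le_rfl)
        (by rw [one_mul]; exact h5)
    · rw [e2, e1, map_smul, map_add, smul_eq_mul, top_pow hG k hk, if_pos hk2, ← hb]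
      exact map_sub (algebraMap (𝓞 F) F) b (m ^ 2) |>.trans (by rw [map_pow])
  · rw [if_neg hk2, zero_add] at hb
    rw [if_neg hk2]
    refine ⟨b, ?_, ?_⟩
    · rw [← w.valuation_lt_one_iff_mem (K := F)]
      show w.valuation F (algebraMap (𝓞 F) F b) < 1
      have hb' : algebraMap (𝓞 F) F b = (m : F) ^ 2 * hG.top (θ ^ k * z) := hb
      rw [hb', map_mul, map_pow]
      exact lt_of_le_of_lt (mul_le_mul' (pow_le_one' (w.valuation_le_one m) 2) le_rfl)
        (by rw [one_mul]; exact h5)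
    · rw [e2, e1, map_smul, map_add, smul_eq_mul, top_pow hG k hk, if_neg hk2, zero_add, ← hb,
        sub_zero]

end Pool.Agent.H459.UT
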