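import Pool.Agent.H459.UT.Loc0
import Pool.Graph.R_pool_sql_team_seeded_63374d34.N73.PF.Exq
import Pool.Graph.R_pool_sql_team_seeded_63374d34.N771.PF.Core
import Pool.Graph.R_pool_sql_team_seeded_63374d34.N352.PF.Dsc

/-!
# The two primes over `𝔮 q`, without a condition at the other primes (helper459)

After `N73/PF/Exq.lean` of the library (helper73, helper340, helper765).
-/

set_option autoImplicit false
set_option linter.all false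

open Polynomial IsDedekindDomain WithZero NumberField
open scoped Classical

namespace Pool.Agent.H459.UT

open Pool.Agent.N783.PF
open Pool.Agent.N874.PP (Ev Sq1 U0)
open Pool.Agent.N765.PJ (sq_even val_one)
open Pool.Agent.N73.PF (ev ev_L ev_f ev_ker ev_C ev_X ov_iff mem_of_dvd theta_ex rd_surj
  map_eq_of_cg coeff_of_rd_eq_zero ev_mem_of_coeff algMap_coe rd_X rd_C rd_mul field_adj fin_quot
  card_adj irrX hbar psi_surj ker_max mem_or sq_mem adj_facts kappa_facts)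



section main

variable {F L : Type} [Field F] [NumberField F] [Field L] [NumberField L] [Algebra F L]
  {g : ℕ} {f : (𝓞 F)[X]} {θ : L}

/-- a prime over `𝔭` which contains `m(t)` -/
theorem eq_ker (h : IsGen g f θ) {t : 𝓞 L}
    (ht : algebraMap (𝓞 L) L t = θ) {𝔭 : Ideal (𝓞 F)} (hmax : 𝔭.IsMaximal) (hp0 : 𝔭 ≠ ⊥)
    (hsq : dsc g f ∉ 𝔭 ^ 2) {m : (𝓞 F)[X]}
    (hm : Irreducible (rd 𝔭 m)) {ψ : 𝓞 L →+* AdjoinRoot (rd 𝔭 m)}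
    (hψ : ∀ p : (𝓞 F)[X], ψ (ev t p) = AdjoinRoot.mk (rd 𝔭 m) (rd 𝔭 p))
    {𝔓 : HeightOneSpectrum (𝓞 L)} (hov : Ov 𝔭 𝔓) (hmem : ev t m ∈ 𝔓.asIdeal) :
    𝔓.asIdeal = RingHom.ker ψ := by
  symm
  refine (ker_max hmax hm hψ).eq_of_le 𝔓.isPrime.ne_top fun z hz => ?_
  obtain ⟨s, p, hs, hsp, -⟩ := ev_at h hmax.isPrime hp0 hsq ht z
  have hz2 : ψ (ev t p) = 0 := by
    rw [hsp, map_mul, RingHom.mem_ker.1 hz, mul_zero]
  rw [hψ, AdjoinRoot.mk_eq_zero] at hz2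
  have h3 := mem_of_dvd hov hmem hz2
  rw [hsp] at h3
  rcases 𝔓.isPrime.mem_or_mem h3 with h4 | h4
  · exact absurd ((ov_iff hmax hov s).1 h4) hs
  · exact h4

end main

/-- `EXQ` without the condition at the other primes. -/
def S_EXQ' : Prop := ∀ (g W : ℕ) (F L : Type) [Field F] [NumberField F] [Field L] [NumberField L]
  [Algebra F L] (f : (𝓞 F)[X]) (θ : L) (S : Finset ℕ) (𝔮 : ℕ → Ideal (𝓞 F))
  (h P : ℕ → (𝓞 F)[X]), 1 ≤ g → IsGen g f θ → GoodS g W S 𝔮 h P →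
  ∀ q ∈ S, Cg (𝔮 q) f (X * h q) → ∃ 𝔓₁ 𝔓₂ : HeightOneSpectrum (𝓞 L), Ov (𝔮 q) 𝔓₁ ∧
    Ov (𝔮 q) 𝔓₂ ∧ 𝔓₁.valuation L θ < 1 ∧ 𝔓₂.valuation L θ = 1 ∧
    𝔓₁.valuation L (q : L) = WithZero.exp (-1 : ℤ) ∧
    𝔓₂.valuation L (q : L) = WithZero.exp (-1 : ℤ) ∧
    ∀ 𝔓 : HeightOneSpectrum (𝓞 L), Ov (𝔮 q) 𝔓 → 𝔓 = 𝔓₁ ∨ 𝔓 = 𝔓₂

/-- `CSQ` without the condition at the other primes. -/
def S_CSQ' : Prop := ∀ (g W : ℕ) (F L : Type) [Field F] [NumberField F] [Field L] [NumberField L]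
  [Algebra F L] (f : (𝓞 F)[X]) (θ : L) (S : Finset ℕ) (𝔮 : ℕ → Ideal (𝓞 F))
  (h P : ℕ → (𝓞 F)[X]), 1 ≤ g → IsGen g f θ → GoodS g W S 𝔮 h P →
  ∀ q ∈ S, Cg (𝔮 q) f (X * h q) →
  ∀ 𝔓 : HeightOneSpectrum (𝓞 L), Ov (𝔮 q) 𝔓 → 𝔓.valuation L θ = 1 →
    (∀ c : 𝓞 F, c ∉ 𝔮 q → Sq1 𝔓 (algebraMap F L (c : F))) ∧
    (∃ m : ℕ, Nat.card (𝓞 L ⧸ 𝔓.asIdeal) = q ^ (2 * m)) ∧
    𝔓.valuation L (aeval θ (derivative (fF f))) = 1 ∧
    ¬ Sq1 𝔓 (θ * aeval θ (derivative (fF f)))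

/-- The discriminant is prime to `𝔮 q`. -/
theorem dsc_q {F : Type} [Field F] [NumberField F] {g W : ℕ} {f : (𝓞 F)[X]} {S : Finset ℕ}
    {𝔮 : ℕ → Ideal (𝓞 F)} {r P : ℕ → (𝓞 F)[X]} (hg : 1 ≤ g) (hm : f.Monic)
    (hd : f.natDegree = 2 * g + 1) (hS : GoodS g W S 𝔮 r P) {q : ℕ} (hq : q ∈ S)
    (hcg : Cg (𝔮 q) f (X * r q)) : dsc g f ∉ 𝔮 q ∧ dsc g f ∉ (𝔮 q) ^ 2 := by
  obtain ⟨hb, hs⟩ := Pool.Agent.N771.PF.sep_q hg hS hq hcg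
  obtain ⟨-, -, -, -, -, hpr, -⟩ := hS q hq
  have h1 : dsc g f ∉ 𝔮 q := Pool.Agent.N352.PF.dscT F g (𝔮 q) f f hg hpr hb hm hd (fun j => by
    rw [sub_self]
    exact Ideal.zero_mem _) hs
  exact ⟨h1, fun h => h1 (Ideal.pow_le_self two_ne_zero h)⟩

/-- **EXQ.** -/
theorem exq : S_EXQ' := by
  intro g W F L _ _ _ _ _ f θ S 𝔮 h P hg hG hS q hqS hcg
  have hdq := (dsc_q hg hG.mon hG.deg hS hqS hcg).2
  obtain ⟨hq, -, -, -, hur, hprime, hmem𝔮, hm, hdeg, hirr, -⟩ := hS q hqS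
  obtain ⟨𝔭, h𝔭⟩ : ∃ 𝔭 : Ideal (𝓞 F), 𝔭 = 𝔮 q := ⟨_, rfl⟩
  rw [← h𝔭] at hprime hmem𝔮 hirr hcg hdq ⊢
  have hq0 : (q : 𝓞 F) ≠ 0 := by exact_mod_cast hq.ne_zero
  have hne : 𝔭 ≠ ⊥ := fun h0 => hq0 (by rwa [h0, Ideal.mem_bot] at hmem𝔮)
  have hmax : 𝔭.IsMaximal := hprime.isMaximal hne
  have hq2 : (q : 𝓞 F) ∉ 𝔭 ^ 2 := hur 𝔭 hprime
  obtain ⟨hbd, hbX⟩ := hbar hmax hg hm hdeg
  obtain ⟨t, ht⟩ := theta_ex hG
  have hfb : rd 𝔭 f = X * rd 𝔭 (h q) := by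
    rw [map_eq_of_cg hcg, rd, Polynomial.map_mul, Polynomial.map_X]
  have hQ0 : (q : 𝓞 L) ≠ 0 := by exact_mod_cast hq.ne_zero
  obtain ⟨ψ₁, hψ₁⟩ := ex_psi hG hprime hne hdq ht (rd 𝔭 (X : (𝓞 F)[X]))
    (by rw [hfb, rd, Polynomial.map_X]; exact Dvd.intro _ rfl)
  obtain ⟨ψ₂, hψ₂⟩ := ex_psi hG hprime hne hdq ht (rd 𝔭 (h q))
    (by rw [hfb]; exact ⟨X, X_mul⟩)
  have hirX := irrX hmax
  have hm1 := ker_max hmax hirX hψ₁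
  have hm2 := ker_max hmax hirr hψ₂
  have hrdQ : ∀ a ∈ 𝔭, rd 𝔭 (C a) = 0 := by
    intro a ha
    rw [rd_C, Ideal.Quotient.eq_zero_iff_mem.2 ha, C_0]
  have q1 : ∀ a ∈ 𝔭, algebraMap (𝓞 F) (𝓞 L) a ∈ RingHom.ker ψ₁ := by
    intro a ha
    rw [RingHom.mem_ker, ← ev_C t, hψ₁, hrdQ a ha, map_zero]
  have q2 : ∀ a ∈ 𝔭, algebraMap (𝓞 F) (𝓞 L) a ∈ RingHom.ker ψ₂ := by
    intro a ha
    rw [RingHom.mem_ker, ← ev_C t, hψ₂, hrdQ a ha, map_zero]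
  have hqq : algebraMap (𝓞 F) (𝓞 L) (q : 𝓞 F) = (q : 𝓞 L) := map_natCast _ q
  have hb1 : RingHom.ker ψ₁ ≠ ⊥ := fun h0 => hQ0 (by
    have := q1 _ hmem𝔮
    rwa [h0, Ideal.mem_bot, hqq] at this)
  have hb2 : RingHom.ker ψ₂ ≠ ⊥ := fun h0 => hQ0 (by
    have := q2 _ hmem𝔮
    rwa [h0, Ideal.mem_bot, hqq] at this)
  let 𝔓₁ : HeightOneSpectrum (𝓞 L) := ⟨RingHom.ker ψ₁, hm1.isPrime, hb1⟩
  let 𝔓₂ : HeightOneSpectrum (𝓞 L) := ⟨RingHom.ker ψ₂, hm2.isPrime, hb2⟩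
  have ov1 : Ov 𝔭 𝔓₁ := q1
  have ov2 : Ov 𝔭 𝔓₂ := q2
  have ht1 : t ∈ 𝔓₁.asIdeal := by
    show t ∈ RingHom.ker ψ₁
    rw [RingHom.mem_ker, ← ev_X (F := F) t, hψ₁]
    exact AdjoinRoot.mk_eq_zero.2 dvd_rfl
  have ht2 : t ∉ 𝔓₂.asIdeal := by
    show t ∉ RingHom.ker ψ₂
    rw [RingHom.mem_ker, ← ev_X (F := F) t, hψ₂, AdjoinRoot.mk_eq_zero, rd_X]
    exact hbX
  have hprod : ∀ I : Ideal (𝓞 L), (∀ a ∈ 𝔭, algebraMap (𝓞 F) (𝓞 L) a ∈ I) →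
      𝔓₁.asIdeal * 𝔓₂.asIdeal ≤ I := by
    intro I hI'
    rw [Ideal.mul_le]
    intro x hx y hy
    obtain ⟨s, p, hs, hsp, -⟩ := ev_at hG hprime hne hdq ht x
    obtain ⟨s', p', hs', hsp', -⟩ := ev_at hG hprime hne hdq ht y
    have hx2 : ev t p ∈ RingHom.ker ψ₁ := by
      rw [hsp]
      exact Ideal.mul_mem_left _ _ hx
    have hy2 : ev t p' ∈ RingHom.ker ψ₂ := by
      rw [hsp']
      exact Ideal.mul_mem_left _ _ hy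
    rw [RingHom.mem_ker, hψ₁, AdjoinRoot.mk_eq_zero, rd_X] at hx2
    rw [RingHom.mem_ker, hψ₂, AdjoinRoot.mk_eq_zero] at hy2
    have h3 : ev t (p * p') ∈ I := by
      refine mem_of_dvd (m := f) hI' ?_ ?_
      · rw [ev_f hG ht]
        exact Ideal.zero_mem _
      · rw [hfb, rd_mul]
        exact mul_dvd_mul hx2 hy2
    rw [map_mul, hsp, hsp'] at h3
    have hss : s * s' ∉ 𝔭 := fun h => (hprime.mem_or_mem h).elim hs hs'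
    obtain ⟨z, i, hi, hzi⟩ := hmax.exists_inv hss
    have h4 : x * y = algebraMap (𝓞 F) (𝓞 L) z * (algebraMap (𝓞 F) (𝓞 L) s * x *
        (algebraMap (𝓞 F) (𝓞 L) s' * y)) + algebraMap (𝓞 F) (𝓞 L) i * (x * y) := by
      have e := congrArg (fun a => algebraMap (𝓞 F) (𝓞 L) a) hzi
      simp only [map_add, map_mul, map_one] at e
      linear_combination (-(x * y)) * e
    rw [h4]
    exact I.add_mem (I.mul_mem_left _ h3) (I.mul_mem_right _ (hI' i hi))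
  have hvt : 𝔓₂.valuation L θ = 1 := by
    rw [← ht]
    exact 𝔓₂.valuation_eq_one_iff_notMem.mpr ht2
  have hqL : (q : L) = algebraMap (𝓞 L) L (q : 𝓞 L) := by rw [map_natCast]
  refine ⟨𝔓₁, 𝔓₂, ov1, ov2, ?_, hvt, ?_, ?_, ?_⟩
  · rw [← ht]
    exact (𝔓₁.valuation_lt_one_iff_mem _).mpr ht1
  · rw [hqL]
    refine val_one hQ0 (by rw [← hqq]; exact ov1 _ hmem𝔮) fun hmem => ?_
    rw [← hqq] at hmem
    have h1 : 𝔓₁.asIdeal * 𝔓₂.asIdeal ≤ 𝔓₁.asIdeal ^ 2 :=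
      hprod _ (sq_mem hmax hmem𝔮 hq2 ov1 hmem)
    rw [← Ideal.dvd_iff_le, sq] at h1
    have h2 : 𝔓₁.asIdeal ∣ 𝔓₂.asIdeal := (mul_dvd_mul_iff_left (a := 𝔓₁.asIdeal) hb1).mp h1
    rw [Ideal.dvd_iff_le] at h2
    have h3 := hm2.eq_of_le 𝔓₁.isPrime.ne_top h2
    apply ht2
    show t ∈ RingHom.ker ψ₂
    rw [h3]
    exact ht1
  · rw [hqL]
    refine val_one hQ0 (by rw [← hqq]; exact ov2 _ hmem𝔮) fun hmem => ?_
    rw [← hqq] at hmem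
    have h1 : 𝔓₁.asIdeal * 𝔓₂.asIdeal ≤ 𝔓₂.asIdeal ^ 2 :=
      hprod _ (sq_mem hmax hmem𝔮 hq2 ov2 hmem)
    rw [← Ideal.dvd_iff_le, sq] at h1
    have h2 : 𝔓₂.asIdeal ∣ 𝔓₁.asIdeal := (mul_dvd_mul_iff_right (a := 𝔓₂.asIdeal) hb2).mp h1
    rw [Ideal.dvd_iff_le] at h2
    exact ht2 (h2 ht1)
  · intro 𝔓 hov
    rcases mem_or hG ht hcg hov with hmm | hmm
    · left
      apply HeightOneSpectrum.ext
      exact eq_ker hG ht hmax hne hdq hirX hψ₁ hov (by rw [ev_X]; exact hmm)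
    · right
      apply HeightOneSpectrum.ext
      exact eq_ker hG ht hmax hne hdq hirr hψ₂ hov hmm

/-- **CSQ.** -/
theorem csq : S_CSQ' := by
  intro g W F L _ _ _ _ _ f θ S 𝔮 h P hg hG hS q hqS hcg 𝔓 hov hv
  have hdq := (dsc_q hg hG.mon hG.deg hS hqS hcg).2
  obtain ⟨hq, -, -, h8, -, hprime, hmem𝔮, hm, hdeg, hirr, -⟩ := hS q hqS
  obtain ⟨𝔭, h𝔭⟩ : ∃ 𝔭 : Ideal (𝓞 F), 𝔭 = 𝔮 q := ⟨_, rfl⟩
  rw [← h𝔭] at hprime hmem𝔮 hirr hcg hov hdq ⊢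
  have hq0 : (q : 𝓞 F) ≠ 0 := by exact_mod_cast hq.ne_zero
  have hne : 𝔭 ≠ ⊥ := fun h0 => hq0 (by rwa [h0, Ideal.mem_bot] at hmem𝔮)
  have hmax : 𝔭.IsMaximal := hprime.isMaximal hne
  obtain ⟨hbd, hbX⟩ := hbar hmax hg hm hdeg
  obtain ⟨t, ht⟩ := theta_ex hG
  have hfb : rd 𝔭 f = X * rd 𝔭 (h q) := by
    rw [map_eq_of_cg hcg, rd, Polynomial.map_mul, Polynomial.map_X]
  obtain ⟨ψ, hψ⟩ := ex_psi hG hprime hne hdq ht (rd 𝔭 (h q))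
    (by rw [hfb]; exact ⟨X, X_mul⟩)
  have htn : t ∉ 𝔓.asIdeal := by
    rw [← ht] at hv
    exact 𝔓.valuation_eq_one_iff_notMem.mp hv
  have hker : 𝔓.asIdeal = RingHom.ker ψ :=
    eq_ker hG ht hmax hne hdq hirr hψ hov ((mem_or hG ht hcg hov).resolve_left htn)
  obtain ⟨c1, c4⟩ := card_adj hmax hne hirr
  have f3 : Finite (𝓞 F ⧸ 𝔭) := fin_quot hne
  have hκ0 : ((q : ℕ) : 𝓞 F ⧸ 𝔭) = 0 := by
    rw [← map_natCast (Ideal.Quotient.mk 𝔭)]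
    exact Ideal.Quotient.eq_zero_iff_mem.2 hmem𝔮
  let iκ : Field (𝓞 F ⧸ 𝔭) := Ideal.Quotient.field _
  obtain ⟨k1, k2, e, ke⟩ := kappa_facts (κ := 𝓞 F ⧸ 𝔭) hq h8 hκ0
  obtain ⟨a1, a2⟩ := adj_facts hg k1 k2 hirr (hm.map _) hbd
  have hX0 : AdjoinRoot.mk (rd 𝔭 (h q)) X ≠ 0 := by
    rw [Ne, AdjoinRoot.mk_eq_zero]
    exact hbX
  have hder : AdjoinRoot.mk (rd 𝔭 (h q)) (rd 𝔭 (derivative f)) =
      AdjoinRoot.mk (rd 𝔭 (h q)) X * AdjoinRoot.mk (rd 𝔭 (h q)) (derivative (rd 𝔭 (h q))) := by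
    have e1 : rd 𝔭 (derivative f) = derivative (rd 𝔭 f) := (derivative_map _ _).symm
    rw [e1, hfb, derivative_mul, derivative_X, one_mul, map_add, map_mul,
      AdjoinRoot.mk_self, zero_add]
  have hdn : ev t (derivative f) ∉ 𝔓.asIdeal := by
    rw [hker, RingHom.mem_ker, hψ, hder]
    exact fun h0 => hX0 (a1 _ h0)
  have hdL : aeval θ (derivative (fF f)) = algebraMap (𝓞 L) L (ev t (derivative f)) := by
    rw [ev_L ht, fF, fF, derivative_map]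
  have hd1 : 𝔓.valuation L (aeval θ (derivative (fF f))) = 1 := by
    rw [hdL]
    exact 𝔓.valuation_eq_one_iff_notMem.mpr hdn
  refine ⟨?_, ?_, hd1, ?_⟩
  · intro c hc
    have hc0 : Ideal.Quotient.mk 𝔭 c ≠ 0 := fun h0 => hc (Ideal.Quotient.eq_zero_iff_mem.1 h0)
    have i2 : Fact (Irreducible (rd 𝔭 (h q))) := ⟨hirr⟩
    have hsq' : IsSquare (AdjoinRoot.of (rd 𝔭 (h q)) (Ideal.Quotient.mk 𝔭 c)) :=
      sq_even (AdjoinRoot.of (rd 𝔭 (h q))) (g := g) (by rw [c1, hbd]) _ hc0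
    obtain ⟨a, ha⟩ := hsq'
    obtain ⟨z, rfl⟩ := psi_surj hψ a
    have h1 : ψ (algebraMap (𝓞 F) (𝓞 L) c - z ^ 2) = 0 := by
      rw [map_sub, map_pow, ← ev_C t c, hψ, rd_C, AdjoinRoot.mk_C, ha]
      ring
    have h2 : algebraMap (𝓞 F) (𝓞 L) c - z ^ 2 ∈ 𝔓.asIdeal := by
      rw [hker]; exact h1
    have h3 : algebraMap (𝓞 F) (𝓞 L) c ∉ 𝔓.asIdeal := fun h4 => hc ((ov_iff hmax hov c).1 h4)
    refine ⟨algebraMap (𝓞 L) L z, ?_⟩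
    rw [← algMap_coe, ← map_pow, ← map_sub, 𝔓.valuation_eq_one_iff_notMem.mpr h3]
    exact (𝔓.valuation_lt_one_iff_mem _).mpr h2
  · refine ⟨e * g, ?_⟩
    rw [hker, Nat.card_congr (RingHom.quotientKerEquivOfSurjective (psi_surj hψ)).toEquiv, c1, hbd,
      ke, ← pow_mul]
    congr 1
    ring
  · rintro ⟨s, hs⟩
    have hx1 : 𝔓.valuation L (θ * aeval θ (derivative (fF f))) = 1 := by
      rw [map_mul, hv, hd1, one_mul]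
    rw [hx1] at hs
    have hxs : s ^ 2 + (θ * aeval θ (derivative (fF f)) - s ^ 2) =
        θ * aeval θ (derivative (fF f)) := by ring
    have hs1 : 𝔓.valuation L s ≤ 1 := by
      by_contra hn
      push Not at hn
      have h1 : 1 < 𝔓.valuation L (s ^ 2) := by
        rw [map_pow]
        exact one_lt_pow₀ hn two_ne_zero
      have h2 := Valuation.map_add_eq_of_lt_left (𝔓.valuation L) (hs.trans h1)
      rw [hxs, hx1] at h2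
      exact h1.ne h2
    obtain ⟨z, hz⟩ := 𝔓.exists_valuation_sub_lt_of_integer hs1 1
    rw [Units.val_one] at hz
    have hz1 : 𝔓.valuation L (algebraMap (𝓞 L) L z) ≤ 1 := 𝔓.valuation_le_one z
    have h3 : 𝔓.valuation L (θ * aeval θ (derivative (fF f)) - algebraMap (𝓞 L) L z ^ 2) < 1 := by
      have e1 : θ * aeval θ (derivative (fF f)) - algebraMap (𝓞 L) L z ^ 2 =
          (θ * aeval θ (derivative (fF f)) - s ^ 2) -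
            (algebraMap (𝓞 L) L z - s) * (algebraMap (𝓞 L) L z + s) := by ring
      rw [e1]
      refine Valuation.map_sub_lt _ hs ?_
      rw [map_mul]
      have h4 : 𝔓.valuation L (algebraMap (𝓞 L) L z + s) ≤ 1 :=
        Valuation.map_add_le _ hz1 hs1
      calc _ ≤ 𝔓.valuation L (algebraMap (𝓞 L) L z - s) * 1 := mul_le_mul_right h4 _
        _ < 1 := by rw [mul_one]; exact hz
    have h5 : t * ev t (derivative f) - z ^ 2 ∈ 𝔓.asIdeal := by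
      have h4 : 𝔓.valuation L (algebraMap (𝓞 L) L (t * ev t (derivative f) - z ^ 2)) < 1 := by
        rw [map_sub, map_mul, map_pow, ht, ← hdL]
        exact h3
      exact (𝔓.valuation_lt_one_iff_mem _).mp h4
    rw [hker, RingHom.mem_ker, map_sub, map_mul, map_pow, hψ, hder, sub_eq_zero] at h5
    have h6 : ψ t = AdjoinRoot.mk (rd 𝔭 (h q)) X := by
      rw [← ev_X (F := F) t, hψ, rd_X]
    rw [h6, ← mul_assoc, ← sq] at h5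
    exact hX0 (a2 _ _ h5)

end Pool.Agent.H459.UT
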