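import Pool.Agent.H459.UT.Cpt
import Pool.Agent.H459.UT.Par
import Pool.Agent.H459.UT.Exq
import Pool.Agent.H459.UF.TopS

/-!
# The local conditions over an extension `K` of `F` inside `M` (helper459)

The condition at the bad primes is an abstract condition `T` on polynomials over the top field `M`.
-/

set_option autoImplicit false
set_option linter.all false

open Polynomial IsDedekindDomain NumberField WithZero
open scoped Classical IntermediateField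

namespace Pool.Agent.H459.UT

open Pool.Agent.H459.UF
open Pool.Agent.N874.PP (Ev Sq1 U0)
open Pool.Agent.N874.JM (LocF)
open Pool.Agent.N783.PQ (LocIm)
open Pool.Agent.N783.PF (IsGen rd fF GoodS Cg sp)
open Pool.Agent.N874.PM (ev_down sq_down ev_sq ev_mul)
open Pool.Agent.N874.QM (locIm_congr locIm_sq locIm_map)

/-- The properties of the condition at the bad primes. -/
structure TOK (F M : Type) [Field F] [NumberField F] [Field M] [NumberField M] [Algebra F M]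
    (f : (𝓞 F)[X]) (T : M[X] → Prop) : Prop where
  sq : ∀ p, T (p ^ 2)
  mul : ∀ p q, T p → T q → T (p * q)
  congr : ∀ p q, fb M f ∣ p - q → T p → T q
  gal : ∀ (τ : M ≃ₐ[F] M) (p : M[X]), T p → T (p.map (τ : M →+* M))

/-- The conditions. -/
structure CndT (F : Type) {K L : Type} (M : Type) [Field F] [NumberField F] [Field K]
    [NumberField K] [Field L] [NumberField L] [Field M] [NumberField M] [Algebra F K]
    [Algebra K L] [Algebra K M] (Bw : HeightOneSpectrum (𝓞 F) → Prop) (T : M[X] → Prop)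
    (f : (𝓞 F)[X]) (J : Finset ℕ) (𝔮 : ℕ → Ideal (𝓞 F)) (θ : L) (h : K[X]) : Prop where
  ev : ∀ P : HeightOneSpectrum (𝓞 L), ¬ Bw (below F (below K P)) →
    (∀ q ∈ J, (q : 𝓞 L) ∉ P.asIdeal) →
    P.valuation L (aeval θ (derivative (fb K f))) = 1 → Ev P (aeval θ h)
  u0 : ∀ q ∈ J, ∀ P : HeightOneSpectrum (𝓞 L), below F (below K P) ∈
    {v : HeightOneSpectrum (𝓞 F) | v.asIdeal = 𝔮 q} → P.valuation L θ = 1 →
    U0 P ((q : L) * θ) (aeval θ h)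
  two : T (h.map (algebraMap K M))
  real : ∀ σ : K →+* ℝ, LocIm ℝ ((fb K f).map σ) (h.map σ)

/-- Elements of `K(θ)` with the conditions are squares. -/
def PKT (F K M : Type) [Field F] [NumberField F] [Field K] [NumberField K] [Field M]
    [NumberField M] [Algebra F K] [Algebra K M] (Bw : HeightOneSpectrum (𝓞 F) → Prop)
    (T : M[X] → Prop) (f : (𝓞 F)[X]) (J : Finset ℕ) (𝔮 : ℕ → Ideal (𝓞 F)) : Prop :=
  ∀ (L : Type) [Field L] [NumberField L] [Algebra K L] (θ : L), aeval θ (fb K f) = 0 →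
    K⟮θ⟯ = ⊤ → Module.finrank K L = f.natDegree → ∀ h : K[X], aeval θ h ≠ 0 →
    IsSquare (Algebra.norm K (aeval θ h)) → CndT F M Bw T f J 𝔮 θ h → IsSquare (aeval θ h)

/-- The data on the twisting primes. -/
structure DatT {F : Type} [Field F] [NumberField F] (f : (𝓞 F)[X]) (J : Finset ℕ)
    (𝔮 : ℕ → Ideal (𝓞 F)) : Prop where
  mon : f.Monic
  dat : ∃ (g W : ℕ) (S : Finset ℕ) (r P : ℕ → (𝓞 F)[X]), 1 ≤ g ∧ f.natDegree = 2 * g + 1 ∧
    GoodS g W S 𝔮 r P ∧ (∀ q ∈ S, Cg (𝔮 q) f (X * r q)) ∧ J ⊆ S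

section

variable {F K L : Type} [Field F] [NumberField F] [Field K] [NumberField K] [Field L]
  [NumberField L] [Algebra F K] [Algebra K L] {f : (𝓞 F)[X]} {θ : L}

theorem DatT.odd {J : Finset ℕ} {𝔮 : ℕ → Ideal (𝓞 F)} (H : DatT f J 𝔮) : Odd f.natDegree := by
  obtain ⟨g, W, S, r, P, h1, h2, -⟩ := H.dat
  exact ⟨g, h2⟩

theorem DatT.prime {J : Finset ℕ} {𝔮 : ℕ → Ideal (𝓞 F)} (H : DatT f J 𝔮) {q : ℕ} (hq : q ∈ J) :
    q.Prime ∧ q % 8 = 1 ∧ (𝔮 q).IsPrime ∧ (q : 𝓞 F) ∈ 𝔮 q := by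
  obtain ⟨g, W, S, r, P, h1, h2, h4, h5, h6⟩ := H.dat
  obtain ⟨a1, a2, a3, a4, a5, a6, a7, a8⟩ := h4 q (h6 hq)
  exact ⟨a1, a4, a6, a7⟩

theorem q_topT {J : Finset ℕ} {𝔮 : ℕ → Ideal (𝓞 F)} (H : DatT f J 𝔮) (h : Cub K f θ) {q : ℕ}
    (hq : q ∈ J) {P : HeightOneSpectrum (𝓞 L)} (hP : (below F (below K P)).asIdeal = 𝔮 q)
    (hd : Dns F (below K P)) (hθ : P.valuation L θ = 1) :
    P.valuation L (q : L) = WithZero.exp (-1 : ℤ) ∧
    (∀ c : 𝓞 F, c ∉ 𝔮 q → Sq1 P (algebraMap K L (algebraMap F K (c : F)))) ∧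
    P.valuation L (aeval θ (derivative (fb K f))) = 1 := by
  obtain ⟨g, W, S, r, Pp, hg, hdeg, hS, hcg, hJS⟩ := H.dat
  letI : Algebra F L := ((algebraMap K L).comp (algebraMap F K)).toAlgebra
  haveI : IsScalarTower F K L := IsScalarTower.of_algebraMap_eq fun _ => rfl
  obtain ⟨θ₀, hθ₀, hc⟩ := cub_sub (K₁ := F) H.mon h
  have hgen : IsGen g f θ₀ := by
    have := hc.isGen H.mon hdeg
    rwa [fo_self] at this
  have hdL : Dns F⟮θ⟯ P := by
    refine dns_base (K₁ := F) (K₂ := K) (L₁ := F⟮θ⟯) (θ₁ := θ₀) (hc.int H.mon) ?_ hd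
    rw [hθ₀]
    exact h.top
  have hagr := agr_of_dns hdL
  set P₀ := below F⟮θ⟯ P with hP₀
  have hov : Pool.Agent.N783.PF.Ov (𝔮 q) P₀ := by
    intro a ha
    rw [← hP] at ha
    have h1 : algebraMap (𝓞 K) (𝓞 L) (algebraMap (𝓞 F) (𝓞 K) a) ∈ P.asIdeal := ha
    show algebraMap (𝓞 F⟮θ⟯) (𝓞 L) (algebraMap (𝓞 F) (𝓞 F⟮θ⟯) a) ∈ P.asIdeal
    rw [← IsScalarTower.algebraMap_apply] at h1 ⊢
    exact h1
  have hv0 : P₀.valuation F⟮θ⟯ θ₀ = 1 := by
    rw [← hagr, hθ₀]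
    exact hθ
  have hqS := hJS hq
  obtain ⟨𝔓₁, 𝔓₂, e1, e2, e3, e4, e5, e6, e7⟩ :=
    exq g W F F⟮θ⟯ f θ₀ S 𝔮 r Pp hg hgen hS q hqS (hcg q hqS)
  obtain ⟨c1, -, c3, -⟩ :=
    csq g W F F⟮θ⟯ f θ₀ S 𝔮 r Pp hg hgen hS q hqS (hcg q hqS) P₀ hov hv0
  refine ⟨?_, ?_, ?_⟩
  · rw [← map_natCast (algebraMap F⟮θ⟯ L) q, hagr]
    rw [← hP₀]
    rcases e7 P₀ hov with h1 | h1
    · rw [h1]
      exact e5
    · rw [h1]
      exact e6
  · intro c hcq
    obtain ⟨s, hs⟩ := c1 c hcq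
    refine ⟨algebraMap F⟮θ⟯ L s, ?_⟩
    have e : algebraMap K L (algebraMap F K (c : F)) =
        algebraMap F⟮θ⟯ L (algebraMap F F⟮θ⟯ (c : F)) :=
      (IsScalarTower.algebraMap_apply F K L _).symm.trans
        (IsScalarTower.algebraMap_apply F F⟮θ⟯ L _)
    rw [e, ← map_pow, ← map_sub, hagr, hagr]
    exact hs
  · have e : aeval θ (derivative (fb K f)) =
        algebraMap F⟮θ⟯ L (aeval θ₀ (derivative (fF f))) := by
      rw [← aeval_algebraMap_apply, hθ₀, fb, derivative_map, aeval_map_algebraMap]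
    rw [e, hagr]
    exact c3

end

section cls

variable {F K L M : Type} [Field F] [NumberField F] [Field K] [NumberField K] [Field L]
  [NumberField L] [Field M] [NumberField M] [Algebra F K] [Algebra K L] [Algebra K M]
  [Algebra F M] [IsScalarTower F K M] {Bw : HeightOneSpectrum (𝓞 F) → Prop} {T : M[X] → Prop}
  {f : (𝓞 F)[X]} {θ : L} {J : Finset ℕ} {𝔮 : ℕ → Ideal (𝓞 F)}

theorem cnd_sqT (hT : TOK F M f T) {p : K[X]} (h0 : aeval θ p ≠ 0) :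
    CndT F M Bw T f J 𝔮 θ (p ^ 2) where
  ev P _ _ _ := by
    rw [map_pow]
    exact ev_sq P _
  u0 q _ P _ _ := by
    rw [map_pow]
    refine ⟨fun _ => ⟨aeval θ p, ?_⟩, fun h => absurd (ev_sq P _) h⟩
    rw [sub_self, map_zero, zero_lt_iff]
    exact (Valuation.ne_zero_iff _).2 (pow_ne_zero _ h0)
  two := by
    rw [Polynomial.map_pow]
    exact hT.sq _
  real σ := by
    rw [Polynomial.map_pow]
    exact locIm_sq _ _

theorem cnd_mulT (H : DatT f J 𝔮) (hT : TOK F M f T) (hc : Cub K f θ) (hD : DQ F K J 𝔮)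
    {p p' : K[X]} (h0 : aeval θ p ≠ 0) (h0' : aeval θ p' ≠ 0) (h : CndT F M Bw T f J 𝔮 θ p)
    (h' : CndT F M Bw T f J 𝔮 θ p') : CndT F M Bw T f J 𝔮 θ (p * p') where
  ev P h1 h2 h3 := by
    rw [map_mul]
    exact ev_mul (h.ev P h1 h2 h3) (h'.ev P h1 h2 h3)
  u0 q hq P h1 h3 := by
    rw [map_mul]
    obtain ⟨hqp, hq8, -, hqm⟩ := H.prime hq
    have h1' : (below F (below K P)).asIdeal = 𝔮 q := h1
    obtain ⟨e1, -, -⟩ := q_topT H hc hq h1' (hD q hq _ h1') h3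
    have hϖ : ¬ Ev P ((q : L) * θ) := by
      apply Pool.Agent.N891.PQ.not_ev_exp
      rw [map_mul, e1, h3, mul_one]
    have h5 : (q : L) * θ ≠ 0 := by
      intro h6
      apply hϖ
      rw [h6]
      exact ⟨0, by simp⟩
    have hov : Pool.Agent.N783.PQ.Ov q P := nat_mem_of_below (F := F) (K := K) (by
      rw [h1']
      exact hqm)
    exact ((Pool.Agent.N457.PQ.cls L q P _ hqp (by omega) hov h5 hϖ _ _ h0 h0').2).2
      ⟨fun _ => h'.u0 q hq P h1 h3, fun _ => h.u0 q hq P h1 h3⟩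
  two := by
    rw [Polynomial.map_mul]
    exact hT.mul _ _ h.two h'.two
  real σ := by
    rw [Polynomial.map_mul]
    exact Pool.Agent.N891.PQ.LocIm.mul (h.real σ) (h'.real σ)

theorem cnd_congrT (hT : TOK F M f T) (hroot : aeval θ (fb K f) = 0)
    (hmin : minpoly K θ = fb K f) {p p' : K[X]}
    (he : aeval θ p = aeval θ p') (h : CndT F M Bw T f J 𝔮 θ p) :
    CndT F M Bw T f J 𝔮 θ p' := by
  have hd : fb K f ∣ p - p' := by
    rw [← hmin]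
    apply minpoly.dvd
    rw [map_sub, he, sub_self]
  refine ⟨fun P a b c => he ▸ h.ev P a b c, fun q hq P a b => he ▸ h.u0 q hq P a b,
    ?_, fun σ => ?_⟩
  · refine hT.congr _ _ ?_ h.two
    have h3 := Polynomial.map_dvd (algebraMap K M) hd
    rwa [Polynomial.map_sub, fb_map] at h3
  · refine locIm_congr ?_ (h.real σ)
    have h3 := Polynomial.map_dvd σ hd
    rwa [Polynomial.map_sub] at h3

end cls

section sig

/-- The conditions are stable under the automorphisms. -/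
theorem cnd_sigT {F : Type} (K₁ : Type) {K₂ L₁ L₂ M : Type} [Field F] [NumberField F] [Field K₁]
    [NumberField K₁] [Field K₂] [NumberField K₂] [Field L₁] [NumberField L₁] [Field L₂]
    [NumberField L₂] [Field M] [NumberField M] [Algebra F K₁] [Algebra F K₂] [Algebra K₁ K₂]
    [IsScalarTower F K₁ K₂]
    [Algebra K₁ L₁] [Algebra K₂ L₂] [Algebra L₁ L₂] [Algebra K₁ L₂] [IsScalarTower K₁ K₂ L₂]
    [IsScalarTower K₁ L₁ L₂] [IsGalois K₁ K₂] [Algebra K₁ M] [Algebra K₂ M] [Algebra F M]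
    [IsScalarTower K₁ K₂ M] [IsScalarTower F K₁ M] [IsGalois K₁ M]
    {Bw : HeightOneSpectrum (𝓞 F) → Prop} {T : M[X] → Prop} {f : (𝓞 F)[X]} {θ₁ : L₁}
    {J : Finset ℕ} {𝔮 : ℕ → Ideal (𝓞 F)} (hT : TOK F M f T) (σ : L₂ ≃ₐ[L₁] L₂) {p : K₂[X]}
    (h : CndT F M Bw T f J 𝔮 (algebraMap L₁ L₂ θ₁) p) :
    ∃ p' : K₂[X], aeval (algebraMap L₁ L₂ θ₁) p' = σ (aeval (algebraMap L₁ L₂ θ₁) p) ∧
      CndT F M Bw T f J 𝔮 (algebraMap L₁ L₂ θ₁) p' := by
  let σ₁ : L₂ ≃ₐ[K₁] L₂ := σ.restrictScalars K₁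
  set τ : K₂ ≃ₐ[K₁] K₂ := σ₁.restrictNormal K₂ with hτ
  have hτ' : ∀ y : K₂, algebraMap K₂ L₂ (τ y) = σ (algebraMap K₂ L₂ y) := fun y =>
    AlgEquiv.restrictNormal_commutes σ₁ K₂ y
  have hσθ : σ (algebraMap L₁ L₂ θ₁) = algebraMap L₁ L₂ θ₁ := σ.commutes _
  have hF : ∀ y : F, τ (algebraMap F K₂ y) = algebraMap F K₂ y := by
    intro y
    rw [IsScalarTower.algebraMap_apply F K₁ K₂, τ.commutes]
  have hFcomp : (τ : K₂ →+* K₂).comp (algebraMap F K₂) = algebraMap F K₂ := RingHom.ext hF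
  have hfbτ : (fb K₂ f).map (τ : K₂ →+* K₂) = fb K₂ f := by
    unfold fb
    rw [Polynomial.map_map, hFcomp]
  have hval : aeval (algebraMap L₁ L₂ θ₁) (p.map (τ : K₂ →+* K₂)) =
      σ (aeval (algebraMap L₁ L₂ θ₁) p) := by
    rw [aeval_def, eval₂_map, aeval_def]
    have e : (algebraMap K₂ L₂).comp (τ : K₂ →+* K₂) = (σ : L₂ →+* L₂).comp (algebraMap K₂ L₂) :=
      RingHom.ext fun y => hτ' y
    have h1 := hom_eval₂ p (algebraMap K₂ L₂) (σ : L₂ →+* L₂) (algebraMap L₁ L₂ θ₁)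
    rw [e]
    have h2 : (σ : L₂ →+* L₂) (algebraMap L₁ L₂ θ₁) = algebraMap L₁ L₂ θ₁ := hσθ
    rw [h2] at h1
    exact h1.symm
  have hση : σ (aeval (algebraMap L₁ L₂ θ₁) (derivative (fb K₂ f))) =
      aeval (algebraMap L₁ L₂ θ₁) (derivative (fb K₂ f)) := by
    have e : aeval (algebraMap L₁ L₂ θ₁) (derivative (fb K₂ f)) =
        algebraMap L₁ L₂ (aeval θ₁ (derivative (fb K₁ f))) := by
      rw [← fb_map K₁ K₂ f, derivative_map, aeval_map_algebraMap, aeval_algebraMap_apply]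
    rw [e, σ.commutes]
  have key := Pool.Agent.N756.QM.sig L₂ (σ.restrictScalars ℚ)
  have hmemv : ∀ (P : HeightOneSpectrum (𝓞 L₂)) (a : 𝓞 L₂), a ∈ P.asIdeal ↔
      P.valuation L₂ (algebraMap (𝓞 L₂) L₂ a) < 1 := fun P a =>
    (HeightOneSpectrum.valuation_lt_one_iff_mem (K := L₂) P a).symm
  have hnat : ∀ (P P' : HeightOneSpectrum (𝓞 L₂)),
      (∀ y : L₂, P'.valuation L₂ y = P.valuation L₂ (σ y)) → ∀ n : ℕ,
      ((n : 𝓞 L₂) ∈ P'.asIdeal ↔ (n : 𝓞 L₂) ∈ P.asIdeal) := by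
    intro P P' hv n
    rw [hmemv, hmemv, hv, map_natCast, map_natCast]
  have hev : ∀ (𝔓 𝔓' : HeightOneSpectrum (𝓞 L₂)),
      (∀ y : L₂, 𝔓'.valuation L₂ y = 𝔓.valuation L₂ (σ y)) →
      ∀ y : L₂, Ev 𝔓' y ↔ Ev 𝔓 (σ y) := by
    intro 𝔓 𝔓' hv y
    constructor
    · rintro ⟨z, hz⟩
      exact ⟨σ z, by rw [← hv, ← hv, hz]⟩
    · rintro ⟨z, hz⟩
      refine ⟨σ.symm z, ?_⟩
      rw [hv, hv, σ.apply_symm_apply, hz]
  have hsq : ∀ (𝔓 𝔓' : HeightOneSpectrum (𝓞 L₂)),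
      (∀ y : L₂, 𝔓'.valuation L₂ y = 𝔓.valuation L₂ (σ y)) →
      ∀ y : L₂, Sq1 𝔓' y → Sq1 𝔓 (σ y) := by
    rintro 𝔓 𝔓' hv y ⟨z, hz⟩
    refine ⟨σ z, ?_⟩
    rw [hv, hv, map_sub, map_pow] at hz
    exact hz
  have hbel : ∀ (P P' : HeightOneSpectrum (𝓞 L₂)),
      (∀ y : L₂, P'.valuation L₂ y = P.valuation L₂ (σ y)) →
      below F (below K₂ P') = below F (below K₂ P) := by
    intro P P' hv'
    ext1
    ext a
    show algebraMap (𝓞 K₂) (𝓞 L₂) (algebraMap (𝓞 F) (𝓞 K₂) a) ∈ P'.asIdeal ↔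
      algebraMap (𝓞 K₂) (𝓞 L₂) (algebraMap (𝓞 F) (𝓞 K₂) a) ∈ P.asIdeal
    rw [hmemv, hmemv, hv']
    have e : algebraMap (𝓞 L₂) L₂ (algebraMap (𝓞 K₂) (𝓞 L₂) (algebraMap (𝓞 F) (𝓞 K₂) a)) =
        algebraMap K₂ L₂ (algebraMap F K₂ (a : F)) := rfl
    rw [e, ← hτ', hF]
  refine ⟨p.map (τ : K₂ →+* K₂), hval, ?_, ?_, ?_, ?_⟩
  · intro P h1 h2 h3
    obtain ⟨P', hv, -⟩ := key P
    have hv' : ∀ y : L₂, P'.valuation L₂ y = P.valuation L₂ (σ y) := hv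
    rw [hval]
    refine (hev P P' hv' _).1 (h.ev P' ?_ (fun q hq hc => h2 q hq ?_) ?_)
    · rw [hbel P P' hv']
      exact h1
    · exact (hnat P P' hv' q).1 hc
    · rw [hv', hση]
      exact h3
  · intro q hq P h1 h2
    obtain ⟨P', hv, -⟩ := key P
    have hv' : ∀ y : L₂, P'.valuation L₂ y = P.valuation L₂ (σ y) := hv
    have hb : below F (below K₂ P') = below F (below K₂ P) := by
      ext1
      ext a
      show algebraMap (𝓞 K₂) (𝓞 L₂) (algebraMap (𝓞 F) (𝓞 K₂) a) ∈ P'.asIdeal ↔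
        algebraMap (𝓞 K₂) (𝓞 L₂) (algebraMap (𝓞 F) (𝓞 K₂) a) ∈ P.asIdeal
      rw [hmemv, hmemv, hv']
      have e : algebraMap (𝓞 L₂) L₂ (algebraMap (𝓞 K₂) (𝓞 L₂) (algebraMap (𝓞 F) (𝓞 K₂) a)) =
          algebraMap K₂ L₂ (algebraMap F K₂ (a : F)) := rfl
      rw [e, ← hτ', hF]
    have h3 := h.u0 q hq P' (by
      show below F (below K₂ P') ∈ _
      rw [hb]
      exact h1) (by
      rw [hv', hσθ]
      exact h2)
    rw [hval]
    refine ⟨fun h4 => hsq P P' hv' _ (h3.1 ((hev P P' hv' _).2 h4)), fun h4 => ?_⟩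
    have h5 := hsq P P' hv' _ (h3.2 fun h6 => h4 ((hev P P' hv' _).1 h6))
    rw [map_mul, map_mul, map_natCast, hσθ] at h5
    exact h5
  · obtain ⟨τ', hτ'd⟩ : ∃ τ' : M ≃ₐ[K₁] M, τ' = τ.liftNormal M := ⟨_, rfl⟩
    have hc : ∀ y : K₂, τ' (algebraMap K₂ M y) = algebraMap K₂ M (τ y) := by
      intro y
      rw [hτ'd]
      exact AlgEquiv.liftNormal_commutes τ M y
    have h1 := hT.gal (τ'.restrictScalars F) _ h.two
    have e1 : ((p.map (algebraMap K₂ M)).map ((τ'.restrictScalars F : M ≃ₐ[F] M) : M →+* M)) =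
        (p.map (τ : K₂ →+* K₂)).map (algebraMap K₂ M) := by
      rw [Polynomial.map_map, Polynomial.map_map]
      congr 1
      exact RingHom.ext hc
    rw [e1] at h1
    exact h1
  · intro ρ
    have h1 := h.real (ρ.comp (τ : K₂ →+* K₂))
    have e1 : ∀ r : K₂[X], r.map (ρ.comp (τ : K₂ →+* K₂)) = (r.map (τ : K₂ →+* K₂)).map ρ := by
      intro r
      rw [Polynomial.map_map]
    rw [e1, e1, hfbτ] at h1
    exact h1

end sig

end Pool.Agent.H459.UT
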