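import Pool.Graph.R_pool_sql_team_seeded_63374d34.N2.PQ.Cant
import Pool.Graph.R_pool_sql_team_seeded_63374d34.N783.PQ.Loc

/-!
# The component at a rational root of the classes in the image of the curve (helper459)
-/

set_option autoImplicit false
set_option linter.all false

open Polynomial

namespace Pool.Agent.H459.UT

open Pool.Agent.N783.PQ (LocIm)

section lr

variable {k : Type} [Field k]

/-- All classes which come from divisors of points are squares at `r`. -/
theorem lr {f : k[X]} (hfm : f.Monic) (hfd : f.natDegree = 3) {r : k} (hr : f.eval r = 0)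
    (hr' : (derivative f).eval r ≠ 0) (hsq : IsSquare ((derivative f).eval r))
    (H : ∀ x y : k, y ^ 2 = f.eval x → x ≠ r → IsSquare (x - r)) :
    ∀ (n : ℕ) (u v : k[X]), u.Monic → u.natDegree = n → u.eval r ≠ 0 → u ∣ v ^ 2 - f →
      IsSquare ((-1) ^ n * u.eval r) := by
  obtain ⟨q, hq⟩ : ∃ q, f = (X - C r) * q := dvd_iff_isRoot.2 hr
  have hqr : q.eval r = (derivative f).eval r := by
    rw [hq, derivative_mul]
    simp
  intro n
  induction n using Nat.strong_induction_on with
  | _ n ih =>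
    intro u v hu hn hur hd
    rcases Nat.lt_or_ge n 2 with hn2 | hn2
    · rcases Nat.lt_or_ge n 1 with hn1 | hn1
      · have h0 : n = 0 := by omega
        have h1 : u = 1 := (Monic.natDegree_eq_zero hu).1 (by omega)
        rw [h0, h1]
        simp
      · have h0 : n = 1 := by omega
        obtain ⟨c, hcu⟩ : ∃ c, u = X + C c := ⟨u.coeff 0, hu.eq_X_add_C (by omega)⟩
        have h1 : (v.eval (-c)) ^ 2 = f.eval (-c) := by
          rw [hcu, ← sub_neg_eq_add, ← C_neg, dvd_iff_isRoot, IsRoot, eval_sub, eval_pow,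
            sub_eq_zero] at hd
          exact hd
        have h2 : -c ≠ r := by
          rintro rfl
          apply hur
          rw [hcu]
          simp
        have h3 := H _ _ h1 h2
        rw [h0, hcu]
        have e : (-1 : k) ^ 1 * (X + C c).eval r = -c - r := by
          simp
          ring
        rw [e]
        exact h3
    -- reduce `v`
    have hune : u ≠ 1 := by
      rintro rfl
      rw [natDegree_one] at hn
      omega
    obtain ⟨v₁, hv₁⟩ : ∃ v₁, v₁ = v %ₘ u := ⟨_, rfl⟩
    have hv1d : v₁.natDegree < n := by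
      rw [hv₁, ← hn]
      exact natDegree_modByMonic_lt v hu hune
    have hd1 : u ∣ v₁ ^ 2 - f := by
      have h1 : u ∣ v - v₁ := ⟨v /ₘ u, by
        have := modByMonic_add_div v u
        rw [hv₁]
        linear_combination -this⟩
      have h2 : v₁ ^ 2 - f = (v ^ 2 - f) - (v - v₁) * (v + v₁) := by ring
      rw [h2]
      exact dvd_sub hd (Dvd.dvd.mul_right h1 _)
    clear hv₁ hd v
    obtain ⟨w, hw⟩ : ∃ w, w = v₁ ^ 2 - f := ⟨_, rfl⟩
    rw [← hw] at hd1
    -- degree and leading coefficient of `w`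
    obtain ⟨c, d, hc0, hlc, hwd, hcd, hdn⟩ : ∃ (c : k) (d : ℕ), c ≠ 0 ∧ w.leadingCoeff = c ∧
        w.natDegree = d ∧ IsSquare (c * (-1) ^ d) ∧ d < 2 * n := by
      rcases Nat.lt_or_ge v₁.natDegree 2 with hlt | hge
      · have hdeg : (v₁ ^ 2).natDegree < f.natDegree := by
          rw [hfd, natDegree_pow]
          omega
        refine ⟨-1, 3, by simp, ?_, ?_, ?_, by omega⟩
        · have hdeg' : (v₁ ^ 2).degree < f.degree := by
            rw [degree_eq_natDegree hfm.ne_zero, hfd]
            refine lt_of_le_of_lt degree_le_natDegree ?_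
            rw [natDegree_pow]
            exact_mod_cast (by omega : 2 * v₁.natDegree < 3)
          rw [hw, ← neg_sub, leadingCoeff_neg, leadingCoeff_sub_of_degree_lt hdeg', hfm]
        · rw [hw, ← neg_sub, natDegree_neg, natDegree_sub_eq_left_of_natDegree_lt hdeg, hfd]
        · exact ⟨1, by norm_num⟩
      · have hv0 : v₁ ≠ 0 := by
          rintro rfl
          simp at hge
        have hlt' : f.degree < (v₁ ^ 2).degree := by
          rw [degree_eq_natDegree hfm.ne_zero, degree_eq_natDegree (pow_ne_zero 2 hv0), hfd,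
            natDegree_pow]
          exact_mod_cast (by omega : 3 < 2 * v₁.natDegree)
        refine ⟨v₁.leadingCoeff ^ 2, 2 * v₁.natDegree,
          pow_ne_zero 2 (leadingCoeff_ne_zero.2 hv0), ?_, ?_, ?_, by omega⟩
        · rw [hw, leadingCoeff_sub_of_degree_lt hlt', leadingCoeff_pow]
        · rw [hw, natDegree_eq_of_degree_eq (degree_sub_eq_left_of_degree_lt hlt'), natDegree_pow]
        · rw [pow_mul, neg_one_sq, one_pow, mul_one]
          exact ⟨v₁.leadingCoeff, by ring⟩
    obtain ⟨c', hc'⟩ : ∃ c', c' = c⁻¹ := ⟨_, rfl⟩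
    have hc'0 : c' ≠ 0 := by rw [hc']; exact inv_ne_zero hc0
    have hcc : c * c' = 1 := by rw [hc']; exact mul_inv_cancel₀ hc0
    by_cases hv : v₁.eval r = 0
    · -- `v₁` vanishes at `r`
      obtain ⟨v₂, hv₂⟩ : ∃ v₂, v₁ = (X - C r) * v₂ := dvd_iff_isRoot.2 hv
      obtain ⟨w₂, hw₂⟩ : ∃ w₂, w₂ = (X - C r) * v₂ ^ 2 - q := ⟨_, rfl⟩
      have hww : w = (X - C r) * w₂ := by
        rw [hw, hv₂, hw₂, hq]
        ring
      have hcop : IsCoprime u (X - C r) := by
        refine IsCoprime.symm ((irreducible_X_sub_C r).coprime_iff_not_dvd.2 fun h => hur ?_)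
        exact dvd_iff_isRoot.1 h
      have hd2 : u ∣ w₂ := by
        rw [hww] at hd1
        exact hcop.dvd_of_dvd_mul_left hd1
      obtain ⟨u₂, hu₂⟩ := hd2
      obtain ⟨u₃, hu₃⟩ : ∃ u₃, u₃ = C c' * u₂ := ⟨_, rfl⟩
      have hlc2 : w₂.leadingCoeff = c := by
        rw [← hlc, hww, leadingCoeff_mul, leadingCoeff_X_sub_C, one_mul]
      have hw20 : w₂ ≠ 0 := by
        rintro h0
        rw [h0, leadingCoeff_zero] at hlc2
        exact hc0 hlc2.symm
      have hlu2 : u₂.leadingCoeff = c := by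
        rw [← hlc2, hu₂, leadingCoeff_mul, hu.leadingCoeff, one_mul]
      have hu3m : u₃.Monic := by
        rw [hu₃, Monic, leadingCoeff_mul, leadingCoeff_C, hlu2, mul_comm, hcc]
      have hu2' : u₂ = C c * u₃ := by
        rw [hu₃, ← mul_assoc, ← C_mul, hcc, C_1, one_mul]
      have hd3 : 1 + (n + u₃.natDegree) = d := by
        rw [← hwd, hww, (monic_X_sub_C r).natDegree_mul' hw20, natDegree_X_sub_C, hu₂, hu2']
        have h5 : u * (C c * u₃) = C c * (u * u₃) := by ring
        rw [h5, natDegree_C_mul hc0, hu.natDegree_mul hu3m, hn]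
      have e1 : w₂.eval r = -(derivative f).eval r := by
        rw [hw₂, ← hqr]
        simp
      have e2 : c * (u.eval r * u₃.eval r) = -(derivative f).eval r := by
        rw [← e1, hu₂, hu2']
        simp only [eval_mul, eval_C]
        ring
      have hu3r : u₃.eval r ≠ 0 := by
        intro h0
        rw [h0] at e2
        apply hr'
        have e3 : (derivative f).eval r = -(c * (u.eval r * 0)) := by rw [e2, neg_neg]
        rw [e3]
        ring
      have h4 := ih u₃.natDegree (by omega) u₃ v₁ hu3m rfl hu3r (by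
        rw [← hw, hww, hu₂, hu2']
        exact ⟨(X - C r) * u * C c, by ring⟩)
      obtain ⟨x, hx⟩ := h4
      obtain ⟨y, hy⟩ := hcd
      obtain ⟨z, hz⟩ := hsq
      refine ⟨x * y * z / (c * u₃.eval r), ?_⟩
      have hs1 : (-1 : k) ^ u₃.natDegree * (-1) ^ u₃.natDegree = 1 := by
        rw [← mul_pow]
        norm_num
      have hs2 : (-1 : k) ^ d = -((-1) ^ n * (-1) ^ u₃.natDegree) := by
        rw [← hd3, pow_add, pow_add]
        ring
      rw [hs2] at hy
      rw [hz] at e2
      obtain ⟨a, ha⟩ : ∃ a : k, a = (-1) ^ n := ⟨_, rfl⟩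
      obtain ⟨b, hb⟩ : ∃ b : k, b = (-1) ^ u₃.natDegree := ⟨_, rfl⟩
      obtain ⟨U, hU⟩ : ∃ U : k, U = u.eval r := ⟨_, rfl⟩
      obtain ⟨T, hT⟩ : ∃ T : k, T = u₃.eval r := ⟨_, rfl⟩
      rw [← ha, ← hb] at hy
      rw [← hb, ← hT] at hx
      rw [← hb] at hs1
      rw [← hU, ← hT] at e2
      rw [← hT] at hu3r
      rw [← ha, ← hU, ← hT]
      have hmain : a * U * (c * T) ^ 2 = (x * y * z) * (x * y * z) := by
        have h6 : (x * y * z) * (x * y * z) = (x * x) * (y * y) * (z * z) := by ring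
        rw [h6, ← hx, ← hy]
        linear_combination (a * b * b * c * T) * e2 - (a * c ^ 2 * T ^ 2 * U) * hs1
      field_simp
      linear_combination hmain
    · -- `v₁` does not vanish at `r`
      obtain ⟨u₂, hu₂⟩ := hd1
      obtain ⟨u₃, hu₃⟩ : ∃ u₃, u₃ = C c' * u₂ := ⟨_, rfl⟩
      have hlu2 : u₂.leadingCoeff = c := by
        rw [← hlc, hu₂, leadingCoeff_mul, hu.leadingCoeff, one_mul]
      have hu3m : u₃.Monic := by
        rw [hu₃, Monic, leadingCoeff_mul, leadingCoeff_C, hlu2, mul_comm, hcc]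
      have hu2' : u₂ = C c * u₃ := by
        rw [hu₃, ← mul_assoc, ← C_mul, hcc, C_1, one_mul]
      have hd3 : n + u₃.natDegree = d := by
        rw [← hwd, hu₂, hu2']
        have h5 : u * (C c * u₃) = C c * (u * u₃) := by ring
        rw [h5, natDegree_C_mul hc0, hu.natDegree_mul hu3m, hn]
      have e2 : c * (u.eval r * u₃.eval r) = v₁.eval r ^ 2 := by
        have h5 := congrArg (eval r) hw
        rw [hu₂, hu2', eval_sub, hr, sub_zero, eval_pow] at h5
        rw [← h5]
        simp only [eval_mul, eval_C]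
        ring
      have hu3r : u₃.eval r ≠ 0 := by
        intro h0
        rw [h0] at e2
        apply hv
        have h5 : v₁.eval r ^ 2 = 0 := by linear_combination -e2
        exact pow_eq_zero_iff (two_ne_zero) |>.1 h5
      have h4 := ih u₃.natDegree (by omega) u₃ v₁ hu3m rfl hu3r (by
        rw [← hw, hu₂, hu2']
        exact ⟨u * C c, by ring⟩)
      obtain ⟨x, hx⟩ := h4
      obtain ⟨y, hy⟩ := hcd
      refine ⟨x * y * v₁.eval r / (c * u₃.eval r), ?_⟩
      have hs1 : (-1 : k) ^ u₃.natDegree * (-1) ^ u₃.natDegree = 1 := by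
        rw [← mul_pow]
        norm_num
      have hs2 : (-1 : k) ^ d = (-1) ^ n * (-1) ^ u₃.natDegree := by
        rw [← hd3, pow_add]
      rw [hs2] at hy
      obtain ⟨a, ha⟩ : ∃ a : k, a = (-1) ^ n := ⟨_, rfl⟩
      obtain ⟨b, hb⟩ : ∃ b : k, b = (-1) ^ u₃.natDegree := ⟨_, rfl⟩
      obtain ⟨U, hU⟩ : ∃ U : k, U = u.eval r := ⟨_, rfl⟩
      obtain ⟨T, hT⟩ : ∃ T : k, T = u₃.eval r := ⟨_, rfl⟩
      obtain ⟨V, hV⟩ : ∃ V : k, V = v₁.eval r := ⟨_, rfl⟩
      rw [← ha, ← hb] at hy
      rw [← hb, ← hT] at hx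
      rw [← hb] at hs1
      rw [← hU, ← hT, ← hV] at e2
      rw [← hT] at hu3r
      rw [← ha, ← hU, ← hT, ← hV]
      have hmain : a * U * (c * T) ^ 2 = (x * y * V) * (x * y * V) := by
        have h6 : (x * y * V) * (x * y * V) = (x * x) * (y * y) * V ^ 2 := by ring
        rw [h6, ← hx, ← hy, ← e2]
        linear_combination (- a * c ^ 2 * T ^ 2 * U) * hs1
      field_simp
      linear_combination hmain

/-- Classes in the image of the curve are squares at `r`. -/
theorem lr_loc {f : k[X]} (hfm : f.Monic) (hfd : f.natDegree = 3) {r : k} (hr : f.eval r = 0)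
    (hr' : (derivative f).eval r ≠ 0) (hsq : IsSquare ((derivative f).eval r))
    (H : ∀ x y : k, y ^ 2 = f.eval x → x ≠ r → IsSquare (x - r)) {h : k[X]}
    (hl : LocIm k f h) : IsSquare (h.eval r) := by
  obtain ⟨l, s, hl1, t, ht⟩ := hl
  have h1 : ∀ p ∈ l, p.1.eval r ≠ 0 := by
    intro p hp h0
    obtain ⟨-, ⟨a, b, hab⟩, -⟩ := hl1 p hp
    have := congrArg (eval r) hab
    rw [eval_add, eval_mul, eval_mul, h0, hr, mul_zero, mul_zero, add_zero, eval_one] at this
    exact zero_ne_one this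
  have h2 : ∀ (l : List (k[X] × k[X])), (∀ p ∈ l, p.1.Monic ∧ IsCoprime p.1 f ∧
      p.1 ∣ p.2 ^ 2 - f) → (∀ p ∈ l, p.1.eval r ≠ 0) →
      ∃ z : k, z ≠ 0 ∧ ((l.map fun p : k[X] × k[X] => (-1 : k[X]) ^ p.1.natDegree * p.1).prod).eval r = z * z := by
    intro l
    induction l with
    | nil =>
      intro _ _
      exact ⟨1, one_ne_zero, by simp⟩
    | cons p l ih =>
      intro hl hl0
      obtain ⟨z, hz0, hz⟩ := ih (fun p hp => hl p (List.mem_cons_of_mem _ hp))
        (fun p hp => hl0 p (List.mem_cons_of_mem _ hp))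
      obtain ⟨a1, a2, a3⟩ := hl p (List.mem_cons_self)
      have a4 := hl0 p (List.mem_cons_self)
      obtain ⟨y, hy⟩ := lr hfm hfd hr hr' hsq H _ p.1 p.2 a1 rfl a4 a3
      have hy0 : y ≠ 0 := by
        rintro rfl
        rw [mul_zero] at hy
        rcases mul_eq_zero.1 hy with h | h
        · exact absurd h (pow_ne_zero _ (neg_ne_zero.2 one_ne_zero))
        · exact a4 h
      refine ⟨y * z, mul_ne_zero hy0 hz0, ?_⟩
      rw [List.map_cons, List.prod_cons, eval_mul, hz, eval_mul, eval_pow, eval_neg, eval_one, hy]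
      ring
  obtain ⟨z, hz0, hz⟩ := h2 l hl1 h1
  have h3 := congrArg (eval r) ht
  rw [eval_sub, eval_mul, hz, eval_pow, eval_mul, hr, zero_mul] at h3
  refine ⟨s.eval r / z, ?_⟩
  field_simp
  linear_combination h3

end lr

end Pool.Agent.H459.UT
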