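import Pool.Agent.H459.UT.MainT

/-!
# A positive proportion of elliptic curves (helper459)

After `UF/MainV.lean`.
-/

set_option autoImplicit false
set_option linter.all false

open Polynomial NumberField IsDedekindDomain MulAction
open scoped Classical Pointwise

namespace Pool.Agent.H459.UT

open Pool.Agent.H459.UF
open Pool.Agent.N783.PF
open Pool.Agent.N352.PJ (dd)
open Pool.Agent.N99.PF (card_fib ht_card ht_scale scale_inj good_card)
open Pool.Agent.N874.PP (sW)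
open Pool.Agent.TH115.GD (Pt)
open Pool.Agent.N874.QM (SelC ShaC SelM)
open Pool.Agent.N61.PF (pol pol_monic pol_natDegree pol_coeff0 pol_coeff1 pol_coeff2 eq_pol fF_eq
  disc_ne crv_finite crv_upper ht_lower crv_of_ht exists_B)

theorem goodm_of {F : Type} [Field F] [NumberField F] {M : Type} [Field M] [NumberField M]
    [Algebra F M] [IsGalois F M] {n : ℕ} (hn : Module.finrank F M = 2 ^ n) {B : ℕ} {f : (𝓞 F)[X]}
    (h : Ht 1 B f) (hirr : Irreducible (fF f)) (hsel : SelZero (fo M f)) :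
    GoodM F M (f.coeff 1, f.coeff 0) := by
  have hd3 : f.natDegree = 3 := h.deg
  have hfo : fF (fo M f) = fb M f := (fb_eq M f).symm
  have hfb : fF (fo M f) = X ^ 3 + C (algebraMap F M ((f.coeff 1 : 𝓞 F) : F)) * X +
      C (algebraMap F M ((f.coeff 0 : 𝓞 F) : F)) := by
    rw [hfo]
    unfold fb
    rw [fF_eq h]
    simp
  have hirrM : Irreducible (fF (fo M f)) := by
    rw [hfo]
    exact Pool.Agent.N874.JM.irr_up hn hirr (h.mon.map _) (by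
      rw [h.mon.natDegree_map, hd3]
      decide)
  rw [hfb] at hirrM
  have hd := Pool.Agent.N61.PF.disc_ne hirrM
  have hsel' : SelM M (X ^ 3 + C (algebraMap F M ((f.coeff 1 : 𝓞 F) : F)) * X +
      C (algebraMap F M ((f.coeff 0 : 𝓞 F) : F))) := by
    rw [← hfb]
    exact hsel
  have hs := selc M _ _ hd hirrM hsel'
  obtain ⟨hdiv, hsha⟩ := Pool.Agent.N713.QM.gfc M _ _ hd hs
  obtain ⟨hfi, ho⟩ := Pool.Agent.N459.QM.finc M _ _ hd hdiv
  exact ⟨hs, hsha, hfi, ho⟩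

theorem finT (F : Type) [Field F] [NumberField F] (M : Type) [Field M] [NumberField M]
    [Algebra F M] [IsGalois F M] (n : ℕ) (hn : Module.finrank F M = 2 ^ n)
    (hcyc : ∀ w : HeightOneSpectrum (𝓞 M), (2 : 𝓞 M) ∈ w.asIdeal →
      IsCyclic (stabilizer (M ≃ₐ[F] M) w.asIdeal)) :
    ∃ c : ℝ, 0 < c ∧ ∃ Y₀ : ℝ, ∀ Y : ℝ, {p : 𝓞 F × 𝓞 F | Crv Y p}.Finite ∧
      (Y₀ ≤ Y → 0 < {p : 𝓞 F × 𝓞 F | Crv Y p}.ncard ∧
        c * ({p : 𝓞 F × 𝓞 F | Crv Y p}.ncard : ℝ) ≤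
          ({p : 𝓞 F × 𝓞 F | Crv Y p ∧ GoodM F M p}.ncard : ℝ)) := by
  obtain ⟨-, C, hC, hlow, hup⟩ := Pool.Agent.N490.PF.pts F
  obtain ⟨c, hc, B₀, hmain⟩ := mainT F M n hn hcyc
  set d := Module.finrank ℚ F with hd
  set B₁ : ℕ := max B₀ 1 with hB₁
  refine ⟨c / (C ^ 2 * (C ^ 2 * 2 ^ (6 * d + 2))), by positivity, 27 * (B₁ : ℝ) ^ 6, ?_⟩
  intro Y
  have hfin := crv_finite (F := F) Pool.Agent.N490.PF.pts Y
  refine ⟨hfin, ?_⟩
  intro hY
  have hB₁1 : 1 ≤ B₁ := le_max_right _ _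
  have hB₁r : (1 : ℝ) ≤ B₁ := by exact_mod_cast hB₁1
  have hY27 : 27 ≤ Y := by
    have : (1 : ℝ) ≤ (B₁ : ℝ) ^ 6 := one_le_pow₀ hB₁r
    linarith
  obtain ⟨B, hBB, hBY, hYB⟩ := exists_B B₁ Y hB₁1 hY
  have hB1 : 1 ≤ B := hB₁1.trans hBB
  obtain ⟨hfinH, hprop⟩ := hmain B ((le_max_left _ _).trans hBB)
  constructor
  · rw [Set.ncard_pos hfin]
    refine ⟨(1, 1), ⟨?_, ?_, ?_⟩⟩
    · norm_num
    · intro 𝔭 hp _ hcon
      apply hp.ne_top
      rw [Ideal.eq_top_iff_one]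
      exact Ideal.pow_le_self (by norm_num) hcon.1
    · intro σ
      constructor
      · simp; linarith
      · simp; linarith
  · have hu := crv_upper hC hup hB1 hYB
    have hl := ht_lower hC hlow hB1 hfinH
    rw [← hd] at hu hl
    have h5 : ({f : (𝓞 F)[X] | Ht 1 B f ∧ Irreducible (fF f) ∧ Min 1 f ∧
        SelZero (fo M f)}.ncard : ℝ) ≤
        ({p : 𝓞 F × 𝓞 F | Crv Y p ∧ GoodM F M p}.ncard : ℝ) := by
      have h6 := Set.ncard_le_ncard_of_injOn (fun f : (𝓞 F)[X] => (f.coeff 1, f.coeff 0))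
        (s := {f : (𝓞 F)[X] | Ht 1 B f ∧ Irreducible (fF f) ∧ Min 1 f ∧ SelZero (fo M f)})
        (t := {p : 𝓞 F × 𝓞 F | Crv Y p ∧ GoodM F M p})
        (fun f hf => ⟨crv_of_ht hf.1 hf.2.1 hf.2.2.1 hBY, goodm_of hn hf.1 hf.2.1 hf.2.2.2⟩)
        (by
          intro f hf f' hf' h
          have e := Prod.mk.injEq .. ▸ h
          rw [eq_pol hf.1, eq_pol hf'.1, e.1, e.2])
        (hfin.subset fun p hp => hp.1)
      exact_mod_cast h6
    have hBd : 0 < (B : ℝ) ^ (5 * d) := by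
      have : (0 : ℝ) < B := by exact_mod_cast hB1
      positivity
    have h7 : ({p : 𝓞 F × 𝓞 F | Crv Y p}.ncard : ℝ) ≤
        (C ^ 2 * 2 ^ (6 * d + 2)) * (C ^ 2 * ({f : (𝓞 F)[X] | Ht 1 B f}.ncard : ℝ)) :=
      hu.trans (mul_le_mul_of_nonneg_left hl (by positivity))
    calc c / (C ^ 2 * (C ^ 2 * 2 ^ (6 * d + 2))) * ({p : 𝓞 F × 𝓞 F | Crv Y p}.ncard : ℝ)
        ≤ c / (C ^ 2 * (C ^ 2 * 2 ^ (6 * d + 2))) *
          ((C ^ 2 * 2 ^ (6 * d + 2)) * (C ^ 2 * ({f : (𝓞 F)[X] | Ht 1 B f}.ncard : ℝ))) :=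
          mul_le_mul_of_nonneg_left h7 (by positivity)
      _ = c * ({f : (𝓞 F)[X] | Ht 1 B f}.ncard : ℝ) := by
          field_simp
      _ ≤ _ := hprop.trans h5

end Pool.Agent.H459.UT
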