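import Pool.Agent.H459.UT.Lt
import Pool.Graph.R_pool_sql_team_seeded_63374d34.N591.PF.Iso1

/-!
# Local lattices at the good and at the bad primes (helper459)
-/

set_option autoImplicit false
set_option linter.all false

open Polynomial IsDedekindDomain Matrix NumberField WithZero
open scoped Classical

namespace Pool.Agent.H459.UT

open Pool.Agent.N783.PF
open Pool.Agent.N352.PJ (Mt Typ dd)
open Pool.Agent.N874.PP (Ev Sq1 U0)
open Pool.Agent.N783.PQ (tp Gm)
open Pool.Agent.N862.PF (top_pow theta_int theta_ex int_iff)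
open Pool.Agent.N747.PF (denw)
open Pool.Agent.N644.PQ.HunC (finite_over approx)
open Pool.Agent.N783.PF.R2 (top_aeval Gm_det)
open Pool.Agent.N591.PF (vx ball apx)

section good

variable {F L : Type} [Field F] [NumberField F] [Field L] [NumberField L] [Algebra F L]
  {g : ℕ} {f : (𝓞 F)[X]} {θ : L}

/-- The condition at a good prime. -/
def Cgd (α : L) (w : HeightOneSpectrum (𝓞 F)) (x : L) : Prop :=
  ∀ 𝔓 : HeightOneSpectrum (𝓞 L), Ov w.asIdeal 𝔓 → 𝔓.valuation L (x ^ 2 / α) ≤ 1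

theorem val_F {w : HeightOneSpectrum (𝓞 F)} {𝔓 : HeightOneSpectrum (𝓞 L)} (h : Ov w.asIdeal 𝔓)
    {a : F} (ha : w.valuation F a ≤ 1) : 𝔓.valuation L (algebraMap F L a) ≤ 1 := by
  have hb : Pool.Agent.H459.UF.below F 𝔓 = w := Pool.Agent.H459.UF.eq_below h
  rw [← hb] at ha
  exact (Pool.Agent.H459.UF.val_le_below 𝔓 ha).trans ha

theorem sq_le1 {G : Type*} [LinearOrderedCommGroupWithZero G] {a : G} (h : a ^ 2 ≤ 1) : a ≤ 1 := by
  by_contra h1
  push Not at h1
  have h2 : 1 < a ^ 2 := by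
    rw [sq]
    exact one_lt_mul'' h1 h1
  exact absurd h (not_le.2 h2)

theorem cgd_prod {α : L} {𝔓 : HeightOneSpectrum (𝓞 L)} {x y : L}
    (hx : 𝔓.valuation L (x ^ 2 / α) ≤ 1) (hy : 𝔓.valuation L (y ^ 2 / α) ≤ 1) :
    𝔓.valuation L (x * y / α) ≤ 1 := by
  apply sq_le1
  rw [← map_pow]
  have e : (x * y / α) ^ 2 = (x ^ 2 / α) * (y ^ 2 / α) := by ring
  rw [e, map_mul]
  exact mul_le_one' hx hy

theorem cgd_add {α : L} {w : HeightOneSpectrum (𝓞 F)} {x y : L} (hx : Cgd α w x)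
    (hy : Cgd α w y) : Cgd α w (x + y) := by
  intro 𝔓 h𝔓
  have h1 := cgd_prod (hx 𝔓 h𝔓) (hy 𝔓 h𝔓)
  have e : (x + y) ^ 2 / α = x ^ 2 / α + (x * y / α + x * y / α) + y ^ 2 / α := by ring
  rw [e]
  refine (Valuation.map_add_le _ (Valuation.map_add_le _ (hx 𝔓 h𝔓)
    (Valuation.map_add_le _ h1 h1)) (hy 𝔓 h𝔓))

theorem cgd_mul {α : L} {w : HeightOneSpectrum (𝓞 F)} {x y : L} (hx : Cgd α w x)
    (hy : ∀ 𝔓 : HeightOneSpectrum (𝓞 L), Ov w.asIdeal 𝔓 → 𝔓.valuation L y ≤ 1) :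
    Cgd α w (y * x) := by
  intro 𝔓 h𝔓
  have e : (y * x) ^ 2 / α = y ^ 2 * (x ^ 2 / α) := by ring
  rw [e, map_mul, map_pow]
  exact mul_le_one' (pow_le_one' (hy 𝔓 h𝔓) 2) (hx 𝔓 h𝔓)

theorem cgd_smul {α : L} {w : HeightOneSpectrum (𝓞 F)} {x : L} {a : F}
    (ha : w.valuation F a ≤ 1) (hx : Cgd α w x) : Cgd α w (algebraMap F L a * x) :=
  cgd_mul hx fun 𝔓 h𝔓 => val_F h𝔓 ha

theorem val_theta' (hG : IsGen g f θ) (𝔓 : HeightOneSpectrum (𝓞 L)) : 𝔓.valuation L θ ≤ 1 := by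
  obtain ⟨t, ht⟩ := theta_ex hG
  rw [← ht]
  exact 𝔓.valuation_le_one t

theorem cgd_den (α : L) (x : L) : ∃ N : 𝓞 F, N ≠ 0 ∧
    ∀ w : HeightOneSpectrum (𝓞 F), Cgd α w (algebraMap F L (N : F) * x) := by
  have halg : IsAlgebraic ℤ (x ^ 2 / α) :=
    (IsFractionRing.isAlgebraic_iff ℤ ℚ L).2 (Algebra.IsAlgebraic.isAlgebraic (x ^ 2 / α))
  obtain ⟨b, hb0, hb⟩ := halg.exists_integral_multiple
  refine ⟨(b : 𝓞 F), by exact_mod_cast hb0, fun w 𝔓 h𝔓 => ?_⟩
  obtain ⟨z, hz⟩ := (int_iff _).1 hb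
  have e : (algebraMap F L (((b : 𝓞 F) : 𝓞 F) : F) * x) ^ 2 / α =
      algebraMap (𝓞 L) L ((b : 𝓞 L) * z) := by
    rw [map_mul, hz]
    simp
    ring
  rw [e]
  exact 𝔓.valuation_le_one _

theorem top_val (hG : IsGen g f θ) (w : HeightOneSpectrum (𝓞 F)) (k : ℕ) :
    w.valuation F (hG.top (θ ^ k)) ≤ 1 := by
  have e : θ ^ k = aeval θ (X ^ k : F[X]) := by rw [map_pow, aeval_X]
  rw [e, top_aeval hG]
  unfold tp
  have e2 : (X ^ k : F[X]) %ₘ fF f = (((X ^ k : (𝓞 F)[X]) %ₘ f)).map (algebraMap (𝓞 F) F) := by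
    rw [Polynomial.map_modByMonic _ hG.mon, Polynomial.map_pow, map_X]
  rw [e2, coeff_map]
  exact w.valuation_le_one _

theorem cgd_int (hG : IsGen g f θ) {α : L} {w : HeightOneSpectrum (𝓞 F)}
    (hsq : dsc g f ∉ w.asIdeal ^ 2) {x y : L} (hx : Cgd α w x) (hy : Cgd α w y) :
    w.valuation F (hG.top (x * y / α)) ≤ 1 := by
  obtain ⟨m, hm, z, hz⟩ := denw w (x * y / α) fun 𝔓 h𝔓 => cgd_prod (hx 𝔓 h𝔓) (hy 𝔓 h𝔓)
  obtain ⟨s, hs, c, hc⟩ := int_at hG w.isPrime w.ne_bot hsq z.isIntegral_coe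
  have hm1 : w.valuation F (m : F) = 1 := by
    refine le_antisymm (w.valuation_le_one m) (not_lt.1 fun h5 => hm ?_)
    exact (w.valuation_lt_one_iff_mem m).1 h5
  have hs1 : w.valuation F (s : F) = 1 := by
    refine le_antisymm (w.valuation_le_one s) (not_lt.1 fun h5 => hs ?_)
    exact (w.valuation_lt_one_iff_mem s).1 h5
  rw [hz] at hc
  have h1 : hG.top (algebraMap F L (s : F) * (algebraMap F L (m : F) * (x * y / α))) =
      (s : F) * ((m : F) * hG.top (x * y / α)) := by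
    rw [← Algebra.smul_def, ← Algebra.smul_def, map_smul, map_smul, smul_eq_mul, smul_eq_mul]
  rw [hc] at h1
  have h2 : w.valuation F (hG.top (∑ i, algebraMap F L (c i : F) * θ ^ (i : ℕ))) ≤ 1 := by
    rw [map_sum]
    refine Valuation.map_sum_le _ fun i _ => ?_
    rw [← Algebra.smul_def, map_smul, smul_eq_mul, map_mul]
    exact mul_le_one' (w.valuation_le_one (c i)) (top_val hG w _)
  rwa [h1, map_mul, map_mul, hs1, hm1, one_mul, one_mul] at h2

/-- an element with moments which are integral at `w` is integral at `w` -/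
theorem int_of_top (hG : IsGen g f θ) (w : HeightOneSpectrum (𝓞 F)) {z : L}
    (hz : ∀ m ≤ 2 * g, w.valuation F (hG.top (z * θ ^ m)) ≤ 1) {𝔓 : HeightOneSpectrum (𝓞 L)}
    (h𝔓 : Ov w.asIdeal 𝔓) : 𝔓.valuation L z ≤ 1 := by
  obtain ⟨c, hc⟩ := hG.gen z
  have key : ∀ m : ℕ, ∀ i : Fin (2 * g + 1), (i : ℕ) + m = 2 * g → w.valuation F (c i) ≤ 1 := by
    intro m
    induction m using Nat.strong_induction_on with
    | _ m ih =>
      intro i him
      have h1 : z * θ ^ m = ∑ l : Fin (2 * g + 1), c l • θ ^ ((l : ℕ) + m) := by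
        conv_lhs => rw [hc, Finset.sum_mul]
        refine Finset.sum_congr rfl fun l _ => ?_
        rw [pow_add, Algebra.smul_def]
        ring
      have h2 := hz m (by omega)
      rw [h1, map_sum, ← Finset.add_sum_erase _ _ (Finset.mem_univ i), map_smul, smul_eq_mul,
        top_pow hG _ (by omega), if_pos him, mul_one] at h2
      have h3 : w.valuation F (∑ l ∈ Finset.univ.erase i, hG.top (c l • θ ^ ((l : ℕ) + m))) ≤ 1 := by
        refine Valuation.map_sum_le _ fun l hl => ?_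
        have hli : l ≠ i := (Finset.mem_erase.mp hl).1
        have hli' : (l : ℕ) ≠ i := fun hh => hli (Fin.ext hh)
        rw [map_smul, smul_eq_mul]
        rcases lt_or_gt_of_ne hli' with hlt | hgt
        · rw [top_pow hG _ (by omega), if_neg (by omega), mul_zero, map_zero]
          exact zero_le
        · rw [map_mul]
          exact mul_le_one' (ih (2 * g - l) (by omega) l (by omega)) (top_val hG w _)
      have h4 := Valuation.map_sub_le _ h2 h3
      rwa [add_sub_cancel_right] at h4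
  rw [hc]
  refine Valuation.map_sum_le _ fun i _ => ?_
  rw [map_mul, map_pow]
  exact mul_le_one' (val_F h𝔓 (key (2 * g - i) i (by omega))) (pow_le_one' (val_theta' hG 𝔓) _)

theorem cgd_dual (hG : IsGen g f θ) {α : L} (hα : α ≠ 0) {w : HeightOneSpectrum (𝓞 F)}
    (hev : ∀ 𝔓 : HeightOneSpectrum (𝓞 L), Ov w.asIdeal 𝔓 → Ev 𝔓 α) {y : L}
    (hy : ∀ x, Cgd α w x → w.valuation F (hG.top (x * y / α)) ≤ 1) : Cgd α w y := by
  obtain ⟨a, haw, ha0⟩ : ∃ a ∈ w.asIdeal, a ≠ 0 := by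
    by_contra hcon
    push Not at hcon
    exact w.ne_bot ((Submodule.eq_bot_iff _).mpr hcon)
  have ha0' : algebraMap (𝓞 F) (𝓞 L) a ≠ 0 := by
    intro h0
    exact ha0 ((map_eq_zero_iff _ (FaithfulSMul.algebraMap_injective (𝓞 F) (𝓞 L))).1 h0)
  have hfin := finite_over (O := 𝓞 L) (algebraMap (𝓞 F) (𝓞 L) a) ha0'
  have hyy : ∀ 𝔓 : HeightOneSpectrum (𝓞 L), ∃ y : L, y ≠ 0 ∧ (Ov w.asIdeal 𝔓 →
      𝔓.valuation L α = 𝔓.valuation L y ^ 2) := by
    intro 𝔓
    by_cases h : Ov w.asIdeal 𝔓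
    · obtain ⟨y, hy⟩ := hev 𝔓 h
      refine ⟨y, ?_, fun _ => hy⟩
      rintro rfl
      rw [map_zero, zero_pow two_ne_zero] at hy
      exact hα ((Valuation.zero_iff _).1 hy)
    · exact ⟨1, one_ne_zero, fun h' => absurd h' h⟩
  choose u hu0 hu using hyy
  obtain ⟨x, hx0, hx⟩ := approx hfin.toFinset u (fun 𝔓 _ => hu0 𝔓)
  have hxv : ∀ 𝔓 : HeightOneSpectrum (𝓞 L), Ov w.asIdeal 𝔓 →
      𝔓.valuation L (x ^ 2 / α) = 1 := by
    intro 𝔓 h𝔓
    rw [map_div₀, map_pow, hx 𝔓 (hfin.mem_toFinset.2 (h𝔓 a haw)), hu 𝔓 h𝔓]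
    apply div_self
    have h1 := (Valuation.ne_zero_iff (𝔓.valuation L)).2 hα
    rwa [hu 𝔓 h𝔓] at h1
  have hxC : Cgd α w x := fun 𝔓 h𝔓 => (hxv 𝔓 h𝔓).le
  have hpow : ∀ m : ℕ, Cgd α w (θ ^ m * x) := fun m => cgd_mul hxC fun 𝔓 _ => by
    rw [map_pow]
    exact pow_le_one' (val_theta' hG 𝔓) m
  intro 𝔓 h𝔓
  have h1 : 𝔓.valuation L (x * y / α) ≤ 1 := by
    refine int_of_top hG w (fun m _ => ?_) h𝔓
    have e : x * y / α * θ ^ m = θ ^ m * x * y / α := by ring
    rw [e]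
    exact hy _ (hpow m)
  have e : (x * y / α) ^ 2 = (x ^ 2 / α) * (y ^ 2 / α) := by ring
  have h2 : 𝔓.valuation L ((x * y / α) ^ 2) ≤ 1 := by
    rw [map_pow]
    exact pow_le_one' h1 2
  rwa [e, map_mul, hxv 𝔓 h𝔓, one_mul] at h2

end good

section bad

variable {F L : Type} [Field F] [NumberField F] [Field L] [NumberField L] [Algebra F L]
  {g : ℕ} {f : (𝓞 F)[X]} {θ : L}

/-- Coordinates at a bad prime `w` with respect to a basis of a lattice, unimodular for the form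
`top (x y / α)` and stable under `θ`; the Gram matrix is `G`. -/
structure LL (hG : IsGen g f θ) (w : HeightOneSpectrum (𝓞 F)) (α : L)
    (G : Mt g (w.adicCompletion F)) (lam : L → Fin (2 * g + 1) → w.adicCompletion F) : Prop where
  add : ∀ x y, lam (x + y) = lam x + lam y
  smul : ∀ (a : F) (x : L), lam (algebraMap F L a * x) =
    algebraMap F (w.adicCompletion F) a • lam x
  form : ∀ x y, algebraMap F (w.adicCompletion F) (hG.top (x * y / α)) = lam x ⬝ᵥ (G *ᵥ lam y)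
  stab : ∀ x, (∀ i, Valued.v (lam x i) ≤ 1) → ∀ i, Valued.v (lam (θ * x) i) ≤ 1

/-- An integral matrix with integral inverse. -/
def UG {w : HeightOneSpectrum (𝓞 F)} (G : Mt g (w.adicCompletion F)) : Prop :=
  (∀ i j, Valued.v (G i j) ≤ 1) ∧ ∃ G' : Mt g (w.adicCompletion F),
    (∀ i j, Valued.v (G' i j) ≤ 1) ∧ G' * G = 1

variable {hG : IsGen g f θ} {w : HeightOneSpectrum (𝓞 F)} {α : L}
  {G : Mt g (w.adicCompletion F)} {lam : L → Fin (2 * g + 1) → w.adicCompletion F}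

theorem LL.sum (H : LL hG w α G lam) (c : Fin (2 * g + 1) → F) (e : Fin (2 * g + 1) → L) :
    lam (∑ i, algebraMap F L (c i) * e i) =
      (fun i => algebraMap F (w.adicCompletion F) (c i)) ᵥ* (Matrix.of fun i => lam (e i)) := by
  let φ : L →+ (Fin (2 * g + 1) → w.adicCompletion F) :=
    { toFun := lam
      map_zero' := by
        have := H.add 0 0
        rw [add_zero] at this
        exact left_eq_add.1 this
      map_add' := H.add }
  have h1 : φ (∑ i, algebraMap F L (c i) * e i) = ∑ i, φ (algebraMap F L (c i) * e i) :=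
    map_sum φ _ _
  have h2 : ∀ x, φ x = lam x := fun _ => rfl
  rw [h2] at h1
  rw [h1]
  funext j
  rw [Finset.sum_apply]
  unfold Matrix.vecMul dotProduct
  refine Finset.sum_congr rfl fun i _ => ?_
  rw [h2, H.smul]
  rfl

/-- the matrix of the coordinates -/
noncomputable def LP (lam : L → Fin (2 * g + 1) → w.adicCompletion F) (e : Fin (2 * g + 1) → L) :
    Mt g (w.adicCompletion F) := Matrix.of fun i => lam (e i)

theorem LL.gram (H : LL hG w α G lam) (e : Fin (2 * g + 1) → L) :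
    LP lam e * G * (LP lam e)ᵀ =
      (Matrix.of fun i j => hG.top (e i * e j / α)).map (algebraMap F (w.adicCompletion F)) := by
  refine Matrix.ext fun i j => ?_
  rw [Matrix.map_apply, Matrix.of_apply, H.form, Matrix.mul_assoc, Matrix.mul_apply]
  show (∑ k, LP lam e i k * (G * (LP lam e)ᵀ) k j) = ∑ k, lam (e i) k * (G *ᵥ lam (e j)) k
  refine Finset.sum_congr rfl fun k _ => ?_
  rfl

theorem LL.det_ne (hα : α ≠ 0) (H : LL hG w α G lam) :
    (LP lam fun i : Fin (2 * g + 1) => θ ^ (i : ℕ)).det ≠ 0 := by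
  have h1 := H.gram fun i : Fin (2 * g + 1) => θ ^ (i : ℕ)
  intro h0
  have h2 := congrArg Matrix.det h1
  rw [Matrix.det_mul, Matrix.det_mul, h0, zero_mul, zero_mul, ← RingHom.mapMatrix_apply,
    ← RingHom.map_det] at h2
  have h3 := (map_eq_zero_iff _ (algebraMap F (w.adicCompletion F)).injective).1 h2.symm
  obtain ⟨v, hv, hv0⟩ := Matrix.exists_mulVec_eq_zero_iff.2 h3
  have h4 : ∑ j : Fin (2 * g + 1), algebraMap F L (v j) * θ ^ (j : ℕ) / α = 0 := by
    refine top_nd hG fun i => ?_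
    have h5 := congrFun hv0 i
    rw [Pi.zero_apply] at h5
    rw [← h5, Finset.sum_mul, map_sum, Matrix.mulVec_eq_sum, Finset.sum_apply]
    refine Finset.sum_congr rfl fun j _ => ?_
    rw [Pi.smul_apply, Matrix.transpose_apply, Matrix.of_apply]
    have e : algebraMap F L (v j) * θ ^ (j : ℕ) / α * θ ^ (i : ℕ) =
        v j • (θ ^ (i : ℕ) * θ ^ (j : ℕ) / α) := by
      rw [Algebra.smul_def]
      ring
    rw [e, map_smul, smul_eq_mul, MulOpposite.smul_eq_mul_unop, MulOpposite.unop_op, mul_comm]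
  rw [← Finset.sum_div, div_eq_zero_iff] at h4
  rcases h4 with h4 | h4
  · apply hv
    have hli := Fintype.linearIndependent_iff.1 hG.basis.linearIndependent v (by
      rw [← h4]
      refine Finset.sum_congr rfl fun i _ => ?_
      rw [hG.basis_apply, Algebra.smul_def])
    funext i
    exact hli i
  · exact hα h4

open Topology in
/-- density -/
theorem LL.dense (hα : α ≠ 0) (H : LL hG w α G lam) (t : Fin (2 * g + 1) → w.adicCompletion F)
    (k : ℕ) : ∃ x : L, ∀ i, Valued.v (lam x i - t i) ≤ WithZero.exp (-(k : ℤ)) := by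
  obtain ⟨P, hP⟩ : ∃ P, P = LP lam (fun i : Fin (2 * g + 1) => θ ^ (i : ℕ)) := ⟨_, rfl⟩
  have hdet : IsUnit P.det := by
    rw [isUnit_iff_ne_zero, hP]
    exact H.det_ne hα
  obtain ⟨c, hc⟩ : ∃ c, c = t ᵥ* P⁻¹ := ⟨_, rfl⟩
  have hct : c ᵥ* P = t := by
    rw [hc, Matrix.vecMul_vecMul, Matrix.nonsing_inv_mul _ hdet, Matrix.vecMul_one]
  have hU : {c' : Fin (2 * g + 1) → w.adicCompletion F | ∀ i,
      (c' ᵥ* P) i - t i ∈ {x : w.adicCompletion F |
        Valued.v x ≤ WithZero.exp (-(k : ℤ))}} ∈ 𝓝 c := by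
    refine Filter.eventually_all.2 fun i => ?_
    have hcc : Continuous fun c' : Fin (2 * g + 1) → w.adicCompletion F =>
        (c' ᵥ* P) i - t i := by
      have h1 : Continuous fun c' : Fin (2 * g + 1) → w.adicCompletion F => (c' ᵥ* P) :=
        Continuous.matrix_vecMul continuous_id continuous_const
      exact ((continuous_apply i).comp h1).sub continuous_const
    refine hcc.continuousAt.preimage_mem_nhds ?_
    rw [hct, sub_self]
    exact ball w k
  have hd : DenseRange (fun c₀ : Fin (2 * g + 1) → F =>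
      fun i => algebraMap F (w.adicCompletion F) (c₀ i)) :=
    DenseRange.piMap fun i => w.denseRange_algebraMap F
  obtain ⟨c₀, hc₀⟩ := hd.mem_nhds hU
  refine ⟨∑ i, algebraMap F L (c₀ i) * θ ^ (i : ℕ), fun i => ?_⟩
  have h1 := hc₀ i
  rw [H.sum c₀ fun i => θ ^ (i : ℕ)]
  rw [hP] at h1
  exact h1

theorem v_sum_le {ι : Type} [Fintype ι] {f : ι → w.adicCompletion F} {z : WithZero (Multiplicative ℤ)}
    (h : ∀ i, Valued.v (f i) ≤ z) : Valued.v (∑ i, f i) ≤ z :=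
  Valuation.map_sum_le _ fun i _ => h i

theorem v_dot_le {u v : Fin (2 * g + 1) → w.adicCompletion F} {a b : WithZero (Multiplicative ℤ)}
    (hu : ∀ i, Valued.v (u i) ≤ a) (hv : ∀ i, Valued.v (v i) ≤ b) :
    Valued.v (u ⬝ᵥ v) ≤ a * b := by
  unfold dotProduct
  refine v_sum_le fun i => ?_
  rw [map_mul]
  exact mul_le_mul' (hu i) (hv i)

theorem LL.dual (hα : α ≠ 0) (H : LL hG w α G lam) (hU : UG G) {y : L}
    (hy : ∀ x, (∀ i, Valued.v (lam x i) ≤ 1) → w.valuation F (hG.top (x * y / α)) ≤ 1) :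
    ∀ i, Valued.v (lam y i) ≤ 1 := by
  obtain ⟨h1, G', h2, h3⟩ := hU
  obtain ⟨u, hu⟩ : ∃ u, u = G *ᵥ lam y := ⟨_, rfl⟩
  -- a bound for `u`
  obtain ⟨n, hn⟩ : ∃ n : ℕ, ∀ i, Valued.v (u i) ≤ WithZero.exp (n : ℤ) := by
    have h4 : ∀ i, ∃ n : ℕ, Valued.v (u i) ≤ WithZero.exp (n : ℤ) := by
      intro i
      by_cases h0 : Valued.v (u i) = (0 : WithZero (Multiplicative ℤ))
      · exact ⟨0, by rw [h0]; exact zero_le⟩
      · refine ⟨(WithZero.log (Valued.v (u i))).toNat, ?_⟩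
        conv_lhs => rw [← WithZero.exp_log h0]
        rw [WithZero.exp_le_exp]
        exact Int.self_le_toNat _
    choose n hn using h4
    refine ⟨∑ i, n i, fun i => (hn i).trans ?_⟩
    rw [WithZero.exp_le_exp]
    exact_mod_cast Finset.single_le_sum (f := n) (fun _ _ => Nat.zero_le _) (Finset.mem_univ i)
  have hui : ∀ i, Valued.v (u i) ≤ 1 := by
    intro i
    obtain ⟨x, hx⟩ := H.dense hα (Pi.single i 1) n
    have hx1 : ∀ j, Valued.v (lam x j) ≤ 1 := by
      intro j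
      have e : lam x j = (lam x j -
          (Pi.single i (1 : w.adicCompletion F) : Fin (2 * g + 1) → w.adicCompletion F) j) +
          (Pi.single i (1 : w.adicCompletion F) : Fin (2 * g + 1) → w.adicCompletion F) j := by
        ring
      rw [e]
      refine Valuation.map_add_le _ ((hx j).trans ?_) ?_
      · rw [← WithZero.exp_zero, WithZero.exp_le_exp]
        omega
      · by_cases hij : j = i
        · rw [hij, Pi.single_eq_same, map_one]
        · rw [Pi.single_eq_of_ne hij, map_zero]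
          exact zero_le
    have h5 := hy x hx1
    rw [← vx w, H.form, ← hu] at h5
    have h6 : u i = lam x ⬝ᵥ u - (lam x - Pi.single i 1) ⬝ᵥ u := by
      rw [sub_dotProduct, single_one_dotProduct]
      ring
    rw [h6]
    refine Valuation.map_sub_le _ h5 ?_
    refine (v_dot_le (a := WithZero.exp (-(n : ℤ))) (b := WithZero.exp (n : ℤ))
      (fun j => by rw [Pi.sub_apply]; exact hx j) hn).trans ?_
    rw [← WithZero.exp_add, neg_add_cancel, WithZero.exp_zero]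
  have h4 : lam y = G' *ᵥ u := by
    rw [hu, Matrix.mulVec_mulVec, h3, Matrix.one_mulVec]
  intro i
  rw [h4]
  have := v_dot_le (u := G' i) (v := u) (a := 1) (b := 1) (h2 i) hui
  rwa [one_mul] at this

theorem LL.int (H : LL hG w α G lam) (hU : UG G) {x y : L} (hx : ∀ i, Valued.v (lam x i) ≤ 1)
    (hy : ∀ i, Valued.v (lam y i) ≤ 1) : w.valuation F (hG.top (x * y / α)) ≤ 1 := by
  rw [← vx w, H.form]
  have h1 : ∀ i, Valued.v ((G *ᵥ lam y) i) ≤ 1 := by
    intro i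
    have := v_dot_le (u := G i) (v := lam y) (a := 1) (b := 1) (hU.1 i) hy
    rwa [one_mul] at this
  have := v_dot_le (u := lam x) (a := 1) (b := 1) hx h1
  rwa [one_mul] at this

/-- Two lattices with the same Gram matrix. -/
theorem LL.apx (hα : α ≠ 0) (H : LL hG w α G lam) {lam₁ : L → Fin (2 * g + 1) → w.adicCompletion F}
    (H₁ : LL hG w 1 G lam₁) {h : F[X]} (hh : aeval θ h = α) :
    Apx w (Gm g (fF f) 1) (Gm g (fF f) h) := by
  have hG1 := H₁.gram fun i : Fin (2 * g + 1) => θ ^ (i : ℕ)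
  have hG2 := H.gram fun i : Fin (2 * g + 1) => α * θ ^ (i : ℕ)
  have e1 : (Matrix.of fun i j : Fin (2 * g + 1) => hG.top (θ ^ (i : ℕ) * θ ^ (j : ℕ) / 1)) =
      Gm g (fF f) 1 := by
    ext i j
    rw [Matrix.of_apply, div_one]
    unfold Gm
    rw [Matrix.of_apply, ← top_aeval hG, one_mul, map_pow, aeval_X, pow_add]
  have e2 : (Matrix.of fun i j : Fin (2 * g + 1) =>
      hG.top (α * θ ^ (i : ℕ) * (α * θ ^ (j : ℕ)) / α)) = Gm g (fF f) h := by
    ext i j
    rw [Matrix.of_apply]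
    unfold Gm
    rw [Matrix.of_apply, ← top_aeval hG, map_mul, map_pow, aeval_X, hh, pow_add]
    congr 1
    field_simp
  rw [e1] at hG1
  rw [e2] at hG2
  obtain ⟨P, hP⟩ : ∃ P, P = LP lam₁ (fun i : Fin (2 * g + 1) => θ ^ (i : ℕ)) := ⟨_, rfl⟩
  obtain ⟨Q, hQ⟩ : ∃ Q, Q = LP lam (fun i : Fin (2 * g + 1) => α * θ ^ (i : ℕ)) := ⟨_, rfl⟩
  have hdet : IsUnit P.det := by
    rw [isUnit_iff_ne_zero, hP]
    exact H₁.det_ne one_ne_zero
  rw [← hP] at hG1
  rw [← hQ] at hG2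
  refine Pool.Agent.N591.PF.apx w _ _ (Q * P⁻¹) ?_
  rw [← hG1, ← hG2, Matrix.transpose_mul]
  have e3 : P⁻¹ * P = 1 := Matrix.nonsing_inv_mul P hdet
  have e4 : Pᵀ * P⁻¹ᵀ = 1 := by rw [← Matrix.transpose_mul, e3, Matrix.transpose_one]
  calc Q * P⁻¹ * (P * G * Pᵀ) * (P⁻¹ᵀ * Qᵀ)
      = Q * (P⁻¹ * P) * G * (Pᵀ * P⁻¹ᵀ) * Qᵀ := by
        simp only [Matrix.mul_assoc]
    _ = _ := by rw [e3, e4, Matrix.mul_one, Matrix.mul_one]

end bad

end Pool.Agent.H459.UT
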