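import Pool.Agent.H459.UT.Tt
import Pool.Agent.H459.UT.Ll
import Pool.Agent.H459.UF.Quad
import Mathlib.Algebra.QuadraticAlgebra.Basic

/-!
# Lattices at the primes over two (helper459)
-/

set_option autoImplicit false
set_option linter.all false

open Polynomial IsDedekindDomain Matrix NumberField WithZero
open scoped Classical IntermediateField

namespace Pool.Agent.H459.UT

open Pool.Agent.N352.PJ (Mt)
open Pool.Agent.N783.PF (IsGen fF)
open Pool.Agent.H459.UF (cu cu_monic cu_deg norm_eq Cub exists_poly exists_equiv norm_mk fb fb_self)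

section alg

variable {k : Type} [Field k] [CharZero k]

/-- elements of square norm -/
theorem qa_sq {D : k} (hD : D ≠ 0) (γ : QuadraticAlgebra k D 0) {n : k} (hn : n ≠ 0)
    (h : γ.norm = n ^ 2) : ∃ (e : k) (ν : QuadraticAlgebra k D 0), e ≠ 0 ∧ ν.norm ≠ 0 ∧
      γ = algebraMap k _ e * ν ^ 2 := by
  obtain ⟨a, b⟩ := γ
  rw [QuadraticAlgebra.norm_def] at h
  simp only at h
  have h' : a ^ 2 - D * b ^ 2 = n ^ 2 := by linear_combination h
  by_cases h0 : a + n = 0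
  · have ha : a = -n := by linear_combination h0
    have hb : b = 0 := by
      have : D * b ^ 2 = 0 := by
        rw [ha] at h'
        linear_combination -h'
      rcases mul_eq_zero.1 this with h1 | h1
      · exact absurd h1 hD
      · exact pow_eq_zero_iff (two_ne_zero) |>.1 h1
    refine ⟨a, 1, by rw [ha]; exact neg_ne_zero.2 hn, by rw [map_one]; exact one_ne_zero, ?_⟩
    rw [one_pow, mul_one, hb]
    rfl
  · refine ⟨1 / (2 * (a + n)), ⟨a + n, b⟩, by
      refine one_div_ne_zero (mul_ne_zero two_ne_zero h0), ?_, ?_⟩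
    · rw [QuadraticAlgebra.norm_def]
      simp only
      have : (a + n) * (a + n) + 0 * (a + n) * b - D * b * b = 2 * n * (a + n) := by
        linear_combination h'
      rw [this]
      exact mul_ne_zero (mul_ne_zero two_ne_zero hn) h0
    · rw [pow_two]
      ext
      · simp only [QuadraticAlgebra.re_mul, QuadraticAlgebra.algebraMap_re,
          QuadraticAlgebra.algebraMap_im, QuadraticAlgebra.im_mul]
        field_simp
        linear_combination h'
      · simp only [QuadraticAlgebra.re_mul, QuadraticAlgebra.algebraMap_re,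
          QuadraticAlgebra.algebraMap_im, QuadraticAlgebra.im_mul]
        field_simp
        ring

theorem qa_unit {D : k} {ν : QuadraticAlgebra k D 0} (h : ν.norm ≠ 0) :
    ∃ ν' : QuadraticAlgebra k D 0, ν * ν' = 1 := by
  have h1 : IsUnit ν := by
    rw [QuadraticAlgebra.isUnit_iff_norm_isUnit]
    exact isUnit_iff_ne_zero.2 h
  obtain ⟨u, rfl⟩ := h1
  exact ⟨↑u⁻¹, u.mul_inv⟩

end alg

section hom

variable {F L : Type} [Field F] [NumberField F] [Field L] [NumberField L] [Algebra F L]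
  {f : (𝓞 F)[X]} {θ : L}

theorem cub_of_gen {g : ℕ} (hG : IsGen g f θ) : Cub F f θ := by
  refine ⟨by rw [fb_self]; exact hG.root, ?_, by rw [hG.rank, hG.deg]⟩
  rw [eq_top_iff]
  intro x _
  obtain ⟨c, rfl⟩ := hG.gen x
  refine sum_mem fun i _ => mul_mem (algebraMap_mem _ _) (pow_mem ?_ _)
  exact IntermediateField.mem_adjoin_simple_self F θ

/-- evaluation -/
theorem ev_hom {g : ℕ} (hG : IsGen g f θ) {R : Type} [CommRing R] (j : F →+* R) (ρ : R)
    (h : (fF f).eval₂ j ρ = 0) : ∃ φ : L →+* R, (∀ a, φ (algebraMap F L a) = j a) ∧ φ θ = ρ ∧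
      ∀ p : F[X], φ (aeval θ p) = p.eval₂ j ρ := by
  have hc := cub_of_gen hG
  obtain ⟨e, he⟩ := exists_equiv hG.mon hc
  have h' : (fb F f).eval₂ j ρ = 0 := by rw [fb_self]; exact h
  have key : ∀ p : F[X], ((AdjoinRoot.lift j ρ h').comp (e.symm : L →+* AdjoinRoot (fb F f)))
      (aeval θ p) = p.eval₂ j ρ := by
    intro p
    show AdjoinRoot.lift j ρ h' (e.symm (aeval θ p)) = _
    rw [← he, e.symm_apply_apply, AdjoinRoot.lift_mk]
  refine ⟨(AdjoinRoot.lift j ρ h').comp (e.symm : L →+* AdjoinRoot (fb F f)), ?_, ?_, key⟩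
  · intro a
    have := key (C a)
    rwa [aeval_C, eval₂_C] at this
  · have := key X
    rwa [aeval_X, eval₂_X] at this

end hom

section lattice

variable {F L : Type} [Field F] [NumberField F] [Field L] [NumberField L] [Algebra F L]
  {f : (𝓞 F)[X]} {θ : L}

theorem cu_eval₂ {A B : F} {R : Type} [CommRing R] (j : F →+* R) (ρ : R) :
    (cu A B).eval₂ j ρ = ρ ^ 3 + j A * ρ + j B := by
  unfold cu
  simp

/-- the coefficient of `θ²` -/
theorem top_form (hG : IsGen 1 f θ) {k : Type} [Field k] [CharZero k] (j : F →+* k) {A : F}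
    {r D : k} (hD : D = -3 * r ^ 2 - 4 * j A) {φ₁ : L →+* k}
    {φ₂ : L →+* QuadraticAlgebra k D 0} (h1 : ∀ a, φ₁ (algebraMap F L a) = j a) (h1θ : φ₁ θ = r)
    (h2 : ∀ a, φ₂ (algebraMap F L a) = algebraMap k _ (j a)) (h2θ : φ₂ θ = ⟨-r / 2, 1 / 2⟩)
    (x : L) : j (hG.top x) * (3 * r ^ 2 + j A) = φ₁ x - (φ₂ x).re - 3 * r * (φ₂ x).im := by
  obtain ⟨c, hc⟩ := hG.gen x
  have htop : hG.top x = c 2 := by
    have e1 : x = ∑ i, c i • hG.basis i := by
      rw [hc]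
      refine Finset.sum_congr rfl fun i _ => ?_
      rw [hG.basis_apply, Algebra.smul_def]
    rw [e1, IsGen.top]
    have := hG.basis.repr_sum_self c
    exact congrFun this (Fin.last 2)
  have e2 : x = algebraMap F L (c 0) + algebraMap F L (c 1) * θ + algebraMap F L (c 2) * θ ^ 2 := by
    rw [hc]
    have : (∑ i : Fin (2 * 1 + 1), algebraMap F L (c i) * θ ^ (i : ℕ)) =
      ∑ i : Fin 3, algebraMap F L (c i) * θ ^ (i : ℕ) := rfl
    rw [this, Fin.sum_univ_three]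
    simp
  rw [htop]
  conv_rhs => rw [e2]
  simp only [map_add, map_mul, map_pow, h1, h1θ, h2, h2θ]
  simp only [pow_two, QuadraticAlgebra.re_add, QuadraticAlgebra.im_add, QuadraticAlgebra.re_mul,
    QuadraticAlgebra.im_mul, QuadraticAlgebra.algebraMap_re, QuadraticAlgebra.algebraMap_im]
  rw [hD]
  field_simp
  ring

/-- the norm in terms of the components -/
theorem norm_phi (hG : IsGen 1 f θ) {k : Type} [Field k] [CharZero k] (j : F →+* k) {A B : F}
    (hf : fF f = cu A B) {r D : k} (hD : D = -3 * r ^ 2 - 4 * j A)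
    (hr : r ^ 3 + j A * r + j B = 0) {φ₁ : L →+* k}
    {φ₂ : L →+* QuadraticAlgebra k D 0} (h1 : ∀ a, φ₁ (algebraMap F L a) = j a) (h1θ : φ₁ θ = r)
    (h2 : ∀ a, φ₂ (algebraMap F L a) = algebraMap k _ (j a)) (h2θ : φ₂ θ = ⟨-r / 2, 1 / 2⟩)
    (p : F[X]) : j (Algebra.norm F (aeval θ p)) = φ₁ (aeval θ p) * (φ₂ (aeval θ p)).norm := by
  have hc := cub_of_gen hG
  obtain ⟨c₀, c₁, c₂, hdv⟩ := cub_rep A B p
  have hroot : aeval θ (cu A B) = 0 := by
    rw [← hf]
    exact hG.root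
  have e1 : aeval θ p = algebraMap F L c₀ + algebraMap F L c₁ * θ + algebraMap F L c₂ * θ ^ 2 := by
    obtain ⟨q, hq⟩ := hdv
    have := congrArg (aeval θ) hq
    rw [map_mul, hroot, zero_mul, map_sub] at this
    rw [sub_eq_zero.1 this]
    simp
  have e2 : Algebra.norm F (aeval θ p) = Algebra.norm F (AdjoinRoot.mk (cu A B) p) := by
    rw [← norm_mk hG.mon hc, fb_self, hf]
  rw [e2, norm_cub hdv, e1]
  simp only [map_add, map_sub, map_mul, map_pow, map_neg, h1, h1θ, h2, h2θ]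
  rw [QuadraticAlgebra.norm_def]
  simp only [pow_two, QuadraticAlgebra.re_add, QuadraticAlgebra.im_add, QuadraticAlgebra.re_mul,
    QuadraticAlgebra.im_mul, QuadraticAlgebra.algebraMap_re, QuadraticAlgebra.algebraMap_im]
  have hB : j B = -r ^ 3 - j A * r := by linear_combination hr
  rw [hD, hB]
  field_simp
  ring

theorem TT.dval {k : Type} [Field k] [CharZero k] {v : Valuation k (WithZero (Multiplicative ℤ))}
    {A B : k} (H : TT v A B) {r : k} (hr : r ^ 3 + A * r + B = 0) (hv : v r < 1) :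
    v ((-3 * r ^ 2 - 4 * A) / 4) < 1 ∧ -3 * r ^ 2 - 4 * A ≠ 0 ∧ v (r / 2) ≤ 1 := by
  obtain ⟨h1, h2⟩ := H.near hr hv
  obtain ⟨w, hw0, hw⟩ := H.dsc hr hv
  obtain ⟨N, hN⟩ : ∃ N, N = 27 + 3 * A + B := ⟨_, rfl⟩
  obtain ⟨s, hs⟩ : ∃ s, s = r + 6 := ⟨_, rfl⟩
  have hrs : r = s - 6 := by rw [hs]; ring
  have hNv := H.hN
  have hN4 := H.N4
  have hN1 := H.N1
  have hN0 := H.n0
  rw [← hN] at h1 hNv hN4 hN1 hN0 hw
  rw [← hs] at h1
  have hz : r - 3 = s - 9 := by rw [hrs]; ring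
  rw [hz] at h2
  have h9 : s - 9 ≠ 0 := by
    intro h0
    rw [h0, map_zero] at h2
    exact zero_ne_one h2
  have e0 : (s - 9) * (9 + 3 * r + r ^ 2 + A) = -N := by
    rw [hN, hrs]
    rw [hrs] at hr
    linear_combination hr
  have e1 : -3 * r ^ 2 - 4 * A = s ^ 2 + 4 * N / (s - 9) := by
    field_simp
    rw [hrs] at e0 ⊢
    linear_combination (-4 : k) * e0
  have hv4 : v 4 ≠ 0 := (Valuation.ne_zero_iff _).2 (by norm_num)
  refine ⟨?_, ?_, ?_⟩
  · have e2 : (-3 * r ^ 2 - 4 * A) / 4 = s ^ 2 / 4 + N / (s - 9) := by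
      rw [e1]
      field_simp
    rw [e2]
    refine (Valuation.map_add _ _ _).trans_lt (max_lt ?_ ?_)
    · rw [map_div₀, map_pow, div_lt_iff₀ (zero_lt_iff.2 hv4), one_mul]
      calc v s ^ 2 ≤ v N ^ 2 := pow_le_pow_left' h1 2
        _ ≤ v N := by
            conv_rhs => rw [← pow_one (v N)]
            exact pow_le_pow_right_of_le_one' hN1.le (by norm_num)
        _ < v 4 := hN4
    · rw [map_div₀, h2, div_one]
      exact hN1
  · rw [hw]
    exact mul_ne_zero (neg_ne_zero.2 hN0) (pow_ne_zero _ hw0)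
  · have e2 : r / 2 = s / 2 - 3 := by rw [hrs]; ring
    rw [e2]
    refine (Valuation.map_sub _ _ _).trans (max_le ?_ ?_)
    · rw [map_div₀, div_le_iff₀ H.v2p, one_mul]
      refine h1.trans (hN4.le.trans ?_)
      rw [H.v4]
      conv_rhs => rw [← pow_one (v 2)]
      exact pow_le_pow_right_of_le_one' H.two.le (by norm_num)
    · exact_mod_cast v_nat_le v 3

/-- The Gram matrix. -/
def GT (k : Type) [Field k] : Mt 1 k := !![1, 0, 0; 0, 0, 1; 0, 1, 0]

theorem ug_gt (w : HeightOneSpectrum (𝓞 F)) : UG (GT (w.adicCompletion F)) := by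
  have h1 : ∀ i j, Valued.v (GT (w.adicCompletion F) i j) ≤ 1 := by
    intro i j
    fin_cases i <;> fin_cases j <;> simp [GT]
  refine ⟨h1, GT _, h1, ?_⟩
  ext i j
  fin_cases i <;> fin_cases j <;> simp [GT, Matrix.mul_apply, Fin.sum_univ_succ]

/-- normalization of the factor -/
theorem qa_norm {k : Type} [Field k] [CharZero k] {v : Valuation k (WithZero (Multiplicative ℤ))}
    {π : k} (hπ : v π = WithZero.exp (-1 : ℤ)) {D : k} (hD : D ≠ 0) (hD4 : v (D / 4) < 1)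
    (γ : QuadraticAlgebra k D 0) {n : k} (hn : n ≠ 0) (h : γ.norm = n ^ 2) :
    ∃ (e : k) (ν : QuadraticAlgebra k D 0), e ≠ 0 ∧ ν.norm ≠ 0 ∧
      γ = algebraMap k _ e * ν ^ 2 ∧ v (1 / e) ≤ 1 ∧ v (e * D / 4) ≤ 1 := by
  obtain ⟨e₀, ν₀, he₀, hν₀, hγ⟩ := qa_sq hD γ hn h
  have hπ0 : π ≠ 0 := by
    intro h0
    rw [h0, map_zero] at hπ
    exact WithZero.exp_ne_zero hπ.symm
  obtain ⟨t, ht⟩ : ∃ t : ℤ, v e₀ = WithZero.exp t :=
    ⟨WithZero.log _, (WithZero.exp_log ((Valuation.ne_zero_iff _).2 he₀)).symm⟩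
  obtain ⟨m, hm⟩ : ∃ m : ℤ, m = t / 2 := ⟨_, rfl⟩
  have hpz : ∀ m : ℤ, v (π ^ m) = WithZero.exp (-m) := by
    intro m
    rw [map_zpow₀, hπ, ← WithZero.exp_zsmul]
    congr 1
    simp
  obtain ⟨c, hc⟩ : ∃ c : k, c = π ^ (m : ℤ) := ⟨_, rfl⟩
  have hc0 : c ≠ 0 := by rw [hc]; exact zpow_ne_zero _ hπ0
  have hcv : v c = WithZero.exp (-m) := by rw [hc, hpz]
  have hev : v (e₀ * c ^ 2) = WithZero.exp (t - 2 * m) := by
    rw [map_mul, map_pow, ht, hcv, ← WithZero.exp_nsmul, ← WithZero.exp_add]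
    congr 1
    simp
    ring
  refine ⟨e₀ * c ^ 2, algebraMap k _ c⁻¹ * ν₀, mul_ne_zero he₀ (pow_ne_zero _ hc0), ?_, ?_, ?_, ?_⟩
  · rw [map_mul, QuadraticAlgebra.norm_algebraMap]
    exact mul_ne_zero (pow_ne_zero _ (inv_ne_zero hc0)) hν₀
  · rw [hγ, mul_pow, ← mul_assoc, ← map_pow, ← map_mul]
    congr 2
    field_simp
  · rw [map_div₀, map_one, hev, one_div, ← WithZero.exp_neg, ← WithZero.exp_zero,
      WithZero.exp_le_exp]
    omega
  · have h1 := Pool.Agent.H459.UF.le_one_of_lt hD4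
    rw [mul_div_assoc, map_mul, hev]
    refine (mul_le_mul' le_rfl h1).trans ?_
    rw [← WithZero.exp_add, ← WithZero.exp_zero, WithZero.exp_le_exp]
    omega

/-- The coordinates. -/
theorem ll_abs (hG : IsGen 1 f θ) {k : Type} [Field k] [CharZero k]
    (v : Valuation k (WithZero (Multiplicative ℤ))) (j : F →+* k) {A B : F} (hf : fF f = cu A B)
    (H : TT v (j A) (j B)) {r : k} (hr : r ^ 3 + j A * r + j B = 0) (hv : v r < 1) {π : k}
    (hπ : v π = WithZero.exp (-1 : ℤ)) {h : F[X]} (h0 : aeval θ h ≠ 0)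
    (hN : IsSquare (Algebra.norm F (aeval θ h))) (hs : IsSquare ((h.map j).eval r)) :
    ∃ lam : L → Fin 3 → k, (∀ x y, lam (x + y) = lam x + lam y) ∧
      (∀ (a : F) (x : L), lam (algebraMap F L a * x) = j a • lam x) ∧
      (∀ x y, j (hG.top (x * y / aeval θ h)) = lam x ⬝ᵥ (GT k *ᵥ lam y)) ∧
      ∀ x, (∀ i, v (lam x i) ≤ 1) → ∀ i, v (lam (θ * x) i) ≤ 1 := by
  obtain ⟨D, hD⟩ : ∃ D : k, D = -3 * r ^ 2 - 4 * j A := ⟨_, rfl⟩
  obtain ⟨d1, d2, d3⟩ := H.dval hr hv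
  obtain ⟨⟨g₁, hg₁⟩, d5⟩ := H.der hr hv
  rw [← hD] at d1 d2
  have hg₁0 : g₁ ≠ 0 := by
    rintro rfl
    rw [mul_zero] at hg₁
    rw [hg₁, map_zero] at d5
    exact zero_ne_one d5
  obtain ⟨φ₁, h1, h1θ, h1p⟩ := ev_hom hG j r (by
    rw [hf, cu_eval₂]
    exact hr)
  obtain ⟨φ₂, h2, h2θ, -⟩ := ev_hom hG ((algebraMap k
      (QuadraticAlgebra k D 0)).comp j) ⟨-r / 2, 1 / 2⟩ (by
    rw [hf, cu_eval₂, RingHom.comp_apply, RingHom.comp_apply, pow_succ, pow_two]
    have hB : j B = -r ^ 3 - j A * r := by linear_combination hr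
    ext
    · simp only [QuadraticAlgebra.re_add, QuadraticAlgebra.im_add, QuadraticAlgebra.re_mul,
        QuadraticAlgebra.im_mul, QuadraticAlgebra.algebraMap_re, QuadraticAlgebra.algebraMap_im,
        QuadraticAlgebra.re_zero]
      rw [hB, hD]
      field_simp
      ring
    · simp only [QuadraticAlgebra.re_add, QuadraticAlgebra.im_add, QuadraticAlgebra.re_mul,
        QuadraticAlgebra.im_mul, QuadraticAlgebra.algebraMap_re, QuadraticAlgebra.algebraMap_im,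
        QuadraticAlgebra.im_zero]
      rw [hD]
      field_simp
      ring)
  have h2' : ∀ a, φ₂ (algebraMap F L a) = algebraMap k _ (j a) := fun a => h2 a
  obtain ⟨α, hα⟩ : ∃ α, α = aeval θ h := ⟨_, rfl⟩
  have hnp := norm_phi hG j hf hD hr h1 h1θ h2' h2θ h
  obtain ⟨m, hm⟩ := hN
  obtain ⟨c₁, hc₁⟩ := hs
  have hev : φ₁ (aeval θ h) = c₁ * c₁ := by
    rw [h1p, ← hc₁, eval_map]
  rw [← hα] at h0 hm hnp hev ⊢
  have hm0 : m ≠ 0 := by
    rintro rfl
    rw [mul_zero, Algebra.norm_eq_zero_iff] at hm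
    exact h0 hm
  have hjm : j m ≠ 0 := (map_ne_zero j).2 hm0
  rw [hm, hev, map_mul] at hnp
  have hc₁0 : c₁ ≠ 0 := by
    rintro rfl
    rw [mul_zero, zero_mul] at hnp
    exact mul_ne_zero hjm hjm hnp
  obtain ⟨δ, hδ⟩ : ∃ δ : QuadraticAlgebra k D 0, δ = ⟨-3 * r / 2, 1 / 2⟩ := ⟨_, rfl⟩
  have hδn : δ.norm = g₁ * g₁ := by
    rw [hδ, QuadraticAlgebra.norm_def, ← hg₁]
    simp only
    rw [hD]
    field_simp
    ring
  have hγn : (φ₂ α * δ).norm = (j m * g₁ / c₁) ^ 2 := by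
    rw [map_mul, hδn, div_pow, mul_pow, eq_div_iff (pow_ne_zero 2 hc₁0)]
    linear_combination (-g₁ ^ 2) * hnp
  obtain ⟨e, ν, he, hν, hγ, hv1, hv2⟩ := qa_norm hπ d2 d1 (φ₂ α * δ)
    (div_ne_zero (mul_ne_zero hjm hg₁0) hc₁0) hγn
  obtain ⟨ν', hν'⟩ := qa_unit hν
  refine ⟨fun x => ![φ₁ x / (c₁ * g₁), (φ₂ x * ν').re, 2 / e * (φ₂ x * ν').im], ?_, ?_, ?_, ?_⟩
  · intro x y
    funext i
    fin_cases i
    · simp
      ring
    · simp [add_mul]
    · simp [add_mul]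
      ring
  · intro a x
    have e1 : φ₂ (algebraMap F L a * x) * ν' = algebraMap _ _ (j a) * (φ₂ x * ν') := by
      rw [map_mul, h2', mul_assoc]
    funext i
    fin_cases i
    · simp [h1]
      ring
    · show (φ₂ (algebraMap F L a * x) * ν').re = j a * (φ₂ x * ν').re
      rw [e1]
      simp
    · show 2 / e * (φ₂ (algebraMap F L a * x) * ν').im = j a * (2 / e * (φ₂ x * ν').im)
      rw [e1]
      simp
      ring
  · intro x y
    obtain ⟨z, hz⟩ : ∃ z, z = x * y / α := ⟨_, rfl⟩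
    have hzα : z * α = x * y := by
      rw [hz]
      field_simp
    have ht := top_form hG j hD h1 h1θ h2' h2θ z
    rw [hg₁] at ht
    have k1 : φ₁ z * (c₁ * c₁) = φ₁ x * φ₁ y := by
      rw [← hev, ← map_mul, hzα, map_mul]
    have k2 : algebraMap _ _ e * φ₂ z = (φ₂ x * ν') * (φ₂ y * ν') * δ := by
      have h3 : φ₂ z * φ₂ α = φ₂ x * φ₂ y := by rw [← map_mul, hzα, map_mul]
      linear_combination (δ * ν' ^ 2) * h3 - (φ₂ z * ν' ^ 2) * hγ -
        (algebraMap _ _ e * φ₂ z * (ν * ν' + 1)) * hν'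
    obtain ⟨X, hX⟩ : ∃ X, X = φ₂ x * ν' := ⟨_, rfl⟩
    obtain ⟨Y, hY⟩ : ∃ Y, Y = φ₂ y * ν' := ⟨_, rfl⟩
    rw [← hX, ← hY, hδ] at k2
    rw [← hz]
    show j (hG.top z) = (![φ₁ x / (c₁ * g₁), (φ₂ x * ν').re, 2 / e * (φ₂ x * ν').im] : Fin 3 → k) ⬝ᵥ
        ((GT k) *ᵥ ![φ₁ y / (c₁ * g₁), (φ₂ y * ν').re, 2 / e * (φ₂ y * ν').im])
    rw [← hX, ← hY]
    have k3 := congrArg QuadraticAlgebra.re k2
    have k4 := congrArg QuadraticAlgebra.im k2
    simp only [QuadraticAlgebra.re_mul, QuadraticAlgebra.im_mul, QuadraticAlgebra.algebraMap_re,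
      QuadraticAlgebra.algebraMap_im] at k3 k4
    have hdot : (![φ₁ x / (c₁ * g₁), X.re, 2 / e * X.im] : Fin 3 → k) ⬝ᵥ
        ((GT k) *ᵥ ![φ₁ y / (c₁ * g₁), Y.re, 2 / e * Y.im]) =
        φ₁ x / (c₁ * g₁) * (φ₁ y / (c₁ * g₁)) + X.re * (2 / e * Y.im) + 2 / e * X.im * Y.re := by
      simp [GT, dotProduct, Matrix.mulVec, Fin.sum_univ_succ]
      ring
    refine Eq.trans ?_ hdot.symm
    have hj4 : j A = (-3 * r ^ 2 - D) / 4 := by
      rw [hD]
      ring
    have hgg : g₁ ^ 2 = (9 * r ^ 2 - D) / 4 := by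
      rw [pow_two, ← hg₁, hj4]
      ring
    have hmain : j (hG.top z) * (e * (c₁ * c₁) * g₁ ^ 2) =
        e * (φ₁ x * φ₁ y) + 2 * (X.re * Y.im + X.im * Y.re) * (c₁ * c₁) * g₁ ^ 2 := by
      rw [← k1]
      linear_combination (e * (c₁ * c₁)) * ht - (c₁ * c₁) * k3 - (3 * r * (c₁ * c₁)) * k4 -
        (2 * (X.re * Y.im + X.im * Y.re) * (c₁ * c₁)) * hgg
    field_simp
    linear_combination hmain
  · intro x hx i
    have e1 : φ₂ (θ * x) * ν' = ⟨-r / 2, 1 / 2⟩ * (φ₂ x * ν') := by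
      rw [map_mul, h2θ, mul_assoc]
    have x0 : v (φ₁ x / (c₁ * g₁)) ≤ 1 := hx 0
    have x1 : v (φ₂ x * ν').re ≤ 1 := hx 1
    have x2 : v (2 / e * (φ₂ x * ν').im) ≤ 1 := hx 2
    have d3' : v (-r / 2) ≤ 1 := by
      rw [neg_div, Valuation.map_neg]
      exact d3
    have hm1 : ∀ a b : k, v a ≤ 1 → v b ≤ 1 → v (a * b) ≤ 1 := by
      intro a b ha hb
      rw [map_mul]
      exact mul_le_one' ha hb
    have ha1 : ∀ a b : k, v a ≤ 1 → v b ≤ 1 → v (a + b) ≤ 1 := fun a b ha hb =>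
      (Valuation.map_add _ _ _).trans (max_le ha hb)
    fin_cases i
    · show v (φ₁ (θ * x) / (c₁ * g₁)) ≤ 1
      rw [map_mul, h1θ, mul_div_assoc]
      exact hm1 _ _ hv.le x0
    · show v (φ₂ (θ * x) * ν').re ≤ 1
      rw [e1]
      have e2 : ((⟨-r / 2, 1 / 2⟩ : QuadraticAlgebra k D 0) * (φ₂ x * ν')).re =
          (-r / 2) * (φ₂ x * ν').re + (e * D / 4) * (2 / e * (φ₂ x * ν').im) := by
        rw [QuadraticAlgebra.re_mul]
        field_simp
        ring
      rw [e2]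
      exact ha1 _ _ (hm1 _ _ d3' x1) (hm1 _ _ hv2 x2)
    · show v (2 / e * (φ₂ (θ * x) * ν').im) ≤ 1
      rw [e1]
      have e2 : 2 / e * ((⟨-r / 2, 1 / 2⟩ : QuadraticAlgebra k D 0) * (φ₂ x * ν')).im =
          (1 / e) * (φ₂ x * ν').re + (-r / 2) * (2 / e * (φ₂ x * ν').im) := by
        rw [QuadraticAlgebra.im_mul]
        field_simp
        ring
      rw [e2]
      exact ha1 _ _ (hm1 _ _ hv1 x1) (hm1 _ _ d3' x2)

/-- **The lattices at the primes over two.** -/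
theorem ll_tt (hG : IsGen 1 f θ) (w : HeightOneSpectrum (𝓞 F)) {A B : F} (hf : fF f = cu A B)
    [CharZero (w.adicCompletion F)]
    (H : TT (Valued.v (R := w.adicCompletion F) (Γ₀ := WithZero (Multiplicative ℤ)))
      (algebraMap F (w.adicCompletion F) A) (algebraMap F (w.adicCompletion F) B))
    {r : w.adicCompletion F}
    (hr : r ^ 3 + algebraMap F (w.adicCompletion F) A * r + algebraMap F (w.adicCompletion F) B = 0)
    (hv : Valued.v (Γ₀ := WithZero (Multiplicative ℤ)) r < 1) {h : F[X]} (h0 : aeval θ h ≠ 0)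
    (hN : IsSquare (Algebra.norm F (aeval θ h)))
    (hs : IsSquare ((h.map (algebraMap F (w.adicCompletion F))).eval r)) :
    ∃ lam, LL hG w (aeval θ h) (GT (w.adicCompletion F)) lam := by
  obtain ⟨π, hπ⟩ := w.valuation_exists_uniformizer F
  obtain ⟨lam, l1, l2, l3, l4⟩ := ll_abs hG Valued.v (algebraMap F (w.adicCompletion F)) hf H hr hv
    (π := algebraMap F (w.adicCompletion F) π) (by rw [Pool.Agent.N704.PP.vx, hπ]) h0 hN hs
  exact ⟨lam, l1, l2, l3, l4⟩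

end lattice

end Pool.Agent.H459.UT
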