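import Pool.Agent.H459.UT.Par

/-!
# The square class at the prime of degree one from the norm (helper459)

After `N426/PF/Par.lean` (helper426) of the library, with resultants.
-/

set_option autoImplicit false
set_option linter.all false

open Polynomial IsDedekindDomain WithZero UniqueFactorizationMonoid NumberField
open scoped Classical

namespace Pool.Agent.H459.UT

open Pool.Agent.N783.PF (IsGen fF rd Cg GoodS dsc Ov)
open Pool.Agent.N874.PP (Ev Sq1)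
open Pool.Agent.N862.PP (val_eq ev_iff_count ev_mul_sq cn cn_sum cn_pow
  cn_zero cn_one not_ev_of_exp exists_two sq1_mul_sq)
open Pool.Agent.N426.PF (toG parity cn_eq cn_deg_one cn_irr mem_nf fac fd perf map_ne tf_O
  exists_den_p algL_inj algO_inj)
open Pool.Agent.N73.PF (ev ev_L ev_f ev_ker ev_C ev_X ov_iff mem_of_dvd theta_ex rd_surj
  map_eq_of_cg coeff_of_rd_eq_zero ev_mem_of_coeff algMap_coe)

section alg

variable {κ : Type} [Field κ]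

theorem res_deg {f g : κ[X]} (hf : f.Monic) (n k : ℕ) (hg : g.natDegree ≤ n) :
    f.resultant g f.natDegree (n + k) = f.resultant g f.natDegree n := by
  rw [resultant_add_right_deg f g f.natDegree n k hg]
  have : f.coeff f.natDegree = 1 := hf
  rw [this, one_pow, one_mul]

theorem res_X_mul {r p a : κ[X]} (hr : r.Monic) (hirr : Irreducible r) (n : ℕ)
    (hp : p.natDegree ≤ n) (hd : r ∣ p - a ^ 2) (ha : ¬ r ∣ a) :
    ∃ d : κ, d ≠ 0 ∧ (X * r).resultant p (1 + r.natDegree) n = p.eval 0 * d ^ 2 := by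
  obtain ⟨b, hb⟩ := hd
  refine ⟨r.resultant a r.natDegree a.natDegree, resultant_ne_zero r a
    ((hirr.coprime_iff_not_dvd).2 ha), ?_⟩
  have h1 : (X * r).resultant p (1 + r.natDegree) n =
      (X : κ[X]).resultant p 1 n * r.resultant p r.natDegree n := by
    have := resultant_mul_left (X : κ[X]) r p n hp
    rwa [natDegree_X] at this
  have h2 : (X : κ[X]).resultant p 1 n = p.eval 0 := by
    have := resultant_X_pow_left p 1 n hp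
    rwa [pow_one, pow_one, coeff_zero_eq_eval_zero] at this
  have h3 : r.resultant p r.natDegree n = (r.resultant a r.natDegree a.natDegree) ^ 2 := by
    obtain ⟨k, hk⟩ : ∃ k, k = b.natDegree + r.natDegree + (a.natDegree + a.natDegree) := ⟨_, rfl⟩
    have e1 : p = a ^ 2 + r * b := by rw [← hb]; ring
    have e2 : r.resultant p r.natDegree n = r.resultant p r.natDegree (n + k) :=
      (res_deg hr n k hp).symm
    have hda : (a ^ 2).natDegree ≤ a.natDegree + a.natDegree := by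
      rw [pow_two]
      exact natDegree_mul_le
    have e3 : r.resultant (a ^ 2 + r * b) r.natDegree (n + k) =
        r.resultant (a ^ 2) r.natDegree (n + k) :=
      resultant_add_mul_right _ _ _ _ _ (by omega) le_rfl
    obtain ⟨k', hk'⟩ : ∃ k', n + k = (a.natDegree + a.natDegree) + k' :=
      ⟨n + b.natDegree + r.natDegree, by omega⟩
    rw [e2, e1, e3, hk', res_deg hr _ _ hda, pow_two,
      resultant_mul_right r a a r.natDegree le_rfl, pow_two]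
  rw [h1, h2, h3]

end alg

variable {g : ℕ} {F L : Type} [Field F] [NumberField F] [Field L] [NumberField L] [Algebra F L]
  {f : (𝓞 F)[X]} {θ : L}

theorem ev_at1 (h : IsGen g f θ) {𝔭 : Ideal (𝓞 F)} (hp : 𝔭.IsPrime) (hp0 : 𝔭 ≠ ⊥)
    (hsq : dsc g f ∉ 𝔭 ^ 2) {t : 𝓞 L} (ht : algebraMap (𝓞 L) L t = θ) (z : 𝓞 L) :
    ∃ (s : 𝓞 F) (p : (𝓞 F)[X]), s - 1 ∈ 𝔭 ∧ ev t p = algebraMap (𝓞 F) (𝓞 L) s * z ∧
      p.degree < ((2 * g + 1 : ℕ) : WithBot ℕ) := by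
  haveI hmax : 𝔭.IsMaximal := hp.isMaximal hp0
  obtain ⟨s, p, hs, hsp, hdeg⟩ := ev_at h hp hp0 hsq ht z
  obtain ⟨s', i, hi, hs'⟩ := hmax.exists_inv hs
  refine ⟨s * s', C s' * p, ?_, ?_, ?_⟩
  · have e : s * s' - 1 = -i := by rw [← hs']; ring
    rw [e]
    exact 𝔭.neg_mem hi
  · rw [map_mul, hsp, ev_C, map_mul]
    ring
  · refine lt_of_le_of_lt ?_ hdeg
    have h1 := degree_mul_le (C s') p
    have h2 : (C s' : (𝓞 F)[X]).degree ≤ 0 := degree_C_le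
    exact h1.trans ((add_le_add_left h2 p.degree).trans (by rw [zero_add]))

/-- The norm modulo `𝔭`. -/
theorem norm_res (h : IsGen g f θ) {t : 𝓞 L} (ht : algebraMap (𝓞 L) L t = θ) {p : (𝓞 F)[X]}
    {s m : 𝓞 F} {y : 𝓞 L} (hsp : ev t p = algebraMap (𝓞 F) (𝓞 L) s * y)
    (hm : Algebra.norm F (algebraMap (𝓞 L) L y) = (m : F)) (n : ℕ) (hp : p.natDegree ≤ n) :
    f.resultant p (2 * g + 1) n = s ^ (2 * g + 1) * m := by
  haveI := Pool.Agent.N31.PF.fin h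
  apply IsFractionRing.injective (𝓞 F) F
  have h1 := Pool.Agent.N31.PF.nrm h (dsc_ne h) (fF p) n (natDegree_map_le.trans hp)
  have h2 : (f.map (algebraMap (𝓞 F) F)).resultant (fF p) (2 * g + 1) n =
      algebraMap (𝓞 F) F (f.resultant p (2 * g + 1) n) :=
    resultant_map_map f p (2 * g + 1) n (algebraMap (𝓞 F) F)
  rw [h2] at h1
  rw [← h1, ← ev_L ht, hsp, map_mul, map_mul, hm, map_mul, map_pow]
  congr 1
  have e : algebraMap (𝓞 L) L (algebraMap (𝓞 F) (𝓞 L) s) = algebraMap F L (s : F) := rfl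
  rw [e, Algebra.norm_algebraMap, h.rank]

/-- The integral case. -/
theorem ns_int (h : IsGen g f θ) {𝔭 : Ideal (𝓞 F)} (hp : 𝔭.IsPrime) (hp0 : 𝔭 ≠ ⊥)
    (hsq : dsc g f ∉ 𝔭 ^ 2) {t : 𝓞 L} (ht : algebraMap (𝓞 L) L t = θ) {r : (𝓞 F)[X]}
    (hcg : Cg 𝔭 f (X * r)) (hr : r.Monic) (hrd : r.natDegree = 2 * g)
    (hirr : Irreducible (rd 𝔭 r)) {𝔓 𝔔 : HeightOneSpectrum (𝓞 L)} (ov1 : Ov 𝔭 𝔓) (ov2 : Ov 𝔭 𝔔)
    (ht1 : t ∈ 𝔓.asIdeal) (ht2 : t ∉ 𝔔.asIdeal) {y : 𝓞 L} (hy1 : y ∉ 𝔓.asIdeal)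
    (hy2 : y ∉ 𝔔.asIdeal) (hn : IsSquare (Algebra.norm F (algebraMap (𝓞 L) L y)))
    (hs : Sq1 𝔔 (algebraMap (𝓞 L) L y)) : Sq1 𝔓 (algebraMap (𝓞 L) L y) := by
  haveI hmax : 𝔭.IsMaximal := hp.isMaximal hp0
  letI : Field (𝓞 F ⧸ 𝔭) := Ideal.Quotient.field 𝔭
  have hvy1 : 𝔓.valuation L (algebraMap (𝓞 L) L y) = 1 := 𝔓.valuation_eq_one_iff_notMem.mpr hy1
  have hvy2 : 𝔔.valuation L (algebraMap (𝓞 L) L y) = 1 := 𝔔.valuation_eq_one_iff_notMem.mpr hy2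
  obtain ⟨r0, hr0⟩ := hn
  have hint : IsIntegral (𝓞 F) r0 := by
    refine IsIntegral.of_pow (n := 2) (by norm_num) ?_
    rw [sq, ← hr0]
    haveI := Pool.Agent.N31.PF.fin h
    exact Algebra.isIntegral_norm F (IsIntegral.tower_top (R := ℤ) y.isIntegral_coe)
  obtain ⟨m, hm0⟩ := IsIntegrallyClosed.isIntegral_iff.mp hint
  have hm : Algebra.norm F (algebraMap (𝓞 L) L y) = ((m ^ 2 : 𝓞 F) : F) := by
    rw [hr0, ← hm0, ← sq, ← map_pow]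
  -- the square root at `𝔔`
  obtain ⟨s, hs⟩ := hs
  rw [hvy2] at hs
  have hs1 : 𝔔.valuation L s ≤ 1 := by
    by_contra hgt
    push Not at hgt
    have h3 : 𝔔.valuation L (algebraMap (𝓞 L) L y) < 𝔔.valuation L (s ^ 2) := by
      rw [hvy2, map_pow]
      exact one_lt_pow' hgt (by norm_num)
    have h4 : 𝔔.valuation L (algebraMap (𝓞 L) L y - s ^ 2) = 𝔔.valuation L (s ^ 2) := by
      rw [Valuation.map_sub_swap]
      exact Valuation.map_sub_eq_of_lt_left _ h3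
    rw [h4] at hs
    exact absurd (hvy2 ▸ h3) (not_lt.mpr hs.le)
  obtain ⟨z, hz⟩ := 𝔔.exists_valuation_sub_lt_of_integer hs1 1
  rw [Units.val_one] at hz
  have hyz : y - z ^ 2 ∈ 𝔔.asIdeal := by
    rw [← 𝔔.valuation_lt_one_iff_mem (K := L)]
    change 𝔔.valuation L (algebraMap (𝓞 L) L (y - z ^ 2)) < 1
    have e : algebraMap (𝓞 L) L (y - z ^ 2) = (algebraMap (𝓞 L) L y - s ^ 2) -
        (algebraMap (𝓞 L) L z - s) * (algebraMap (𝓞 L) L z + s) := by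
      rw [map_sub, map_pow]
      ring
    rw [e]
    refine Valuation.map_sub_lt _ hs ?_
    rw [map_mul]
    have h5 : 𝔔.valuation L (algebraMap (𝓞 L) L z + s) ≤ 1 :=
      Valuation.map_add_le _ (𝔔.valuation_le_one _) hs1
    calc 𝔔.valuation L (algebraMap (𝓞 L) L z - s) * 𝔔.valuation L (algebraMap (𝓞 L) L z + s)
        ≤ 𝔔.valuation L (algebraMap (𝓞 L) L z - s) * 1 := mul_le_mul_right h5 _
      _ = 𝔔.valuation L (algebraMap (𝓞 L) L z - s) := mul_one _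
      _ < 1 := hz
  have hz2 : z ∉ 𝔔.asIdeal := by
    intro h0
    apply hy2
    have e : y = (y - z ^ 2) + z * z := by ring
    rw [e]
    exact Ideal.add_mem _ hyz (Ideal.mul_mem_left _ _ h0)
  obtain ⟨sy, p, hsy, hp1, hpd⟩ := ev_at1 h hp hp0 hsq ht y
  obtain ⟨sz, a, hsz, ha1, -⟩ := ev_at1 h hp hp0 hsq ht z
  -- the map to the residue field of `𝔔`
  have hfb : rd 𝔭 f = X * rd 𝔭 r := by
    rw [map_eq_of_cg hcg, rd, Polynomial.map_mul, Polynomial.map_X]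
  obtain ⟨ψ, hψ⟩ := ex_psi h hp hp0 hsq ht (rd 𝔭 r) (by rw [hfb]; exact ⟨X, X_mul⟩)
  have hker : 𝔔.asIdeal = RingHom.ker ψ :=
    eq_ker h ht hmax hp0 hsq hirr hψ ov2
      ((Pool.Agent.N73.PF.mem_or h ht hcg ov2).resolve_left ht2)
  have hone : ∀ s : 𝓞 F, s - 1 ∈ 𝔭 → ∀ 𝔓' : HeightOneSpectrum (𝓞 L), Ov 𝔭 𝔓' →
      algebraMap (𝓞 F) (𝓞 L) s - 1 ∈ 𝔓'.asIdeal := by
    intro s hs 𝔓' hov
    have := hov _ hs
    rwa [map_sub, map_one] at this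
  have hev1 : ev t (p - a ^ 2) ∈ 𝔔.asIdeal := by
    rw [map_sub, map_pow, hp1, ha1]
    have e : algebraMap (𝓞 F) (𝓞 L) sy * y - (algebraMap (𝓞 F) (𝓞 L) sz * z) ^ 2 =
        (y - z ^ 2) + (algebraMap (𝓞 F) (𝓞 L) sy - 1) * y -
          (algebraMap (𝓞 F) (𝓞 L) sz - 1) * ((algebraMap (𝓞 F) (𝓞 L) sz + 1) * z ^ 2) := by ring
    rw [e]
    exact Ideal.sub_mem _ (Ideal.add_mem _ hyz (Ideal.mul_mem_right _ _ (hone sy hsy 𝔔 ov2)))
      (Ideal.mul_mem_right _ _ (hone sz hsz 𝔔 ov2))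
  have hdv : rd 𝔭 r ∣ rd 𝔭 p - (rd 𝔭 a) ^ 2 := by
    rw [hker, RingHom.mem_ker, hψ, AdjoinRoot.mk_eq_zero] at hev1
    have e : rd 𝔭 (p - a ^ 2) = rd 𝔭 p - (rd 𝔭 a) ^ 2 := by
      show (p - a ^ 2).map (Ideal.Quotient.mk 𝔭) =
        p.map (Ideal.Quotient.mk 𝔭) - (a.map (Ideal.Quotient.mk 𝔭)) ^ 2
      rw [Polynomial.map_sub, Polynomial.map_pow]
    rwa [e] at hev1
  have hna : ¬ rd 𝔭 r ∣ rd 𝔭 a := by
    intro hd
    have h5 : ev t a ∈ 𝔔.asIdeal := by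
      rw [hker, RingHom.mem_ker, hψ, AdjoinRoot.mk_eq_zero]
      exact hd
    rw [ha1] at h5
    rcases 𝔔.isPrime.mem_or_mem h5 with h6 | h6
    · apply 𝔔.isPrime.ne_top
      rw [Ideal.eq_top_iff_one]
      have e : (1 : 𝓞 L) = algebraMap (𝓞 F) (𝓞 L) sz - (algebraMap (𝓞 F) (𝓞 L) sz - 1) := by ring
      rw [e]
      exact Ideal.sub_mem _ h6 (hone sz hsz 𝔔 ov2)
    · exact hz2 h6
  have hrm : (rd 𝔭 r).Monic := hr.map _
  have hrd' : (rd 𝔭 r).natDegree = 2 * g := by rw [rd, hr.natDegree_map, hrd]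
  obtain ⟨d, hd0, hd⟩ := res_X_mul hrm hirr p.natDegree natDegree_map_le hdv hna
  have hres := norm_res h ht hp1 hm p.natDegree le_rfl
  have hres2 := congrArg (Ideal.Quotient.mk 𝔭) hres
  rw [← resultant_map_map] at hres2
  have hres3 : (rd 𝔭 f).resultant (rd 𝔭 p) (2 * g + 1) p.natDegree =
      Ideal.Quotient.mk 𝔭 m ^ 2 := by
    have e1 : Ideal.Quotient.mk 𝔭 sy = 1 := by
      rw [← map_one (Ideal.Quotient.mk 𝔭), Ideal.Quotient.eq]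
      exact hsy
    have e2 : Ideal.Quotient.mk 𝔭 (sy ^ (2 * g + 1) * m ^ 2) = Ideal.Quotient.mk 𝔭 m ^ 2 := by
      rw [map_mul, map_pow, map_pow, e1, one_pow, one_mul]
    rw [e2] at hres2
    exact hres2
  rw [hfb] at hres3
  rw [hrd', add_comm 1 (2 * g)] at hd
  rw [hd] at hres3
  -- `p(0)` is a square modulo `𝔭`
  obtain ⟨e, he⟩ : ∃ e : 𝓞 F, Ideal.Quotient.mk 𝔭 e = Ideal.Quotient.mk 𝔭 m / d := by
    obtain ⟨e, he⟩ := Ideal.Quotient.mk_surjective (I := 𝔭) (Ideal.Quotient.mk 𝔭 m / d)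
    exact ⟨e, he⟩
  have hp0' : p.eval 0 - e ^ 2 ∈ 𝔭 := by
    rw [← Ideal.Quotient.eq, map_pow, he]
    have e3 : (rd 𝔭 p).eval 0 = Ideal.Quotient.mk 𝔭 (p.eval 0) := by
      rw [rd, ← map_zero (Ideal.Quotient.mk 𝔭), eval_map, eval₂_at_apply]
    rw [← e3, div_pow, eq_div_iff (pow_ne_zero 2 hd0)]
    exact hres3
  have h6 : y - algebraMap (𝓞 F) (𝓞 L) (e ^ 2) ∈ 𝔓.asIdeal := by
    have e1 : ev t p - algebraMap (𝓞 F) (𝓞 L) (p.eval 0) ∈ 𝔓.asIdeal := by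
      have e2 : algebraMap (𝓞 F) (𝓞 L) (p.eval 0) = ev (0 : 𝓞 L) p := by
        unfold ev
        rw [coe_eval₂RingHom, ← map_zero (algebraMap (𝓞 F) (𝓞 L)), eval₂_at_apply]
      rw [e2]
      unfold ev
      rw [coe_eval₂RingHom, coe_eval₂RingHom, eval₂_eq_eval_map, eval₂_eq_eval_map]
      exact Ideal.mem_of_dvd _ (sub_dvd_eval_sub _ _ _) (by rw [sub_zero]; exact ht1)
    rw [hp1] at e1
    have e3 : y - algebraMap (𝓞 F) (𝓞 L) (e ^ 2) =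
        (algebraMap (𝓞 F) (𝓞 L) sy * y - algebraMap (𝓞 F) (𝓞 L) (p.eval 0)) -
        (algebraMap (𝓞 F) (𝓞 L) sy - 1) * y + algebraMap (𝓞 F) (𝓞 L) (p.eval 0 - e ^ 2) := by
      rw [map_sub]
      ring
    rw [e3]
    exact Ideal.add_mem _ (Ideal.sub_mem _ e1 (Ideal.mul_mem_right _ _ (hone sy hsy 𝔓 ov1)))
      (ov1 _ hp0')
  refine ⟨algebraMap (𝓞 L) L (algebraMap (𝓞 F) (𝓞 L) e), ?_⟩
  rw [hvy1, ← map_pow, ← map_sub, ← map_pow]
  exact (𝔓.valuation_lt_one_iff_mem (K := L) _).mpr h6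

/-- **NS.** -/
theorem ns {W : ℕ} {S : Finset ℕ} {𝔮 : ℕ → Ideal (𝓞 F)} {hh P : ℕ → (𝓞 F)[X]} (hg : 1 ≤ g)
    (h0 : IsGen g f θ) (hS : GoodS g W S 𝔮 hh P) {q : ℕ} (hQS : q ∈ S)
    (hCg : Cg (𝔮 q) f (X * hh q)) {x : L} (hx : x ≠ 0) (hnx : IsSquare (Algebra.norm F x))
    (hev : ∀ 𝔓 : HeightOneSpectrum (𝓞 L), Ov (𝔮 q) 𝔓 → 𝔓.valuation L θ < 1 → Ev 𝔓 x)
    (hs1 : ∀ 𝔓 : HeightOneSpectrum (𝓞 L), Ov (𝔮 q) 𝔓 → 𝔓.valuation L θ = 1 → Sq1 𝔓 x)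
    {𝔓 : HeightOneSpectrum (𝓞 L)} (hov : Ov (𝔮 q) 𝔓) : Sq1 𝔓 x := by
  have h := toG h0
  have hsq := (dsc_q hg h0.mon h0.deg hS hQS hCg).2
  obtain ⟨t, ht⟩ := theta_ex h0
  obtain ⟨𝔓₁, 𝔓₂, ov1, ov2, hv1, hv2, hQ1, hQ2, hall⟩ :=
    exq g W F L f θ S 𝔮 hh P hg h0 hS q hQS hCg
  obtain ⟨hqp, -, -, -, -, hp, hqm, hrm, hrd, hri, -⟩ := hS q hQS
  have hq0 : (q : 𝓞 F) ≠ 0 := Nat.cast_ne_zero.2 hqp.ne_zero
  have hp0 : 𝔮 q ≠ ⊥ := by
    intro h'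
    rw [h', Ideal.mem_bot] at hqm
    exact hq0 hqm
  rcases hall 𝔓 hov with h𝔓 | h𝔓
  swap
  · rw [h𝔓]
    exact hs1 𝔓₂ ov2 hv2
  rw [h𝔓]
  have hne : 𝔓₁ ≠ 𝔓₂ := by
    intro h'
    rw [h', hv2] at hv1
    exact absurd hv1 (lt_irrefl _)
  have ht1 : t ∈ 𝔓₁.asIdeal := by
    rw [← 𝔓₁.valuation_lt_one_iff_mem (K := L)]
    change 𝔓₁.valuation L (algebraMap (𝓞 L) L t) < 1
    rw [ht]
    exact hv1
  have ht2 : t ∉ 𝔓₂.asIdeal := by
    rw [← ht] at hv2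
    exact 𝔓₂.valuation_eq_one_iff_notMem.mp hv2
  have hsq2 : Sq1 𝔓₂ x := hs1 𝔓₂ ov2 hv2
  obtain ⟨y1, hy1⟩ := hev 𝔓₁ ov1 hv1
  -- `Sq1` implies `Ev`
  obtain ⟨s, hs⟩ := hsq2
  have hvs : 𝔓₂.valuation L x = 𝔓₂.valuation L s ^ 2 := by
    have h3 : 𝔓₂.valuation L (x - (x - s ^ 2)) = 𝔓₂.valuation L x :=
      Valuation.map_sub_eq_of_lt_left _ hs
    rw [sub_sub_cancel, map_pow] at h3
    exact h3.symm
  have hvx1 : 𝔓₁.valuation L x ≠ 0 := (Valuation.ne_zero_iff _).mpr hx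
  have hvx2 : 𝔓₂.valuation L x ≠ 0 := (Valuation.ne_zero_iff _).mpr hx
  have hy10 : 𝔓₁.valuation L y1 ≠ 0 := by
    intro h'
    rw [h'] at hy1
    exact hvx1 (by rw [hy1]; simp)
  have hs0 : 𝔓₂.valuation L s ≠ 0 := by
    intro h'
    rw [h'] at hvs
    exact hvx2 (by rw [hvs]; simp)
  obtain ⟨β, hβ0, hβ1, hβ2⟩ := exists_two (L := L) hne (log (𝔓₁.valuation L y1))
    (log (𝔓₂.valuation L s))
  rw [exp_log hy10] at hβ1
  rw [exp_log hs0] at hβ2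
  -- `x / β ^ 2` is a unit at both primes
  have hu1 : 𝔓₁.valuation L (x / β ^ 2) = 1 := by
    rw [map_div₀, map_pow, hβ1, ← hy1, div_self hvx1]
  have hu2 : 𝔓₂.valuation L (x / β ^ 2) = 1 := by
    rw [map_div₀, map_pow, hβ2, ← hvs, div_self hvx2]
  obtain ⟨c, z, hc, hz⟩ := exists_den_p (O := 𝓞 L) h ht hp hp0 (x / β ^ 2) (by
    intro 𝔓' hov'
    rcases hall 𝔓' hov' with h' | h'
    · rw [h', hu1]
    · rw [h', hu2])
  have hc0 : algebraMap (𝓞 F) L c ≠ 0 := by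
    intro h'
    have : c = 0 := algL_inj (K := F) (by rw [h', map_zero])
    exact hc (by rw [this]; exact Ideal.zero_mem _)
  have hvc : ∀ 𝔓 : HeightOneSpectrum (𝓞 L), Ov (𝔮 q) 𝔓 →
      𝔓.valuation L (algebraMap (𝓞 F) L c) = 1 := by
    intro 𝔓' hov'
    rw [IsScalarTower.algebraMap_apply (𝓞 F) (𝓞 L) L]
    refine 𝔓'.valuation_eq_one_iff_notMem.mpr ?_
    rw [ov_iff (hp.isMaximal hp0) hov']
    exact hc
  -- `y = c ^ 2 x / β ^ 2`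
  have hy : algebraMap (𝓞 L) L (algebraMap (𝓞 F) (𝓞 L) c * z) =
      x * (algebraMap (𝓞 F) L c / β) ^ 2 := by
    rw [map_mul, ← hz, ← IsScalarTower.algebraMap_apply (𝓞 F) (𝓞 L) L]
    field_simp
  have hcβ : algebraMap (𝓞 F) L c / β ≠ 0 := div_ne_zero hc0 hβ0
  rw [← sq1_mul_sq hcβ, ← hy]
  refine ns_int h0 hp hp0 hsq ht hCg hrm hrd hri ov1 ov2 ht1 ht2 ?_ ?_ ?_ ?_
  · rw [← 𝔓₁.valuation_eq_one_iff_notMem (K := L), hy, map_mul, map_pow, map_div₀, hvc 𝔓₁ ov1,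
      hβ1, hy1, div_pow, one_pow, mul_one_div, div_self (pow_ne_zero 2 hy10)]
  · rw [← 𝔓₂.valuation_eq_one_iff_notMem (K := L), hy, map_mul, map_pow, map_div₀, hvc 𝔓₂ ov2,
      hβ2, hvs, div_pow, one_pow, mul_one_div, div_self (pow_ne_zero 2 hs0)]
  · rw [hy, map_mul, map_pow]
    exact hnx.mul (IsSquare.sq _)
  · rw [hy, sq1_mul_sq hcβ]
    exact ⟨s, hs⟩

end Pool.Agent.H459.UT
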