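import Pool.Agent.H459.UT.Sdt
import Pool.Agent.H459.UT.Ns

/-!
# The choice of the twist, with bad primes (helper459)

After `N771/PF/Core.lean` (helper771) of the library.
-/

set_option autoImplicit false
set_option linter.all false

open Polynomial IsDedekindDomain Matrix NumberField WithZero
open scoped Classical

namespace Pool.Agent.H459.UT

open Pool.Agent.N352.PJ (Mt Typ dd)
open Pool.Agent.N874.PP (Ev Sq1 U0 S_LIN)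
open Pool.Agent.N783.PQ (LocIm)
open Pool.Agent.N783.PF
open Pool.Agent.N771.PF (sep_q)
open Pool.Agent.N891.PQ (cl cl_add_aux not_ev_exp locIm_one)

/-- The choice of the twist. -/
theorem core (g : ℕ) (F : Type) [Field F] [NumberField F] (hg : 1 ≤ g) : ∃ κ : ℕ,
    ∀ (L : Type) [Field L] [NumberField L] [Algebra F L] (f : (𝓞 F)[X]) (θ : L) (B N W : ℕ)
    (S : Finset ℕ) (𝔮 : ℕ → Ideal (𝓞 F)) (r P : ℕ → (𝓞 F)[X])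
    (Bw : HeightOneSpectrum (𝓞 F) → Prop) (Q : F[X] → Prop), κ ≤ W → ∀ hc : IsGen g f θ,
    {w | Bw w}.Finite → (∀ w, ¬ Bw w → (2 : 𝓞 F) ∉ w.asIdeal ∧ dsc g f ∉ w.asIdeal ^ 2) →
    (∀ q ∈ S, ∀ w, Bw w → (q : 𝓞 F) ∉ w.asIdeal) → GoodS g W S 𝔮 r P → Ht g B f →
    (∀ q ∈ S, Cg (sp F q) f (P q)) → 2 ^ κ * B ≤ 4 ^ N → ¬ LBad g N κ S 𝔮 P f → Q 1 →
    (∀ h h' : F[X], Q h → Q h' → Q (h * h')) →
    (∀ h : F[X], aeval θ h ≠ 0 → IsSquare (Algebra.norm F (aeval θ h)) → Q h → ∀ w, Bw w →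
      ∃ (G : Mt g (w.adicCompletion F)) (lam lam₁ : L → Fin (2 * g + 1) → w.adicCompletion F),
        UG G ∧ LL hc w (aeval θ h) G lam ∧ LL hc w 1 G lam₁) →
    ∃ J ⊆ S, ∀ h : F[X], aeval θ h ≠ 0 → IsSquare (Algebra.norm F (aeval θ h)) →
      (∀ 𝔓 : HeightOneSpectrum (𝓞 L), (∀ w, Bw w → ¬ Ov w.asIdeal 𝔓) →
        (∀ q ∈ J, Ov (𝔮 q) 𝔓 → 𝔓.valuation L θ ≠ 1) → Ev 𝔓 (aeval θ h)) →
      (∀ q ∈ J, ∀ 𝔓 : HeightOneSpectrum (𝓞 L), Ov (𝔮 q) 𝔓 → 𝔓.valuation L θ = 1 →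
        U0 𝔓 ((q : L) * θ) (aeval θ h)) →
      Q h → (∀ σ : F →+* ℝ, LocIm ℝ ((fF f).map σ) (h.map σ)) → IsSquare (aeval θ h) := by
  have hCLS := Pool.Agent.N457.PQ.cls
  have hLIN := Pool.Agent.N498.PP.lin
  obtain ⟨κ, hκ⟩ := Pool.Agent.N783.PF.lb g F hg
  refine ⟨κ, fun L _ _ _ f θ B N W S 𝔮 r P Bw Q hκW hc hBfin hB2 hBS hS hHt hcon hBN hnb hQ1 hQm
    hLL => ?_⟩
  have hqp : ∀ q ∈ S, q.Prime := fun q hq => (hS q hq).1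
  have hq2 : ∀ q ∈ S, q ≠ 2 := by
    intro q hq h
    have := (hS q hq).2.2.2.1
    rw [h] at this
    omega
  have hcg : ∀ q ∈ S, Cg (𝔮 q) f (X * r q) := by
    intro q hq j
    obtain ⟨-, -, -, -, -, -, hmem, -, -, -, -, -, -, hcg, -⟩ := hS q hq
    have h1 := hcon q hq j
    have h2 : sp F q ≤ 𝔮 q := by
      rw [sp, Ideal.span_singleton_le_iff_mem]
      exact hmem
    have h3 := Ideal.add_mem _ (h2 h1) (hcg j)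
    rwa [sub_add_sub_cancel] at h3
  have hov : ∀ q ∈ S, ∀ 𝔓 : HeightOneSpectrum (𝓞 L), Ov (𝔮 q) 𝔓 → Pool.Agent.N783.PQ.Ov q 𝔓 := by
    intro q hq 𝔓 h
    have h1 := h _ (hS q hq).2.2.2.2.2.2.1
    rw [map_natCast] at h1
    exact h1
  have huniq : ∀ q ∈ S, ∀ q' ∈ S, ∀ 𝔓 : HeightOneSpectrum (𝓞 L), Ov (𝔮 q) 𝔓 → Ov (𝔮 q') 𝔓 →
      q = q' := by
    intro q hq q' hq' 𝔓 h h'
    by_contra hne
    have h1 : (q : 𝓞 L) ∈ 𝔓.asIdeal := hov q hq 𝔓 h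
    have h2 : (q' : 𝓞 L) ∈ 𝔓.asIdeal := hov q' hq' 𝔓 h'
    have hco : Nat.Coprime q q' := (Nat.coprime_primes (hqp q hq) (hqp q' hq')).2 hne
    have h3 : IsCoprime (q : ℤ) (q' : ℤ) := Nat.isCoprime_iff_coprime.2 hco
    obtain ⟨a, b, hab⟩ := h3
    apply 𝔓.isPrime.ne_top
    rw [Ideal.eq_top_iff_one]
    have h4 : (1 : 𝓞 L) = (a : 𝓞 L) * (q : 𝓞 L) + (b : 𝓞 L) * (q' : 𝓞 L) := by
      have := congrArg (fun z : ℤ => (z : 𝓞 L)) hab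
      push_cast at this
      exact this.symm
    rw [h4]
    exact Ideal.add_mem _ (Ideal.mul_mem_left _ _ h1) (Ideal.mul_mem_left _ _ h2)
  have hex : ∀ q ∈ S, ∃ 𝔓₁ 𝔔 : HeightOneSpectrum (𝓞 L), Ov (𝔮 q) 𝔓₁ ∧ Ov (𝔮 q) 𝔔 ∧
      𝔓₁.valuation L θ < 1 ∧ 𝔔.valuation L θ = 1 ∧ ¬ Ev 𝔔 ((q : L) * θ) ∧
      ∀ 𝔓 : HeightOneSpectrum (𝓞 L), Ov (𝔮 q) 𝔓 → 𝔓 = 𝔓₁ ∨ 𝔓 = 𝔔 := by
    intro q hq
    obtain ⟨𝔓₁, 𝔔, a1, a2, a3, a4, a5, a6, a7⟩ :=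
      exq g W F L f θ S 𝔮 r P hg hc hS q hq (hcg q hq)
    refine ⟨𝔓₁, 𝔔, a1, a2, a3, a4, not_ev_exp ?_, a7⟩
    rw [map_mul, a6, a4, mul_one]
  haveI hne : Nonempty (HeightOneSpectrum (𝓞 L)) := by
    obtain ⟨m, hm⟩ := Ideal.exists_maximal (𝓞 L)
    exact ⟨⟨m, hm.isPrime, Ring.ne_bot_of_isMaximal_of_not_isField hm
      (NumberField.RingOfIntegers.not_isField L)⟩⟩
  obtain ⟨𝔭, h𝔭⟩ : ∃ 𝔭 : ℕ → HeightOneSpectrum (𝓞 L), 𝔭 = fun q =>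
    if hq : q ∈ S then (hex q hq).choose else Classical.arbitrary _ := ⟨_, rfl⟩
  obtain ⟨𝔔, h𝔔⟩ : ∃ 𝔔 : ℕ → HeightOneSpectrum (𝓞 L), 𝔔 = fun q =>
    if hq : q ∈ S then (hex q hq).choose_spec.choose else Classical.arbitrary _ := ⟨_, rfl⟩
  have hpq : ∀ q ∈ S, Ov (𝔮 q) (𝔭 q) ∧ Ov (𝔮 q) (𝔔 q) ∧ (𝔭 q).valuation L θ < 1 ∧
      (𝔔 q).valuation L θ = 1 ∧ ¬ Ev (𝔔 q) ((q : L) * θ) ∧
      ∀ 𝔓 : HeightOneSpectrum (𝓞 L), Ov (𝔮 q) 𝔓 → 𝔓 = 𝔭 q ∨ 𝔓 = 𝔔 q := by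
    intro q hq
    have h := (hex q hq).choose_spec.choose_spec
    rw [h𝔭, h𝔔]
    simp only [dif_pos hq]
    exact h
  -- the group `M`
  obtain ⟨M, hMd⟩ : ∃ M : Set L, M = {α | α ≠ 0 ∧ IsSquare (Algebra.norm F α) ∧
    (∀ 𝔓 : HeightOneSpectrum (𝓞 L), (∀ w, Bw w → ¬ Ov w.asIdeal 𝔓) →
      (∀ q ∈ S, 𝔓 ≠ 𝔔 q) → Ev 𝔓 α) ∧
    ∃ h₀ : F[X], aeval θ h₀ = α ∧ Q h₀ ∧
      (∀ σ : F →+* ℝ, LocIm ℝ ((fF f).map σ) (h₀.map σ))} := ⟨_, rfl⟩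
  have hMm : ∀ α, α ∈ M ↔ α ≠ 0 ∧ IsSquare (Algebra.norm F α) ∧
    (∀ 𝔓 : HeightOneSpectrum (𝓞 L), (∀ w, Bw w → ¬ Ov w.asIdeal 𝔓) →
      (∀ q ∈ S, 𝔓 ≠ 𝔔 q) → Ev 𝔓 α) ∧
    ∃ h₀ : F[X], aeval θ h₀ = α ∧ Q h₀ ∧
      (∀ σ : F →+* ℝ, LocIm ℝ ((fF f).map σ) (h₀.map σ)) := by
    intro α
    rw [hMd]
    rfl
  obtain ⟨ψ, hψd⟩ : ∃ ψ : L → (S → ZMod 2 × ZMod 2), ψ = fun (α : L) (q : S) =>
    cl (𝔔 (q : ℕ)) (((q : ℕ) : L) * θ) α := ⟨_, rfl⟩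
  have hϖ : ∀ q ∈ S, (q : L) * θ ≠ 0 := by
    intro q hq h0
    exact (hpq q hq).2.2.2.2.1 (by rw [h0]; exact ⟨0, by simp⟩)
  have hψ : ∀ α β : L, α ≠ 0 → β ≠ 0 → ψ (α * β) = ψ α + ψ β := by
    intro α β hα hβ
    rw [hψd]
    funext q
    have h := hCLS L q (𝔔 q) ((q : L) * θ) (hqp q q.2) (hq2 q q.2)
      (hov q q.2 _ (hpq q q.2).2.1) (hϖ q q.2) (hpq q q.2).2.2.2.2.1 α β hα hβ
    exact Prod.ext (cl_add_aux h.1) (cl_add_aux h.2)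
  have hEvmul : ∀ (𝔓 : HeightOneSpectrum (𝓞 L)) (x y : L), Ev 𝔓 x → Ev 𝔓 y → Ev 𝔓 (x * y) := by
    rintro 𝔓 x y ⟨u, hu⟩ ⟨v, hv⟩
    exact ⟨u * v, by rw [map_mul, map_mul, hu, hv, mul_pow]⟩
  have hMmul : ∀ α β, α ∈ M → β ∈ M → α * β ∈ M := by
    intro α β hα hβ
    rw [hMm] at hα hβ ⊢
    obtain ⟨h1, h2, h3, a, h4, h5, h6⟩ := hα
    obtain ⟨h1', h2', h3', b, h4', h5', h6'⟩ := hβ
    refine ⟨mul_ne_zero h1 h1', ?_, fun 𝔓 hb𝔓 h𝔓 => hEvmul 𝔓 _ _ (h3 𝔓 hb𝔓 h𝔓) (h3' 𝔓 hb𝔓 h𝔓),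
      a * b, ?_, ?_, ?_⟩
    · rw [map_mul]
      exact h2.mul h2'
    · rw [map_mul, h4, h4']
    · exact hQm a b h5 h5'
    · intro σ
      rw [Polynomial.map_mul]
      exact Pool.Agent.N891.PQ.LocIm.mul (h6 σ) (h6' σ)
  have hM1 : (1 : L) ∈ M := by
    rw [hMm]
    refine ⟨one_ne_zero, by rw [map_one]; exact IsSquare.one,
      fun 𝔓 _ _ => ⟨1, by rw [map_one, one_pow]⟩, 1, by rw [map_one], ?_, ?_⟩
    · exact hQ1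
    · intro σ
      rw [Polynomial.map_one]
      exact locIm_one _ _
  let Λ : AddSubgroup (S → ZMod 2 × ZMod 2) :=
    { carrier := {l | ∃ α ∈ M, ψ α = l}
      add_mem' := by
        rintro _ _ ⟨α, hα, rfl⟩ ⟨β, hβ, rfl⟩
        exact ⟨α * β, hMmul α β hα hβ, hψ α β ((hMm α).1 hα).1 ((hMm β).1 hβ).1⟩
      zero_mem' := by
        refine ⟨1, hM1, ?_⟩
        have h := hψ 1 1 one_ne_zero one_ne_zero
        rw [mul_one] at h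
        exact left_eq_add.1 h
      neg_mem' := by
        rintro _ ⟨α, hα, rfl⟩
        refine ⟨α, hα, ?_⟩
        rw [eq_neg_iff_add_eq_zero]
        funext Q
        exact Prod.ext (CharTwo.add_self_eq_zero _) (CharTwo.add_self_eq_zero _) }
  have hiso : ∀ l ∈ Λ, ∑ q : S, (l q).1 * (l q).2 = 0 := by
    rintro _ ⟨α, hα, rfl⟩
    obtain ⟨b1, b2, b3, h₀, b4, b5, b6⟩ := (hMm α).1 hα
    have h := rec Bw hg hc hB2 hBS hS hcon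
      (fun q hq => ⟨(hpq q hq).2.1, (hpq q hq).2.2.2.1⟩) (h := h₀) (by rw [b4]; exact b1)
      (by rw [b4]; exact b2) (by rw [b4]; exact b3) (fun w hw => by
        obtain ⟨G, lam, lam₁, u1, u2, u3⟩ := hLL h₀ (by rw [b4]; exact b1) (by rw [b4]; exact b2)
          b5 w hw
        exact u2.apx (by rw [b4]; exact b1) u3 rfl) b6
    rw [b4] at h
    have e1 : ∑ q : S, (ψ α q).1 * (ψ α q).2 = ∑ q ∈ S,
        (if ¬ Ev (𝔔 q) α ∧ ¬ Sq1 (𝔔 q) (α * ((q : L) * θ)) then (1 : ZMod 2) else 0) := by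
      rw [← Finset.sum_coe_sort S]
      refine Finset.sum_congr rfl fun q _ => ?_
      simp only [hψd, cl]
      by_cases he : Ev (𝔔 q) α
      · rw [if_pos he, zero_mul, if_neg (fun h => h.1 he)]
      · by_cases hs : Sq1 (𝔔 q) (α * (((q : ℕ) : L) * θ))
        · have hu : U0 (𝔔 q) (((q : ℕ) : L) * θ) α := ⟨fun h => absurd h he, fun _ => hs⟩
          rw [if_neg he, if_pos hu, mul_zero, if_neg (fun h => h.2 hs)]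
        · have hu : ¬ U0 (𝔔 q) (((q : ℕ) : L) * θ) α := fun h => hs (h.2 he)
          rw [if_neg he, if_neg hu, mul_one, if_pos ⟨he, hs⟩]
    rw [e1, Finset.sum_ite, Finset.sum_const_zero, add_zero, Finset.sum_const, nsmul_eq_mul,
      mul_one]
    exact (ZMod.natCast_eq_zero_iff_even).2 h
  obtain ⟨J, hJ⟩ := hLIN S Λ hiso
  obtain ⟨J', hJ'd⟩ : ∃ J' : Finset ℕ, J' = S.filter fun q => ∃ h : q ∈ S, (⟨q, h⟩ : S) ∈ J :=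
    ⟨_, rfl⟩
  have hJ'S : J' ⊆ S := by rw [hJ'd]; exact Finset.filter_subset _ _
  refine ⟨J', hJ'S, fun h hα hN hev0 hu0 hloc hlocR => ?_⟩
  obtain ⟨α, hαdef⟩ : ∃ α : L, α = aeval θ h := ⟨_, rfl⟩
  rw [← hαdef] at hα hN hev0 hu0 ⊢
  have hαM : α ∈ M := by
    rw [hMm]
    refine ⟨hα, hN, fun 𝔓 hb𝔓 h𝔓 => ?_, h, hαdef.symm, hloc, hlocR⟩
    refine hev0 𝔓 hb𝔓 fun q hq hO => ?_
    rcases (hpq q (hJ'S hq)).2.2.2.2.2 𝔓 hO with rfl | rfl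
    · exact (hpq q (hJ'S hq)).2.2.1.ne
    · exact absurd rfl (h𝔓 q (hJ'S hq))
  have hz : ψ α = 0 := by
    refine hJ _ ⟨α, hαM, rfl⟩ (fun q hq => ?_) (fun q hq => ?_)
    · have hqJ : (q : ℕ) ∈ J' := by
        rw [hJ'd]
        exact Finset.mem_filter.2 ⟨q.2, q.2, hq⟩
      rw [hψd]
      exact if_pos (hu0 q hqJ _ (hpq q q.2).2.1 (hpq q q.2).2.2.2.1)
    · have hqJ : (q : ℕ) ∉ J' := by
        rw [hJ'd]
        exact fun h => hq (Finset.mem_filter.1 h).2.2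
      rw [hψd]
      refine if_pos (hev0 (𝔔 q) (fun w hw ho => ?_) fun q' hq' hO => ?_)
      · have e1 : Pool.Agent.H459.UF.below F (𝔔 q) = w := Pool.Agent.H459.UF.eq_below ho
        apply hBS q q.2 w hw
        rw [← e1]
        exact (hpq q q.2).2.1 _ (hS q q.2).2.2.2.2.2.2.1
      have : q' = (q : ℕ) := huniq q' (hJ'S hq') q q.2 _ hO (hpq q q.2).2.1
      rw [this] at hq'
      exact absurd hq' hqJ
  have hz1 : ∀ q ∈ S, Ev (𝔔 q) α ∧ U0 (𝔔 q) ((q : L) * θ) α := by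
    intro q hq
    have h1 := congrFun hz ⟨q, hq⟩
    rw [hψd] at h1
    have h2 := congrArg Prod.fst h1
    have h3 := congrArg Prod.snd h1
    constructor
    · by_contra hn
      have : (if Ev (𝔔 q) α then (0 : ZMod 2) else 1) = 0 := h2
      rw [if_neg hn] at this
      exact one_ne_zero this
    · by_contra hn
      have : (if U0 (𝔔 q) ((q : L) * θ) α then (0 : ZMod 2) else 1) = 0 := h3
      rw [if_neg hn] at this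
      exact one_ne_zero this
  have hEv : ∀ 𝔓 : HeightOneSpectrum (𝓞 L), (∀ w, Bw w → ¬ Ov w.asIdeal 𝔓) → Ev 𝔓 α := by
    intro 𝔓 hb
    by_cases h : ∀ q ∈ S, 𝔓 ≠ 𝔔 q
    · exact ((hMm α).1 hαM).2.2.1 𝔓 hb h
    · push Not at h
      obtain ⟨q, hq, rfl⟩ := h
      exact (hz1 q hq).1
  have hSq : ∀ q ∈ S, ∀ 𝔓 : HeightOneSpectrum (𝓞 L), Ov (𝔮 q) 𝔓 → Sq1 𝔓 α := by
    intro q hq
    refine fun 𝔓 h𝔓 => ns hg hc hS hq (hcg q hq) hα hN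
      (fun 𝔓 ho _ => hEv 𝔓 fun w hw ho' => ?_) (fun 𝔓 h𝔓 hv => ?_) h𝔓
    · have e1 : Pool.Agent.H459.UF.below F 𝔓 = w := Pool.Agent.H459.UF.eq_below ho'
      apply hBS q hq w hw
      rw [← e1]
      exact ho _ (hS q hq).2.2.2.2.2.2.1
    · rcases (hpq q hq).2.2.2.2.2 𝔓 h𝔓 with rfl | rfl
      · exact absurd hv (hpq q hq).2.2.1.ne
      · exact (hz1 q hq).2.1 (hz1 q hq).1
  by_contra hns
  obtain ⟨C, hC1, hC2⟩ := sd hc Bw hBfin (fun w hw => (hB2 w hw).2) hα hEv (fun w hw => by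
    obtain ⟨G, lam, lam₁, u1, u2, u3⟩ := hLL h (by rw [← hαdef]; exact hα)
      (by rw [← hαdef]; exact hN) hloc w hw
    exact ⟨G, lam, u1, by rw [hαdef]; exact u2⟩)
  obtain ⟨Λ', hΛ, hL⟩ := hC1.lat hα
  refine hnb (hκ L f θ B N W S 𝔮 r P hκW hS hc hHt hBN hcon α Λ' hα hN hL ?_ (Or.inl hns))
  intro q hq
  obtain ⟨hb, hs⟩ := sep_q hg hS hq (hcg q hq)
  obtain ⟨w, hw⟩ : ∃ w : HeightOneSpectrum (𝓞 F), w.asIdeal = 𝔮 q :=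
    ⟨⟨𝔮 q, (hS q hq).2.2.2.2.2.1, hb⟩, rfl⟩
  have hnB : ¬ Bw w := fun h => hBS q hq w h (by
    rw [hw]
    exact (hS q hq).2.2.2.2.2.2.1)
  have hSq' := hSq q hq
  rw [← hw] at hs hSq' ⊢
  exact tv hα hC1 hΛ (hC2 w hnB) (hB2 w hnB).2 hs hSq'

end Pool.Agent.H459.UT
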