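import Pool.Agent.H459.UF.FamS
import Pool.Graph.R_pool_sql_team_seeded_63374d34.N783.PF.Final

/-!
# The family with bad primes (helper459)

Many polynomials with prescribed conditions at the small primes, where the reduction is separable
except at a given set of bad primes; their discriminants are not divisible by the square of a prime
which is not bad. After `N951/PF/Fam.lean` (helper951) and `N667/PF/Sqf.lean` (helper667) of the
library.
-/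

set_option autoImplicit false
set_option linter.all false

open Polynomial NumberField IsDedekindDomain
open scoped Classical

namespace Pool.Agent.H459.UT

open Pool.Agent.H459.UF (smlR)
open Pool.Agent.N352.PJ (dd pol dis Dy D2)
open Pool.Agent.N352.PF (dg Bal nv rv Bz Bx S_BX S_SML S_WK S_STR S_DSC S_GF S_PF S_CU S_LD S_PR)
open Pool.Agent.N783.PF (Bd Cg sp rd Ht GoodS GoodF Fam S_FAM Weak dsc fF LBad S_NBR S_LB S_GEN)
open Pool.Agent.N951.PF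

/-- The conditions at the small primes. -/
structure GoodT {F : Type} [Field F] [NumberField F] (g W : ℕ)
    (Bw : HeightOneSpectrum (𝓞 F) → Prop) (f₁ : (𝓞 F)[X]) : Prop where
  mon : f₁.Monic
  deg : f₁.natDegree = 2 * g + 1
  tr : f₁.coeff (2 * g) = 0
  pos : 0 < W
  two : 2 ∣ W
  sep : ∀ v : HeightOneSpectrum (𝓞 F), (W : 𝓞 F) ∈ v.asIdeal → ¬ Bw v →
    (rd v.asIdeal f₁).Separable

/-- The family. -/
structure FamT {F : Type} [Field F] [NumberField F] (g B W : ℕ)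
    (Bw : HeightOneSpectrum (𝓞 F) → Prop) (f₁ : (𝓞 F)[X]) (S : Finset ℕ) (A : ℕ → (𝓞 F)[X])
    (f : (𝓞 F)[X]) : Prop where
  ht : Ht g B f
  one : Cg (sp F W) f f₁
  con : ∀ q ∈ S, Cg (sp F q) f (A q)
  wk : ∀ v : HeightOneSpectrum (𝓞 F), ¬ Bw v → dsc g f ∈ v.asIdeal ^ 2 →
    B ^ Module.finrank ℚ F ≤ Ideal.absNorm v.asIdeal ^ 2 ∧ Weak v.asIdeal f

/-- Many polynomials in the family, for every choice of the conditions at the small primes, with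
a condition `Pr` on the coefficients which holds for a positive proportion. -/
theorem famT (hCU : S_CU) (hLD : S_LD) (hPR : S_PR) (h1 : S_BX) (h3 : S_WK) (h4 : S_STR)
    (h5 : S_DSC) (h7 : S_PF) (F : Type) [Field F] [NumberField F] (g : ℕ) (hg : 1 ≤ g)
    (Pr : (Fin (2 * g) → 𝓞 F) → Prop) (R₀ C₃ : ℕ) (hR₀ : 1 ≤ R₀)
    (Bw : HeightOneSpectrum (𝓞 F) → Prop) (hPr : ∀ (B W : ℕ) (A : Fin (2 * g) → 𝓞 F), 0 < W → C₃ * W ≤ B →
      (Bx g B W A).ncard ≤ R₀ * {a ∈ Bx g B W A | Pr a}.ncard) : ∃ M₀ : ℕ,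
    ∀ (W : ℕ) (f₁ : (𝓞 F)[X]), GoodT g W Bw f₁ → (∀ p : ℕ, p.Prime → p ≤ M₀ → p ∣ W) →
    ∃ c : ℝ, 0 < c ∧ ∀ (S : Finset ℕ) (𝔮 : ℕ → Ideal (𝓞 F)) (h P : ℕ → (𝓞 F)[X]),
    GoodS g W S 𝔮 h P → ∃ B₀ : ℕ, ∀ B ≥ B₀,
    c * (B : ℝ) ^ (Module.finrank ℚ F * dd g) ≤
      (((∏ q ∈ S, q ^ (2 * g)) ^ Module.finrank ℚ F : ℕ) : ℝ) *
      ({f : (𝓞 F)[X] | FamT g B W Bw f₁ S P f ∧ Pr (fun j => f.coeff j)}.ncard : ℝ) := by
  obtain ⟨M, C₂, hC₂, hM⟩ := smlR hCU h1 hLD hPR h7 F g (4 * R₀) hg (by omega)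
  obtain ⟨C₁, hC₁, hBX⟩ := h1 F g
  refine ⟨max M (2 * g + 1), fun W f₁ hgood hW => ?_⟩
  obtain ⟨hmon, hdeg, htr, hW0, htwo, hsep⟩ := id hgood
  have hne : ∀ (𝔭 : Ideal (𝓞 F)) (n : ℕ), 0 < n → (n : 𝓞 F) ∈ 𝔭 → 𝔭 ≠ ⊥ := by
    intro 𝔭 n hn hm h0
    rw [h0, Ideal.mem_bot] at hm
    have : n = 0 := by exact_mod_cast hm
    omega
  have hR0 : (0 : ℝ) < R₀ := by exact_mod_cast hR₀
  refine ⟨1 / (2 * R₀ * C₁ * (W : ℝ) ^ (2 * g * dg F)), by positivity,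
    fun S 𝔮 h P hS => ?_⟩
  obtain ⟨Q, hQ⟩ : ∃ Q : ℕ, Q = ∏ q ∈ S, q := ⟨_, rfl⟩
  have hQ0 : 0 < Q := by
    rw [hQ]
    exact Finset.prod_pos fun q hq => (hS q hq).1.pos
  have hWQ : 0 < W * Q := Nat.mul_pos hW0 hQ0
  -- residues
  have hcrt : ∀ j : Fin (2 * g), ∃ x : 𝓞 F, (W : 𝓞 F) ∣ x - f₁.coeff j ∧
      ∀ q ∈ S, (q : 𝓞 F) ∣ x - (P q).coeff j := fun j =>
    crt W S (fun q hq => ⟨(hS q hq).1, fun hd =>
      absurd (Nat.le_of_dvd hW0 hd) (by have := (hS q hq).2.1; omega)⟩) _ _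
  choose A hA1 hA2 using hcrt
  obtain ⟨B₁, hB₁⟩ := h4 F g hg (1 / (4 * R₀ * C₁ * ((W * Q : ℕ) : ℝ) ^ (2 * g * dg F)))
    (by positivity)
  refine ⟨max (C₃ * (W * Q)) (max B₁ (max (C₁ * (W * Q)) (C₂ * (W * Q)))), fun B hB' => ?_⟩
  have hBC3 : C₃ * (W * Q) ≤ B := (le_max_left _ _).trans hB'
  have hB := (le_max_right _ _).trans hB'
  have hBB1 : B₁ ≤ B := (le_max_left _ _).trans hB
  have hBC1 : C₁ * (W * Q) ≤ B := ((le_max_left _ _).trans (le_max_right _ _)).trans hB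
  have hBC2 : C₂ * (W * Q) ≤ B := ((le_max_right _ _).trans (le_max_right _ _)).trans hB
  obtain ⟨hfin, hcard, -⟩ := hBX B (W * Q) A hWQ hBC1
  obtain ⟨hfin0, -, -⟩ := hBX B 1 (fun _ => 0) one_pos
    (le_trans (Nat.mul_le_mul_left C₁ hWQ) hBC1)
  have hBz : (Bz F g B).Finite := by
    refine hfin0.subset ?_
    intro a ha
    exact ⟨ha, fun j => by simp⟩
  have hsml := hM B (W * Q) A hWQ hBC2
  have hstr := hB₁ B hBB1
  set U := Bx g B (W * Q) A with hU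
  set Up := {a ∈ U | Pr a} with hUp
  have hUpc : U.ncard ≤ R₀ * Up.ncard := hPr B (W * Q) A hWQ hBC3
  set U1 := {a ∈ U | ∃ v : HeightOneSpectrum (𝓞 F), M < nv v ∧ nv v ^ 2 < B ^ dg F ∧
    ((W * Q : ℕ) : 𝓞 F) ∉ v.asIdeal ∧ dis a ∈ v.asIdeal ^ 2} with hU1
  set U2 := {a ∈ Bz F g B | ∃ v : HeightOneSpectrum (𝓞 F), B ^ dg F ≤ nv v ^ 2 ∧
    dis a ∈ v.asIdeal ∧ D2 a ∈ v.asIdeal} with hU2
  have hU1f : U1.Finite := hfin.subset (Set.sep_subset _ _)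
  have hU2f : U2.Finite := hBz.subset (Set.sep_subset _ _)
  -- the good ones are in the family
  have key : pol '' (Up \ (U1 ∪ U2)) ⊆
      {f : (𝓞 F)[X] | FamT g B W Bw f₁ S P f ∧ Pr (fun j => f.coeff j)} := by
    rintro _ ⟨a, ⟨⟨haU, haP⟩, ha⟩, rfl⟩
    have haB : a ∈ Bz F g B := haU.1
    have haR : ∀ j, ((W * Q : ℕ) : 𝓞 F) ∣ a j - A j := haU.2
    have hone : Cg (sp F W) (pol a) f₁ := by
      apply cg_pol a hmon hdeg htr
      intro j
      rw [Ideal.mem_span_singleton]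
      have e1 : (W : 𝓞 F) ∣ a j - A j := dvd_trans (by push_cast; exact dvd_mul_right _ _) (haR j)
      have e2 : a j - f₁.coeff j = (a j - A j) + (A j - f₁.coeff j) := by ring
      rw [e2]
      exact dvd_add e1 (hA1 j)
    have hcon : ∀ q ∈ S, Cg (sp F q) (pol a) (P q) := by
      intro q hq
      obtain ⟨hq1, hq2, hq3, hq4, hq5, hq6, hq7, hq8, hq9, hq10, hq11, hq12, hq13, hq14, hq15⟩ :=
        hS q hq
      apply cg_pol a hq11 hq12 hq13
      intro j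
      rw [Ideal.mem_span_singleton]
      have e0 : (q : 𝓞 F) ∣ ((W * Q : ℕ) : 𝓞 F) := by
        have e3 : q ∣ W * Q := by
          rw [hQ]
          exact Dvd.dvd.mul_left (Finset.dvd_prod_of_mem (fun q => q) hq) W
        exact Nat.cast_dvd_cast e3
      have e1 : (q : 𝓞 F) ∣ a j - A j := dvd_trans e0 (haR j)
      have e2 : a j - (P q).coeff j = (a j - A j) + (A j - (P q).coeff j) := by ring
      rw [e2]
      exact dvd_add e1 (hA2 j q hq)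
    refine ⟨⟨ht_pol haB, hone, hcon, fun v hBv hPd => ?_⟩, ?_⟩
    swap
    · have e : (fun j : Fin (2 * g) => (pol a).coeff j) = a := by
        funext j
        rw [pol_coeff, if_neg (by have := j.2; omega), dif_pos j.2]
      rw [e]
      exact haP
    have hPd' : dis a ∈ v.asIdeal ^ 2 := hPd
    have hPd1 : Pool.Agent.N352.PF.dsc g (pol a) ∈ v.asIdeal :=
      Ideal.pow_le_self two_ne_zero hPd
    haveI : Finite (𝓞 F ⧸ v.asIdeal) := v.asIdeal.finiteQuotientOfFreeOfNeBot v.ne_bot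
    haveI : IsDomain (𝓞 F ⧸ v.asIdeal) := Ideal.Quotient.isDomain v.asIdeal
    have hPW : (W : 𝓞 F) ∉ v.asIdeal := by
      intro hd
      refine h5 F g v (pol a) f₁ hg (pol_monic a) (pol_natDegree a) ?_ (hsep v hd hBv) hPd1
      intro j
      exact (Ideal.span_singleton_le_iff_mem _).2 hd (hone j)
    have hPS : ∀ q ∈ S, (q : 𝓞 F) ∉ v.asIdeal := by
      intro q hq hd
      obtain ⟨hq1, hq2, hq3, hq4, hq5, hq6, hq7, hq8, hq9, hq10, hq11, hq12, hq13, hq14, hq15⟩ :=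
        hS q hq
      have hc : ∀ j, (pol a).coeff j - (P q).coeff j ∈ v.asIdeal := fun j =>
        (Ideal.span_singleton_le_iff_mem _).2 hd (hcon q hq j)
      by_cases hv : v.asIdeal = 𝔮 q
      · refine h5 F g v (pol a) (X * h q) hg (pol_monic a) (pol_natDegree a) ?_ ?_ hPd1
        · intro j
          have e1 : (pol a).coeff j - (X * h q).coeff j =
              ((pol a).coeff j - (P q).coeff j) + ((P q).coeff j - (X * h q).coeff j) := by ring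
          rw [e1]
          refine Ideal.add_mem _ (hc j) ?_
          rw [hv]
          exact hq14 j
        · have e1 : rv v (X * h q) = X * rv v (h q) := by
            rw [rv, rv, Polynomial.map_mul, Polynomial.map_X]
          rw [e1]
          have e2 : Irreducible (rv v (h q)) := by
            have e3 : Irreducible (rd v.asIdeal (h q)) := by
              rw [hv]
              exact hq10
            exact e3
          refine sep_X_mul e2 ?_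
          rw [rv, hq8.natDegree_map, hq9]
          omega
      · refine h5 F g v (pol a) (P q) hg (pol_monic a) (pol_natDegree a) hc ?_ hPd1
        exact sep_of_irr (hq15 v.asIdeal v.isPrime hd hv)
    have hPQ : ((W * Q : ℕ) : 𝓞 F) ∉ v.asIdeal := by
      intro hd
      rw [Nat.cast_mul] at hd
      rcases v.isPrime.mem_or_mem hd with hd | hd
      · exact hPW hd
      · rw [hQ, Nat.cast_prod] at hd
        obtain ⟨q, hq, hqm⟩ := (Ideal.IsPrime.prod_mem_iff (hp := v.isPrime)).1 hd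
        exact hPS q hq hqm
    have hsmall : ∀ n : ℕ, 0 < n → (n : 𝓞 F) ∈ v.asIdeal →
        (∀ p : ℕ, p.Prime → p ∣ n → p ≤ max M (2 * g + 1)) → False := by
      intro n hn hm hle
      obtain ⟨p, hp1, hp2, hp3⟩ := prime_factor v.asIdeal v.isPrime n hn hm
      have e1 := hW p hp1 (hle p hp1 hp2)
      apply hPW
      obtain ⟨m, hm⟩ := e1
      rw [hm, Nat.cast_mul]
      exact Ideal.mul_mem_right _ _ hp3
    have hfac : ((2 * g + 1).factorial : 𝓞 F) ∉ v.asIdeal := by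
      intro hd
      refine hsmall _ (Nat.factorial_pos _) hd fun p hp hpd => ?_
      exact ((hp.dvd_factorial).1 hpd).trans (le_max_right _ _)
    have hPM1 : M < nv v := by
      by_contra hc
      have hnv2 : 2 ≤ nv v := (h7 F).2.2 v
      refine hsmall (nv v) (by omega) (Ideal.absNorm_mem v.asIdeal) fun p hp hpd => ?_
      have e1 := Nat.le_of_dvd (by omega) hpd
      exact (e1.trans (not_lt.1 hc)).trans (le_max_left _ _)
    have hBP : B ^ dg F ≤ nv v ^ 2 := by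
      by_contra hc
      exact ha (Or.inl ⟨haU, v, hPM1, not_le.1 hc, hPQ, hPd'⟩)
    refine ⟨hBP, h3 F g v hg hfac a hPd' fun hD => ?_⟩
    exact ha (Or.inr ⟨haB, v, hBP, hPd1, hD⟩)
  -- finiteness of the family
  have hFf : {f : (𝓞 F)[X] | FamT g B W Bw f₁ S P f ∧ Pr (fun j => f.coeff j)}.Finite := by
    refine (hBz.image pol).subset ?_
    intro f hf
    exact ⟨fun j => f.coeff j, bz_coeff hf.1.ht, (eq_pol hf.1.ht).symm⟩
  -- counting
  have c1 : (Up \ (U1 ∪ U2)).ncard ≤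
      {f : (𝓞 F)[X] | FamT g B W Bw f₁ S P f ∧ Pr (fun j => f.coeff j)}.ncard := by
    rw [← Set.ncard_image_of_injective _ pol_inj]
    exact Set.ncard_le_ncard key hFf
  have c2 : Up.ncard ≤ (Up \ (U1 ∪ U2)).ncard + (U1.ncard + U2.ncard) := by
    have e1 := Set.ncard_le_ncard_diff_add_ncard Up (U1 ∪ U2) (hU1f.union hU2f)
    have e2 := Set.ncard_union_le U1 U2
    omega
  have c3 : (4 * R₀ : ℝ) * U1.ncard ≤ U.ncard := by exact_mod_cast hsml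
  have hC0 : (0 : ℝ) < C₁ := by exact_mod_cast hC₁
  have c4 : (B : ℝ) ^ (dg F * dd g) ≤
      C₁ * U.ncard * ((W * Q : ℕ) : ℝ) ^ (2 * g * dg F) := by exact_mod_cast hcard
  have hP0 : (0 : ℝ) < ((W * Q : ℕ) : ℝ) ^ (2 * g * dg F) := by positivity
  have c5 : (4 * R₀ : ℝ) * U2.ncard ≤ U.ncard := by
    have e1 : (U2.ncard : ℝ) ≤ 1 / (4 * R₀ * C₁ * ((W * Q : ℕ) : ℝ) ^ (2 * g * dg F)) *
        (C₁ * U.ncard * ((W * Q : ℕ) : ℝ) ^ (2 * g * dg F)) :=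
      hstr.trans (mul_le_mul_of_nonneg_left c4 (by positivity))
    have e2 : 1 / (4 * R₀ * C₁ * ((W * Q : ℕ) : ℝ) ^ (2 * g * dg F)) *
        (C₁ * U.ncard * ((W * Q : ℕ) : ℝ) ^ (2 * g * dg F)) = U.ncard / (4 * R₀) := by
      field_simp
    rw [e2, le_div_iff₀ (by positivity)] at e1
    linarith
  have c6 : (U.ncard : ℝ) ≤ 2 * R₀ *
      ({f : (𝓞 F)[X] | FamT g B W Bw f₁ S P f ∧ Pr (fun j => f.coeff j)}.ncard : ℝ) := by
    have e0 : (U.ncard : ℝ) ≤ R₀ * Up.ncard := by exact_mod_cast hUpc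
    have e1 : (Up.ncard : ℝ) ≤ ((Up \ (U1 ∪ U2)).ncard : ℝ) + (U1.ncard + U2.ncard) := by
      exact_mod_cast c2
    have e2 : ((Up \ (U1 ∪ U2)).ncard : ℝ) ≤
        ({f : (𝓞 F)[X] | FamT g B W Bw f₁ S P f ∧ Pr (fun j => f.coeff j)}.ncard : ℝ) := by
      exact_mod_cast c1
    have e3 : (R₀ : ℝ) * Up.ncard ≤ R₀ * (((Up \ (U1 ∪ U2)).ncard : ℝ) +
        (U1.ncard + U2.ncard)) := mul_le_mul_of_nonneg_left e1 hR0.le
    have e4 : (R₀ : ℝ) * ((Up \ (U1 ∪ U2)).ncard : ℝ) ≤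
        R₀ * ({f : (𝓞 F)[X] | FamT g B W Bw f₁ S P f ∧ Pr (fun j => f.coeff j)}.ncard : ℝ) :=
      mul_le_mul_of_nonneg_left e2 hR0.le
    linarith
  have c7 : (((∏ q ∈ S, q ^ (2 * g)) ^ Module.finrank ℚ F : ℕ) : ℝ) =
      (Q : ℝ) ^ (2 * g * dg F) := by
    rw [hQ, Finset.prod_pow]
    push_cast
    rw [← pow_mul]
  rw [c7]
  have hW1 : (0 : ℝ) < (W : ℝ) ^ (2 * g * dg F) := by positivity
  have c8 : (B : ℝ) ^ (dg F * dd g) ≤
      C₁ * (2 * R₀ * ({f : (𝓞 F)[X] | FamT g B W Bw f₁ S P f ∧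
        Pr (fun j => f.coeff j)}.ncard : ℝ)) * ((W * Q : ℕ) : ℝ) ^ (2 * g * dg F) :=
    c4.trans (mul_le_mul_of_nonneg_right (mul_le_mul_of_nonneg_left c6 hC0.le) hP0.le)
  rw [one_div_mul_eq_div, div_le_iff₀ (by positivity)]
  refine c8.trans (le_of_eq ?_)
  push_cast
  rw [mul_pow]
  ring

section

open Pool.Agent.N783.PF
open Pool.Agent.N667.PF (cg_mono sp_le rd_eq_of_cg sep_mul sep_irr top_pow)

/-- The discriminant is not divisible by the square of a prime which is not bad. -/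
theorem sqf (g : ℕ) (F : Type) [Field F] [NumberField F] (hg : 1 ≤ g) : ∃ κ : ℕ,
    ∀ (B N W : ℕ) (Bw : HeightOneSpectrum (𝓞 F) → Prop) (f₁ : (𝓞 F)[X]) (S : Finset ℕ)
    (𝔮 : ℕ → Ideal (𝓞 F)) (h P : ℕ → (𝓞 F)[X]) (f : (𝓞 F)[X]), κ ≤ W →
    GoodS g W S 𝔮 h P → FamT g B W Bw f₁ S P f → Irreducible (fF f) → 2 ^ κ * B ≤ 4 ^ N →
    ¬ LBad g N κ S 𝔮 P f → (∀ v, ¬ Bw v → (2 : 𝓞 F) ∉ v.asIdeal) →
    ∀ v, ¬ Bw v → dsc g f ∉ v.asIdeal ^ 2 := by
  have h1 := Pool.Agent.N225.PF.nbr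
  have h3 := Pool.Agent.N352.PF.dscT
  have h4 := Pool.Agent.N667.PF.gen
  obtain ⟨κ, hκ⟩ := Pool.Agent.N783.PF.lb g F hg
  refine ⟨κ, ?_⟩
  intro B N W Bw f₁ S 𝔮 h P f hκW hGS hF hirr hBN hnb hB2 v hBv hdsc
  obtain ⟨𝔭, h𝔭⟩ : ∃ 𝔭, 𝔭 = v.asIdeal := ⟨_, rfl⟩
  have hp : 𝔭.IsPrime := by rw [h𝔭]; exact v.isPrime
  have h0 : 𝔭 ≠ ⊥ := by rw [h𝔭]; exact v.ne_bot
  have h2p : (2 : 𝓞 F) ∉ 𝔭 := by rw [h𝔭]; exact hB2 v hBv
  have hwk := hF.wk v hBv hdsc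
  rw [← h𝔭] at hwk hdsc
  have hmax : 𝔭.IsMaximal := hp.isMaximal h0
  have hdsc1 : dsc g f ∈ 𝔭 := Ideal.pow_le_self two_ne_zero hdsc
  have hqp : ∀ q ∈ S, (q : 𝓞 F) ∉ 𝔭 := by
    intro q hq hqp
    obtain ⟨-, -, -, -, -, hqP, hqm, hmon, hdeg, hi, -, -, -, hcg, hoth⟩ := hGS q hq
    refine h3 F g 𝔭 f (P q) hg hp h0 hF.ht.mon hF.ht.deg (cg_mono (sp_le hqp) (hF.con q hq)) ?_ hdsc1
    by_cases he : 𝔭 = 𝔮 q
    · subst he
      rw [rd_eq_of_cg hcg]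
      exact sep_mul hp h0 hg hmon hdeg hi
    · exact sep_irr hp h0 (hoth 𝔭 hp hqp he)
  obtain ⟨hBP, hweak⟩ := hwk
  obtain ⟨L, _, _, _, θ, hG⟩ := h4 F g f hF.ht.mon hF.ht.deg hirr
  obtain ⟨Λ, hLat, hin, hI⟩ := h1 g F L f θ 𝔭 hg hp h0 h2p hG hweak
  apply hnb
  refine hκ L f θ B N W S 𝔮 h P hκW hGS hG hF.ht hBN hF.con 1 Λ one_ne_zero ?_ hLat ?_
    (Or.inr ⟨rfl, ?_⟩)
  · rw [map_one]
    exact IsSquare.one
  · intro q hq
    obtain ⟨-, -, -, -, -, hqP, hqm, -, -, -, -, -, -, -, -⟩ := hGS q hq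
    obtain ⟨s, hs, hs'⟩ : ∃ s ∈ 𝔭, s ∉ 𝔮 q := by
      by_contra hcon
      push Not at hcon
      have hle : 𝔭 ≤ 𝔮 q := hcon
      have he : 𝔭 = 𝔮 q := hmax.eq_of_le hqP.ne_top hle
      exact hqp q hq (he ▸ hqm)
    refine ⟨algebraMap F L (s : F), hin s hs, s, hs', fun m hm => ⟨0, (𝔮 q).zero_mem, ?_⟩⟩
    have e1 : θ ^ m * (algebraMap F L (s : F)) ^ 2 / 1 = ((s : F) ^ 2) • θ ^ m := by
      rw [Algebra.smul_def, map_pow, div_one, mul_comm]
    rw [e1, map_smul, top_pow hG hm, smul_eq_mul]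
    split_ifs <;> simp
  · intro j hj
    by_cases hj0 : j = 0
    · exact Or.inl hj0
    · right
      have hj' : j ∈ 𝔭 := hI j hj
      have hd : Ideal.absNorm 𝔭 ∣ Ideal.absNorm (Ideal.span {j}) :=
        Ideal.absNorm_dvd_absNorm_of_le ((Ideal.span_singleton_le_iff_mem _).2 hj')
      have hne : Ideal.absNorm (Ideal.span {j}) ≠ 0 := by
        rw [Ne, Ideal.absNorm_eq_zero_iff, Ideal.span_singleton_eq_bot]
        exact hj0
      have hle := Nat.le_of_dvd (Nat.pos_of_ne_zero hne) hd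
      exact hBP.trans (Nat.pow_le_pow_left hle 2)

end

end Pool.Agent.H459.UT
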