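import Pool.Agent.H459.UT.Cyc
import Pool.Agent.H459.UT.Fam
import Pool.Agent.H459.UF.GfW

/-!
# The conditions at the small primes (helper459)
-/

set_option autoImplicit false
set_option linter.all false

open Polynomial IsDedekindDomain NumberField WithZero MulAction
open scoped Classical Pointwise

namespace Pool.Agent.H459.UT

open Pool.Agent.H459.UF (below mem_below val_pow le_one_of_lt exists_loc rd_pol)
open Pool.Agent.N783.PF (Cg sp rd Ht fF)
open Pool.Agent.N61.PF (pol pol_monic pol_natDegree pol_coeff0 pol_coeff1 pol_coeff2)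

section dy

variable {K : Type} [Field K] [NumberField K]

/-- The completions at the primes over two are dyadic local fields. -/
theorem dy_cpt {w : HeightOneSpectrum (𝓞 K)} (h2 : (2 : 𝓞 K) ∈ w.asIdeal) :
    ∃ π ρ₀ : w.adicCompletion K,
      Dy (Valued.v (R := w.adicCompletion K) (Γ₀ := WithZero (Multiplicative ℤ))) π ρ₀ := by
  haveI hmax : w.asIdeal.IsMaximal := w.isMaximal
  letI : Field (𝓞 K ⧸ w.asIdeal) := Ideal.Quotient.field w.asIdeal
  haveI hfin : Finite (𝓞 K ⧸ w.asIdeal) := Ideal.finiteQuotientOfFreeOfNeBot w.asIdeal w.ne_bot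
  obtain ⟨π, hπ⟩ := w.valuation_exists_uniformizer K
  have vxo : ∀ x : 𝓞 K, Valued.v (Γ₀ := WithZero (Multiplicative ℤ))
      (algebraMap K (w.adicCompletion K) (algebraMap (𝓞 K) K x)) < 1 ↔ x ∈ w.asIdeal := by
    intro x
    rw [Pool.Agent.N704.PP.vx, HeightOneSpectrum.valuation_lt_one_iff_mem]
  have hin : ∀ x : 𝓞 K, Valued.v (Γ₀ := WithZero (Multiplicative ℤ))
      (algebraMap K (w.adicCompletion K) (algebraMap (𝓞 K) K x)) ≤ 1 := by
    intro x
    rw [Pool.Agent.N704.PP.vx]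
    exact HeightOneSpectrum.valuation_le_one (K := K) w x
  -- approximation by integers
  have hap : ∀ a : w.adicCompletion K, Valued.v (Γ₀ := WithZero (Multiplicative ℤ)) a ≤ 1 →
      ∃ x : 𝓞 K, Valued.v (Γ₀ := WithZero (Multiplicative ℤ))
        (a - algebraMap K (w.adicCompletion K) (algebraMap (𝓞 K) K x)) < 1 := by
    intro a ha
    obtain ⟨x₁, hx₁⟩ := Pool.Agent.N704.PP.near_one (v := w) a
    have h1 : w.valuation K x₁ ≤ 1 := by
      rw [← Pool.Agent.N704.PP.vx]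
      have e : algebraMap K (w.adicCompletion K) x₁ = a -
          (a - algebraMap K (w.adicCompletion K) x₁) := by ring
      rw [e]
      exact (Valuation.map_sub _ _ _).trans (max_le ha hx₁.le)
    obtain ⟨x, hx⟩ := w.exists_valuation_sub_lt_of_integer h1 1
    rw [Units.val_one] at hx
    refine ⟨x, ?_⟩
    have e : a - algebraMap K (w.adicCompletion K) (algebraMap (𝓞 K) K x) =
        (a - algebraMap K (w.adicCompletion K) x₁) -
          algebraMap K (w.adicCompletion K) (algebraMap (𝓞 K) K x - x₁) := by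
      rw [map_sub]
      ring
    rw [e]
    refine (Valuation.map_sub _ _ _).trans_lt (max_lt hx₁ ?_)
    rw [Pool.Agent.N704.PP.vx]
    exact hx
  have hni : ¬ Function.Injective (fun t : 𝓞 K ⧸ w.asIdeal => t ^ 2 + t) := by
    intro hi
    have h20 : (2 : 𝓞 K ⧸ w.asIdeal) = 0 := by
      have := Ideal.Quotient.eq_zero_iff_mem.2 h2
      rwa [map_ofNat] at this
    have : (0 : 𝓞 K ⧸ w.asIdeal) = 1 := hi (by
      show (0 : 𝓞 K ⧸ w.asIdeal) ^ 2 + 0 = 1 ^ 2 + 1
      rw [one_pow]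
      have e : (1 : 𝓞 K ⧸ w.asIdeal) + 1 = 2 := by norm_num
      rw [e, h20]
      ring)
    exact zero_ne_one this
  have hns : ¬ Function.Surjective (fun t : 𝓞 K ⧸ w.asIdeal => t ^ 2 + t) := fun hs =>
    hni (Finite.injective_iff_surjective.2 hs)
  rw [Function.Surjective, not_forall] at hns
  obtain ⟨r, hr⟩ := hns
  obtain ⟨ρ, rfl⟩ := Ideal.Quotient.mk_surjective r
  refine ⟨algebraMap K _ π, algebraMap K _ (algebraMap (𝓞 K) K ρ), ?_, ?_, sq4 w, ?_, hin ρ, ?_⟩
  · have e : (2 : w.adicCompletion K) = algebraMap K (w.adicCompletion K) 2 := by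
      rw [map_ofNat]
    rw [e, Pool.Agent.N704.PP.vx]
    exact two_lt h2
  · rw [Pool.Agent.N704.PP.vx]
    exact hπ
  · intro a ha
    obtain ⟨x, hx⟩ := hap a ha
    obtain ⟨y, hy⟩ : ∃ y : 𝓞 K, x - y ^ 2 ∈ w.asIdeal := by
      haveI : CharP (𝓞 K ⧸ w.asIdeal) 2 := by
        refine CharTwo.of_one_ne_zero_of_two_eq_zero one_ne_zero ?_
        have := Ideal.Quotient.eq_zero_iff_mem.2 h2
        rwa [map_ofNat] at this
      haveI : Fintype (𝓞 K ⧸ w.asIdeal) := Fintype.ofFinite _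
      obtain ⟨z, hz⟩ := FiniteField.isSquare_of_char_two (ringChar.eq _ 2)
        (Ideal.Quotient.mk w.asIdeal x)
      obtain ⟨y, rfl⟩ := Ideal.Quotient.mk_surjective z
      refine ⟨y, ?_⟩
      rw [← Ideal.Quotient.eq, hz, pow_two, map_mul]
    refine ⟨algebraMap K _ (algebraMap (𝓞 K) K y), ?_⟩
    have e : a - (algebraMap K (w.adicCompletion K) (algebraMap (𝓞 K) K y)) ^ 2 =
        (a - algebraMap K (w.adicCompletion K) (algebraMap (𝓞 K) K x)) +
          algebraMap K (w.adicCompletion K) (algebraMap (𝓞 K) K (x - y ^ 2)) := by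
      simp only [map_sub, map_pow]
      ring
    rw [e]
    exact (Valuation.map_add _ _ _).trans_lt (max_lt hx ((vxo _).2 hy))
  · intro z hz hlt
    obtain ⟨x, hx⟩ := hap z hz
    apply hr
    refine ⟨Ideal.Quotient.mk _ x, ?_⟩
    show (Ideal.Quotient.mk w.asIdeal x) ^ 2 + Ideal.Quotient.mk w.asIdeal x = _
    rw [← map_pow, ← map_add, Ideal.Quotient.eq, ← vxo]
    obtain ⟨X, hX⟩ : ∃ X, X = algebraMap K (w.adicCompletion K) (algebraMap (𝓞 K) K x) :=
      ⟨_, rfl⟩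
    rw [← hX] at hx
    have e : algebraMap K (w.adicCompletion K) (algebraMap (𝓞 K) K (x ^ 2 + x - ρ)) =
        (z ^ 2 + z - algebraMap K (w.adicCompletion K) (algebraMap (𝓞 K) K ρ)) -
          (z - X) * (z + X + 1) := by
      simp only [map_sub, map_pow, map_add, ← hX]
      ring
    rw [e]
    refine (Valuation.map_sub _ _ _).trans_lt (max_lt hlt ?_)
    rw [map_mul]
    refine (mul_le_of_le_one_right' ?_).trans_lt hx
    refine (Valuation.map_add _ _ _).trans (max_le ((Valuation.map_add _ _ _).trans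
      (max_le hz ?_)) (by rw [map_one]))
    rw [hX]
    exact hin x

end dy

section beta

variable {F M : Type} [Field F] [NumberField F] [Field M] [NumberField M] [Algebra F M]

/-- `-N` is not a norm from the quadratic extensions of `F_v` inside the completions of `M`. -/
def NN (M : Type) {F : Type} [Field F] [NumberField F] [Field M] [NumberField M] [Algebra F M]
    (v : HeightOneSpectrum (𝓞 F)) (N : F) : Prop :=
  ∀ w : HeightOneSpectrum (𝓞 M), below F w = v → ∀ δ : F,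
    IsSquare (algebraMap M (w.adicCompletion M) (algebraMap F M δ)) →
    ¬ IsSquare (algebraMap F (v.adicCompletion F) δ) →
    ¬ ∃ x y : v.adicCompletion F, x ^ 2 - algebraMap F (v.adicCompletion F) δ * y ^ 2 =
      -algebraMap F (v.adicCompletion F) N

/-- stability -/
theorem NN.near {v : HeightOneSpectrum (𝓞 F)} {β N : F} (h : NN M v β) (hβ : β ≠ 0)
    (hN : v.valuation F (N - β) < v.valuation F (4 * β)) : NN M v N := by
  haveI := charzero_cpt v
  intro w hw δ h1 h2 ⟨x, y, hxy⟩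
  obtain ⟨i, hi⟩ : ∃ i : F →+* v.adicCompletion F, i = algebraMap F _ := ⟨_, rfl⟩
  have hβv : 0 < v.valuation F β := zero_lt_iff.2 ((Valuation.ne_zero_iff _).2 hβ)
  have hε : v.valuation F ((N - β) / β) < v.valuation F 4 := by
    rw [map_div₀, div_lt_iff₀ hβv, ← map_mul]
    exact hN
  obtain ⟨s, hs⟩ := sq4 v (i ((N - β) / β)) (by
    rw [hi, Pool.Agent.N704.PP.vx, ← map_ofNat (algebraMap F (v.adicCompletion F)) 4,
      Pool.Agent.N704.PP.vx]
    exact hε)
  have h41 : v.valuation F 4 ≤ 1 := by exact_mod_cast v_nat_le (v.valuation F) 4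
  have hs0 : s ≠ 0 := by
    rintro rfl
    have h5 : v.valuation F (1 + (N - β) / β) = 1 := v_one_add (hε.trans_le h41)
    rw [mul_zero, ← map_one i, ← map_add] at hs
    rw [(_root_.map_eq_zero i).1 hs, map_zero] at h5
    exact zero_ne_one h5
  refine h w hw δ h1 h2 ⟨x / s, y / s, ?_⟩
  rw [← hi] at hxy ⊢
  have e1 : i N = i β * (s * s) := by
    rw [← hs, ← map_one i, ← map_add, ← map_mul]
    congr 1
    field_simp
    ring
  rw [e1] at hxy
  field_simp
  linear_combination hxy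

/-- **The element `β`.** -/
theorem exists_beta [IsGalois F M] {v : HeightOneSpectrum (𝓞 F)} (h2 : (2 : 𝓞 F) ∈ v.asIdeal)
    (hcyc : ∀ w : HeightOneSpectrum (𝓞 M), (2 : 𝓞 M) ∈ w.asIdeal →
      IsCyclic (stabilizer (M ≃ₐ[F] M) w.asIdeal)) :
    ∃ β : 𝓞 F, β ≠ 0 ∧ v.valuation F (β : F) < v.valuation F 64 ∧ NN M v (β : F) := by
  haveI := charzero_cpt v
  have h2v := two_lt h2
  have h2p : 0 < v.valuation F 2 := zero_lt_iff.2 ((Valuation.ne_zero_iff _).2 two_ne_zero)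
  have h64 : v.valuation F 64 = v.valuation F 2 ^ 6 := by
    rw [← map_pow]
    norm_num
  have h8 : v.valuation F 2 ^ 8 < v.valuation F 64 := by
    rw [h64]
    exact pow_lt_pow_right_of_lt_one₀ h2p h2v (by norm_num)
  have h2w : ∀ w : HeightOneSpectrum (𝓞 M), below F w = v → (2 : 𝓞 M) ∈ w.asIdeal := by
    intro w hw
    rw [← hw, mem_below, map_ofNat] at h2
    exact h2
  by_cases hex : ∃ (w : HeightOneSpectrum (𝓞 M)) (δ : F), below F w = v ∧
      IsSquare (algebraMap M (w.adicCompletion M) (algebraMap F M δ)) ∧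
      ¬ IsSquare (algebraMap F (v.adicCompletion F) δ)
  · obtain ⟨w₀, δ₀, hw₀, hs₀, hn₀⟩ := hex
    obtain ⟨i, hi⟩ : ∃ i : F →+* v.adicCompletion F, i = algebraMap F _ := ⟨_, rfl⟩
    rw [← hi] at hn₀
    obtain ⟨π, ρ₀, hdy⟩ := dy_cpt h2
    obtain ⟨a, ha0, ha⟩ := hdy.ex hn₀
    have h4a : Valued.v (Γ₀ := WithZero (Multiplicative ℤ)) (4 * a : v.adicCompletion F) ≠ 0 :=
      (Valuation.ne_zero_iff _).2 (mul_ne_zero (by norm_num) ha0)
    obtain ⟨a', ha'⟩ := Pool.Agent.N704.PP.near v a h4a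
    rw [← hi] at ha'
    have hav : 0 < Valued.v (Γ₀ := WithZero (Multiplicative ℤ)) a :=
      zero_lt_iff.2 ((Valuation.ne_zero_iff _).2 ha0)
    have hε : Valued.v (Γ₀ := WithZero (Multiplicative ℤ)) ((i a' - a) / a) <
        Valued.v (Γ₀ := WithZero (Multiplicative ℤ)) (4 : v.adicCompletion F) := by
      rw [map_div₀, div_lt_iff₀ hav, ← map_mul, Valuation.map_sub_swap]
      exact ha'
    obtain ⟨s, hs⟩ := sq4 v _ hε
    have h41 : Valued.v (Γ₀ := WithZero (Multiplicative ℤ)) (4 : v.adicCompletion F) ≤ 1 := by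
      exact_mod_cast v_nat_le _ 4
    have hs0 : s ≠ 0 := by
      rintro rfl
      have h5 : Valued.v (Γ₀ := WithZero (Multiplicative ℤ)) (1 + (i a' - a) / a) = 1 :=
        v_one_add (hε.trans_le h41)
      rw [mul_zero] at hs
      rw [hs, map_zero] at h5
      exact zero_ne_one h5
    have haa : i a' = a * (s * s) := by
      rw [← hs]
      field_simp
      ring
    have ha'0 : a' ≠ 0 := by
      rintro rfl
      rw [map_zero] at haa
      exact mul_ne_zero ha0 (mul_ne_zero hs0 hs0) haa.symm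
    obtain ⟨x, y, hy, hxy⟩ := IsFractionRing.div_surjective (A := 𝓞 F) a'
    have hy0 : (y : 𝓞 F) ≠ 0 := nonZeroDivisors.ne_zero hy
    have hyF : (algebraMap (𝓞 F) F y) ≠ 0 := by
      rwa [Ne, FaithfulSMul.algebraMap_eq_zero_iff]
    have hx0 : x ≠ 0 := by
      rintro rfl
      rw [map_zero, zero_div] at hxy
      exact ha'0 hxy.symm
    refine ⟨-(x * y * 2 ^ 8), neg_ne_zero.2 (mul_ne_zero (mul_ne_zero hx0 hy0)
      (pow_ne_zero _ two_ne_zero)), ?_, ?_⟩
    · have e : ((-(x * y * 2 ^ 8) : 𝓞 F) : F) = -(algebraMap (𝓞 F) F (x * y) * 2 ^ 8) := by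
        show algebraMap (𝓞 F) F (-(x * y * 2 ^ 8)) = _
        rw [map_neg, map_mul, map_pow, map_ofNat]
      rw [e, Valuation.map_neg, map_mul, map_pow]
      refine (mul_le_of_le_one_left' ?_).trans_lt h8
      exact HeightOneSpectrum.valuation_le_one (K := F) v _
    · intro w hw δ h3 h4 ⟨X, Y, hXY⟩
      rw [← hi] at h4 hXY
      subst hw
      have h5 := sq_conj (w := w₀) (w' := w) hw₀.symm h3
      have h6 := uniq2 (h2w w₀ hw₀) (hcyc w₀ (h2w w₀ hw₀)) hs₀ h5
      rw [hw₀, ← hi] at h6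
      rcases h6 with h6 | h6 | ⟨t, ht⟩
      · exact hn₀ h6
      · exact h4 h6
      · rw [map_mul] at ht
        have hδ0 : i δ₀ ≠ 0 := by
          intro h0
          apply hn₀
          rw [h0]
          exact ⟨0, by ring⟩
        apply ha
        refine ⟨X / (16 * i (algebraMap (𝓞 F) F y) * s),
          (t / i δ₀) * Y / (16 * i (algebraMap (𝓞 F) F y) * s), ?_⟩
        have hiy : i (algebraMap (𝓞 F) F y) ≠ 0 := (_root_.map_ne_zero i).2 hyF
        have e2 : i (((-(x * y * 2 ^ 8) : 𝓞 F) : F)) =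
            -(a * (s * s) * (16 * i (algebraMap (𝓞 F) F y)) ^ 2) := by
          rw [← haa, ← hxy]
          have e3 : ((-(x * y * 2 ^ 8) : 𝓞 F) : F) =
              -(algebraMap (𝓞 F) F x / algebraMap (𝓞 F) F y * (16 * algebraMap (𝓞 F) F y) ^ 2) := by
            show algebraMap (𝓞 F) F (-(x * y * 2 ^ 8)) = _
            rw [map_neg, map_mul, map_mul, map_pow, map_ofNat]
            field_simp
            ring
          rw [e3]
          simp only [map_neg, map_mul, map_pow, map_ofNat]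
        rw [e2] at hXY
        field_simp
        have e4 : i δ * (i δ₀) = t * t := by rw [← ht]; ring
        linear_combination (i δ₀) * hXY + (Y ^ 2) * e4
  · refine ⟨2 ^ 8, pow_ne_zero _ two_ne_zero, ?_, ?_⟩
    · push_cast
      have : ((2 : 𝓞 F) : F) = 2 := map_ofNat (algebraMap (𝓞 F) F) 2
      rw [map_pow]
      exact h8
    · intro w hw δ h3 h4
      exact absurd ⟨w, δ, hw, h3, h4⟩ hex

/-- the valuation of elements of a power of the prime -/
theorem val_pow_lt {v : HeightOneSpectrum (𝓞 F)} {c : F} (hc : c ≠ 0) : ∃ n : ℕ,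
    ∀ x : 𝓞 F, x ∈ v.asIdeal ^ n → v.valuation F (x : F) < v.valuation F c := by
  obtain ⟨a, ha⟩ : ∃ a : ℤ, v.valuation F c = WithZero.exp a :=
    ⟨WithZero.log _, (WithZero.exp_log ((Valuation.ne_zero_iff _).2 hc)).symm⟩
  refine ⟨(-a).toNat + 1, fun x hx => ?_⟩
  rw [HeightOneSpectrum.valuation_of_algebraMap]
  refine ((HeightOneSpectrum.intValuation_le_pow_iff_mem v x _).2 hx).trans_lt ?_
  rw [ha, WithZero.exp_lt_exp]
  push_cast
  omega

/-- **The conditions at the small primes.** -/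
theorem gfT (F M : Type) [Field F] [NumberField F] [Field M] [NumberField M] [Algebra F M]
    [IsGalois F M] (hcyc : ∀ w : HeightOneSpectrum (𝓞 M), (2 : 𝓞 M) ∈ w.asIdeal →
      IsCyclic (stabilizer (M ≃ₐ[F] M) w.asIdeal)) (k M₀ : ℕ) (hk : 0 < k) :
    ∃ (W : ℕ) (f₁ : (𝓞 F)[X]), GoodT 1 W (fun v => (2 : 𝓞 F) ∈ v.asIdeal) f₁ ∧ k ∣ W ∧ 3 ∣ W ∧
      (∀ p : ℕ, p.Prime → p ≤ M₀ → p ∣ W) ∧
      (∀ v : HeightOneSpectrum (𝓞 F), (W : 𝓞 F) ∈ v.asIdeal → (2 : 𝓞 F) ∉ v.asIdeal →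
        Irreducible (rd v.asIdeal f₁)) ∧
      ∀ f : (𝓞 F)[X], Cg (sp F W) f f₁ → ∀ v : HeightOneSpectrum (𝓞 F), (2 : 𝓞 F) ∈ v.asIdeal →
        TF v (f.coeff 1 : F) (f.coeff 0 : F) ∧
        NN M v (27 + 3 * (f.coeff 1 : F) + (f.coeff 0 : F)) := by
  have hB : ∀ v : HeightOneSpectrum (𝓞 F), ∃ β : 𝓞 F, (2 : 𝓞 F) ∈ v.asIdeal → β ≠ 0 ∧
      v.valuation F (β : F) < v.valuation F 64 ∧ NN M v (β : F) := by
    intro v
    by_cases h2 : (2 : 𝓞 F) ∈ v.asIdeal
    · obtain ⟨β, hβ⟩ := exists_beta h2 hcyc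
      exact ⟨β, fun _ => hβ⟩
    · exact ⟨1, fun h => absurd h h2⟩
  choose β hβ using hB
  have hn : ∀ v : HeightOneSpectrum (𝓞 F), ∃ n : ℕ, (2 : 𝓞 F) ∈ v.asIdeal →
      ∀ x : 𝓞 F, x ∈ v.asIdeal ^ n → v.valuation F (x : F) < v.valuation F (4 * (β v : F)) := by
    intro v
    by_cases h2 : (2 : 𝓞 F) ∈ v.asIdeal
    · obtain ⟨n, hn⟩ := val_pow_lt (v := v) (c := 4 * (β v : F)) (mul_ne_zero (by norm_num)
        (RingOfIntegers.coe_ne_zero_iff.2 (hβ v h2).1))
      exact ⟨n, fun _ => hn⟩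
    · exact ⟨0, fun h => absurd h h2⟩
  choose n hn using hn
  have hfin2 : {v : HeightOneSpectrum (𝓞 F) | (2 : 𝓞 F) ∈ v.asIdeal}.Finite :=
    Pool.Agent.N644.PQ.HunC.finite_over 2 two_ne_zero
  obtain ⟨m, hm⟩ : ∃ m : ℕ, ∀ v : HeightOneSpectrum (𝓞 F), (2 : 𝓞 F) ∈ v.asIdeal → n v ≤ m := by
    refine ⟨hfin2.toFinset.sup n, fun v hv => ?_⟩
    exact Finset.le_sup (f := n) (hfin2.mem_toFinset.2 hv)
  obtain ⟨W, hW⟩ : ∃ W : ℕ, W = 2 ^ (m + 1) * (3 * k * primorial M₀) := ⟨_, rfl⟩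
  have hW0 : 0 < W := by
    rw [hW]
    exact Nat.mul_pos (by positivity) (Nat.mul_pos (Nat.mul_pos (by norm_num) hk)
      (primorial_pos _))
  have h2W : 2 ∣ W := by
    rw [hW, pow_succ']
    exact Dvd.dvd.mul_right (dvd_mul_right _ _) _
  have hkW : k ∣ W := by
    rw [hW]
    exact Dvd.dvd.mul_left (Dvd.dvd.mul_right (dvd_mul_left _ _) _) _
  have h3W : 3 ∣ W := by
    rw [hW]
    exact Dvd.dvd.mul_left (Dvd.dvd.mul_right (dvd_mul_right _ _) _) _
  have hpW : ∀ p : ℕ, p.Prime → p ≤ M₀ → p ∣ W := by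
    intro p hp hpM
    rw [hW]
    exact Dvd.dvd.mul_left (Dvd.dvd.mul_left ((hp.dvd_primorial_iff).2 hpM) _) _
  choose A B hA hB using exists_loc (F := F)
  have hWne : Ideal.span {(W : 𝓞 F)} ≠ 0 := by
    rw [Ne, Ideal.zero_eq_bot, Ideal.span_singleton_eq_bot]
    exact_mod_cast hW0.ne'
  have hfinS := Ideal.finite_factors hWne
  obtain ⟨T, hT⟩ : ∃ T, T = hfinS.toFinset := ⟨_, rfl⟩
  have hmem : ∀ v : HeightOneSpectrum (𝓞 F), (W : 𝓞 F) ∈ v.asIdeal → v ∈ T := by
    intro v hv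
    rw [hT, Set.Finite.mem_toFinset, Set.mem_setOf_eq, Ideal.dvd_span_singleton]
    exact hv
  obtain ⟨a, ha⟩ := IsDedekindDomain.exists_forall_sub_mem_ideal (s := T)
      (fun v => v.asIdeal) (fun v => n v + 1) (fun v _ => v.prime)
      (fun v _ w _ hvw h => hvw (HeightOneSpectrum.ext h))
      (fun v => if (2 : 𝓞 F) ∈ (v : HeightOneSpectrum (𝓞 F)).asIdeal then -27 else A v)
  obtain ⟨b, hb⟩ := IsDedekindDomain.exists_forall_sub_mem_ideal (s := T)
      (fun v => v.asIdeal) (fun v => n v + 1) (fun v _ => v.prime)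
      (fun v _ w _ hvw h => hvw (HeightOneSpectrum.ext h))
      (fun v => if (2 : 𝓞 F) ∈ (v : HeightOneSpectrum (𝓞 F)).asIdeal then 54 + β v else B v)
  have hirr : ∀ v : HeightOneSpectrum (𝓞 F), (W : 𝓞 F) ∈ v.asIdeal → (2 : 𝓞 F) ∉ v.asIdeal →
      Irreducible (rd v.asIdeal (pol a b)) := by
    intro v hv h2
    have h1 := Ideal.pow_le_self (Nat.succ_ne_zero _) (ha v (hmem v hv))
    have h3 := Ideal.pow_le_self (Nat.succ_ne_zero _) (hb v (hmem v hv))
    rw [if_neg h2] at h1 h3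
    have e : rd v.asIdeal (pol a b) = rd v.asIdeal (pol (A v) (B v)) := by
      rw [rd_pol, rd_pol, Ideal.Quotient.eq.2 h1, Ideal.Quotient.eq.2 h3]
    rw [e]
    exact hA v
  refine ⟨W, pol a b, ⟨pol_monic a b, pol_natDegree a b, pol_coeff2 a b, hW0, h2W, ?_⟩, hkW, h3W,
    hpW, hirr, ?_⟩
  · intro v hv h2
    have h1 := hirr v hv h2
    haveI : Finite (𝓞 F ⧸ v.asIdeal) := Ideal.finiteQuotientOfFreeOfNeBot v.asIdeal v.ne_bot
    haveI : IsDomain (𝓞 F ⧸ v.asIdeal) := Ideal.Quotient.isDomain v.asIdeal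
    exact Pool.Agent.N951.PF.sep_of_irr h1
  · intro f hf v h2
    obtain ⟨b1, b2, b3⟩ := hβ v h2
    have hWv : (W : 𝓞 F) ∈ v.asIdeal ^ (n v) := by
      have h3 : (2 : 𝓞 F) ^ (n v) ∈ v.asIdeal ^ (n v) := Ideal.pow_mem_pow h2 _
      obtain ⟨d, hd⟩ := Nat.exists_eq_add_of_le (hm v h2)
      rw [hW, hd]
      push_cast
      have e : (2 : 𝓞 F) ^ (n v + d + 1) * (3 * (k : 𝓞 F) * ((primorial M₀ : ℕ) : 𝓞 F)) =
          2 ^ (n v) * (2 ^ (d + 1) * (3 * (k : 𝓞 F) * ((primorial M₀ : ℕ) : 𝓞 F))) := by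
        ring
      rw [e]
      exact Ideal.mul_mem_right _ _ h3
    have hWv1 : (W : 𝓞 F) ∈ v.asIdeal := by
      obtain ⟨d, hd⟩ := h2W
      rw [hd, Nat.cast_mul]
      exact Ideal.mul_mem_right _ _ (by exact_mod_cast h2)
    have hsp : ∀ x : 𝓞 F, x ∈ sp F W → x ∈ v.asIdeal ^ (n v) := fun x hx =>
      (Ideal.span_singleton_le_iff_mem _).2 hWv hx
    have ha' := Ideal.pow_le_pow_right (Nat.le_succ _) (ha v (hmem v hWv1))
    have hb' := Ideal.pow_le_pow_right (Nat.le_succ _) (hb v (hmem v hWv1))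
    rw [if_pos h2] at ha' hb'
    have c1 := hsp _ (hf 1)
    have c0 := hsp _ (hf 0)
    rw [pol_coeff1] at c1
    rw [pol_coeff0] at c0
    obtain ⟨P, hP⟩ : ∃ P, P = f.coeff 1 := ⟨_, rfl⟩
    obtain ⟨Q, hQ⟩ : ∃ Q, Q = f.coeff 0 := ⟨_, rfl⟩
    rw [← hP] at c1 ⊢
    rw [← hQ] at c0 ⊢
    have d1 : P + 27 ∈ v.asIdeal ^ (n v) := by
      have e : P + 27 = (P - a) + (a - -27) := by ring
      rw [e]
      exact Ideal.add_mem _ c1 ha'
    have d0 : 27 + 3 * P + Q - β v ∈ v.asIdeal ^ (n v) := by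
      have e : 27 + 3 * P + Q - β v = (Q - b) + (b - (54 + β v)) + 3 * (P + 27) := by ring
      rw [e]
      exact Ideal.add_mem _ (Ideal.add_mem _ c0 hb') (Ideal.mul_mem_left _ _ d1)
    have e1 := hn v h2 _ d1
    have e0 := hn v h2 _ d0
    have q1 : ((P + 27 : 𝓞 F) : F) = (P : F) + 27 := by
      show algebraMap (𝓞 F) F (P + 27) = _
      rw [map_add, map_ofNat]
    have q0 : ((27 + 3 * P + Q - β v : 𝓞 F) : F) = 27 + 3 * (P : F) + (Q : F) - (β v : F) := by
      show algebraMap (𝓞 F) F (27 + 3 * P + Q - β v) = _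
      simp only [map_add, map_sub, map_mul, map_ofNat]
    rw [q1] at e1
    rw [q0] at e0
    obtain ⟨N, hN⟩ : ∃ N, N = 27 + 3 * (P : F) + (Q : F) := ⟨_, rfl⟩
    rw [← hN] at e0 ⊢
    have hβ0 : (β v : F) ≠ 0 := RingOfIntegers.coe_ne_zero_iff.2 b1
    have h41 : v.valuation F 4 ≤ 1 := by exact_mod_cast v_nat_le (v.valuation F) 4
    have hle : v.valuation F (4 * (β v : F)) ≤ v.valuation F (β v : F) := by
      rw [map_mul]
      exact mul_le_of_le_one_left' h41
    have hNv : v.valuation F N = v.valuation F (β v : F) := by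
      have e : N = (β v : F) + (N - (β v : F)) := by ring
      rw [e, Valuation.map_add_eq_of_lt_left]
      exact e0.trans_le hle
    refine ⟨⟨h2, ?_, ?_, ?_⟩, b3.near hβ0 e0⟩
    · rw [← hN]
      intro h0
      rw [h0, map_zero] at hNv
      exact hβ0 ((Valuation.zero_iff _).1 hNv.symm)
    · rw [← hN, hNv]
      exact b2
    · rw [← hN, hNv]
      exact e1.le.trans hle

end beta

end Pool.Agent.H459.UT
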