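import Pool.Agent.H459.UT.Base

/-!
# The condition at the primes over two (helper459)
-/

set_option autoImplicit false
set_option linter.all false

open Polynomial IsDedekindDomain NumberField WithZero
open scoped Classical IntermediateField

namespace Pool.Agent.H459.UT

open Pool.Agent.H459.UF (below mem_below below_below exists_above fb fb_map fb_self cu cu_monic
  cu_deg lies_below' norm_eq)
open Pool.Agent.N783.PF (fF)

section a2

/-- The class `q` is a square at the small root of `p`. -/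
def A2 {M : Type} [Field M] [NumberField M] (w : HeightOneSpectrum (𝓞 M)) (p q : M[X]) : Prop :=
  ∃ r : w.adicCompletion M, (p.map (algebraMap M (w.adicCompletion M))).eval r = 0 ∧
    Valued.v (Γ₀ := WithZero (Multiplicative ℤ)) r < 1 ∧
    IsSquare ((q.map (algebraMap M (w.adicCompletion M))).eval r)

theorem a2_up {K₁ K₂ : Type} [Field K₁] [NumberField K₁] [Field K₂] [NumberField K₂]
    [Algebra K₁ K₂] {w : HeightOneSpectrum (𝓞 K₂)} {p q : K₁[X]} (h : A2 (below K₁ w) p q) :
    A2 w (p.map (algebraMap K₁ K₂)) (q.map (algebraMap K₁ K₂)) := by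
  obtain ⟨ι, hι, hι1, hι2⟩ := Pool.Agent.N814.JM.cpl K₁ K₂ (𝓞 K₁) (𝓞 K₂) (below K₁ w) w
    (lies_below' w)
  obtain ⟨r, h1, h2, h3⟩ := h
  have e : ∀ s : K₁[X], ((s.map (algebraMap K₁ K₂)).map
      (algebraMap K₂ (w.adicCompletion K₂))).eval (ι r) =
      ι ((s.map (algebraMap K₁ ((below K₁ w).adicCompletion K₁))).eval r) := by
    intro s
    rw [Polynomial.map_map, ← Polynomial.eval_map_apply, Polynomial.map_map]
    congr 2
    exact RingHom.ext fun x => (hι x).symm
  refine ⟨ι r, ?_, hι2 r h2, ?_⟩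
  · rw [e, h1, map_zero]
  · rw [e]
    exact h3.map ι

theorem a2_hom {K₁ K₂ : Type} [Field K₁] [NumberField K₁] [Field K₂] [NumberField K₂]
    (φ : K₁ →+* K₂) {w : HeightOneSpectrum (𝓞 K₂)} (h2 : (2 : 𝓞 K₂) ∈ w.asIdeal) {p q : K₁[X]}
    (h : ∀ w' : HeightOneSpectrum (𝓞 K₁), (2 : 𝓞 K₁) ∈ w'.asIdeal → A2 w' p q) :
    A2 w (p.map φ) (q.map φ) := by
  letI : Algebra K₁ K₂ := φ.toAlgebra
  refine a2_up (h (below K₁ w) ?_)
  rw [mem_below, map_ofNat]
  exact h2

end a2

section tok

variable {F M : Type} [Field F] [NumberField F] [Field M] [NumberField M] [Algebra F M]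
  {f : (𝓞 F)[X]} {A B : F}

/-- The condition at the primes over two. -/
def C2 (F M : Type) [Field F] [NumberField F] [Field M] [NumberField M] [Algebra F M]
    (f : (𝓞 F)[X]) (p : M[X]) : Prop :=
  ∀ w : HeightOneSpectrum (𝓞 M), (2 : 𝓞 M) ∈ w.asIdeal → A2 w (fb M f) p

theorem eval_fb (hf : fF f = cu A B) (w : HeightOneSpectrum (𝓞 M)) (r : w.adicCompletion M) :
    ((fb M f).map (algebraMap M (w.adicCompletion M))).eval r =
      r ^ 3 + algebraMap M (w.adicCompletion M) (algebraMap F M A) * r +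
        algebraMap M (w.adicCompletion M) (algebraMap F M B) := by
  unfold fb
  rw [hf]
  unfold cu
  simp

theorem two_below {w : HeightOneSpectrum (𝓞 M)} (h : (2 : 𝓞 M) ∈ w.asIdeal) :
    (2 : 𝓞 F) ∈ (below F w).asIdeal := by
  rw [mem_below, map_ofNat]
  exact h

theorem tok2 (hf : fF f = cu A B)
    (hTF : ∀ v : HeightOneSpectrum (𝓞 F), (2 : 𝓞 F) ∈ v.asIdeal → TF v A B) :
    TOK F M f (C2 F M f) := by
  refine ⟨?_, ?_, ?_, ?_⟩
  · intro p w hw
    obtain ⟨r, h1, h2⟩ := (hTF _ (two_below (F := F) hw)).up.ex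
    refine ⟨r, by rw [eval_fb hf]; exact h1, h2, ?_⟩
    rw [Polynomial.map_pow, eval_pow, pow_two]
    exact ⟨_, rfl⟩
  · intro p q hp hq w hw
    haveI := charzero_cpt w
    obtain ⟨r, h1, h2, h3⟩ := hp w hw
    obtain ⟨s, k1, k2, k3⟩ := hq w hw
    have H := (hTF _ (two_below (F := F) hw)).up
    have e : r = s := by
      refine H.uniq ?_ h2 ?_ k2
      · rw [← eval_fb hf]
        exact h1
      · rw [← eval_fb hf]
        exact k1
    subst e
    refine ⟨r, h1, h2, ?_⟩
    rw [Polynomial.map_mul, eval_mul]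
    exact h3.mul k3
  · intro p q hd hp w hw
    obtain ⟨r, h1, h2, h3⟩ := hp w hw
    refine ⟨r, h1, h2, ?_⟩
    obtain ⟨s, hs⟩ := hd
    have h4 := congrArg (fun z : M[X] => (z.map (algebraMap M (w.adicCompletion M))).eval r) hs
    simp only [Polynomial.map_sub, Polynomial.map_mul, eval_sub, eval_mul, h1, zero_mul] at h4
    rw [← sub_eq_zero.1 h4]
    exact h3
  · intro τ p hp w hw
    have h1 := a2_hom (τ : M →+* M) hw hp
    have e : (fb M f).map (τ : M →+* M) = fb M f := by
      unfold fb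
      rw [Polynomial.map_map]
      congr 1
      exact RingHom.ext fun x => τ.commutes x
    rwa [e] at h1

end tok

section desc

theorem norm_map {F k : Type} [Field F] [Field k] (j : F →+* k) (A B : F) (p : F[X]) :
    Algebra.norm k (AdjoinRoot.mk (cu (j A) (j B)) (p.map j)) =
      j (Algebra.norm F (AdjoinRoot.mk (cu A B) p)) := by
  obtain ⟨c₀, c₁, c₂, h⟩ := cub_rep A B p
  have hcu : (cu A B).map j = cu (j A) (j B) := by
    unfold cu
    simp
  have h' : cu (j A) (j B) ∣ p.map j - (C (j c₀) + C (j c₁) * X + C (j c₂) * X ^ 2) := by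
    have := Polynomial.map_dvd j h
    rw [hcu] at this
    simpa using this
  rw [norm_cub h, norm_cub h']
  simp only [map_add, map_sub, map_mul, map_neg]

variable {F M : Type} [Field F] [NumberField F] [Field M] [NumberField M] [Algebra F M]
  {f : (𝓞 F)[X]} {A B : F}

/-- **Descent of the condition at a prime over two.** -/
theorem desc2 (hf : fF f = cu A B) {w : HeightOneSpectrum (𝓞 M)} (hTF : TF (below F w) A B)
    (hNN : ∀ δ : F, IsSquare (algebraMap M (w.adicCompletion M) (algebraMap F M δ)) →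
      ¬ IsSquare (algebraMap F ((below F w).adicCompletion F) δ) →
      ¬ ∃ x y : (below F w).adicCompletion F,
        x ^ 2 - algebraMap F ((below F w).adicCompletion F) δ * y ^ 2 =
          -algebraMap F ((below F w).adicCompletion F) (27 + 3 * A + B))
    {h : F[X]} (hN0 : Algebra.norm F (AdjoinRoot.mk (fb F f) h) ≠ 0)
    (hN : IsSquare (Algebra.norm F (AdjoinRoot.mk (fb F f) h)))
    (hA : A2 w (fb M f) (h.map (algebraMap F M))) : A2 (below F w) (fF f) h := by
  obtain ⟨k, hk⟩ : ∃ v, v = below F w := ⟨_, rfl⟩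
  haveI := charzero_cpt (below F w)
  haveI := charzero_cpt w
  obtain ⟨ι, hι, hι1, hι2⟩ := Pool.Agent.N814.JM.cpl F M (𝓞 F) (𝓞 M) (below F w) w
    (lies_below' w)
  obtain ⟨j, hj⟩ : ∃ j : F →+* (below F w).adicCompletion F, j = algebraMap F _ := ⟨_, rfl⟩
  obtain ⟨s, s1, s2, s3⟩ := hA
  have HF := hTF.self
  obtain ⟨r, r1, r2⟩ := HF.ex
  rw [eval_fb hf] at s1
  have e1 : s = ι r := by
    refine hTF.up.uniq s1 s2 ?_ (hι2 r r2)
    have h3 := congrArg ι r1
    rw [map_zero] at h3
    rw [← hι, ← hι, ← h3]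
    simp only [map_add, map_mul, map_pow]
  have e2 : ((h.map (algebraMap F M)).map (algebraMap M (w.adicCompletion M))).eval s =
      ι ((h.map j).eval r) := by
    rw [e1, hj, Polynomial.map_map, ← Polynomial.eval_map_apply, Polynomial.map_map]
    congr 2
    exact RingHom.ext fun x => (hι x).symm
  rw [e2] at s3
  have e3 : ((fF f).map (algebraMap F ((below F w).adicCompletion F))).eval r = 0 := by
    rw [← r1, hf]
    unfold cu
    simp
  refine ⟨r, e3, r2, ?_⟩
  rw [← hj]
  by_contra hns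
  rw [← hj] at r1 HF
  obtain ⟨c, hc⟩ : ∃ c, c = (h.map j).eval r := ⟨_, rfl⟩
  rw [← hc] at hns s3
  have hc0 : c ≠ 0 := by
    intro h0
    apply hns
    rw [h0]
    exact ⟨0, by simp⟩
  have h4c : Valued.v (Γ₀ := WithZero (Multiplicative ℤ)) (4 * c) ≠ 0 :=
    (Valuation.ne_zero_iff _).2 (mul_ne_zero (by norm_num) hc0)
  obtain ⟨δ, hδ⟩ := Pool.Agent.N704.PP.near (below F w) c h4c
  rw [← hj] at hδ
  obtain ⟨t, ht⟩ := sq4 (below F w) ((j δ - c) / c) (by
    have hcv : 0 < Valued.v (Γ₀ := WithZero (Multiplicative ℤ)) c :=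
      zero_lt_iff.2 ((Valuation.ne_zero_iff _).2 hc0)
    rw [map_div₀, div_lt_iff₀ hcv, ← map_mul, Valuation.map_sub_swap]
    exact hδ)
  have ht0 : t ≠ 0 := by
    rintro rfl
    rw [mul_zero] at ht
    have h5 : j δ = 0 := by
      field_simp at ht
      linear_combination ht
    rw [h5, sub_zero, map_mul] at hδ
    have h6 : Valued.v (Γ₀ := WithZero (Multiplicative ℤ)) (4 : (below F w).adicCompletion F) ≤ 1 := by
      exact_mod_cast v_nat_le _ 4
    exact absurd hδ (not_lt.2 (mul_le_of_le_one_left' h6))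
  have hδc : j δ = c * (t * t) := by
    rw [← ht]
    field_simp
    ring
  have hj0 : j δ ≠ 0 := by
    rw [hδc]
    exact mul_ne_zero hc0 (mul_ne_zero ht0 ht0)
  have hcu : (fF f).map j = cu (j A) (j B) := by
    rw [hf]
    unfold cu
    simp
  rw [fb_self, hf] at hN0 hN
  obtain ⟨x, y, hxy⟩ := step_alg (A := j A) (B := j B) r1 (p := h.map j) (δ := j δ)
    (by rw [norm_map]; exact hN.map j) (by
      rw [norm_map]
      exact (_root_.map_ne_zero j).2 hN0) hj0 (by
      rw [← hc, hδc]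
      exact ⟨c * t, by ring⟩)
  obtain ⟨z, hz0, hz⟩ := HF.dsc r1 r2
  refine hNN δ ?_ ?_ ⟨x / z, y / z, ?_⟩
  · rw [← hι, ← hj, hδc, map_mul, map_mul]
    exact s3.mul ⟨ι t, rfl⟩
  · rw [← hj, hδc]
    rintro ⟨u, hu⟩
    apply hns
    refine ⟨u / t, ?_⟩
    field_simp
    linear_combination hu
  · rw [← hj, map_add, map_add, map_mul, map_ofNat, map_ofNat]
    field_simp
    rw [hxy, hz]
    ring

end desc

end Pool.Agent.H459.UT
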