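import Pool.Agent.H459.UT.Quad

/-!
# The base field (helper459)
-/

set_option autoImplicit false
set_option linter.all false

open Polynomial IsDedekindDomain NumberField WithZero
open scoped Classical IntermediateField

namespace Pool.Agent.H459.UT

open Pool.Agent.H459.UF (below mem_below below_below exists_above val_pow Agr agr_of_dns Dns dns_up
  dns_down dns_base agr_top Unr Cub fo fb fb_eq fb_map fb_self exists_poly cub_sub DQ
  coprime_of_ne norm_mk below_self fo_self dns_of_surj exp_lt dns_lt exists_equiv eq_below)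
open Pool.Agent.N874.PP (Ev Sq1 U0)
open Pool.Agent.N783.PQ (LocIm)
open Pool.Agent.N783.PF (IsGen rd fF GoodS Cg sp Ov dsc)
open Pool.Agent.N874.PM (ev_down sq_down ev_sq ev_mul)
open Pool.Agent.N78.PF (eq_of_ov val_theta val_der rd_eq sp_le)

section transport

variable {F K L L' M : Type} [Field F] [NumberField F] [Field K] [NumberField K] [Field L]
  [NumberField L] [Field L'] [NumberField L'] [Field M] [NumberField M] [Algebra F K]
  [Algebra K L] [Algebra K L'] [Algebra K M]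
  [Algebra L L'] [IsScalarTower K L L'] {Bw : HeightOneSpectrum (𝓞 F) → Prop} {T : M[X] → Prop}
  {f : (𝓞 F)[X]} {θ : L} {J : Finset ℕ} {𝔮 : ℕ → Ideal (𝓞 F)}

/-- Transport to an isomorphic field. -/
theorem cnd_isoT (hs : Function.Surjective (algebraMap L L')) {h : K[X]}
    (H : CndT F M Bw T f J 𝔮 (algebraMap L L' θ) h) : CndT F M Bw T f J 𝔮 θ h := by
  have hbb : ∀ P : HeightOneSpectrum (𝓞 L'), below K (below L P) = below K P := fun P =>
    below_below (F := K) (K := L) P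
  refine ⟨?_, ?_, H.two, H.real⟩
  · intro P h1 h2 h3
    obtain ⟨P', rfl⟩ := exists_above (K := L) L' P
    have hagr := agr_of_dns (dns_of_surj hs P')
    have h4 := H.ev P' (by
      rw [← hbb]
      exact h1) (fun q hq hm => h2 q hq (by
      rw [mem_below, map_natCast]
      exact hm)) (by
      rw [aeval_algebraMap_apply, hagr]
      exact h3)
    rw [aeval_algebraMap_apply] at h4
    exact (ev_down hagr _).1 h4
  · intro q hq P h1 h2
    obtain ⟨P', rfl⟩ := exists_above (K := L) L' P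
    have hdn := dns_of_surj hs P'
    have hagr := agr_of_dns hdn
    have hu := H.u0 q hq P' (by
      rw [← hbb]
      exact h1) (by
      rw [hagr]
      exact h2)
    rw [aeval_algebraMap_apply] at hu
    refine ⟨fun h4 => sq_down hagr (dns_lt hdn) (hu.1 ((ev_down hagr _).2 h4)), fun h4 => ?_⟩
    have h5 := hu.2 fun h6 => h4 ((ev_down hagr _).1 h6)
    have e : algebraMap L L' (aeval θ h) * ((q : L') * algebraMap L L' θ) =
        algebraMap L L' (aeval θ h * ((q : L) * θ)) := by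
      rw [map_mul, map_mul, map_natCast]
    rw [e] at h5
    exact sq_down hagr (dns_lt hdn) h5

end transport

section base

variable {F : Type} [Field F] [NumberField F]

/-- The base case. -/
theorem baseT {g W : ℕ} {f : (𝓞 F)[X]} {S J : Finset ℕ} {𝔮 : ℕ → Ideal (𝓞 F)}
    {r Pp : ℕ → (𝓞 F)[X]} {Bw : HeightOneSpectrum (𝓞 F) → Prop}
    (hB : ∀ v, ¬ Bw v → (2 : 𝓞 F) ∉ v.asIdeal ∧ dsc g f ∉ v.asIdeal ^ 2) (hg : 1 ≤ g)
    (hm : f.Monic) (hd : f.natDegree = 2 * g + 1) (hS : GoodS g W S 𝔮 r Pp)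
    (hcq : ∀ q ∈ S, Cg (sp F q) f (Pp q)) (hJS : J ⊆ S)
    (hqB : ∀ q ∈ S, ∀ w, Bw w → (q : 𝓞 F) ∉ w.asIdeal)
    (M : Type) [Field M] [NumberField M] [Algebra F M] (T : M[X] → Prop) (Q : F[X] → Prop)
    (hTQ : ∀ h : F[X], Algebra.norm F (AdjoinRoot.mk (fb F f) h) ≠ 0 →
      IsSquare (Algebra.norm F (AdjoinRoot.mk (fb F f) h)) → T (h.map (algebraMap F M)) → Q h)
    (L₀ : Type) [Field L₀] [NumberField L₀] [Algebra F L₀] (θ₀ : L₀) (hG₀ : IsGen g f θ₀)
    (hcore : ∀ h : F[X], aeval θ₀ h ≠ 0 → IsSquare (Algebra.norm F (aeval θ₀ h)) →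
      (∀ 𝔓 : HeightOneSpectrum (𝓞 L₀), (∀ w, Bw w → ¬ Ov w.asIdeal 𝔓) →
        (∀ q ∈ J, Ov (𝔮 q) 𝔓 → 𝔓.valuation L₀ θ₀ ≠ 1) → Ev 𝔓 (aeval θ₀ h)) →
      (∀ q ∈ J, ∀ 𝔓 : HeightOneSpectrum (𝓞 L₀), Ov (𝔮 q) 𝔓 → 𝔓.valuation L₀ θ₀ = 1 →
        U0 𝔓 ((q : L₀) * θ₀) (aeval θ₀ h)) →
      Q h →
      (∀ σ : F →+* ℝ, LocIm ℝ ((fF f).map σ) (h.map σ)) → IsSquare (aeval θ₀ h)) :
    PKT F F M Bw T f J 𝔮 := by
  have hqpr : ∀ q ∈ S, (𝔮 q).IsPrime := by
    intro q hq
    obtain ⟨-, -, -, -, -, a1, -⟩ := hS q hq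
    exact a1
  have hqne : ∀ q ∈ S, 𝔮 q ≠ ⊥ := by
    intro q hq h0
    obtain ⟨a1, -, -, -, -, -, a2, -⟩ := hS q hq
    rw [h0, Ideal.mem_bot] at a2
    exact a1.ne_zero (by exact_mod_cast a2)
  have hcQ : ∀ q ∈ S, Cg (𝔮 q) f (X * r q) := by
    intro q hq j
    obtain ⟨-, -, -, -, -, -, a2, -, -, -, -, -, -, a3, -⟩ := hS q hq
    have b1 := sp_le (F := F) a2 (hcq q hq j)
    have b2 := a3 j
    have := Ideal.add_mem _ b1 b2
    simpa using this
  intro L _ _ _ θ hroot htop hrank h hne hN hcnd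
  have hcL : Cub F f θ := ⟨hroot, htop, hrank⟩
  have hirr : Irreducible (fb F f) := hcL.irr hm
  have hmb : (fb F f).Monic := (hm.map _).map _
  have hroot₀ : aeval θ₀ (fb F f) = 0 := by
    rw [fb_self]
    exact hG₀.root
  have hmin₀ : minpoly F θ₀ = fb F f :=
    (minpoly.eq_of_irreducible_of_monic hirr hroot₀ hmb).symm
  have hdb : (fb F f).natDegree = f.natDegree := by
    unfold fb fF
    rw [(hm.map _).natDegree_map, hm.natDegree_map]
  have htop₀ : F⟮θ₀⟯ = ⊤ := by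
    rw [Field.primitive_element_iff_minpoly_natDegree_eq, hmin₀, hdb, hd, hG₀.rank]
  have hc₀ : Cub F f θ₀ := ⟨hroot₀, htop₀, by rw [hG₀.rank, hd]⟩
  obtain ⟨e₀, he₀⟩ := exists_equiv hm hc₀
  obtain ⟨e₁, he₁⟩ := exists_equiv hm hcL
  let e : L₀ ≃ₐ[F] L := e₀.symm.trans e₁
  have heh : ∀ p : F[X], e (aeval θ₀ p) = aeval θ p := by
    intro p
    show e₁ (e₀.symm (aeval θ₀ p)) = _
    rw [← he₀ p, e₀.symm_apply_apply, he₁]
  have heθ : e θ₀ = θ := by
    have := heh X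
    rwa [aeval_X, aeval_X] at this
  letI : Algebra L₀ L := (e : L₀ →+* L).toAlgebra
  haveI : IsScalarTower F L₀ L := IsScalarTower.of_algebraMap_eq fun x => (e.commutes x).symm
  have hsurj : Function.Surjective (algebraMap L₀ L) := e.surjective
  have hcnd₀ : CndT F M Bw T f J 𝔮 θ₀ h := by
    refine cnd_isoT hsurj (L' := L) ?_
    have e1 : algebraMap L₀ L θ₀ = θ := heθ
    rw [e1]
    exact hcnd
  have hne₀ : aeval θ₀ h ≠ 0 := by
    intro h0
    apply hne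
    rw [← heh, h0, map_zero]
  have hN₀ : IsSquare (Algebra.norm F (aeval θ₀ h)) := by
    rw [← norm_mk hm hc₀, norm_mk hm hcL]
    exact hN
  suffices hgoal : IsSquare (aeval θ₀ h) by
    rw [← heh]
    exact hgoal.map e
  have hη : aeval θ₀ (derivative (fb F f)) = aeval θ₀ (derivative (fF f)) := by rw [fb_self]
  refine hcore h hne₀ hN₀ ?_ ?_ ?_ ?_
  · intro 𝔓 hB𝔓 h𝔓
    obtain ⟨w, w1, w2, w3⟩ := Pool.Agent.N459.PF.lie F L₀ 𝔓
    have hBw : ¬ Bw w := fun hb => hB𝔓 w hb w1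
    obtain ⟨c2, hsqw⟩ := hB w hBw
    by_cases cq : ∃ q ∈ J, (q : 𝓞 F) ∈ w.asIdeal
    · obtain ⟨q, hq, hqw⟩ := cq
      have hqS := hJS hq
      by_cases cw : w.asIdeal = 𝔮 q
      · have o1 : Ov (𝔮 q) 𝔓 := by
          rw [← cw]
          exact w1
        have v1 : 𝔓.valuation L₀ θ₀ < 1 := lt_of_le_of_ne (val_theta hG₀ 𝔓) (h𝔓 q hq o1)
        exact parq hg hG₀ hS hqS (hcQ q hqS) hne₀ hN₀ o1 v1
      · have e1 := rd_eq (sp_le hqw) (hcq q hqS)
        obtain ⟨-, -, -, -, -, -, -, -, -, -, -, -, -, -, a1⟩ := hS q hqS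
        exact UF.pin hG₀ w.isPrime w.ne_bot
          (by rw [e1]; exact a1 _ w.isPrime hqw cw) hne₀ hN₀ w1
    · push Not at cq
      have hev : ∀ 𝔓' : HeightOneSpectrum (𝓞 L₀), Ov w.asIdeal 𝔓' →
          𝔓'.valuation L₀ (aeval θ₀ (derivative (fF f))) = 1 → Ev 𝔓' (aeval θ₀ h) := by
        intro 𝔓' o' cu
        have hb : below F 𝔓' = w := eq_below o'
        refine hcnd₀.ev 𝔓' ?_ (fun q hq hmq => cq q hq ?_) (by rw [hη]; exact cu)
        · rw [hb, below_self]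
          exact hBw
        · rw [← hb, mem_below, map_natCast]
          exact hmq
      by_cases cu : 𝔓.valuation L₀ (aeval θ₀ (derivative (fF f))) = 1
      · exact hev 𝔓 w1 cu
      · have v1 : 𝔓.valuation L₀ (aeval θ₀ (derivative (fF f))) < 1 :=
          lt_of_le_of_ne (val_der hG₀ 𝔓) cu
        obtain ⟨⟨c, hc⟩, hother⟩ := ram hG₀ w.isPrime w.ne_bot hsqw w1 v1
        exact par hG₀ w.isPrime w.ne_bot hsqw w1 hc hne₀ hN₀
          fun 𝔓' o' n' => hev 𝔓' o' (hother 𝔓' o' n')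
  · intro q hq 𝔓 o1 v1
    refine hcnd₀.u0 q hq 𝔓 ?_ v1
    show (below F (below F 𝔓)).asIdeal = 𝔮 q
    rw [below_self]
    have hqS := hJS hq
    have hmax : (𝔮 q).IsMaximal := (hqpr q hqS).isMaximal (hqne q hqS)
    exact (hmax.eq_of_le (below F 𝔓).isPrime.ne_top fun a ha => (mem_below 𝔓 a).2 (o1 a ha)).symm
  · refine hTQ h ?_ ?_ hcnd₀.two
    · rw [norm_mk hm hc₀, Algebra.norm_ne_zero_iff]
      exact hne₀
    · rw [norm_mk hm hc₀]
      exact hN₀
  · intro σ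
    have := hcnd₀.real σ
    rwa [fb_self] at this

end base

end Pool.Agent.H459.UT
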