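import Pool.Agent.H459.UT.Nn
import Pool.Agent.H459.UF.Cmp

/-!
# Cyclic decomposition groups (helper459)
-/

set_option autoImplicit false
set_option linter.all false

open IsDedekindDomain NumberField WithZero MulAction
open scoped Classical Pointwise

namespace Pool.Agent.H459.UT

open Pool.Agent.H459.UF (below mem_below val_pow le_one_of_lt)

section cpl

variable {K₁ K₂ : Type} [Field K₁] [NumberField K₁] [Field K₂] [NumberField K₂]

/-- the map of completions -/
theorem cpl_hom (φ : K₁ →+* K₂) {w' : HeightOneSpectrum (𝓞 K₁)} {w : HeightOneSpectrum (𝓞 K₂)}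
    (h : ∀ x, w.valuation K₂ (φ x) = w'.valuation K₁ x) :
    ∃ ι : w'.adicCompletion K₁ →+* w.adicCompletion K₂,
      (∀ x : K₁, ι (algebraMap K₁ (w'.adicCompletion K₁) x) =
        algebraMap K₂ (w.adicCompletion K₂) (φ x)) ∧
      (∀ x, Valued.v (Γ₀ := WithZero (Multiplicative ℤ)) x ≤ 1 →
        Valued.v (Γ₀ := WithZero (Multiplicative ℤ)) (ι x) ≤ 1) := by
  letI : Algebra K₁ K₂ := φ.toAlgebra
  obtain ⟨ι, h1, h2, -⟩ := Pool.Agent.N814.JM.cpl K₁ K₂ (𝓞 K₁) (𝓞 K₂) w' w
    ⟨fun x hx => (h x).le.trans hx, fun x hx => (h x).le.trans_lt hx⟩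
  exact ⟨ι, h1, h2⟩

end cpl

section gal

variable {F M : Type} [Field F] [NumberField F] [Field M] [NumberField M] [Algebra F M]

theorem val_smul {w w' : HeightOneSpectrum (𝓞 M)} {σ : M ≃ₐ[F] M}
    (h : σ • w'.asIdeal = w.asIdeal) (x : M) : w.valuation M (σ x) = w'.valuation M x := by
  obtain ⟨P, hv, -⟩ := Pool.Agent.N756.QM.sig M (σ.restrictScalars ℚ) w
  have hv' : ∀ x : M, P.valuation M x = w.valuation M (σ x) := hv
  have hP : P = w' := by
    ext1
    ext a
    rw [← HeightOneSpectrum.valuation_lt_one_iff_mem (K := M), hv']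
    have e : σ (algebraMap (𝓞 M) M a) = algebraMap (𝓞 M) M (σ • a) := rfl
    rw [e, HeightOneSpectrum.valuation_lt_one_iff_mem, ← h, Ideal.smul_mem_pointwise_smul_iff]
  rw [← hv', hP]

theorem exists_smul [IsGalois F M] {w w' : HeightOneSpectrum (𝓞 M)}
    (h : below F w' = below F w) : ∃ σ : M ≃ₐ[F] M, σ • w'.asIdeal = w.asIdeal := by
  haveI h1 : w'.asIdeal.LiesOver (below F w).asIdeal := by
    rw [← h]
    infer_instance
  exact Ideal.exists_smul_eq_of_isGaloisGroup (below F w).asIdeal w'.asIdeal w.asIdeal (M ≃ₐ[F] M)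

/-- squares in the completions at conjugate primes -/
theorem sq_conj [IsGalois F M] {w w' : HeightOneSpectrum (𝓞 M)} (h : below F w' = below F w)
    {δ : F} (hδ : IsSquare (algebraMap M (w'.adicCompletion M) (algebraMap F M δ))) :
    IsSquare (algebraMap M (w.adicCompletion M) (algebraMap F M δ)) := by
  obtain ⟨σ, hσ⟩ := exists_smul h
  obtain ⟨ι, h1, -⟩ := cpl_hom (σ : M →+* M) (w' := w') (w := w) (fun x => val_smul hσ x)
  have h2 := hδ.map ι
  rw [h1] at h2
  have e : (σ : M →+* M) (algebraMap F M δ) = algebraMap F M δ := σ.commutes δ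
  rwa [e] at h2

theorem below_smul {w w' : HeightOneSpectrum (𝓞 M)} {σ : M ≃ₐ[F] M}
    (h : σ • w'.asIdeal = w.asIdeal) : below F w' = below F w := by
  ext1
  ext a
  rw [mem_below, mem_below, ← h]
  have e : σ • (algebraMap (𝓞 F) (𝓞 M) a) = algebraMap (𝓞 F) (𝓞 M) a := by
    apply RingOfIntegers.ext
    exact σ.commutes (a : F)
  conv_rhs => rw [← e]
  rw [Ideal.smul_mem_pointwise_smul_iff]

theorem exists_prime (w : HeightOneSpectrum (𝓞 M)) (σ : M ≃ₐ[F] M) :
    ∃ w' : HeightOneSpectrum (𝓞 M), σ • w'.asIdeal = w.asIdeal := by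
  obtain ⟨P, hv, -⟩ := Pool.Agent.N756.QM.sig M (σ.restrictScalars ℚ) w
  have hv' : ∀ x : M, P.valuation M x = w.valuation M (σ x) := hv
  refine ⟨P, ?_⟩
  ext a
  obtain ⟨b, rfl⟩ : ∃ b, a = σ • b := ⟨σ⁻¹ • a, by rw [smul_inv_smul]⟩
  rw [Ideal.smul_mem_pointwise_smul_iff, ← HeightOneSpectrum.valuation_lt_one_iff_mem (K := M),
    hv', ← HeightOneSpectrum.valuation_lt_one_iff_mem (K := M)]
  rfl

/-- approximation at one prime and smallness at the conjugate primes -/
theorem ex_u (w : HeightOneSpectrum (𝓞 M)) (z : w.adicCompletion M) {t : F} (ht : t ≠ 0) :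
    ∃ u : M, Valued.v (Γ₀ := WithZero (Multiplicative ℤ))
      (z - algebraMap M (w.adicCompletion M) u) ≤ w.valuation M (algebraMap F M t) ∧
      ∀ w' : HeightOneSpectrum (𝓞 M), w' ≠ w → below F w' = below F w →
        w'.valuation M u ≤ w'.valuation M (algebraMap F M t) := by
  have htM : algebraMap F M t ≠ 0 := (_root_.map_ne_zero _).2 ht
  have htv : ∀ w' : HeightOneSpectrum (𝓞 M), w'.valuation M (algebraMap F M t) ≠ 0 := fun w' =>
    (Valuation.ne_zero_iff _).2 htM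
  obtain ⟨u₁, hu₁⟩ := Pool.Agent.N704.PP.near w z (htv w)
  obtain ⟨a, ha, ha0⟩ := Submodule.exists_mem_ne_zero_of_ne_bot (below F w).ne_bot
  have haM : algebraMap (𝓞 F) (𝓞 M) a ≠ 0 := by
    intro h0
    exact ha0 ((FaithfulSMul.algebraMap_injective (𝓞 F) (𝓞 M)) (by rw [h0, map_zero]))
  have hfin : {w' : HeightOneSpectrum (𝓞 M) | below F w' = below F w}.Finite := by
    refine (Pool.Agent.N644.PQ.HunC.finite_over (algebraMap (𝓞 F) (𝓞 M) a) haM).subset ?_
    intro w' hw'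
    have h1 : below F w' = below F w := hw'
    show algebraMap (𝓞 F) (𝓞 M) a ∈ w'.asIdeal
    rw [← mem_below, h1]
    exact ha
  obtain ⟨S, hS⟩ : ∃ S, S = hfin.toFinset := ⟨_, rfl⟩
  have hmem : ∀ w', w' ∈ S ↔ below F w' = below F w := by
    intro w'
    rw [hS, Set.Finite.mem_toFinset]
    rfl
  have hn : ∀ w' : HeightOneSpectrum (𝓞 M), ∃ n : ℕ,
      WithZero.exp (-(n : ℤ)) * w'.valuation M u₁ ≤ w'.valuation M (algebraMap F M t) := by
    intro w'
    by_cases h0 : w'.valuation M u₁ = 0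
    · exact ⟨0, by rw [h0, mul_zero]; exact zero_le⟩
    · obtain ⟨b, hb⟩ : ∃ b : ℤ, w'.valuation M u₁ = WithZero.exp b :=
        ⟨WithZero.log _, (WithZero.exp_log h0).symm⟩
      obtain ⟨c, hc⟩ : ∃ c : ℤ, w'.valuation M (algebraMap F M t) = WithZero.exp c :=
        ⟨WithZero.log _, (WithZero.exp_log (htv w')).symm⟩
      refine ⟨(b - c).toNat, ?_⟩
      rw [hb, hc, ← WithZero.exp_add, WithZero.exp_le_exp]
      omega
  choose n hn using hn
  obtain ⟨e, he⟩ := IsDedekindDomain.exists_forall_sub_mem_ideal (s := S)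
      (fun v => v.asIdeal) (fun v => n v) (fun v _ => v.prime)
      (fun v _ w _ hvw h => hvw (HeightOneSpectrum.ext h))
      (fun v => if (v : HeightOneSpectrum (𝓞 M)) = w then 1 else 0)
  have hval : ∀ (w' : HeightOneSpectrum (𝓞 M)) (x : 𝓞 M) (m : ℕ), x ∈ w'.asIdeal ^ m →
      w'.valuation M (algebraMap (𝓞 M) M x) ≤ WithZero.exp (-(m : ℤ)) := by
    intro w' x m hx
    rw [HeightOneSpectrum.valuation_of_algebraMap, HeightOneSpectrum.intValuation_le_pow_iff_mem]
    exact hx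
  refine ⟨algebraMap (𝓞 M) M e * u₁, ?_, ?_⟩
  · have h1 := he w ((hmem w).2 rfl)
    rw [if_pos rfl] at h1
    have h2 := hval w _ _ h1
    have e1 : z - algebraMap M (w.adicCompletion M) (algebraMap (𝓞 M) M e * u₁) =
        (z - algebraMap M (w.adicCompletion M) u₁) -
          algebraMap M (w.adicCompletion M) (algebraMap (𝓞 M) M (e - 1) * u₁) := by
      rw [map_sub (algebraMap (𝓞 M) M), map_one, sub_mul, one_mul, map_sub]
      ring
    rw [e1]
    refine (Valuation.map_sub _ _ _).trans (max_le hu₁.le ?_)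
    rw [Pool.Agent.N704.PP.vx, map_mul]
    exact (mul_le_mul' h2 le_rfl).trans (hn w)
  · intro w' hne hb
    have h1 := he w' ((hmem w').2 hb)
    rw [if_neg hne, sub_zero] at h1
    have h2 := hval w' _ _ h1
    rw [map_mul]
    exact (mul_le_mul' h2 le_rfl).trans (hn w')

/-- **Elements fixed by the decomposition group.** -/
theorem fix_sq [IsGalois F M] {w : HeightOneSpectrum (𝓞 M)} (h2 : (2 : 𝓞 M) ∈ w.asIdeal)
    {g : M ≃ₐ[F] M} (hgen : ∀ σ : M ≃ₐ[F] M, σ • w.asIdeal = w.asIdeal → ∃ n : ℕ, σ = g ^ n)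
    {ι : w.adicCompletion M →+* w.adicCompletion M}
    (hι : ∀ x : M, ι (algebraMap M (w.adicCompletion M) x) =
      algebraMap M (w.adicCompletion M) (g x))
    (hι1 : ∀ x, Valued.v (Γ₀ := WithZero (Multiplicative ℤ)) x ≤ 1 →
      Valued.v (Γ₀ := WithZero (Multiplicative ℤ)) (ι x) ≤ 1)
    {z : w.adicCompletion M} (hz : ι z = z) {δ : F} (hδ : δ ≠ 0)
    (hzδ : z * z = algebraMap M (w.adicCompletion M) (algebraMap F M δ)) :
    IsSquare (algebraMap F ((below F w).adicCompletion F) δ) := by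
  haveI := charzero_cpt w
  haveI := charzero_cpt (below F w)
  obtain ⟨j, hj⟩ : ∃ j : M →+* w.adicCompletion M, j = algebraMap M _ := ⟨_, rfl⟩
  rw [← hj] at hzδ
  have hι' : ∀ x : M, ι (j x) = j (g x) := by rw [hj]; exact hι
  have hvx : ∀ x : M, Valued.v (Γ₀ := WithZero (Multiplicative ℤ)) (j x) = w.valuation M x := by
    intro x
    rw [hj, Pool.Agent.N704.PP.vx]
  have hz0 : z ≠ 0 := by
    rintro rfl
    rw [mul_zero] at hzδ
    exact hδ ((_root_.map_eq_zero _).1 ((_root_.map_eq_zero _).1 hzδ.symm))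
  obtain ⟨D, hD⟩ : ∃ D : Finset (M ≃ₐ[F] M),
      D = Finset.univ.filter fun σ => σ • w.asIdeal = w.asIdeal := ⟨_, rfl⟩
  have hD1 : (1 : M ≃ₐ[F] M) ∈ D := by
    rw [hD, Finset.mem_filter]
    exact ⟨Finset.mem_univ _, one_smul _ _⟩
  have hN0 : D.card ≠ 0 := Finset.card_ne_zero_of_mem hD1
  obtain ⟨N, hN⟩ : ∃ N : ℕ, N = D.card := ⟨_, rfl⟩
  rw [← hN] at hN0
  have hNF : (N : F) ≠ 0 := Nat.cast_ne_zero.2 hN0
  have hNw : (N : w.adicCompletion M) ≠ 0 := Nat.cast_ne_zero.2 hN0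
  have hγ : Valued.v (Γ₀ := WithZero (Multiplicative ℤ)) (4 * (N * z) : w.adicCompletion M) ≠ 0 :=
    (Valuation.ne_zero_iff _).2 (mul_ne_zero (by norm_num) (mul_ne_zero hNw hz0))
  -- a small element of `F`
  obtain ⟨t, ht0, ht⟩ : ∃ t : F, t ≠ 0 ∧ w.valuation M (algebraMap F M t) <
      Valued.v (Γ₀ := WithZero (Multiplicative ℤ)) (4 * (N * z) : w.adicCompletion M) := by
    obtain ⟨m, hm⟩ : ∃ m : ℤ, Valued.v (Γ₀ := WithZero (Multiplicative ℤ))
        (4 * (N * z) : w.adicCompletion M) = WithZero.exp m :=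
      ⟨WithZero.log _, (WithZero.exp_log hγ).symm⟩
    refine ⟨2 ^ ((-m).toNat + 1), pow_ne_zero _ two_ne_zero, ?_⟩
    rw [hm, map_pow, map_pow, map_ofNat]
    have h3 := le_one_of_lt (two_lt h2)
    refine (pow_le_pow_left' h3 _).trans_lt ?_
    rw [← WithZero.exp_nsmul, WithZero.exp_lt_exp]
    simp only [nsmul_eq_mul]
    push_cast
    omega
  have htw : w.valuation M (algebraMap F M t) ≠ 0 :=
    (Valuation.ne_zero_iff _).2 ((_root_.map_ne_zero _).2 ht0)
  obtain ⟨u, hu1, hu2⟩ := ex_u (F := F) w z ht0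
  rw [← hj] at hu1
  -- the conjugates
  have hpow : ∀ n : ℕ, Valued.v (Γ₀ := WithZero (Multiplicative ℤ)) (z - j ((g ^ n) u)) ≤
      w.valuation M (algebraMap F M t) := by
    intro n
    induction n with
    | zero =>
      rw [pow_zero]
      exact hu1
    | succ n ih =>
      have e1 : z - j ((g ^ (n + 1)) u) = ι (z - j ((g ^ n) u)) := by
        rw [map_sub, hz, hι', pow_succ']
        rfl
      have hjt : j (algebraMap F M t) ≠ 0 := (_root_.map_ne_zero _).2 ((_root_.map_ne_zero _).2 ht0)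
      have e2 := hι1 ((z - j ((g ^ n) u)) / j (algebraMap F M t)) (by
        rw [map_div₀, hvx]
        exact (div_le_one₀ (zero_lt_iff.2 htw)).2 ih)
      rw [map_div₀, hι', g.commutes, map_div₀, hvx, div_le_one₀ (zero_lt_iff.2 htw)] at e2
      rw [e1]
      exact e2
  have hterm1 : ∀ σ ∈ D, Valued.v (Γ₀ := WithZero (Multiplicative ℤ)) (j (σ u) - z) ≤
      w.valuation M (algebraMap F M t) := by
    intro σ hσ
    rw [hD, Finset.mem_filter] at hσ
    obtain ⟨n, rfl⟩ := hgen σ hσ.2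
    rw [Valuation.map_sub_swap]
    exact hpow n
  have hterm2 : ∀ σ : M ≃ₐ[F] M, σ ∉ D → Valued.v (Γ₀ := WithZero (Multiplicative ℤ)) (j (σ u)) ≤
      w.valuation M (algebraMap F M t) := by
    intro σ hσ
    rw [hD, Finset.mem_filter] at hσ
    obtain ⟨w', hw'⟩ := exists_prime (F := F) w σ
    have hne : w' ≠ w := by
      rintro rfl
      exact hσ ⟨Finset.mem_univ _, hw'⟩
    rw [hvx, val_smul hw']
    refine (hu2 w' hne (below_smul hw')).trans (le_of_eq ?_)
    rw [← val_smul hw', σ.commutes]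
  obtain ⟨T, hT⟩ : ∃ T : F, T = Algebra.trace F M u := ⟨_, rfl⟩
  have hTs : algebraMap F M T = ∑ σ : M ≃ₐ[F] M, σ u := by
    rw [hT, trace_eq_sum_automorphisms]
  have hTz : Valued.v (Γ₀ := WithZero (Multiplicative ℤ)) (j (algebraMap F M T) - N * z) ≤
      w.valuation M (algebraMap F M t) := by
    have e1 : j (algebraMap F M T) - N * z = (∑ σ ∈ D, (j (σ u) - z)) +
        ∑ σ ∈ Finset.univ.filter (fun σ : M ≃ₐ[F] M => ¬ σ • w.asIdeal = w.asIdeal), j (σ u) := by
      rw [hTs, map_sum, Finset.sum_sub_distrib, Finset.sum_const, ← hN, nsmul_eq_mul, hD,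
        ← Finset.sum_filter_add_sum_filter_not Finset.univ (fun σ : M ≃ₐ[F] M =>
          σ • w.asIdeal = w.asIdeal)]
      ring
    rw [e1]
    refine (Valuation.map_add _ _ _).trans (max_le ?_ ?_)
    · exact Valuation.map_sum_le _ hterm1
    · refine Valuation.map_sum_le _ fun σ hσ => hterm2 σ ?_
      rw [hD, Finset.mem_filter]
      exact fun h => (Finset.mem_filter.1 hσ).2 h.2
  obtain ⟨ε, hε⟩ : ∃ ε, ε = (j (algebraMap F M T) - N * z) / (N * z) := ⟨_, rfl⟩
  have hNz : (N : w.adicCompletion M) * z ≠ 0 := mul_ne_zero hNw hz0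
  have hNzv : 0 < Valued.v (Γ₀ := WithZero (Multiplicative ℤ)) (N * z : w.adicCompletion M) :=
    zero_lt_iff.2 ((Valuation.ne_zero_iff _).2 hNz)
  have hεv : Valued.v (Γ₀ := WithZero (Multiplicative ℤ)) ε <
      Valued.v (Γ₀ := WithZero (Multiplicative ℤ)) (4 : w.adicCompletion M) := by
    rw [hε, map_div₀, div_lt_iff₀ hNzv, ← map_mul]
    exact hTz.trans_lt ht
  have h41 : Valued.v (Γ₀ := WithZero (Multiplicative ℤ)) (4 : w.adicCompletion M) ≤ 1 := by
    exact_mod_cast v_nat_le _ 4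
  have hTε : j (algebraMap F M T) = N * z * (1 + ε) := by
    rw [hε]
    field_simp
    ring
  have h1ε : (1 : w.adicCompletion M) + ε ≠ 0 := by
    intro h0
    have := v_one_add (hεv.trans_le h41)
    rw [h0, map_zero] at this
    exact zero_ne_one this
  obtain ⟨η, hη⟩ : ∃ η : F, η = T ^ 2 / (N ^ 2 * δ) - 1 := ⟨_, rfl⟩
  have hT0 : T ≠ 0 := by
    rintro rfl
    rw [map_zero, map_zero] at hTε
    exact mul_ne_zero hNz h1ε hTε.symm
  have hjη : j (algebraMap F M η) = ε * (2 + ε) := by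
    have hδ' : j (algebraMap F M δ) ≠ 0 := (_root_.map_ne_zero _).2 ((_root_.map_ne_zero _).2 hδ)
    rw [hη]
    simp only [map_sub, map_div₀, map_mul, map_pow, map_one, map_natCast]
    rw [hTε]
    field_simp
    rw [← hzδ]
    ring
  have hηv : w.valuation M (algebraMap F M η) < w.valuation M (algebraMap F M 4) := by
    rw [← hvx, ← hvx, hjη, map_mul, map_ofNat, map_ofNat]
    have h5 : Valued.v (Γ₀ := WithZero (Multiplicative ℤ)) (2 + ε) ≤ 1 := by
      refine (Valuation.map_add _ _ _).trans (max_le ?_ (hεv.le.trans h41))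
      exact_mod_cast v_nat_le _ 2
    exact (mul_le_of_le_one_right' h5).trans_lt hεv
  obtain ⟨e, he, hve⟩ := val_pow (K := F) w
  rw [hve, hve] at hηv
  have hηv' : (below F w).valuation F η < (below F w).valuation F 4 := lt_of_pow_lt_pow_left' e hηv
  obtain ⟨s, hs⟩ := sq4 (below F w) (algebraMap F _ η) (by
    rw [Pool.Agent.N704.PP.vx, ← map_ofNat (algebraMap F ((below F w).adicCompletion F)) 4,
      Pool.Agent.N704.PP.vx]
    exact hηv')
  obtain ⟨i, hi⟩ : ∃ i : F →+* (below F w).adicCompletion F, i = algebraMap F _ := ⟨_, rfl⟩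
  rw [← hi] at hs ⊢
  have h1η : 1 + η ≠ 0 := by
    rw [hη]
    have : T ^ 2 / (N ^ 2 * δ) ≠ 0 := div_ne_zero (pow_ne_zero 2 hT0)
      (mul_ne_zero (pow_ne_zero 2 hNF) hδ)
    intro h0
    apply this
    linear_combination h0
  have hs0 : s ≠ 0 := by
    rintro rfl
    rw [mul_zero, ← map_one i, ← map_add] at hs
    exact h1η ((_root_.map_eq_zero i).1 hs)
  have hδη : δ = T ^ 2 / (N ^ 2 * (1 + η)) := by
    have e1 : 1 + η = T ^ 2 / (N ^ 2 * δ) := by
      rw [hη]
      ring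
    rw [e1]
    field_simp
  refine ⟨i T / (N * s), ?_⟩
  rw [hδη]
  simp only [map_div₀, map_mul, map_pow, map_natCast, map_add, map_one]
  rw [hs]
  field_simp

/-- **At most one quadratic extension inside `M_w` if the decomposition group is cyclic.** -/
theorem uniq2 [IsGalois F M] {w : HeightOneSpectrum (𝓞 M)} (h2 : (2 : 𝓞 M) ∈ w.asIdeal)
    (hc : IsCyclic (stabilizer (M ≃ₐ[F] M) w.asIdeal)) {δ δ' : F}
    (h : IsSquare (algebraMap M (w.adicCompletion M) (algebraMap F M δ)))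
    (h' : IsSquare (algebraMap M (w.adicCompletion M) (algebraMap F M δ'))) :
    IsSquare (algebraMap F ((below F w).adicCompletion F) δ) ∨
    IsSquare (algebraMap F ((below F w).adicCompletion F) δ') ∨
    IsSquare (algebraMap F ((below F w).adicCompletion F) (δ * δ')) := by
  by_cases hδ : δ = 0
  · exact Or.inl ⟨0, by rw [hδ]; simp⟩
  by_cases hδ' : δ' = 0
  · exact Or.inr (Or.inl ⟨0, by rw [hδ']; simp⟩)
  obtain ⟨⟨g, hgs⟩, hg⟩ := hc.exists_generator
  have hgs' : g • w.asIdeal = w.asIdeal := hgs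
  have hgen : ∀ σ : M ≃ₐ[F] M, σ • w.asIdeal = w.asIdeal → ∃ n : ℕ, σ = g ^ n := by
    intro σ hσ
    have h1 := hg ⟨σ, hσ⟩
    rw [← mem_powers_iff_mem_zpowers] at h1
    obtain ⟨n, hn⟩ := h1
    exact ⟨n, (congrArg Subtype.val hn).symm⟩
  obtain ⟨ι, hι, hι1⟩ := cpl_hom (g : M →+* M) (w' := w) (w := w) (fun x => val_smul hgs' x)
  have hι' : ∀ x : M, ι (algebraMap M (w.adicCompletion M) x) =
      algebraMap M (w.adicCompletion M) (g x) := hι
  obtain ⟨x, hx⟩ := h
  obtain ⟨y, hy⟩ := h'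
  have key : ∀ (z : w.adicCompletion M) (a : F),
      z * z = algebraMap M (w.adicCompletion M) (algebraMap F M a) → ι z = z ∨ ι z = -z := by
    intro z a hz
    have h3 := congrArg ι hz
    rw [map_mul, hι', g.commutes, ← hz] at h3
    exact mul_self_eq_mul_self_iff.1 h3
  rcases key x δ hx.symm with h3 | h3
  · exact Or.inl (fix_sq h2 hgen hι' hι1 h3 hδ hx.symm)
  rcases key y δ' hy.symm with h4 | h4
  · exact Or.inr (Or.inl (fix_sq h2 hgen hι' hι1 h4 hδ' hy.symm))
  · refine Or.inr (Or.inr (fix_sq h2 hgen hι' hι1 (z := x * y) ?_ (mul_ne_zero hδ hδ') ?_))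
    · rw [map_mul, h3, h4, neg_mul_neg]
    · rw [map_mul, map_mul, hx, hy]
      ring

end gal

end Pool.Agent.H459.UT
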