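import Pool.Agent.H459.UT.Exq
import Pool.Agent.H459.UF.Tower
import Pool.Graph.R_pool_sql_team_seeded_63374d34.N849.PF.Hq

/-!
# The invariant at `q` in `S`, without conditions on the discriminant (helper459)

After `N849/PF/Hq.lean` (helper849) of the library.
-/

set_option autoImplicit false
set_option linter.all false

open Polynomial IsDedekindDomain Matrix NumberField
open scoped Classical IntermediateField

namespace Pool.Agent.H459.UT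

open Pool.Agent.N783.PF
open Pool.Agent.N874.PP (Ev Sq1 U0)
open Pool.Agent.N783.PQ (tp Gm)
open Pool.Agent.N849.PF (fin unit sep_q tp_top top_tr not_ev_q)
open Pool.Agent.H459.UF (below eq_below agr_of_unit)

/-- The invariant at `q` in `S`. -/
def S_HQ' : Prop := ∀ (g W : ℕ) (F L : Type) [Field F] [NumberField F] [Field L] [NumberField L]
  [Algebra F L] (f : (𝓞 F)[X]) (θ : L) (S : Finset ℕ) (𝔮 : ℕ → Ideal (𝓞 F))
  (r P : ℕ → (𝓞 F)[X]), 1 ≤ g → IsGen g f θ → GoodS g W S 𝔮 r P →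
  ∀ q ∈ S, ∀ [Fact q.Prime], Cg (sp F q) f (P q) →
  ∀ 𝔔 : HeightOneSpectrum (𝓞 L), Ov (𝔮 q) 𝔔 → 𝔔.valuation L θ = 1 →
  ∀ h : F[X], aeval θ h ≠ 0 →
  (∀ 𝔓 : HeightOneSpectrum (𝓞 L), (q : 𝓞 L) ∈ 𝔓.asIdeal → 𝔓 ≠ 𝔔 → Ev 𝔓 (aeval θ h)) →
  HV ((Tf (Gm g (fF f) h)).map (Rat.castHom ℚ_[q]))
    (if ¬ Ev 𝔔 (aeval θ h) ∧ ¬ Sq1 𝔔 (aeval θ h * (q * θ)) then -1 else 1)

section

variable {F L : Type} [Field F] [NumberField F] [Field L] [NumberField L] [Algebra F L]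
  {g : ℕ} {f : (𝓞 F)[X]} {θ : L}

theorem top_gen (hG : IsGen g f θ) : F⟮θ⟯ = ⊤ := by
  haveI := fin hG
  rw [Field.primitive_element_iff_minpoly_natDegree_eq, Pool.Agent.N459.PF.minp hG, hG.rank, fF,
    hG.mon.natDegree_map, hG.deg]

theorem unram (hG : IsGen g f θ) {𝔭 : Ideal (𝓞 F)} (h𝔭 : 𝔭.IsPrime)
    (h𝔭0 : 𝔭 ≠ ⊥) (hs : (rd 𝔭 f).Separable) {𝔓 : HeightOneSpectrum (𝓞 L)} (hO : Ov 𝔭 𝔓)
    {a : 𝓞 F} (ha : a ∉ 𝔭 ^ 2) : algebraMap (𝓞 F) (𝓞 L) a ∉ 𝔓.asIdeal ^ 2 := by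
  have hu := unit hG hO hs
  have hagr := agr_of_unit hG.mon (top_gen hG) hG.root 𝔓 hu
  have hb : below F 𝔓 = ⟨𝔭, h𝔭, h𝔭0⟩ := eq_below (v := ⟨𝔭, h𝔭, h𝔭0⟩) hO
  intro hmem
  apply ha
  have h0 := (HeightOneSpectrum.intValuation_le_pow_iff_mem 𝔓 (algebraMap (𝓞 F) (𝓞 L) a) 2).2 hmem
  have h00 : 𝔓.valuation L (algebraMap (𝓞 L) L (algebraMap (𝓞 F) (𝓞 L) a)) ≤
      WithZero.exp (-((2 : ℕ) : ℤ)) := by
    rw [HeightOneSpectrum.valuation_of_algebraMap]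
    exact h0
  have e1 : algebraMap (𝓞 L) L (algebraMap (𝓞 F) (𝓞 L) a) =
      algebraMap F L (algebraMap (𝓞 F) F a) := by
    rw [← IsScalarTower.algebraMap_apply, ← IsScalarTower.algebraMap_apply]
  rw [e1, hagr, hb] at h00
  have h1 := (HeightOneSpectrum.intValuation_le_pow_iff_mem (⟨𝔭, h𝔭, h𝔭0⟩ : HeightOneSpectrum (𝓞 F))
    a 2).1 (by
      rw [HeightOneSpectrum.valuation_of_algebraMap] at h00
      exact h00)
  exact h1

end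

/-- **HQ**: the invariant at `q` in `S`. -/
theorem hq (h1 : S_TFQ) : S_HQ' := by
  intro g W F L _ _ _ _ _ f θ S 𝔮 r P hg hG hS q hq _ hc 𝔔 hO𝔔 hv𝔔 h hα hEv
  have hgood := hS q hq
  obtain ⟨hqp, hWq, hgq, hq8, hnr, hqpr, hqm, hrm, hrd, hri, hAm, hAd, hAt, hAc, hAi⟩ := hgood
  haveI := fin hG
  have hq0F : (q : 𝓞 F) ≠ 0 := by exact_mod_cast hqp.ne_zero
  have hq0L : (q : L) ≠ 0 := by exact_mod_cast hqp.ne_zero
  have hcq : Cg (𝔮 q) f (X * r q) := by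
    intro j
    have e1 : f.coeff j - (P q).coeff j ∈ 𝔮 q :=
      (Ideal.span_singleton_le_iff_mem _).2 hqm (hc j)
    have e2 := (𝔮 q).add_mem e1 (hAc j)
    rwa [sub_add_sub_cancel] at e2
  obtain ⟨𝔓₁, 𝔓₂, x1, x2, x3, x4, x5, x6, x7⟩ := exq g W F L f θ S 𝔮 r P hg hG hS q hq hcq
  obtain ⟨y1, y2, y3, y4⟩ := csq g W F L f θ S 𝔮 r P hg hG hS q hq hcq 𝔔 hO𝔔 hv𝔔
  -- the prime below a prime over `q`
  have hbel : ∀ 𝔓 : HeightOneSpectrum (𝓞 L), (q : 𝓞 L) ∈ 𝔓.asIdeal → ∃ 𝔭 : Ideal (𝓞 F),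
      𝔭.IsPrime ∧ 𝔭 ≠ ⊥ ∧ (q : 𝓞 F) ∈ 𝔭 ∧ Ov 𝔭 𝔓 := by
    intro 𝔓 hqP
    have hmem : (q : 𝓞 F) ∈ 𝔓.asIdeal.comap (algebraMap (𝓞 F) (𝓞 L)) := by
      rw [Ideal.mem_comap, map_natCast]
      exact hqP
    refine ⟨𝔓.asIdeal.comap (algebraMap (𝓞 F) (𝓞 L)), ?_, ?_, hmem, fun a ha => ha⟩
    · haveI := 𝔓.isPrime
      exact Ideal.comap_isPrime _ _
    · intro h0
      rw [h0] at hmem
      exact hq0F ((Submodule.mem_bot _).1 hmem)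
  have hvD : ∀ 𝔓 : HeightOneSpectrum (𝓞 L), (q : 𝓞 L) ∈ 𝔓.asIdeal →
      𝔓.valuation L (aeval θ (derivative (fF f))) = 1 := by
    intro 𝔓 hqP
    obtain ⟨𝔭, z1, z2, z3, z4⟩ := hbel 𝔓 hqP
    exact unit hG z4 (sep_q hS hq hg hc z1 z2 z3).1
  have hun : ∀ 𝔓 : HeightOneSpectrum (𝓞 L), (q : 𝓞 L) ∉ 𝔓.asIdeal ^ 2 := by
    intro 𝔓 hmem
    have hqP : (q : 𝓞 L) ∈ 𝔓.asIdeal := Ideal.pow_le_self two_ne_zero hmem
    obtain ⟨𝔭, z1, z2, z3, z4⟩ := hbel 𝔓 hqP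
    have h6 := unram hG z1 z2 (sep_q hS hq hg hc z1 z2 z3).1 z4 (hnr 𝔭 z1)
    rw [map_natCast] at h6
    exact h6 hmem
  -- the element `c`
  set D : L := aeval θ (derivative (fF f)) with hD
  set α : L := aeval θ h with hαdef
  have hq𝔔 : (q : 𝓞 L) ∈ 𝔔.asIdeal := by
    have := hO𝔔 _ hqm
    rwa [map_natCast] at this
  have hD0 : D ≠ 0 := by
    intro h0
    rw [h0, map_zero] at y3
    exact zero_ne_one y3
  have hθ0 : θ ≠ 0 := by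
    intro h0
    rw [h0, map_zero] at hv𝔔
    exact zero_ne_one hv𝔔
  have hEvc : ∀ 𝔓 : HeightOneSpectrum (𝓞 L), (q : 𝓞 L) ∈ 𝔓.asIdeal →
      (Ev 𝔓 (α / D) ↔ Ev 𝔓 α) := by
    intro 𝔓 hqP
    unfold Ev
    rw [map_div₀, hvD 𝔓 hqP, div_one]
  have hmain := h1 L q (by omega) hun (Fin (2 * g + 1) × Fin (Module.finrank ℚ F))
    ((Module.finBasis ℚ F).smulTower' hG.basis) (α / D) (div_ne_zero hα hD0) 𝔔 hq𝔔 y2
    (fun 𝔓 z1 z2 => (hEvc 𝔓 z1).2 (hEv 𝔓 z1 z2))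
  -- the matrix
  have hmat : (Matrix.of fun i j => Algebra.trace ℚ L
      (((Module.finBasis ℚ F).smulTower' hG.basis) i * ((Module.finBasis ℚ F).smulTower' hG.basis) j
        * (α / D))) = Tf (Gm g (fF f) h) := by
    ext i j
    rw [Tf, Matrix.of_apply, Matrix.of_apply, Gm, Matrix.of_apply, tp_top hG, top_tr hG,
      ← Algebra.trace_trace (S := F), Module.Basis.smulTower'_apply,
      Module.Basis.smulTower'_apply, hG.basis_apply, hG.basis_apply]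
    congr 1
    rw [← smul_eq_mul (Module.finBasis ℚ F i.2 * Module.finBasis ℚ F j.2), ← map_smul]
    congr 1
    rw [map_mul, map_pow, aeval_X, Algebra.smul_def, Algebra.smul_def, Algebra.smul_def, map_mul,
      pow_add, ← hαdef, ← hD]
    ring
  rw [hmat] at hmain
  -- the condition
  have hcond : (¬ Ev 𝔔 (α / D) ∧ Sq1 𝔔 ((q : L) * (α / D))) ↔
      (¬ Ev 𝔔 α ∧ ¬ Sq1 𝔔 (α * (q * θ))) := by
    rw [hEvc 𝔔 hq𝔔]
    refine and_congr_right fun hne => ?_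
    have hvq : 𝔔.valuation L (q : L) = WithZero.exp (-1 : ℤ) := by
      rcases x7 𝔔 hO𝔔 with e | e
      · rw [e]
        exact x5
      · rw [e]
        exact x6
    have hneq := not_ev_q hvq
    have hcls := Pool.Agent.N457.PQ.cls L q 𝔔 (q : L) hqp (by
      rintro rfl
      omega) hq𝔔 hq0L hneq
    have hc0 : α / D ≠ 0 := div_ne_zero hα hD0
    have hx0 : (q : L) * (α / D) ≠ 0 := mul_ne_zero hq0L hc0
    have hu0 : θ * D ≠ 0 := mul_ne_zero hθ0 hD0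
    have hcE : ¬ Ev 𝔔 (α / D) := fun hh => hne ((hEvc 𝔔 hq𝔔).1 hh)
    have hxE : Ev 𝔔 ((q : L) * (α / D)) :=
      ((hcls _ _ hq0L hc0).1).2 ⟨fun hh => absurd hh hneq, fun hh => absurd hh hcE⟩
    have huE : Ev 𝔔 (θ * D) := ⟨1, by rw [map_mul, hv𝔔, y3, map_one, one_pow, mul_one]⟩
    have hxu := (hcls _ _ hx0 hu0)
    have hxuE : Ev 𝔔 ((q : L) * (α / D) * (θ * D)) := hxu.1.2 ⟨fun _ => huE, fun _ => hxE⟩
    have hU : ∀ z : L, Ev 𝔔 z → (U0 𝔔 (q : L) z ↔ Sq1 𝔔 z) := by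
      intro z hz
      unfold U0
      exact ⟨fun hh => hh.1 hz, fun hh => ⟨fun _ => hh, fun hh' => absurd hz hh'⟩⟩
    have h6 := hxu.2
    rw [hU _ hxuE, hU _ hxE, hU _ huE] at h6
    have h7 : (q : L) * (α / D) * (θ * D) = α * (q * θ) := by
      field_simp
    rw [h7] at h6
    rw [h6]
    constructor
    · intro h8 h9
      exact y4 (h9.1 h8)
    · intro h8
      by_contra h9
      exact h8 ⟨fun hh => absurd hh h9, fun hh => absurd hh y4⟩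
  simp only [hcond] at hmain
  exact hmain

end Pool.Agent.H459.UT
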