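import Pool.Graph.R_pool_sql_team_seeded_63374d34.N31.PF.Int
import Pool.Graph.R_pool_sql_team_seeded_63374d34.N73.PF.Base

/-!
# The order `𝓞 F [θ]` at a prime whose square does not divide the discriminant (helper459)

After `N31/PF/Int.lean` (helper31, helper833, helper769) and `N73/PF/Base.lean` (helper73) of the library.
-/

set_option autoImplicit false
set_option linter.all false

open Polynomial IsDedekindDomain Matrix NumberField WithZero
open scoped Classical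

namespace Pool.Agent.H459.UT

open Pool.Agent.N783.PF
open Pool.Agent.N73.PF (ev ev_L ev_f ev_ker ev_C ev_X ov_iff mem_of_dvd theta_ex rd_surj
  map_eq_of_cg coeff_of_rd_eq_zero ev_mem_of_coeff algMap_coe)

section at_

variable {g : ℕ} {F L : Type} [Field F] [NumberField F] [Field L] [NumberField L] [Algebra F L]
  {f : (𝓞 F)[X]} {θ : L}

theorem irr_of_gen (h : IsGen g f θ) : Irreducible (fF f) := by
  rw [← Pool.Agent.N31.PF.minp h]
  exact minpoly.irreducible (Pool.Agent.N31.PF.pb h).isIntegral_gen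

/-- The discriminant is not zero. -/
theorem dsc_ne (h : IsGen g f θ) : dsc g f ≠ 0 := by
  intro h0
  have h1 := Pool.Agent.N31.PF.dsc_map h
  rw [h0, map_zero] at h1
  set G := f.map (algebraMap (𝓞 F) F) with hG
  have hdeg : G.natDegree = 2 * g + 1 := by
    rw [hG, h.mon.natDegree_map, h.deg]
  have hirr : Irreducible G := irr_of_gen h
  have h2 : G.resultant (derivative G) = 0 := by
    obtain ⟨j, hj⟩ := Nat.exists_eq_add_of_le (Pool.Agent.N31.PF.deg_der h)
    rw [← hG] at hj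
    have h5 := resultant_add_right_deg G (derivative G) (2 * g + 1) (derivative G).natDegree j
      le_rfl
    rw [← hj, ← h1, ← hdeg, eq_comm] at h5
    have hm : G.leadingCoeff = 1 := (h.mon.map _).leadingCoeff
    have hm' : G.coeff G.natDegree = 1 := hm
    rcases mul_eq_zero.1 h5 with h6 | h6
    · rw [hm', one_pow] at h6
      exact absurd h6 one_ne_zero
    · exact h6
  have h3 := (resultant_eq_zero_iff.1 h2).2
  exact h3 hirr.separable

/-- Integral elements have coordinates which are integral at `𝔭`. -/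
theorem int_at (h : IsGen g f θ) {𝔭 : Ideal (𝓞 F)} (hp : 𝔭.IsPrime) (hp0 : 𝔭 ≠ ⊥)
    (hsq : dsc g f ∉ 𝔭 ^ 2) {x : L} (hx : IsIntegral ℤ x) : ∃ s : 𝓞 F, s ∉ 𝔭 ∧
    ∃ v : Fin (2 * g + 1) → 𝓞 F,
      algebraMap F L (s : F) * x = ∑ i, algebraMap F L (v i : F) * θ ^ (i : ℕ) := by
  haveI := Pool.Agent.N31.PF.fin h
  have hθ := Pool.Agent.N31.PF.theta_int h
  obtain ⟨w, hw⟩ : ∃ w : HeightOneSpectrum (𝓞 F), w.asIdeal = 𝔭 := ⟨⟨𝔭, hp, hp0⟩, rfl⟩
  subst hw
  obtain ⟨c, hc⟩ := h.gen x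
  have key : ∀ i₀, w.valuation F (c i₀) ≤ 1 := by
    intro i₀
    obtain ⟨m, hm⟩ := Pool.Agent.N31.PF.dis h (dsc_ne h)
    set P : Matrix (Fin (2 * g + 1)) (Fin (2 * g + 1)) F := (1 : Matrix _ _ F).updateCol i₀ c
      with hP
    have hdet : P.det = c i₀ := by
      rw [hP, ← cramer_apply, cramer_one]
      rfl
    have h1 : IsIntegral ℤ (Algebra.discr F
        ((fun i : Fin (2 * g + 1) => θ ^ (i : ℕ)) ᵥ* P.map (algebraMap F L))) := by
      apply Algebra.discr_isIntegral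
      intro j
      have e : ((fun i : Fin (2 * g + 1) => θ ^ (i : ℕ)) ᵥ* P.map (algebraMap F L)) j =
          if j = i₀ then x else θ ^ (j : ℕ) := by
        rw [Matrix.vecMul, dotProduct]
        simp only [Matrix.map_apply]
        split_ifs with hj
        · subst hj
          rw [hc]
          refine Finset.sum_congr rfl fun i _ => ?_
          rw [hP, updateCol_self, mul_comm]
        · rw [Finset.sum_eq_single j]
          · rw [hP, updateCol_ne hj, one_apply_eq, map_one, mul_one]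
          · intro i _ hij
            rw [hP, updateCol_ne hj, one_apply_ne hij, map_zero, mul_zero]
          · intro h0
            exact absurd (Finset.mem_univ _) h0
      rw [e]
      split_ifs
      · exact hx
      · exact hθ.pow _
    rw [Algebra.discr_of_matrix_vecMul, hdet, hm] at h1
    have h2 : IsIntegral ℤ ((-1 : F) ^ m) := (isIntegral_one.neg).pow m
    have h3 := h2.mul h1
    have e2 : (-1 : F) ^ m * (-1 : F) ^ m = 1 := by
      rw [← mul_pow, neg_one_mul, neg_neg, one_pow]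
    have e : (-1 : F) ^ m * (c i₀ ^ 2 * ((-1) ^ m * algebraMap (𝓞 F) F (dsc g f))) =
        c i₀ ^ 2 * ((dsc g f : 𝓞 F) : F) := by
      linear_combination (c i₀ ^ 2 * ((dsc g f : 𝓞 F) : F)) * e2
    rw [e] at h3
    obtain ⟨D, hD⟩ : ∃ D, D = dsc g f := ⟨_, rfl⟩
    rw [← hD] at h3 hsq
    obtain ⟨t, ht⟩ : ∃ t, t = c i₀ := ⟨_, rfl⟩
    rw [← ht] at h3 ⊢
    by_contra hlt
    rw [not_le] at hlt
    have h4 : w.valuation F (t ^ 2 * (D : F)) ≤ 1 :=
      w.valuation_le_one (K := F) (⟨t ^ 2 * (D : F), h3⟩ : 𝓞 F)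
    have h5 : ¬ w.valuation F (D : F) ≤ WithZero.exp (-(2 : ℕ) : ℤ) := by
      intro h6
      apply hsq
      have h7 : w.intValuation D ≤ WithZero.exp (-(2 : ℕ) : ℤ) := by
        rwa [HeightOneSpectrum.valuation_of_algebraMap] at h6
      exact (w.intValuation_le_pow_iff_mem D 2).mp h7
    have hD0 : w.valuation F (D : F) ≠ 0 := by
      intro h0
      rw [h0] at h5
      exact h5 zero_le'
    have ht0 : w.valuation F t ≠ 0 := (lt_trans zero_lt_one hlt).ne'
    rw [map_mul, map_pow] at h4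
    obtain ⟨a, ha⟩ : ∃ a : ℤ, w.valuation F t = WithZero.exp a :=
      ⟨WithZero.log (w.valuation F t), (WithZero.exp_log ht0).symm⟩
    obtain ⟨b, hb⟩ : ∃ b : ℤ, w.valuation F (D : F) = WithZero.exp b :=
      ⟨WithZero.log (w.valuation F (D : F)), (WithZero.exp_log hD0).symm⟩
    rw [ha, hb, ← WithZero.exp_nsmul, ← WithZero.exp_add, ← WithZero.exp_zero,
      WithZero.exp_le_exp] at h4
    rw [ha, ← WithZero.exp_zero, WithZero.exp_lt_exp] at hlt
    rw [hb, WithZero.exp_le_exp] at h5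
    simp only [nsmul_eq_mul] at h4
    push_cast at h4 h5
    omega
  have key2 : ∀ i, ∃ (d n : 𝓞 F), d ∉ w.asIdeal ∧ (d : F) * c i = n := by
    intro i
    obtain ⟨n, d, hnd⟩ := w.exists_primeCompl_mul_eq_of_integer (c i) (key i)
    refine ⟨d, n, d.2, ?_⟩
    rw [mul_comm]
    exact hnd
  choose d n hd hn using key2
  refine ⟨∏ i, d i, ?_, fun i => (∏ j ∈ Finset.univ.erase i, d j) * n i, ?_⟩
  · intro hmem
    obtain ⟨i, -, hi⟩ := (Ideal.IsPrime.prod_mem_iff (hp := w.isPrime)).1 hmem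
    exact hd i hi
  · rw [hc, Finset.mul_sum]
    refine Finset.sum_congr rfl fun i _ => ?_
    have e1 : ((∏ i, d i : 𝓞 F) : F) = ((∏ j ∈ Finset.univ.erase i, d j : 𝓞 F) : F) * (d i : F) := by
      rw [← Finset.prod_erase_mul _ _ (Finset.mem_univ i)]
      push_cast
      rfl
    have e2 : (((∏ j ∈ Finset.univ.erase i, d j) * n i : 𝓞 F) : F) =
        ((∏ j ∈ Finset.univ.erase i, d j : 𝓞 F) : F) * ((d i : F) * c i) := by
      rw [hn i]
      push_cast
      rfl
    rw [e1, e2]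
    simp only [map_mul]
    ring

/-- Integers of `L` are values of polynomials, up to elements of `𝓞 F` outside `𝔭`. -/
theorem ev_at (h : IsGen g f θ) {𝔭 : Ideal (𝓞 F)} (hp : 𝔭.IsPrime) (hp0 : 𝔭 ≠ ⊥)
    (hsq : dsc g f ∉ 𝔭 ^ 2) {t : 𝓞 L} (ht : algebraMap (𝓞 L) L t = θ) (z : 𝓞 L) :
    ∃ (s : 𝓞 F) (p : (𝓞 F)[X]), s ∉ 𝔭 ∧ ev t p = algebraMap (𝓞 F) (𝓞 L) s * z ∧
      p.degree < ((2 * g + 1 : ℕ) : WithBot ℕ) := by
  obtain ⟨s, hs, v, hv⟩ := int_at h hp hp0 hsq z.isIntegral_coe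
  have hv' : algebraMap (𝓞 L) L (algebraMap (𝓞 F) (𝓞 L) s * z) =
      ∑ i, algebraMap F L (v i : F) * θ ^ (i : ℕ) := by
    rw [map_mul]
    exact hv
  refine ⟨s, ∑ i : Fin (2 * g + 1), C (v i) * X ^ (i : ℕ), hs, ?_, degree_sum_fin_lt _⟩
  apply IsFractionRing.injective (𝓞 L) L
  rw [hv', map_sum, map_sum]
  refine Finset.sum_congr rfl fun i _ => ?_
  rw [map_mul, ev_C, map_pow, ev_X, map_mul, map_pow, ht, algMap_coe]

/-- The map to `AdjoinRoot m` for a factor `m` of `f` modulo `𝔭`. -/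
theorem ex_psi (h : IsGen g f θ) {𝔭 : Ideal (𝓞 F)} (hp : 𝔭.IsPrime) (hp0 : 𝔭 ≠ ⊥)
    (hsq : dsc g f ∉ 𝔭 ^ 2) {t : 𝓞 L} (ht : algebraMap (𝓞 L) L t = θ) (m : (𝓞 F ⧸ 𝔭)[X])
    (hm : m ∣ rd 𝔭 f) : ∃ ψ : 𝓞 L →+* AdjoinRoot m,
      ∀ p : (𝓞 F)[X], ψ (ev t p) = AdjoinRoot.mk m (rd 𝔭 p) := by
  haveI hmax : 𝔭.IsMaximal := hp.isMaximal hp0
  -- inverses modulo `𝔭`
  have hinv : ∀ s : 𝓞 F, s ∉ 𝔭 → ∃ s' : 𝓞 F, s * s' - 1 ∈ 𝔭 := by
    intro s hs
    obtain ⟨y, hy⟩ := hmax.exists_inv hs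
    obtain ⟨z, hz, hyz⟩ := hy
    refine ⟨y, ?_⟩
    have e : s * y - 1 = -z := by rw [← hyz]; ring
    rw [e]
    exact 𝔭.neg_mem hz
  have hex : ∀ z : 𝓞 L, ∃ (s : 𝓞 F) (p : (𝓞 F)[X]), s - 1 ∈ 𝔭 ∧
      ev t p = algebraMap (𝓞 F) (𝓞 L) s * z := by
    intro z
    obtain ⟨s, p, hs, hsp, -⟩ := ev_at h hp hp0 hsq ht z
    obtain ⟨s', hs'⟩ := hinv s hs
    refine ⟨s * s', p * C s', hs', ?_⟩
    rw [map_mul, hsp, ev_C, map_mul]
    ring
  have hk : ∀ p : (𝓞 F)[X], ev t p = 0 → AdjoinRoot.mk m (rd 𝔭 p) = 0 := by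
    intro p hp'
    obtain ⟨c, rfl⟩ := ev_ker h ht hp'
    rw [rd, Polynomial.map_mul, map_mul, AdjoinRoot.mk_eq_zero.2 hm, zero_mul]
  have h1 : ∀ s : 𝓞 F, s - 1 ∈ 𝔭 → rd 𝔭 (C s) = 1 := by
    intro s hs
    rw [rd, Polynomial.map_C]
    have : Ideal.Quotient.mk 𝔭 s = 1 := by
      rw [← map_one (Ideal.Quotient.mk 𝔭), Ideal.Quotient.eq]
      exact hs
    rw [this, C_1]
  -- well defined
  have hwd : ∀ (z : 𝓞 L) (s s' : 𝓞 F) (p p' : (𝓞 F)[X]), s - 1 ∈ 𝔭 → s' - 1 ∈ 𝔭 →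
      ev t p = algebraMap (𝓞 F) (𝓞 L) s * z → ev t p' = algebraMap (𝓞 F) (𝓞 L) s' * z →
      AdjoinRoot.mk m (rd 𝔭 p) = AdjoinRoot.mk m (rd 𝔭 p') := by
    intro z s s' p p' hs hs' e e'
    have e3 : ev t (p * C s' - p' * C s) = 0 := by
      rw [map_sub, map_mul, map_mul, e, e', ev_C, ev_C]
      ring
    have h4 := hk _ e3
    rw [rd, Polynomial.map_sub, Polynomial.map_mul, Polynomial.map_mul] at h4
    have h5 := h1 s hs
    have h6 := h1 s' hs'
    rw [rd] at h5 h6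
    rw [h5, h6, mul_one, mul_one, map_sub, sub_eq_zero] at h4
    exact h4
  choose s p hs hsp using hex
  let ψ : 𝓞 L →+* AdjoinRoot m :=
    { toFun := fun z => AdjoinRoot.mk m (rd 𝔭 (p z))
      map_one' := by
        have := hwd 1 (s 1) 1 (p 1) 1 (hs 1) (by rw [sub_self]; exact 𝔭.zero_mem) (hsp 1)
          (by rw [map_one, map_one, mul_one])
        rw [this, rd, Polynomial.map_one, map_one]
      map_mul' := by
        intro a b
        have := hwd (a * b) (s (a * b)) (s a * s b) (p (a * b)) (p a * p b) (hs _) (by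
          have e : s a * s b - 1 = s a * (s b - 1) + (s a - 1) := by ring
          rw [e]
          exact 𝔭.add_mem (𝔭.mul_mem_left _ (hs b)) (hs a)) (hsp _) (by
          rw [map_mul, hsp a, hsp b, map_mul]
          ring)
        rw [this, rd, Polynomial.map_mul, map_mul]
      map_zero' := by
        have := hwd 0 (s 0) 1 (p 0) 0 (hs 0) (by rw [sub_self]; exact 𝔭.zero_mem) (hsp 0)
          (by rw [map_zero, mul_zero])
        rw [this, rd, Polynomial.map_zero, map_zero]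
      map_add' := by
        intro a b
        have := hwd (a + b) (s (a + b)) (s a * s b) (p (a + b)) (p a * C (s b) + p b * C (s a))
          (hs _) (by
          have e : s a * s b - 1 = s a * (s b - 1) + (s a - 1) := by ring
          rw [e]
          exact 𝔭.add_mem (𝔭.mul_mem_left _ (hs b)) (hs a)) (hsp _) (by
          rw [map_add, map_mul, map_mul, hsp a, hsp b, map_mul, ev_C, ev_C]
          ring)
        have h5 := h1 _ (hs a)
        have h6 := h1 _ (hs b)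
        rw [rd] at h5 h6
        rw [this, rd, Polynomial.map_add, Polynomial.map_mul, Polynomial.map_mul, h5, h6, mul_one,
          mul_one, map_add] }
  refine ⟨ψ, fun q => ?_⟩
  exact hwd (ev t q) _ 1 _ q (hs _) (by rw [sub_self]; exact 𝔭.zero_mem) (hsp _)
    (by rw [map_one, one_mul])

end at_

end Pool.Agent.H459.UT
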