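import Pool.Agent.H459.UT.Rec
import Pool.Graph.R_pool_sql_team_seeded_63374d34.N862.PF.TV

/-!
# Lattices from local conditions (helper459)
-/

set_option autoImplicit false
set_option linter.all false

open Polynomial IsDedekindDomain Matrix NumberField WithZero
open scoped Classical

namespace Pool.Agent.H459.UT

open Pool.Agent.N783.PF
open Pool.Agent.N862.PF (top_pow theta_int theta_ex int_iff)

variable {F L : Type} [Field F] [NumberField F] [Field L] [NumberField L] [Algebra F L]
  {g : ℕ} {f : (𝓞 F)[X]} {θ : L}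

/-- Local conditions which define a self-dual lattice. -/
structure LocC (hG : IsGen g f θ) (α : L) (C : HeightOneSpectrum (𝓞 F) → L → Prop) : Prop where
  add : ∀ w x y, C w x → C w y → C w (x + y)
  smul : ∀ w (a : F) x, w.valuation F a ≤ 1 → C w x → C w (algebraMap F L a * x)
  den : ∀ x, ∃ N : 𝓞 F, N ≠ 0 ∧ ∀ w, C w (algebraMap F L (N : F) * x)
  stab : ∀ w x, C w x → C w (θ * x)
  int : ∀ w x y, C w x → C w y → w.valuation F (hG.top (x * y / α)) ≤ 1
  dual : ∀ w y, (∀ x, C w x → w.valuation F (hG.top (x * y / α)) ≤ 1) → C w y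

theorem int_F {x : F} (h : ∀ w : HeightOneSpectrum (𝓞 F), w.valuation F x ≤ 1) :
    ∃ z : 𝓞 F, (z : F) = x := by
  obtain ⟨z, hz⟩ := HeightOneSpectrum.mem_integers_of_valuation_le_one F x h
  exact ⟨z, hz⟩

/-- an integer prime to `w` and divisible by the part of `N` prime to `w` -/
theorem exists_cof (w : HeightOneSpectrum (𝓞 F)) {N : 𝓞 F} (hN : N ≠ 0) :
    ∃ m : 𝓞 F, m ∉ w.asIdeal ∧ ∀ w' : HeightOneSpectrum (𝓞 F), w' ≠ w →
      w'.valuation F (m : F) ≤ w'.valuation F (N : F) := by
  have hs0 : Ideal.span {N} ≠ ⊥ := by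
    rw [ne_eq, Ideal.span_singleton_eq_bot]
    exact hN
  have hfin : FiniteMultiplicity w.asIdeal (Ideal.span {N}) :=
    FiniteMultiplicity.of_prime_left w.prime (by rwa [ne_eq, ← Ideal.zero_eq_bot] at hs0)
  obtain ⟨𝔟, hb1, hb2⟩ := hfin.exists_eq_pow_mul_and_not_dvd
  obtain ⟨k, hk⟩ : ∃ k, k = multiplicity w.asIdeal (Ideal.span {N}) := ⟨_, rfl⟩
  rw [← hk] at hb1
  have hb3 : ¬ 𝔟 ≤ w.asIdeal := fun h => hb2 (Ideal.dvd_iff_le.2 h)
  obtain ⟨m, hm1, hm2⟩ := SetLike.not_le_iff_exists.1 hb3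
  refine ⟨m, hm2, fun w' hw' => ?_⟩
  have h1 : ¬ w.asIdeal ^ k ≤ w'.asIdeal := by
    intro h
    apply hw'
    have h2 : w.asIdeal ≤ w'.asIdeal := w'.isPrime.le_of_pow_le h
    have := w.isMaximal.eq_of_le w'.isPrime.ne_top h2
    ext1
    exact this.symm
  obtain ⟨c, hc1, hc2⟩ := SetLike.not_le_iff_exists.1 h1
  have h3 : c * m ∈ Ideal.span {N} := by
    rw [hb1]
    exact Ideal.mul_mem_mul hc1 hm1
  obtain ⟨d, hd⟩ := Ideal.mem_span_singleton.1 h3
  have h4 : w'.valuation F (c : F) = 1 := by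
    refine le_antisymm (w'.valuation_le_one c) (not_lt.1 fun h5 => hc2 ?_)
    exact (w'.valuation_lt_one_iff_mem c).1 h5
  have h5 : w'.valuation F ((c * m : 𝓞 F) : F) = w'.valuation F (m : F) := by
    have e : ((c * m : 𝓞 F) : F) = (c : F) * (m : F) := by push_cast; rfl
    rw [e, map_mul, h4, one_mul]
  rw [← h5, hd]
  have e : ((N * d : 𝓞 F) : F) = (N : F) * (d : F) := by push_cast; rfl
  rw [e, map_mul]
  exact mul_le_of_le_one_right' (w'.valuation_le_one d)

variable {hG : IsGen g f θ} {α : L} {C : HeightOneSpectrum (𝓞 F) → L → Prop}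

theorem LocC.exm (H : LocC hG α C) (w : HeightOneSpectrum (𝓞 F)) (x : L) :
    ∃ m : 𝓞 F, m ∉ w.asIdeal ∧ ∀ w' : HeightOneSpectrum (𝓞 F), w' ≠ w →
      C w' (algebraMap F L (m : F) * x) := by
  obtain ⟨N, hN, hC⟩ := H.den x
  obtain ⟨m, hm, hv⟩ := exists_cof w hN
  refine ⟨m, hm, fun w' hw' => ?_⟩
  have hN0 : (N : F) ≠ 0 := by exact_mod_cast hN
  have hN1 : algebraMap F L (N : F) ≠ 0 := (_root_.map_ne_zero _).2 hN0
  have e : algebraMap F L (m : F) * x =
      algebraMap F L ((m : F) / (N : F)) * (algebraMap F L (N : F) * x) := by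
    rw [map_div₀]
    field_simp
  rw [e]
  refine H.smul w' _ _ ?_ (hC w')
  rw [map_div₀]
  exact div_le_one_of_le₀ (hv w' hw') zero_le

theorem LocC.zero (H : LocC hG α C) (w : HeightOneSpectrum (𝓞 F)) : C w 0 := by
  obtain ⟨N, hN, hC⟩ := H.den 0
  have := hC w
  rwa [mul_zero] at this

/-- nondegeneracy -/
theorem top_nd (hG : IsGen g f θ) {x : L} (h : ∀ i : Fin (2 * g + 1), hG.top (x * θ ^ (i : ℕ)) = 0) :
    x = 0 := by
  by_contra hx
  have h1 : ∀ z : L, hG.top (x * z) = 0 := by
    intro z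
    obtain ⟨c, hc⟩ := hG.gen z
    rw [hc, Finset.mul_sum, map_sum]
    refine Finset.sum_eq_zero fun i _ => ?_
    have e : x * (algebraMap F L (c i) * θ ^ (i : ℕ)) = c i • (x * θ ^ (i : ℕ)) := by
      rw [Algebra.smul_def]
      ring
    rw [e, map_smul, h i, smul_zero]
  have h2 := h1 (x⁻¹ * θ ^ (2 * g))
  rw [← mul_assoc, mul_inv_cancel₀ hx, one_mul, top_pow hG _ le_rfl, if_pos rfl] at h2
  exact one_ne_zero h2

/-- **The lattice.** -/
theorem LocC.lat (hα : α ≠ 0) (H : LocC hG α C) :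
    ∃ Λ : Submodule (𝓞 F) L, (∀ x, x ∈ Λ ↔ ∀ w, C w x) ∧ Lat hG α Λ := by
  have hsm : ∀ (c : 𝓞 F) (x : L), c • x = algebraMap F L (c : F) * x := by
    intro c x
    rw [Algebra.smul_def, IsScalarTower.algebraMap_apply (𝓞 F) F L]
  let Λ : Submodule (𝓞 F) L :=
    { carrier := {x | ∀ w, C w x}
      add_mem' := fun {a b} ha hb w => H.add w a b (ha w) (hb w)
      zero_mem' := fun w => H.zero w
      smul_mem' := by
        intro c x hx w
        rw [hsm]
        exact H.smul w _ _ (w.valuation_le_one c) (hx w) }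
  have hΛ : ∀ x, x ∈ Λ ↔ ∀ w, C w x := fun x => Iff.rfl
  have htop : ∀ x ∈ Λ, ∀ y ∈ Λ, ∃ z : 𝓞 F, (z : F) = hG.top (x * y / α) := fun x hx y hy =>
    int_F fun w => H.int w x y ((hΛ x).1 hx w) ((hΛ y).1 hy w)
  refine ⟨Λ, hΛ, ?_, ?_, ?_, ?_, ?_⟩
  · -- finitely generated
    choose N hN hC using fun i : Fin (2 * g + 1) => H.den (θ ^ (i : ℕ))
    have hy : ∀ i : Fin (2 * g + 1), algebraMap F L (N i : F) * θ ^ (i : ℕ) ∈ Λ := fun i =>
      (hΛ _).2 (hC i)
    choose φ hφ using fun (x : Λ) (i : Fin (2 * g + 1)) => htop x x.2 _ (hy i)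
    have hφ' : ∀ (x : Λ) (i : Fin (2 * g + 1)), algebraMap (𝓞 F) F (φ x i) =
        hG.top ((x : L) * (algebraMap F L (N i : F) * θ ^ (i : ℕ)) / α) := fun x i => hφ x i
    let Φ : Λ →ₗ[𝓞 F] (Fin (2 * g + 1) → 𝓞 F) :=
      { toFun := φ
        map_add' := by
          intro x y
          funext i
          apply RingOfIntegers.coe_injective
          have e1 : algebraMap (𝓞 F) F ((φ x + φ y) i) = algebraMap (𝓞 F) F (φ x i) +
              algebraMap (𝓞 F) F (φ y i) := by
            rw [Pi.add_apply, map_add]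
          refine (hφ (x + y) i).trans (Eq.trans ?_ e1.symm)
          rw [hφ' x i, hφ' y i, ← map_add]
          congr 1
          rw [Submodule.coe_add]
          ring
        map_smul' := by
          intro c x
          funext i
          apply RingOfIntegers.coe_injective
          have e1 : algebraMap (𝓞 F) F ((c • φ x) i) = (c : F) * algebraMap (𝓞 F) F (φ x i) := by
            rw [Pi.smul_apply, smul_eq_mul, map_mul]
          refine (hφ (c • x) i).trans (Eq.trans ?_ e1.symm)
          have e2 : ((c • x : Λ) : L) * (algebraMap F L (N i : F) * θ ^ (i : ℕ)) / α =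
              (c : F) • ((x : L) * (algebraMap F L (N i : F) * θ ^ (i : ℕ)) / α) := by
            rw [Submodule.coe_smul, hsm, Algebra.smul_def]
            ring
          rw [hφ' x i, e2, map_smul, smul_eq_mul] }
    have hinj : Function.Injective Φ := by
      rw [injective_iff_map_eq_zero]
      intro x hx
      have h1 : ∀ i, φ x i = 0 := fun i => congrFun hx i
      have h2 : (x : L) / α = 0 := by
        refine top_nd hG fun i => ?_
        have h3 := hφ' x i
        rw [h1 i, map_zero] at h3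
        have hN0 : (N i : F) ≠ 0 := by exact_mod_cast hN i
        have e : (x : L) * (algebraMap F L (N i : F) * θ ^ (i : ℕ)) / α =
            (N i : F) • ((x : L) / α * θ ^ (i : ℕ)) := by
          rw [Algebra.smul_def]
          ring
        rw [e, map_smul, smul_eq_mul] at h3
        rcases mul_eq_zero.1 h3.symm with h4 | h4
        · exact absurd h4 hN0
        · exact h4
      have h3 : (x : L) = 0 := by
        rcases div_eq_zero_iff.1 h2 with h | h
        · exact h
        · exact absurd h hα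
      exact Subtype.ext h3
    haveI : IsNoetherian (𝓞 F) Λ := isNoetherian_of_injective Φ hinj
    exact Module.Finite.iff_fg.1 inferInstance
  · intro x
    obtain ⟨N, hN, hC⟩ := H.den x
    refine ⟨N, hN, (hΛ _).2 fun w => ?_⟩
    rw [hsm]
    exact hC w
  · intro x hx
    exact (hΛ _).2 fun w => H.stab w x ((hΛ _).1 hx w)
  · intro x hx y hy
    obtain ⟨z, hz⟩ := htop x hx y hy
    rw [← hz]
    exact RingOfIntegers.isIntegral_coe z
  · intro y hy
    refine (hΛ _).2 fun w => H.dual w y fun x hx => ?_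
    obtain ⟨m, hm, hC⟩ := H.exm w x
    have h1 : algebraMap F L (m : F) * x ∈ Λ := by
      refine (hΛ _).2 fun w' => ?_
      by_cases h : w' = w
      · rw [h]
        exact H.smul w _ _ (w.valuation_le_one m) hx
      · exact hC w' h
    have h2 := hy _ h1
    have e : algebraMap F L (m : F) * x * y / α = (m : F) • (x * y / α) := by
      rw [Algebra.smul_def]
      ring
    rw [e, map_smul, smul_eq_mul] at h2
    have h3 : w.valuation F ((m : F) * hG.top (x * y / α)) ≤ 1 :=
      w.valuation_le_one (⟨_, h2⟩ : 𝓞 F)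
    have h4 : w.valuation F (m : F) = 1 := by
      refine le_antisymm (w.valuation_le_one m) (not_lt.1 fun h5 => hm ?_)
      exact (w.valuation_lt_one_iff_mem m).1 h5
    rwa [map_mul, h4, one_mul] at h3

end Pool.Agent.H459.UT
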