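import Pool.Agent.H459.UT.TwT
import Pool.Agent.H459.UF.MainV
import Mathlib.RingTheory.DedekindDomain.Different

/-!
# A positive proportion (helper459)
-/

set_option autoImplicit false
set_option linter.all false

open Polynomial NumberField IsDedekindDomain MulAction
open scoped Classical Pointwise

namespace Pool.Agent.H459.UT

open Pool.Agent.H459.UF
open Pool.Agent.N783.PF
open Pool.Agent.N352.PJ (dd)
open Pool.Agent.N99.PF (card_fib ht_card ht_scale scale_inj good_card)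
open Pool.Agent.N874.PP (sW)
open Pool.Agent.TH115.GD (Pt)
open Pool.Agent.N874.QM (SelC ShaC SelM)
open Pool.Agent.N61.PF (pol pol_monic pol_natDegree pol_coeff0 pol_coeff1 pol_coeff2 eq_pol fF_eq
  disc_ne crv_finite crv_upper ht_lower crv_of_ht exists_B)

/-- The primes which divide the discriminant of `M` over `F`. -/
theorem exists_k (F M : Type) [Field F] [NumberField F] [Field M] [NumberField M] [Algebra F M] :
    ∃ k : ℕ, 0 < k ∧ ∀ v : HeightOneSpectrum (𝓞 F), (k : 𝓞 F) ∉ v.asIdeal → Unr F M v := by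
  have hne : differentIdeal (𝓞 F) (𝓞 M) ≠ ⊥ := differentIdeal_ne_bot
  refine ⟨Ideal.absNorm (differentIdeal (𝓞 F) (𝓞 M)), ?_, ?_⟩
  · rw [Nat.pos_iff_ne_zero, Ne, Ideal.absNorm_eq_zero_iff]
    exact hne
  · intro v hv P hP
    haveI := v.isMaximal
    have h1 : P.asIdeal ^ 2 ∣ v.asIdeal.map (algebraMap (𝓞 F) (𝓞 M)) := Ideal.dvd_iff_le.2 hP
    have h2 := pow_sub_one_dvd_differentIdeal (𝓞 F) P.asIdeal 2 v.ne_bot h1
    rw [show 2 - 1 = 1 from rfl, pow_one, Ideal.dvd_iff_le] at h2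
    have h3 : ((Ideal.absNorm (differentIdeal (𝓞 F) (𝓞 M)) : ℕ) : 𝓞 M) ∈ P.asIdeal :=
      h2 (Ideal.absNorm_mem _)
    have hb : below F P = v := by
      refine eq_below fun a ha => ?_
      exact (hP.trans (Ideal.pow_le_self two_ne_zero)) (Ideal.mem_map_of_mem _ ha)
    apply hv
    rw [← hb, mem_below, map_natCast]
    exact h3

theorem mainT (F M : Type) [Field F] [NumberField F] [Field M] [NumberField M]
    [Algebra F M] [IsGalois F M] (n : ℕ) (hn : Module.finrank F M = 2 ^ n)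
    (hcyc : ∀ w : HeightOneSpectrum (𝓞 M), (2 : 𝓞 M) ∈ w.asIdeal →
      IsCyclic (stabilizer (M ≃ₐ[F] M) w.asIdeal)) :
    ∃ c : ℝ, 0 < c ∧ ∃ B₀ : ℕ, ∀ B ≥ B₀, {f : (𝓞 F)[X] | Ht 1 B f}.Finite ∧
    c * ({f : (𝓞 F)[X] | Ht 1 B f}.ncard : ℝ) ≤
      ({f : (𝓞 F)[X] | Ht 1 B f ∧ Irreducible (fF f) ∧ Min 1 f ∧
        SelZero (fo M f)}.ncard : ℝ) := by
  obtain ⟨k, hk, hkunr⟩ := exists_k F M
  obtain ⟨κ, htw⟩ := twT F
  obtain ⟨C, K, hbad⟩ := bad F 1 κ le_rfl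
  obtain ⟨R₀, C₃, hR₀, hsa⟩ := sa_prop Pool.Agent.N352.PF.bxT F
  obtain ⟨M₀, hfamW⟩ := famT Pool.Agent.N75.PF.cu Pool.Agent.N189.PF.ld Pool.Agent.N195.PF.pr
    Pool.Agent.N352.PF.bxT Pool.Agent.N935.PF.WK.wk
    (Pool.Agent.N352.PF.STR331.str Pool.Agent.N75.PF.cu Pool.Agent.N364.PF.cl Pool.Agent.N195.PF.pf)
    Pool.Agent.N195.PF.dscp Pool.Agent.N195.PF.pf F 1 le_rfl Sa R₀ C₃ hR₀
    (fun v => (2 : 𝓞 F) ∈ v.asIdeal) hsa
  obtain ⟨W, f₁, hf₁, hkW, h3W, hM₀, hirrW, hloc⟩ := gfT F M hcyc (k * (max K κ + 1)) M₀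
    (Nat.mul_pos hk (Nat.succ_pos _))
  have hKW : max K κ ≤ W := by
    have h1 : max K κ + 1 ≤ W := Nat.le_of_dvd hf₁.pos ((dvd_mul_left _ _).trans hkW)
    omega
  have hkW' : k ∣ W := (dvd_mul_right _ _).trans hkW
  obtain ⟨c, hc, hfam⟩ := hfamW W f₁ hf₁ hM₀
  obtain ⟨-, Cp, hCp, -, hpt⟩ := Pool.Agent.N490.PF.pts F
  set D : ℕ := Module.finrank ℚ F * dd 1 with hD
  obtain ⟨m, hm⟩ : ∃ m : ℕ, 2 * (C * (4 * 2 ^ κ : ℝ) ^ D) / c < 2 ^ m :=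
    pow_unbounded_of_one_lt _ (by norm_num)
  obtain ⟨S, 𝔮, h, P, hS, hcard, hspl⟩ := exsW F M 1 W m le_rfl
  -- a prime over three
  obtain ⟨v₃, hv₃⟩ : ∃ v : HeightOneSpectrum (𝓞 F), (3 : 𝓞 F) ∈ v.asIdeal := by
    have h3 : ¬ IsUnit (3 : 𝓞 F) := by
      intro hu
      have h4 := hu.map (Algebra.norm ℤ : 𝓞 F →* ℤ)
      have h5 : Algebra.norm ℤ (3 : 𝓞 F) = 3 ^ Module.finrank ℤ (𝓞 F) := by
        have := Algebra.norm_algebraMap (S := 𝓞 F) (3 : ℤ)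
        rwa [map_ofNat] at this
      rw [h5, Int.isUnit_iff_natAbs_eq, Int.natAbs_pow] at h4
      have h6 : Module.finrank ℤ (𝓞 F) ≠ 0 := by
        rw [NumberField.RingOfIntegers.rank]
        exact Module.finrank_pos.ne'
      have h7 : 1 < Int.natAbs 3 ^ Module.finrank ℤ (𝓞 F) := Nat.one_lt_pow h6 (by norm_num)
      omega
    obtain ⟨m, hmm, hm3⟩ := exists_max_ideal_of_mem_nonunits h3
    refine ⟨⟨m, hmm.isPrime, ?_⟩, hm3⟩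
    rintro rfl
    rw [Ideal.mem_bot] at hm3
    norm_num at hm3
  have h2v₃ : (2 : 𝓞 F) ∉ v₃.asIdeal := by
    intro h2
    apply v₃.isPrime.ne_top
    rw [Ideal.eq_top_iff_one]
    have e : (1 : 𝓞 F) = 3 - 2 := by norm_num
    rw [e]
    exact Ideal.sub_mem _ hv₃ h2
  have hWv₃ : (W : 𝓞 F) ∈ v₃.asIdeal := by
    obtain ⟨w, hw⟩ := h3W
    rw [hw, Nat.cast_mul]
    exact Ideal.mul_mem_right _ _ (by exact_mod_cast hv₃)
  have hred : ∀ (B : ℕ) (f : (𝓞 F)[X]), FamT 1 B W (fun v => (2 : 𝓞 F) ∈ v.asIdeal) f₁ S P f →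
      ∀ v : HeightOneSpectrum (𝓞 F), (W : 𝓞 F) ∈ v.asIdeal → (2 : 𝓞 F) ∉ v.asIdeal →
      Irreducible (rd v.asIdeal f) := by
    intro B f hF v hv h2
    rw [Pool.Agent.N78.PF.rd_eq (Pool.Agent.N78.PF.sp_le hv) hF.one]
    exact hirrW v hv h2
  obtain ⟨B₁₀, hB₁₀⟩ := hfam S 𝔮 h P hS
  obtain ⟨N₀, hN₀⟩ := hbad W S 𝔮 h P ((le_max_left _ _).trans hKW) hS
  set Q : ℕ := ∏ q ∈ S, q with hQ
  have hq1 : ∀ q ∈ S, 1 ≤ q := fun q hq => (hS q hq).1.pos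
  have hQ1 : 1 ≤ Q := Finset.one_le_prod' hq1
  set Pn : ℕ := (∏ q ∈ S, q ^ (2 * 1)) ^ Module.finrank ℚ F with hPn
  have hP0 : (0 : ℝ) < Pn := by
    have : 0 < Pn := pow_pos (Finset.prod_pos fun q hq => pow_pos (hq1 q hq) _) _
    exact_mod_cast this
  have hQ0 : (0 : ℝ) < Q := by exact_mod_cast hQ1
  set X₀ : ℕ := max (max B₁₀ (4 ^ N₀)) 1 with hX₀
  refine ⟨c / 2 / (Pn * 2 ^ m * ((2 * Cp) ^ (2 * 1) * (2 * Q) ^ D)), by positivity, X₀ * Q,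
    fun B hB => ?_⟩
  set B₁ : ℕ := B / Q with hB₁
  have hBX : X₀ ≤ B₁ := (Nat.le_div_iff_mul_le hQ1).2 hB
  have hb1 : 1 ≤ B₁ := (le_max_right _ _).trans hBX
  have hb2 : B₁₀ ≤ B₁ := ((le_max_left _ _).trans (le_max_left _ _)).trans hBX
  have hb3 : 4 ^ N₀ ≤ B₁ := ((le_max_right _ _).trans (le_max_left _ _)).trans hBX
  have hBQ : B₁ * Q ≤ B := Nat.div_mul_le_self B Q
  have hBQ2 : B ≤ 2 * Q * B₁ := by
    have e1 : B < B₁ * Q + Q := by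
      have := Nat.lt_div_mul_add (a := B) (b := Q) hQ1
      exact this
    nlinarith
  have hB1 : 1 ≤ B := le_trans (by nlinarith) hBQ
  obtain ⟨N, hNa, hNb⟩ : ∃ N : ℕ, 2 ^ κ * B₁ ≤ 4 ^ N ∧ 4 ^ N ≤ 4 * (2 ^ κ * B₁) := by
    refine ⟨Nat.log 4 (2 ^ κ * B₁) + 1, (Nat.lt_pow_succ_log_self (by norm_num) _).le, ?_⟩
    rw [pow_succ, mul_comm]
    refine Nat.mul_le_mul_left 4 (Nat.pow_log_le_self 4 ?_)
    positivity
  have hNN : N₀ ≤ N := by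
    have e1 : 4 ^ N₀ ≤ 4 ^ N := hb3.trans (le_trans (Nat.le_mul_of_pos_left _ (by positivity)) hNa)
    exact (Nat.pow_le_pow_iff_right (by norm_num)).1 e1
  obtain ⟨hfin, hBd⟩ := hN₀ N hNN
  refine ⟨(ht_card hCp hpt 1 B hB1).1, ?_⟩
  set H := {f : (𝓞 F)[X] | Ht 1 B f ∧ Irreducible (fF f) ∧ Min 1 f ∧
    SelZero (fo M f)} with hH
  set G := {f : (𝓞 F)[X] | FamT 1 B₁ W (fun v => (2 : 𝓞 F) ∈ v.asIdeal) f₁ S P f ∧
    Sa (fun j => f.coeff j)} \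
    {f : (𝓞 F)[X] | LBad 1 N κ S 𝔮 P f} with hGdef
  have hHf : H.Finite := (ht_card hCp hpt 1 B hB1).1.subset fun f hf => hf.1
  have hGf : G.Finite := (ht_card hCp hpt 1 B₁ hb1).1.subset fun f hf => hf.1.1.ht
  have hG : c / 2 * (B₁ : ℝ) ^ D ≤ Pn * (G.ncard : ℝ) := by
    refine good_card (C := C) (m := m) (κ := κ) hc hP0 B₁ N (hB₁₀ B₁ hb2) hfin ?_ hm ?_
    · rw [hcard] at hBd
      have e2 : Module.finrank ℚ F * (2 * N * dd 1) = 2 * N * D := by rw [hD]; ring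
      rw [e2] at hBd
      exact_mod_cast hBd
    · exact_mod_cast hNb
  have hJ0 : ∀ J ⊆ S, ((Dp J : ℕ) : 𝓞 F) ≠ 0 := by
    intro J hJ
    have : 0 < ∏ q ∈ J, q := Finset.prod_pos fun q hq => hq1 q (hJ hq)
    have h5 : (Dp J : ℕ) ≠ 0 := this.ne'
    exact_mod_cast h5
  have hcard1 := card_fib hGf hHf S (fun J f => f.scaleRoots ((Dp J : ℕ) : 𝓞 F)) (by
      intro f hf
      obtain ⟨J, hJ, hirr, hmin, hug⟩ := htw M n hn B₁ N W f₁ S 𝔮 h P f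
        ((le_max_right _ _).trans hKW) hf₁
        hS hf.1.1 hNa hb1 hf.2 (irr_of_rd hf.1.1.ht.mon (hred _ f hf.1.1 v₃ hWv₃ h2v₃))
        (hloc f hf.1.1.one) (fun v hv => by
          by_cases hkv : (k : 𝓞 F) ∈ v.asIdeal
          · refine Or.inr (hred _ f hf.1.1 v ?_ hv)
            obtain ⟨w, hw⟩ := hkW'
            rw [hw, Nat.cast_mul]
            exact Ideal.mul_mem_right _ _ hkv
          · exact Or.inl (hkunr v hkv)) hspl (fun σ => hf.1.2 σ)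
      have hDle : Dp J ≤ Q :=
        Finset.prod_le_prod_of_subset_of_one_le' hJ fun q hq _ => hq1 q hq
      exact ⟨J, hJ, ht_scale hf.1.1.ht ((Nat.mul_le_mul_left _ hDle).trans hBQ), hirr, hmin, hug⟩) (by
      intro J hJ x hx y hy hxy
      exact scale_inj (hJ0 J hJ) (by rw [hx.1.1.ht.deg, hy.1.1.ht.deg]) hxy)
  rw [hcard] at hcard1
  have hcard' : (G.ncard : ℝ) ≤ 2 ^ m * H.ncard := by exact_mod_cast hcard1
  have hM' : ({f : (𝓞 F)[X] | Ht 1 B f}.ncard : ℝ) ≤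
      (2 * Cp) ^ (2 * 1) * (2 * Q) ^ D * (B₁ : ℝ) ^ D := by
    have e1 : ({f : (𝓞 F)[X] | Ht 1 B f}.ncard : ℝ) ≤ (2 * Cp) ^ (2 * 1) * (B : ℝ) ^ D :=
      (ht_card hCp hpt 1 B hB1).2
    refine e1.trans ?_
    rw [mul_assoc, ← mul_pow]
    have e2 : (B : ℝ) ≤ 2 * Q * B₁ := by exact_mod_cast hBQ2
    gcongr
  calc c / 2 / (Pn * 2 ^ m * ((2 * Cp) ^ (2 * 1) * (2 * Q) ^ D)) *
        ({f : (𝓞 F)[X] | Ht 1 B f}.ncard : ℝ)
      ≤ c / 2 / (Pn * 2 ^ m * ((2 * Cp) ^ (2 * 1) * (2 * Q) ^ D)) *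
        ((2 * Cp) ^ (2 * 1) * (2 * Q) ^ D * (B₁ : ℝ) ^ D) :=
        mul_le_mul_of_nonneg_left hM' (by positivity)
    _ = c / 2 * (B₁ : ℝ) ^ D / (Pn * 2 ^ m) := by
        field_simp
    _ ≤ (Pn * (G.ncard : ℝ)) / (Pn * 2 ^ m) := by gcongr
    _ ≤ (Pn * (2 ^ m * H.ncard)) / (Pn * 2 ^ m) := by gcongr
    _ = H.ncard := by field_simp

end Pool.Agent.H459.UT
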