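import Pool.Agent.H459.UT.Cpt

/-!
# Elements which are not norms from a quadratic extension of a dyadic local field (helper459)
-/

set_option autoImplicit false
set_option linter.all false

open WithZero

namespace Pool.Agent.H459.UT

section nn

variable {k : Type} [Field k] [CharZero k] (v : Valuation k (WithZero (Multiplicative ℤ)))

/-- The properties of a dyadic local field. -/
structure Dy (π ρ₀ : k) : Prop where
  two : v 2 < 1
  pi : v π = WithZero.exp (-1 : ℤ)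
  sq : ∀ x : k, v x < v 4 → IsSquare (1 + x)
  perf : ∀ a : k, v a ≤ 1 → ∃ c, v (a - c ^ 2) < 1
  rho : v ρ₀ ≤ 1
  nr : ∀ z : k, v z ≤ 1 → ¬ v (z ^ 2 + z - ρ₀) < 1

/-- Elements represented by `x² - d y²`. -/
def Nm (d a : k) : Prop := ∃ x y : k, x ^ 2 - d * y ^ 2 = a

variable {v} {π ρ₀ : k}

theorem Dy.val4 (H : Dy v π ρ₀) : v 4 < 1 ∧ 0 < v 4 := by
  have : (4 : k) = 2 * 2 := by norm_num
  refine ⟨?_, zero_lt_iff.2 ((Valuation.ne_zero_iff _).2 (by norm_num))⟩
  rw [this, map_mul]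
  exact mul_lt_one' H.two H.two

theorem int_two (v : Valuation k (WithZero (Multiplicative ℤ))) : v 2 ≤ 1 := by
  exact_mod_cast v_nat_le v 2

/-- The form of an unramified extension takes only values of even valuation. -/
theorem Dy.even (H : Dy v π ρ₀) {ρ : k} (hρ : v ρ ≤ 1) (hn : ∀ z : k, v z ≤ 1 →
    ¬ v (z ^ 2 + z - ρ) < 1) {x y : k} (hxy : y ≠ 0 ∨ x ≠ 0) :
    ∃ t : k, t ≠ 0 ∧ v (x ^ 2 - (1 + 4 * ρ) * y ^ 2) = v t ^ 2 := by
  obtain ⟨u, hu⟩ : ∃ u, u = (x - y) / 2 := ⟨_, rfl⟩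
  have hx : x = y + 2 * u := by rw [hu]; ring
  have e : x ^ 2 - (1 + 4 * ρ) * y ^ 2 = 2 ^ 2 * (u ^ 2 + u * y - ρ * y ^ 2) := by
    rw [hx]; ring
  rw [e, map_mul, map_pow]
  rcases lt_or_ge (v y) (v u) with h | h
  · have hu0 : v u ≠ 0 := (lt_of_le_of_lt zero_le h).ne'
    refine ⟨2 * u, mul_ne_zero two_ne_zero ((Valuation.ne_zero_iff _).1 hu0), ?_⟩
    have e1 : v (u ^ 2 + u * y - ρ * y ^ 2) = v u ^ 2 := by
      have e2 : u ^ 2 + u * y - ρ * y ^ 2 = u ^ 2 + (u * y - ρ * y ^ 2) := by ring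
      rw [e2, Valuation.map_add_eq_of_lt_left, map_pow]
      refine (Valuation.map_sub _ _ _).trans_lt (max_lt ?_ ?_)
      · rw [map_mul, map_pow, pow_two]
        exact mul_lt_mul_of_pos_left h (zero_lt_iff.2 hu0)
      · rw [map_mul, map_pow, map_pow]
        refine (mul_le_of_le_one_left' hρ).trans_lt ?_
        exact pow_lt_pow_left₀ h zero_le two_ne_zero
    rw [e1, map_mul, mul_pow]
  · have hy : y ≠ 0 := by
      rintro rfl
      rw [map_zero] at h
      have hu0 : u = 0 := (Valuation.zero_iff v).1 (le_antisymm h zero_le)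
      rcases hxy with h1 | h1
      · exact h1 rfl
      · rw [hx, hu0] at h1
        simp at h1
    have hvy : v y ≠ 0 := (Valuation.ne_zero_iff _).2 hy
    refine ⟨2 * y, mul_ne_zero two_ne_zero hy, ?_⟩
    have hz : v (u / y) ≤ 1 := by
      rw [map_div₀]
      exact (div_le_one₀ (zero_lt_iff.2 hvy)).2 h
    have e1 : u ^ 2 + u * y - ρ * y ^ 2 = y ^ 2 * ((u / y) ^ 2 + u / y - ρ) := by
      field_simp
    have e2 : v ((u / y) ^ 2 + u / y - ρ) = 1 := by
      refine le_antisymm ?_ (not_lt.1 (hn _ hz))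
      refine (Valuation.map_sub _ _ _).trans (max_le ((Valuation.map_add _ _ _).trans
        (max_le ?_ hz)) hρ)
      rw [map_pow]
      exact pow_le_one' hz 2
    rw [e1, map_mul, e2, mul_one, map_pow, map_mul, mul_pow]

/-- odd valuation -/
def OddV (v : Valuation k (WithZero (Multiplicative ℤ))) (a : k) : Prop :=
  ∃ n : ℤ, v a = WithZero.exp (2 * n + 1)

theorem OddV.ne_sq {a t : k} (h : OddV v a) (ht : t ≠ 0) : v a ≠ v t ^ 2 := by
  obtain ⟨n, hn⟩ := h
  obtain ⟨m, hm⟩ : ∃ m : ℤ, v t = WithZero.exp m :=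
    ⟨WithZero.log _, (WithZero.exp_log ((Valuation.ne_zero_iff _).2 ht)).symm⟩
  rw [hn, hm, ← WithZero.exp_nsmul]
  intro h
  have := WithZero.exp_injective h
  simp only [nsmul_eq_mul] at this
  push_cast at this
  omega

theorem OddV.ne_zero {a : k} (h : OddV v a) : a ≠ 0 := by
  rintro rfl
  obtain ⟨n, hn⟩ := h
  rw [map_zero] at hn
  exact WithZero.exp_ne_zero hn.symm

theorem OddV.mul_sq {a t : k} (h : OddV v (a * t ^ 2)) (ht : t ≠ 0) : OddV v a := by
  obtain ⟨n, hn⟩ := h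
  obtain ⟨m, hm⟩ : ∃ m : ℤ, v t = WithZero.exp m :=
    ⟨WithZero.log _, (WithZero.exp_log ((Valuation.ne_zero_iff _).2 ht)).symm⟩
  rw [map_mul, map_pow, hm, ← WithZero.exp_nsmul] at hn
  refine ⟨n - m, ?_⟩
  have h1 : v a = WithZero.exp (2 * n + 1) / WithZero.exp (2 • m) := by
    rw [← hn, mul_div_cancel_right₀ _ WithZero.exp_ne_zero]
  rw [h1, ← WithZero.exp_sub]
  congr 1
  simp only [nsmul_eq_mul]
  push_cast
  ring

/-- the unramified case -/
theorem Dy.case3 (H : Dy v π ρ₀) {ρ : k} (hρ : v ρ ≤ 1) (hns : ¬ IsSquare (1 + 4 * ρ)) :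
    ¬ Nm (1 + 4 * ρ) π := by
  have hn : ∀ z : k, v z ≤ 1 → ¬ v (z ^ 2 + z - ρ) < 1 := by
    intro z hz hc
    apply hns
    have h1 : v (1 + 2 * z) = 1 := v_one_add (by
      rw [map_mul]
      exact (mul_le_mul' le_rfl hz).trans_lt (by rw [mul_one]; exact H.two))
    have h10 : (1 + 2 * z) ≠ 0 := by
      intro h0
      rw [h0, map_zero] at h1
      exact zero_ne_one h1
    obtain ⟨s, hs⟩ := H.sq (-(4 * (z ^ 2 + z - ρ)) / (1 + 2 * z) ^ 2) (by
      rw [map_div₀, Valuation.map_neg, map_mul, map_pow, h1, one_pow, div_one]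
      calc v 4 * v (z ^ 2 + z - ρ) < v 4 * 1 := mul_lt_mul_of_pos_left hc H.val4.2
        _ = v 4 := mul_one _)
    refine ⟨(1 + 2 * z) * s, ?_⟩
    have e : (1 + 2 * z) * s * ((1 + 2 * z) * s) = (1 + 2 * z) ^ 2 * (s * s) := by ring
    rw [e, ← hs]
    field_simp
    ring
  rintro ⟨x, y, hxy⟩
  have hne : y ≠ 0 ∨ x ≠ 0 := by
    by_contra hc
    push Not at hc
    rw [hc.1, hc.2] at hxy
    have hπ := H.pi
    rw [← hxy] at hπ
    simp at hπ
    exact WithZero.exp_ne_zero hπ.symm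
  obtain ⟨t, ht, h1⟩ := H.even hρ hn hne
  rw [hxy] at h1
  refine OddV.ne_sq (v := v) (a := π) ⟨-1, ?_⟩ ht h1
  rw [H.pi]
  norm_num

/-- the unit `1 + 4 ρ₀` -/
theorem Dy.delta (H : Dy v π ρ₀) {c X Y : k} (hc : OddV v c)
    (h : c * X ^ 2 = Y ^ 2 - (1 + 4 * ρ₀) * 1 ^ 2) : False := by
  obtain ⟨t, ht, h1⟩ := H.even H.rho H.nr (x := Y) (y := 1) (Or.inl one_ne_zero)
  rw [← h] at h1
  by_cases hX : X = 0
  · rw [hX] at h1
    simp at h1
    exact (pow_ne_zero 2 ((Valuation.ne_zero_iff _).2 ht)) h1.symm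
  · refine hc.ne_sq (div_ne_zero ht hX) ?_
    rw [map_mul, map_pow] at h1
    rw [map_div₀, div_pow, ← h1, mul_div_cancel_right₀]
    exact pow_ne_zero 2 ((Valuation.ne_zero_iff _).2 hX)

/-- odd valuation -/
theorem Dy.case1 (H : Dy v π ρ₀) {d : k} (hd : OddV v d) : ¬ Nm d (1 + 4 * ρ₀) := by
  rintro ⟨x, y, hxy⟩
  exact H.delta hd (X := y) (Y := x) (by linear_combination -hxy)

/-- units with small odd defect -/
theorem Dy.case2 (H : Dy v π ρ₀) {α : k} (ha : OddV v α) (h1 : v α < 1) (h4 : v 4 < v α) :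
    ¬ Nm (1 + α) (1 + 4 * ρ₀ * (1 + α) / α) := by
  obtain ⟨t, ht⟩ : ∃ t, t = 1 + 4 * ρ₀ * (1 + α) / α := ⟨_, rfl⟩
  rw [← ht]
  have hα := ha.ne_zero
  have hu : v (1 + α) = 1 := v_one_add h1
  have hu0 : 1 + α ≠ 0 := by
    intro h0
    rw [h0, map_zero] at hu
    exact zero_ne_one hu
  have hαv : 0 < v α := zero_lt_iff.2 ((Valuation.ne_zero_iff _).2 hα)
  have htv : v t = 1 := by
    rw [ht]
    refine v_one_add ?_
    rw [map_div₀, map_mul, map_mul, hu, mul_one, div_lt_iff₀ hαv, one_mul]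
    exact (mul_le_of_le_one_right' H.rho).trans_lt h4
  have hc : OddV v (-(α * t)) := by
    obtain ⟨n, hn⟩ := ha
    exact ⟨n, by rw [Valuation.map_neg, map_mul, htv, mul_one, hn]⟩
  have e1 : 1 + α * t = (1 + α) * (1 + 4 * ρ₀) := by
    rw [ht]
    field_simp
    ring
  rintro ⟨x, y, hxy⟩
  obtain ⟨X, hX⟩ : ∃ X, X = x + (1 + α) * y := ⟨_, rfl⟩
  obtain ⟨Y, hY⟩ : ∃ Y, Y = x + y := ⟨_, rfl⟩
  have e2 : -(α * t) = X ^ 2 - (1 + α) * Y ^ 2 := by
    rw [hX, hY]
    linear_combination α * hxy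
  obtain ⟨c, hcd⟩ : ∃ c, c = -(α * t) := ⟨_, rfl⟩
  rw [← hcd] at e2 hc
  have e1' : 1 - c = (1 + α) * (1 + 4 * ρ₀) := by
    rw [← e1, hcd]
    ring
  have hY0 : Y ≠ 0 := by
    intro h0
    rw [h0] at e2
    have hX0 : X ≠ 0 := by
      intro h00
      rw [h00] at e2
      apply hc.ne_zero
      rw [e2]
      ring
    refine hc.ne_sq hX0 ?_
    rw [e2, ← map_pow]
    congr 1
    ring
  have hyu : Y * (1 + α) ≠ 0 := mul_ne_zero hY0 hu0
  refine H.delta hc (X := (X + 1) / (Y * (1 + α))) (Y := (X + c) / (Y * (1 + α))) ?_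
  field_simp
  linear_combination (-(X ^ 2 - c)) * e1' + ((1 + α) * (1 + 4 * ρ₀)) * e2

/-- one step towards the defect -/
theorem Dy.step (H : Dy v π ρ₀) {d s α : k} {m : ℕ} (hm : 1 ≤ m) (hd : d = s ^ 2 * (1 + α))
    (hs : s ≠ 0) (h1 : v α ≤ WithZero.exp (-(m : ℤ))) (h4 : v 4 < WithZero.exp (-(m : ℤ))) :
    (∃ a : k, a ≠ 0 ∧ ¬ Nm d a) ∨ ∃ s' α' : k, d = s' ^ 2 * (1 + α') ∧ s' ≠ 0 ∧
      v α' ≤ WithZero.exp (-((m + 1 : ℕ) : ℤ)) := by
  rcases lt_or_eq_of_le h1 with h | h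
  · exact Or.inr ⟨s, α, hd, hs, Pool.Agent.H459.UF.lt_of_le_exp h⟩
  · have hα1 : v α < 1 := by
      rw [h, ← WithZero.exp_zero, WithZero.exp_lt_exp]
      omega
    rcases Nat.even_or_odd m with he | ho
    · right
      obtain ⟨l, hl⟩ := he
      have hπ0 : π ≠ 0 := by
        intro h0
        have := H.pi
        rw [h0, map_zero] at this
        exact WithZero.exp_ne_zero this.symm
      have hpl : v (π ^ l) = WithZero.exp (-(l : ℤ)) := by
        rw [map_pow, H.pi, ← WithZero.exp_nsmul]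
        congr 1
        simp
      have hvl : v (π ^ l) ^ 2 = v α := by
        rw [h, hpl, ← WithZero.exp_nsmul]
        congr 1
        simp only [nsmul_eq_mul]
        push_cast
        omega
      have hpl0 : π ^ l ≠ 0 := pow_ne_zero l hπ0
      have hplv : v (π ^ l) ≠ 0 := (Valuation.ne_zero_iff _).2 hpl0
      obtain ⟨c, hc⟩ := H.perf (α / (π ^ l) ^ 2) (by
        rw [map_div₀, map_pow, hvl, div_self]
        exact (Valuation.ne_zero_iff _).2 (by
          intro h0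
          rw [h0, map_zero] at h
          exact WithZero.exp_ne_zero h.symm))
      obtain ⟨b, hb⟩ : ∃ b, b = π ^ l * c := ⟨_, rfl⟩
      have hε : v (α - b ^ 2) < v α := by
        have e : α - b ^ 2 = (π ^ l) ^ 2 * (α / (π ^ l) ^ 2 - c ^ 2) := by
          rw [hb]
          field_simp
        rw [e, map_mul, map_pow, hvl]
        calc v α * v (α / (π ^ l) ^ 2 - c ^ 2) < v α * 1 := by
              refine mul_lt_mul_of_pos_left hc ?_
              rw [h]
              exact WithZero.exp_pos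
          _ = v α := mul_one _
      have hbv : v b ^ 2 = v α := by
        have e : b ^ 2 = α - (α - b ^ 2) := by ring
        rw [← map_pow, e, Valuation.map_sub_eq_of_lt_left _ hε]
      have hb1 : v b < 1 := by
        by_contra hcon
        have h5 : 1 ≤ v b ^ 2 := one_le_pow_of_one_le' (not_lt.1 hcon) 2
        rw [hbv] at h5
        exact absurd hα1 (not_lt.2 h5)
      have h1b : v (1 + b) = 1 := v_one_add hb1
      have h1b0 : 1 + b ≠ 0 := by
        intro h0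
        rw [h0, map_zero] at h1b
        exact zero_ne_one h1b
      have h2b : v 2 < v b := by
        by_contra hcon
        have h5 : v b ^ 2 ≤ v 2 ^ 2 := pow_le_pow_left' (not_lt.1 hcon) 2
        rw [hbv, ← map_pow, h] at h5
        have e : (2 : k) ^ 2 = 4 := by norm_num
        rw [e] at h5
        exact absurd h4 (not_lt.2 h5)
      refine ⟨s * (1 + b), (α - b ^ 2 - 2 * b) / (1 + b) ^ 2, ?_, mul_ne_zero hs h1b0, ?_⟩
      · rw [hd]
        field_simp
        ring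
      · refine Pool.Agent.H459.UF.lt_of_le_exp ?_
        rw [← h, map_div₀, map_pow, h1b, one_pow, div_one]
        refine (Valuation.map_sub _ _ _).trans_lt (max_lt hε ?_)
        rw [map_mul, ← hbv, pow_two]
        refine mul_lt_mul_of_pos_right h2b ?_
        exact lt_of_le_of_lt zero_le h2b
    · left
      obtain ⟨l, hl⟩ := ho
      have hodd : OddV v α := ⟨-(l : ℤ) - 1, by
        rw [h, hl]
        congr 1
        push_cast
        ring⟩
      have h5 := H.case2 hodd hα1 (by rw [h]; exact h4)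
      refine ⟨1 + 4 * ρ₀ * (1 + α) / α, ?_, ?_⟩
      · intro h0
        apply h5
        rw [h0]
        exact ⟨0, 0, by ring⟩
      · rintro ⟨x, y, hxy⟩
        refine h5 ⟨x, s * y, ?_⟩
        rw [← hxy, hd]
        ring

/-- **Elements which are not norms.** -/
theorem Dy.ex (H : Dy v π ρ₀) {d : k} (hd : ¬ IsSquare d) : ∃ a : k, a ≠ 0 ∧ ¬ Nm d a := by
  have hd0 : d ≠ 0 := by
    rintro rfl
    exact hd ⟨0, by ring⟩
  have hπ0 : π ≠ 0 := by
    intro h0
    have := H.pi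
    rw [h0, map_zero] at this
    exact WithZero.exp_ne_zero this.symm
  obtain ⟨n, hn⟩ : ∃ n : ℤ, v d = WithZero.exp n :=
    ⟨WithZero.log _, (WithZero.exp_log ((Valuation.ne_zero_iff _).2 hd0)).symm⟩
  rcases Int.even_or_odd n with he | ho
  swap
  · obtain ⟨m, hm⟩ := ho
    have h1 := H.case1 (d := d) ⟨m, by rw [hn, hm]⟩
    refine ⟨1 + 4 * ρ₀, ?_, h1⟩
    intro h0
    apply h1
    rw [h0]
    exact ⟨0, 0, by ring⟩
  obtain ⟨m, hm⟩ := he
  -- `d = s² (1 + α)` with `v α < 1`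
  have hpm : v (π ^ m) = WithZero.exp (-m) := by
    rw [map_zpow₀, H.pi, ← WithZero.exp_zsmul]
    congr 1
    simp
  have hpm0 : π ^ m ≠ 0 := zpow_ne_zero _ hπ0
  have hunit : v (d * (π ^ m) ^ 2) = 1 := by
    rw [map_mul, map_pow, hpm, hn, ← WithZero.exp_nsmul, ← WithZero.exp_add, ← WithZero.exp_zero]
    congr 1
    simp only [nsmul_eq_mul]
    push_cast
    omega
  obtain ⟨c, hc⟩ := H.perf _ hunit.le
  have hcv : v (c ^ 2) = 1 := by
    have e : c ^ 2 = d * (π ^ m) ^ 2 - (d * (π ^ m) ^ 2 - c ^ 2) := by ring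
    rw [e, Valuation.map_sub_eq_of_lt_left, hunit]
    rw [hunit]
    exact hc
  have hc0 : c ≠ 0 := by
    rintro rfl
    simp at hcv
  obtain ⟨M, hM⟩ : ∃ M : ℕ, v 4 = WithZero.exp (-(M : ℤ)) := by
    obtain ⟨a, ha⟩ : ∃ a : ℤ, v 4 = WithZero.exp a :=
      ⟨WithZero.log _, (WithZero.exp_log H.val4.2.ne').symm⟩
    refine ⟨(-a).toNat, ?_⟩
    have h1 := H.val4.1
    rw [ha, ← WithZero.exp_zero, WithZero.exp_lt_exp] at h1
    rw [ha]
    congr 1
    omega
  have hM1 : 1 ≤ M := by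
    have h1 := H.val4.1
    rw [hM, ← WithZero.exp_zero, WithZero.exp_lt_exp] at h1
    omega
  have key : ∀ j : ℕ, 1 ≤ j → j ≤ M → (∃ a : k, a ≠ 0 ∧ ¬ Nm d a) ∨
      ∃ s' α' : k, d = s' ^ 2 * (1 + α') ∧ s' ≠ 0 ∧ v α' ≤ WithZero.exp (-(j : ℤ)) := by
    intro j hj
    induction j, hj using Nat.le_induction with
    | base =>
      intro _
      right
      refine ⟨c / π ^ m, (d * (π ^ m) ^ 2 - c ^ 2) / c ^ 2, ?_, div_ne_zero hc0 hpm0, ?_⟩
      · field_simp
        ring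
      · refine Pool.Agent.H459.UF.le_one_of_lt ?_
        rw [map_div₀, hcv, div_one]
        exact hc
    | succ j hj ih =>
      intro hjM
      rcases ih (by omega) with h | ⟨s', α', h1, h2, h3⟩
      · exact Or.inl h
      · refine H.step hj h1 h2 h3 ?_
        rw [hM, WithZero.exp_lt_exp]
        omega
  rcases key M hM1 le_rfl with h | ⟨s', α', h1, h2, h3⟩
  · exact h
  · obtain ⟨ρ, hρ⟩ : ∃ ρ, ρ = α' / 4 := ⟨_, rfl⟩
    have hα' : α' = 4 * ρ := by rw [hρ]; field_simp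
    rw [hα'] at h1
    have hρv : v ρ ≤ 1 := by
      rw [hρ, map_div₀, div_le_iff₀ H.val4.2, one_mul, hM]
      exact h3
    refine ⟨π, hπ0, ?_⟩
    rintro ⟨x, y, hxy⟩
    refine H.case3 hρv ?_ ⟨x, s' * y, ?_⟩
    · rintro ⟨z, hz⟩
      apply hd
      refine ⟨s' * z, ?_⟩
      rw [h1, hz]
      ring
    · rw [← hxy, h1]
      ring

end nn

end Pool.Agent.H459.UT
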