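import Pool.Agent.H459.UT.Cnd

/-!
# From `K₁` to a quadratic extension `K₂` inside `M` (helper459)
-/

set_option autoImplicit false
set_option linter.all false

open Polynomial IsDedekindDomain NumberField WithZero
open scoped Classical IntermediateField

namespace Pool.Agent.H459.UT

open Pool.Agent.H459.UF (below mem_below below_below exists_above val_pow Agr agr_of_dns Dns dns_up
  dns_down dns_base agr_top Unr Cub fo fb fb_eq fb_map fb_self exists_poly cub_sub DQ
  coprime_of_ne norm_mk below_self fo_self real_one One ext_real irr_quad unr_down unr_up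
  dns_of_surj exp_lt)
open Pool.Agent.N874.PP (Ev Sq1 U0)
open Pool.Agent.N783.PQ (LocIm)
open Pool.Agent.N783.PF (IsGen rd fF GoodS Cg sp)
open Pool.Agent.N874.PM (ev_down sq_down ev_sq ev_mul)
open Pool.Agent.N874.QM (locIm_congr locIm_sq locIm_map)

/-- The hypotheses on a quadratic extension. -/
structure StpT {F : Type} (K₁ K₂ : Type) [Field F] [NumberField F] [Field K₁] [NumberField K₁]
    [Field K₂] [NumberField K₂] [Algebra F K₁] [Algebra F K₂] [Algebra K₁ K₂]
    (Bw : HeightOneSpectrum (𝓞 F) → Prop) (f : (𝓞 F)[X]) : Prop where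
  unr : ∀ v : HeightOneSpectrum (𝓞 K₁), ¬ Bw (below F v) →
    Unr K₁ K₂ v ∨ Irreducible (rd v.asIdeal (fo K₁ f))
  real : ∀ σ : K₁ →+* ℝ, ∀ p : K₁[X], Irreducible (fb K₁ f) →
    IsCoprime p (fb K₁ f) → IsSquare (Algebra.norm K₁ (AdjoinRoot.mk (fb K₁ f) p)) →
    (∀ ρ : K₂ →+* ℝ, ρ.comp (algebraMap K₁ K₂) = σ →
      LocIm ℝ ((fb K₂ f).map ρ) ((p.map (algebraMap K₁ K₂)).map ρ)) →
    LocIm ℝ ((fb K₁ f).map σ) (p.map σ)

theorem quadT {F : Type} {K₁ K₂ M : Type} [Field F] [NumberField F] [Field K₁] [NumberField K₁]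
    [Field K₂] [NumberField K₂] [Field M] [NumberField M] [Algebra F K₁] [Algebra F K₂]
    [Algebra K₁ K₂] [IsScalarTower F K₁ K₂] [Algebra K₁ M] [Algebra K₂ M] [Algebra F M]
    [IsScalarTower K₁ K₂ M] [IsScalarTower F K₁ M] [IsScalarTower F K₂ M] [IsGalois K₁ M]
    {Bw : HeightOneSpectrum (𝓞 F) → Prop} {T : M[X] → Prop}
    {f : (𝓞 F)[X]} {J : Finset ℕ} {𝔮 : ℕ → Ideal (𝓞 F)}
    (H : DatT f J 𝔮) (hT : TOK F M f T) (h2 : Module.finrank K₁ K₂ = 2) (hS : StpT K₁ K₂ Bw f)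
    (hD : DQ F K₂ J 𝔮) (hK : PKT F K₁ M Bw T f J 𝔮) : PKT F K₂ M Bw T f J 𝔮 := by
  intro L₂ _ _ _ θ₂ hroot htop hrank
  have hc₂ : Cub K₂ f θ₂ := ⟨hroot, htop, hrank⟩
  haveI : IsGalois K₁ K₂ := by
    haveI : FiniteDimensional K₁ K₂ := inferInstance
    haveI : Algebra.IsQuadraticExtension K₁ K₂ := ⟨h2⟩
    infer_instance
  letI : Algebra K₁ L₂ := ((algebraMap K₂ L₂).comp (algebraMap K₁ K₂)).toAlgebra
  haveI : IsScalarTower K₁ K₂ L₂ := IsScalarTower.of_algebraMap_eq fun _ => rfl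
  obtain ⟨θ₁, hθ₁, hc₁⟩ := cub_sub (K₁ := K₁) H.mon hc₂
  have hodd := H.odd
  obtain ⟨g, W, S, r, Pp, hg, hdeg, hrest⟩ := H.dat
  have hmin₂ := hc₂.minp H.mon
  have htop' : K₂⟮algebraMap K₁⟮θ₂⟯ L₂ θ₁⟯ = ⊤ := by
    rw [hθ₁]
    exact htop
  intro h hne hN hcnd
  refine Pool.Agent.N301.JM.qs K₁ K₁⟮θ₂⟯ K₂ L₂ two_ne_zero h2 (by rw [hc₁.rank]; exact hodd)
    (by rw [hrank, hc₁.rank]) (fun x => ∃ p : K₂[X], aeval θ₂ p = x ∧ CndT F M Bw T f J 𝔮 θ₂ p)
    ?_ ?_ ?_ ?_ _ hne ⟨h, rfl, hcnd⟩ hN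
  · intro x hx
    obtain ⟨p, rfl⟩ := exists_poly htop x
    exact ⟨p ^ 2, map_pow _ _ _, cnd_sqT hT hx⟩
  · rintro x y hx hy ⟨p, rfl, hp⟩ ⟨p', rfl, hp'⟩
    exact ⟨p * p', map_mul _ _ _, cnd_mulT H hT hc₂ hD hx hy hp hp'⟩
  · rintro σ x ⟨p, rfl, hp⟩
    have h1 := cnd_sigT (K₁ := K₁) (M := M) hT (θ₁ := θ₁) (J := J) (𝔮 := 𝔮) (f := f) σ (p := p) (by
      rw [hθ₁]
      exact hp)
    rw [hθ₁] at h1
    exact h1
  · rintro x hx ⟨p₂, hp₂, hC⟩ hNx
    obtain ⟨p, rfl⟩ := exists_poly hc₁.top x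
    have hC' : CndT F M Bw T f J 𝔮 θ₂ (p.map (algebraMap K₁ K₂)) := by
      refine cnd_congrT hT hroot hmin₂ ?_ hC
      rw [hp₂, aeval_map_algebraMap, ← aeval_algebraMap_apply, hθ₁]
    have hval : aeval θ₂ (p.map (algebraMap K₁ K₂)) = algebraMap K₁⟮θ₂⟯ L₂ (aeval θ₁ p) := by
      rw [aeval_map_algebraMap, ← aeval_algebraMap_apply, hθ₁]
    have hbb : ∀ P : HeightOneSpectrum (𝓞 L₂),
        below K₁ (below K₁⟮θ₂⟯ P) = below K₁ (below K₂ P) := by
      intro P
      ext1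
      ext a
      show algebraMap (𝓞 K₁⟮θ₂⟯) (𝓞 L₂) (algebraMap (𝓞 K₁) (𝓞 K₁⟮θ₂⟯) a) ∈ P.asIdeal ↔
        algebraMap (𝓞 K₂) (𝓞 L₂) (algebraMap (𝓞 K₁) (𝓞 K₂) a) ∈ P.asIdeal
      rw [← IsScalarTower.algebraMap_apply, ← IsScalarTower.algebraMap_apply]
    have hcop := coprime_of_ne H.mon hc₁ hx
    have hNp : IsSquare (Algebra.norm K₁ (AdjoinRoot.mk (fb K₁ f) p)) := by
      rw [norm_mk H.mon hc₁]
      exact hNx
    have hη : aeval θ₂ (derivative (fb K₂ f)) =
        algebraMap K₁⟮θ₂⟯ L₂ (aeval θ₁ (derivative (fb K₁ f))) := by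
      rw [← fb_map K₁ K₂ f, derivative_map, aeval_map_algebraMap, ← aeval_algebraMap_apply, hθ₁]
    refine hK K₁⟮θ₂⟯ θ₁ hc₁.root hc₁.top hc₁.rank p hx hNx ⟨?_, ?_, ?_, ?_⟩
    · intro P h1 h3 h4
      rcases hS.unr (below K₁ P) h1 with hu | hirr
      · obtain ⟨P₂, rfl⟩ := exists_above (K := K₁⟮θ₂⟯) L₂ P
        obtain ⟨e, he, hv⟩ := val_pow (K := K₁⟮θ₂⟯) P₂
        have hη2 : P₂.valuation L₂ (algebraMap K₁⟮θ₂⟯ L₂ (aeval θ₁ (derivative (fb K₁ f)))) = 1 := by
          rw [hv, h4, one_pow]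
        have hagr : Agr K₁⟮θ₂⟯ P₂ := by
          refine agr_top (K₁ := K₁) (K₂ := K₂) (f := fo K₁ f) (H.mon.map _) hc₁.top ?_ htop' ?_ ?_
          · rw [← fb_eq]
            exact hc₁.root
          · rw [← hbb]
            exact hu
          · rw [← fb_eq]
            exact hη2
        refine (ev_down hagr _).1 ?_
        rw [← hval]
        have hnat : ∀ n : ℕ, (n : 𝓞 L₂) ∈ P₂.asIdeal → (n : 𝓞 K₁⟮θ₂⟯) ∈ (below K₁⟮θ₂⟯ P₂).asIdeal := by
          intro n hn
          rw [mem_below, map_natCast]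
          exact hn
        refine hC'.ev P₂ ?_ (fun q hq hm => h3 q hq (hnat q hm)) ?_
        · rw [hbb, below_below] at h1
          exact h1
        · rw [hη]
          exact hη2
      · exact pin (hc₁.isGen H.mon hdeg) (below K₁ P).isPrime (below K₁ P).ne_bot hirr hx hNx
          (fun a ha => (mem_below P a).1 ha)
    · intro q hq P h1 h3
      obtain ⟨P₂, rfl⟩ := exists_above (K := K₁⟮θ₂⟯) L₂ P
      have hb2 : (below F (below K₂ P₂)).asIdeal = 𝔮 q := by
        have h1' : (below F (below K₁ (below K₁⟮θ₂⟯ P₂))).asIdeal = 𝔮 q := h1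
        rw [hbb, below_below] at h1'
        exact h1'
      have hdn : Dns K₁ (below K₂ P₂) := dns_up (hD q hq _ hb2)
      have hdL : Dns K₁⟮θ₂⟯ P₂ :=
        dns_base (K₁ := K₁) (K₂ := K₂) (θ₁ := θ₁) (hc₁.int H.mon) htop' hdn
      have hagr := agr_of_dns hdL
      have hd : ∀ s : L₂, s ≠ 0 → ∃ s₀ : K₁⟮θ₂⟯,
          P₂.valuation L₂ (s - algebraMap K₁⟮θ₂⟯ L₂ s₀) < P₂.valuation L₂ s := by
        intro s hs
        obtain ⟨a, ha⟩ : ∃ a : ℤ, P₂.valuation L₂ s = WithZero.exp a :=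
          ⟨WithZero.log _, (WithZero.exp_log ((Valuation.ne_zero_iff _).2 hs)).symm⟩
        obtain ⟨s₀, hs₀⟩ := hdL s ((-a + 1).toNat)
        refine ⟨s₀, lt_of_le_of_lt hs₀ ?_⟩
        rw [ha]
        refine exp_lt ?_
        omega
      have hu := hC'.u0 q hq P₂ hb2 (by
        rw [← hθ₁, hagr]
        exact h3)
      rw [hval] at hu
      refine ⟨fun h4 => sq_down hagr hd (hu.1 ((ev_down hagr _).2 h4)), fun h4 => ?_⟩
      have h5 := hu.2 fun h6 => h4 ((ev_down hagr _).1 h6)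
      have e : algebraMap K₁⟮θ₂⟯ L₂ (aeval θ₁ p) * ((q : L₂) * θ₂) =
          algebraMap K₁⟮θ₂⟯ L₂ (aeval θ₁ p * ((q : K₁⟮θ₂⟯) * θ₁)) := by
        rw [map_mul, map_mul, map_natCast, hθ₁]
      rw [e] at h5
      exact sq_down hagr hd h5
    · have h5 := hC'.two
      rwa [Polynomial.map_map, ← IsScalarTower.algebraMap_eq] at h5
    · intro σ
      exact hS.real σ p (hc₁.irr H.mon) hcop hNp fun ρ hρ => hC'.real ρ

/-- The conditions on a Galois extension `M` of `K`. -/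
structure TCT (F K M : Type) [Field F] [NumberField F] [Field K] [NumberField K] [Field M]
    [NumberField M] [Algebra F K] [Algebra K M] [Algebra F M]
    (Bw : HeightOneSpectrum (𝓞 F) → Prop) (f : (𝓞 F)[X]) (J : Finset ℕ)
    (𝔮 : ℕ → Ideal (𝓞 F)) : Prop where
  unr : ∀ v : HeightOneSpectrum (𝓞 K), ¬ Bw (below F v) →
    Unr K M v ∨ Irreducible (rd v.asIdeal (fo K f))
  q : DQ F M J 𝔮
  real : ∀ σ : K →+* ℝ, (∃ ρ : M →+* ℝ, ρ.comp (algebraMap K M) = σ) ∨
    One f (σ.comp (algebraMap F K))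

section tow

variable {F K M : Type} [Field F] [NumberField F] [Field K] [NumberField K] [Field M]
  [NumberField M] [Algebra F K] [Algebra K M] [Algebra F M] [IsScalarTower F K M]
  {Bw : HeightOneSpectrum (𝓞 F) → Prop} {T : M[X] → Prop}
  {f : (𝓞 F)[X]} {J : Finset ℕ} {𝔮 : ℕ → Ideal (𝓞 F)}

/-- Transport along an isomorphism. -/
theorem pk_isoT (hs : Function.Surjective (algebraMap K M)) (h : PKT F K M Bw T f J 𝔮) :
    PKT F M M Bw T f J 𝔮 := by
  intro L _ _ _ θ hroot htop hrank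
  letI : Algebra K L := ((algebraMap M L).comp (algebraMap K M)).toAlgebra
  haveI : IsScalarTower K M L := IsScalarTower.of_algebraMap_eq fun _ => rfl
  have h1 : Module.finrank K M = 1 := by
    have e : K ≃ₐ[K] M := AlgEquiv.ofBijective (Algebra.ofId K M)
      ⟨(algebraMap K M).injective, hs⟩
    rw [← e.toLinearEquiv.finrank_eq, Module.finrank_self]
  intro p hne hN hC
  obtain ⟨p₀, rfl⟩ := Polynomial.map_surjective _ hs p
  rw [aeval_map_algebraMap] at hne hN ⊢
  have hroot' : aeval θ (fb K f) = 0 := by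
    rw [← fb_map K M f, aeval_map_algebraMap] at hroot
    exact hroot
  have htop' : K⟮θ⟯ = ⊤ := by
    rw [eq_top_iff]
    intro x _
    obtain ⟨r, rfl⟩ := exists_poly htop x
    obtain ⟨r₀, rfl⟩ := Polynomial.map_surjective _ hs r
    rw [aeval_map_algebraMap]
    exact IntermediateField.algebra_adjoin_le_adjoin K {θ}
      (Polynomial.aeval_mem_adjoin_singleton K θ)
  have hrank' : Module.finrank K L = f.natDegree := by
    rw [← Module.finrank_mul_finrank K M L, h1, hrank, one_mul]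
  have hN' : IsSquare (Algebra.norm K (aeval θ p₀)) := by
    rw [← Algebra.norm_norm (S := M)]
    exact hN.map _
  refine h L θ hroot' htop' hrank' p₀ hne hN' ⟨?_, ?_, ?_, ?_⟩
  · intro P h2 h3 h4
    have h5 := hC.ev P (by
      have hbb : below F (below M P) = below F (below K P) := by
        ext1
        ext a
        show algebraMap (𝓞 M) (𝓞 L) (algebraMap (𝓞 F) (𝓞 M) a) ∈ P.asIdeal ↔
          algebraMap (𝓞 K) (𝓞 L) (algebraMap (𝓞 F) (𝓞 K) a) ∈ P.asIdeal
        rw [IsScalarTower.algebraMap_apply (𝓞 K) (𝓞 M) (𝓞 L),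
          ← IsScalarTower.algebraMap_apply (𝓞 F) (𝓞 K) (𝓞 M)]
      rw [hbb]
      exact h2) h3 (by
      rw [← fb_map K M f, derivative_map, aeval_map_algebraMap]
      exact h4)
    rwa [aeval_map_algebraMap] at h5
  · intro q hq P h2 h3
    have h5 := hC.u0 q hq P (by
      have hbb : below F (below M P) = below F (below K P) := by
        ext1
        ext a
        show algebraMap (𝓞 M) (𝓞 L) (algebraMap (𝓞 F) (𝓞 M) a) ∈ P.asIdeal ↔
          algebraMap (𝓞 K) (𝓞 L) (algebraMap (𝓞 F) (𝓞 K) a) ∈ P.asIdeal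
        rw [IsScalarTower.algebraMap_apply (𝓞 K) (𝓞 M) (𝓞 L),
          ← IsScalarTower.algebraMap_apply (𝓞 F) (𝓞 K) (𝓞 M)]
      rw [hbb]
      exact h2) h3
    rwa [aeval_map_algebraMap] at h5
  · have h2 := hC.two
    rwa [Algebra.algebraMap_self, Polynomial.map_id] at h2
  · intro σ
    let e : K ≃+* M := RingEquiv.ofBijective (algebraMap K M) ⟨(algebraMap K M).injective, hs⟩
    have h2 := hC.real (σ.comp (e.symm : M →+* K))
    have e1 : ∀ r : K[X], (r.map (algebraMap K M)).map (σ.comp (e.symm : M →+* K)) = r.map σ := by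
      intro r
      rw [Polynomial.map_map]
      congr 1
      refine RingHom.ext fun x => ?_
      show σ (e.symm (e x)) = σ x
      rw [e.symm_apply_apply]
    rw [← fb_map K M f, e1, e1] at h2
    exact h2

end tow

/-- The tower. -/
theorem towerT {F M : Type} [Field F] [NumberField F] [Field M] [NumberField M] [Algebra F M]
    {Bw : HeightOneSpectrum (𝓞 F) → Prop} {T : M[X] → Prop} {f : (𝓞 F)[X]} {J : Finset ℕ}
    {𝔮 : ℕ → Ideal (𝓞 F)} (H : DatT f J 𝔮) (hTO : TOK F M f T) (hd : f.natDegree = 3) :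
    ∀ (n : ℕ) (K : Type)
    [Field K] [NumberField K] [Algebra F K] [Algebra K M]
    [IsScalarTower F K M] [IsGalois K M], Module.finrank K M = 2 ^ n → TCT F K M Bw f J 𝔮 →
    PKT F K M Bw T f J 𝔮 → PKT F M M Bw T f J 𝔮 := by
  intro n
  induction n with
  | zero =>
    intro K _ _ _ _ _ _ hn hT hK
    refine pk_isoT (K := K) ?_ hK
    intro z
    have h6 : z ∈ (⊥ : Subalgebra K M) := by
      rw [Subalgebra.bot_eq_top_of_finrank_eq_one (by rw [hn, pow_zero])]
      exact Algebra.mem_top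
    exact Algebra.mem_bot.1 h6
  | succ n ih =>
    intro K _ _ _ _ _ _ hn hT hK
    have hcard : Nat.card (M ≃ₐ[K] M) = 2 ^ (n + 1) := by
      rw [IsGalois.card_aut_eq_finrank, hn]
    obtain ⟨G, hG⟩ := Sylow.exists_subgroup_card_pow_prime (G := M ≃ₐ[K] M) 2 (n := n)
      (by rw [hcard]; exact pow_dvd_pow 2 (Nat.le_succ n))
    set K₁ := IntermediateField.fixedField G with hK₁
    have d1 : Module.finrank K₁ M = 2 ^ n := by
      rw [IntermediateField.finrank_fixedField_eq_card, hG]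
    clear_value K₁
    have d2 : Module.finrank K K₁ = 2 := by
      have h4 := Module.finrank_mul_finrank K K₁ M
      rw [hn, d1, pow_succ, mul_comm] at h4
      exact Nat.eq_of_mul_eq_mul_left (by positivity) h4
    haveI : IsScalarTower F K K₁ := inferInstance
    haveI : IsScalarTower F K₁ M := IsScalarTower.of_algebraMap_eq fun x => by
      rw [IsScalarTower.algebraMap_apply F K K₁, ← IsScalarTower.algebraMap_apply K K₁ M,
        ← IsScalarTower.algebraMap_apply F K M]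
    have hfbdeg : (fb K f).natDegree = 3 := by
      unfold fb fF
      rw [((H.mon.map _).natDegree_map), H.mon.natDegree_map, hd]
    have hone : ∀ σ : K →+* ℝ, (fb K f).map σ = (fF f).map (σ.comp (algebraMap F K)) := by
      intro σ
      unfold fb
      rw [Polynomial.map_map]
    have hDQ : DQ F K₁ J 𝔮 := by
      intro q hq w hw
      obtain ⟨w', rfl⟩ := exists_above (K := K₁) M w
      refine dns_down (hT.q q hq w' ?_)
      rw [← hw, below_below]
    have hS : StpT K K₁ Bw f := by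
      refine ⟨?_, ?_⟩
      · intro v hv
        rcases hT.unr v hv with h | h
        · exact Or.inl (unr_down h)
        · exact Or.inr h
      · intro σ p hirr hc hN hp
        rcases hT.real σ with ⟨ρ, hρ⟩ | ⟨e, z, h1, h2, h3⟩
        · have h4 := hp (ρ.comp (algebraMap K₁ M)) (by
            rw [RingHom.comp_assoc, ← IsScalarTower.algebraMap_eq, hρ])
          have e1 : ∀ r : K[X], (r.map (algebraMap K K₁)).map (ρ.comp (algebraMap K₁ M)) =
              r.map σ := by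
            intro r
            rw [Polynomial.map_map, RingHom.comp_assoc, ← IsScalarTower.algebraMap_eq, hρ]
          rw [← fb_map K K₁ f, e1, e1] at h4
          exact h4
        · rw [← hone] at h2 h3
          exact real_one ((H.mon.map _).map _) hirr hfbdeg σ h1 h2 h3 hc hN
    have hK1 := quadT (M := M) H hTO d2 hS hDQ hK
    refine ih K₁ d1 ⟨?_, hT.q, ?_⟩ hK1
    · intro w hw
      rcases hT.unr (below K w) (by rw [below_below]; exact hw) with h | h
      · exact Or.inl (unr_up h)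
      · exact Or.inr (irr_quad H.mon hd d2.le w h)
    · intro σ
      rcases hT.real (σ.comp (algebraMap K K₁)) with ⟨ρ, hρ⟩ | h
      · exact Or.inl (ext_real ρ σ hρ)
      · refine Or.inr ?_
        rw [RingHom.comp_assoc, ← IsScalarTower.algebraMap_eq] at h
        exact h

end Pool.Agent.H459.UT
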