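import Pool.Agent.H459.UT.Hq
import Pool.Agent.H459.UT.Iso2
import Pool.Graph.R_pool_sql_team_seeded_63374d34.N783.PF.Final

/-!
# The reciprocity law with bad primes (helper459)

After `N783/PF/Rec2.lean` of the library.
-/

set_option autoImplicit false
set_option linter.all false

open Polynomial IsDedekindDomain Matrix NumberField WithZero
open scoped Classical

namespace Pool.Agent.H459.UT

open Pool.Agent.N352.PJ (Mt Typ dd)
open Pool.Agent.N874.PP (Ev Sq1 U0)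
open Pool.Agent.N202.M4 (hasse hil IsSymbol)
open Pool.Agent.N783.PQ (LocIm tp Gm sg)
open Pool.Agent.N783.PF
open Pool.Agent.N783.PF.R2 (fF_deg fF_mon aeval_mod repr_aeval top_aeval norm_eq Gm_det cop Tf_symm
  Tf_det HV_map HV_uniq pr_eq det_inst)
open Pool.Agent.H459.UF (below eq_below)

/-- **The reciprocity law.** -/
theorem rec {g W : ℕ} {F L : Type} [Field F] [NumberField F] [Field L] [NumberField L]
    [Algebra F L] {f : (𝓞 F)[X]} {θ : L} {S : Finset ℕ} {𝔮 : ℕ → Ideal (𝓞 F)}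
    {r P : ℕ → (𝓞 F)[X]} (Bw : HeightOneSpectrum (𝓞 F) → Prop) (hg : 1 ≤ g) (hG : IsGen g f θ)
    (hB2 : ∀ w, ¬ Bw w → (2 : 𝓞 F) ∉ w.asIdeal ∧ dsc g f ∉ w.asIdeal ^ 2)
    (hBS : ∀ q ∈ S, ∀ w, Bw w → (q : 𝓞 F) ∉ w.asIdeal)
    (hS : GoodS g W S 𝔮 r P) (hF : ∀ q ∈ S, Cg (sp F q) f (P q))
    {𝔔 : ℕ → HeightOneSpectrum (𝓞 L)} (h𝔔 : ∀ q ∈ S, Ov (𝔮 q) (𝔔 q) ∧ (𝔔 q).valuation L θ = 1)
    {h : F[X]} (hα : aeval θ h ≠ 0) (hsq : IsSquare (Algebra.norm F (aeval θ h)))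
    (hev : ∀ 𝔓 : HeightOneSpectrum (𝓞 L), (∀ w, Bw w → ¬ Ov w.asIdeal 𝔓) →
      (∀ q ∈ S, 𝔓 ≠ 𝔔 q) → Ev 𝔓 (aeval θ h))
    (hl2 : ∀ w, Bw w → Apx w (Gm g (fF f) 1) (Gm g (fF f) h))
    (hlR : ∀ σ : F →+* ℝ, LocIm ℝ ((fF f).map σ) (h.map σ)) :
    Even (S.filter fun q => ¬ Ev (𝔔 q) (aeval θ h) ∧
      ¬ Sq1 (𝔔 q) (aeval θ h * ((q : L) * θ))).card := by
  have h1 := Pool.Agent.N286.PF.hvg
  have h2 := Pool.Agent.N935.PF.TRP.trp Pool.Agent.N286.PF.hvg Pool.Agent.N286.PF.hvc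
  have h3 := Pool.Agent.N783.PF.R2.trr Pool.Agent.N286.PF.hvg
  have h4 := Pool.Agent.N591.PF.iso1
  have h6 := hq Pool.Agent.N783.PF.tfq
  have hα1 : aeval θ (1 : F[X]) ≠ 0 := by
    rw [map_one]
    exact one_ne_zero
  obtain ⟨A, hA⟩ : ∃ A : Mt g F, A = Gm g (fF f) 1 := ⟨_, rfl⟩
  obtain ⟨B, hB⟩ : ∃ B : Mt g F, B = Gm g (fF f) h := ⟨_, rfl⟩
  have hAs : A.IsSymm := by rw [hA]; exact Pool.Agent.N835.PQ.Gm_symm g _ _
  have hBs : B.IsSymm := by rw [hB]; exact Pool.Agent.N835.PQ.Gm_symm g _ _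
  have hAd : A.det ≠ 0 := by rw [hA]; exact Gm_det hG 1 hα1
  have hBd : B.det ≠ 0 := by rw [hB]; exact Gm_det hG h hα
  have hAd' : @Matrix.det (Fin (2 * g + 1)) (fun a b => Classical.propDecidable (a = b)) _ F _ A
      ≠ 0 := ne_of_eq_of_ne (det_inst _ _ _) hAd
  have hBd' : @Matrix.det (Fin (2 * g + 1)) (fun a b => Classical.propDecidable (a = b)) _ F _ B
      ≠ 0 := ne_of_eq_of_ne (det_inst _ _ _) hBd
  have hTA : (Tf A).det ≠ 0 := ne_of_eq_of_ne (det_inst _ _ _) (Tf_det hAd')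
  have hTB : (Tf B).det ≠ 0 := ne_of_eq_of_ne (det_inst _ _ _) (Tf_det hBd')
  have hTAs := Tf_symm hAs
  have hTBs := Tf_symm hBs
  -- diagonal forms
  obtain ⟨n, φ⟩ : ∃ n : ℕ, Nonempty (Fin n ≃ Fin (2 * g + 1) × Fin (Module.finrank ℚ F)) :=
    ⟨_, ⟨(Fintype.equivFin _).symm⟩⟩
  obtain ⟨φ⟩ := φ
  obtain ⟨a, T, ha, -, hT⟩ := Pool.Agent.N835.PQ.exists_diag ((Tf A).submatrix φ φ)
    (by rw [Matrix.IsSymm, Matrix.transpose_submatrix, hTAs.eq])
    (by rw [Matrix.det_submatrix_equiv_self]; exact hTA)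
  obtain ⟨b, R, hb, -, hR⟩ := Pool.Agent.N835.PQ.exists_diag ((Tf B).submatrix φ φ)
    (by rw [Matrix.IsSymm, Matrix.transpose_submatrix, hTBs.eq])
    (by rw [Matrix.det_submatrix_equiv_self]; exact hTB)
  have hsym := Pool.Agent.N446.M4.sym_
  have hVA : ∀ (E : Type) [Field E] [CharZero E], HV ((Tf A).map (Rat.castHom E))
      (hasse (hil E) (List.ofFn fun i => (a i : E))) := fun E _ _ => HV_map E _ φ ha hT
  have hVB : ∀ (E : Type) [Field E] [CharZero E], HV ((Tf B).map (Rat.castHom E))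
      (hasse (hil E) (List.ofFn fun i => (b i : E))) := fun E _ _ => HV_map E _ φ hb hR
  have hcop := cop hG hα
  have hnorm : IsSquare (Algebra.norm F (AdjoinRoot.mk (fF f) h)) := by
    rw [norm_eq hG]
    exact hsq
  obtain ⟨hisoW, hisoR⟩ := h4 F g f h hG.mon hG.deg hcop hnorm
  rw [← hA, ← hB] at hisoW hisoR
  have hSp : ∀ q ∈ S, q.Prime := fun q hq => (hS q hq).1
  have hQm : ∀ q ∈ S, (q : 𝓞 L) ∈ (𝔔 q).asIdeal := by
    intro q hq
    have h7 := (h𝔔 q hq).1 (q : 𝓞 F) (hS q hq).2.2.2.2.2.2.1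
    rwa [map_natCast] at h7
  set ε : ℕ → ℤ := fun q => if ¬ Ev (𝔔 q) (aeval θ h) ∧ ¬ Sq1 (𝔔 q) (aeval θ h * ((q : L) * θ))
    then -1 else 1 with hε
  have hT1 : @Matrix.det _ (fun a b => Classical.propDecidable (a = b)) _ ℚ _ (Tf A) ≠ 0 :=
    ne_of_eq_of_ne (det_inst _ _ _) hTA
  have hT2 : @Matrix.det _ (fun a b => Classical.propDecidable (a = b)) _ ℚ _ (Tf B) ≠ 0 :=
    ne_of_eq_of_ne (det_inst _ _ _) hTB
  have key := Pool.Agent.N394.PQ.prd n b a hb ha S hSp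
    (by
      have e1 := h3 F (Fin (2 * g + 1)) A B hAs hBs hAd' hBd' (fun σ => hisoR σ (hlR σ)) _ (hVA ℝ)
      exact HV_uniq h1 ℝ Pool.Agent.N835.PQ.symR (Tf B) hTBs hT2 (hVB ℝ) e1)
    (by
      intro p hp hpS
      have hapx : ∀ w : HeightOneSpectrum (𝓞 F), (p : 𝓞 F) ∈ w.asIdeal → Apx w A B := by
        intro w hw
        by_cases hbw : Bw w
        · rw [hA, hB]
          exact hl2 w hbw
        · rw [hA, hB]
          obtain ⟨g1, g2⟩ := hB2 w hbw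
          refine iso2 hG w g2 g1 hα hsq ?_
          intro 𝔓 hov
          refine hev 𝔓 (fun w' hw' ho' => ?_) fun q hq he => ?_
          · have e1 : below F 𝔓 = w := eq_below hov
            have e2 : below F 𝔓 = w' := eq_below ho'
            rw [← e1, e2] at hbw
            exact hbw hw'
          · have h7 := hQm q hq
            rw [← he] at h7
            have h8 := hov (p : 𝓞 F) hw
            rw [map_natCast] at h8
            have h9 := pr_eq hp.out (hSp q hq) h8 h7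
            rw [h9] at hpS
            exact hpS hq
      have e1 := h2 F p (Fin (2 * g + 1)) A B hAs hBs hAd' hBd' hapx _ (hVA ℚ_[p])
      exact HV_uniq h1 ℚ_[p] (hsym p) (Tf B) hTBs hT2 (hVB ℚ_[p]) e1)
    ε
    (by
      intro q hq
      simp only [hε]
      split_ifs
      · exact Or.inr rfl
      · exact Or.inl rfl)
    (by
      intro q hq hqp
      have hevq : ∀ 𝔓 : HeightOneSpectrum (𝓞 L), (q : 𝓞 L) ∈ 𝔓.asIdeal → 𝔓 ≠ 𝔔 q →
          Ev 𝔓 (aeval θ h) := by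
        intro 𝔓 hov hne
        refine hev 𝔓 (fun w' hw' ho' => ?_) fun q' hq' he => ?_
        · have e2 : below F 𝔓 = w' := eq_below ho'
          apply hBS q hq w' hw'
          rw [← e2]
          show algebraMap (𝓞 F) (𝓞 L) (q : 𝓞 F) ∈ 𝔓.asIdeal
          rw [map_natCast]
          exact hov
        · have h7 := hQm q' hq'
          rw [← he] at h7
          have h8 := pr_eq (hSp q hq) (hSp q' hq') hov h7
          subst h8
          exact hne he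
      have hev1 : ∀ 𝔓 : HeightOneSpectrum (𝓞 L), Ev 𝔓 (aeval θ (1 : F[X])) := by
        intro 𝔓
        refine ⟨1, ?_⟩
        rw [map_one, map_one, one_pow]
      have e1 := h6 g W F L f θ S 𝔮 r P hg hG hS q hq (hF q hq) (𝔔 q) (h𝔔 q hq).1
        (h𝔔 q hq).2 h hα hevq
      have e2 := h6 g W F L f θ S 𝔮 r P hg hG hS q hq (hF q hq) (𝔔 q) (h𝔔 q hq).1
        (h𝔔 q hq).2 1 hα1 (fun 𝔓 _ _ => hev1 𝔓)
      rw [← hB] at e1
      rw [← hA, if_neg (fun hc => hc.1 (hev1 _))] at e2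
      have e3 := HV_uniq h1 ℚ_[q] (hsym q) (Tf B) hTBs hT2 (hVB ℚ_[q]) e1
      have e4 := HV_uniq h1 ℚ_[q] (hsym q) (Tf A) hTAs hT1 (hVA ℚ_[q]) e2
      rw [e3, e4, mul_one])
  have hfil : (S.filter fun q => ε q = -1) = S.filter fun q => ¬ Ev (𝔔 q) (aeval θ h) ∧
      ¬ Sq1 (𝔔 q) (aeval θ h * ((q : L) * θ)) := by
    refine Finset.filter_congr fun q _ => ?_
    simp only [hε]
    split_ifs with h7
    · simp [h7]
    · simp [h7]
  rw [hfil] at key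
  exact key

end Pool.Agent.H459.UT
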