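import Pool.Agent.H459.UT.Lr
import Pool.Agent.H459.UF.Ptf

/-!
# The type at two: local computations (helper459)

`f = x³ + A x + B` over a field with a valuation; `N = 27 + 3 A + B` is small and not zero and
`A + 27` is at most `N`. There is one root `r` of absolute value less than one, and the other roots
generate the field of a square root of `-N`.
-/

set_option autoImplicit false
set_option linter.all false

open Polynomial WithZero

namespace Pool.Agent.H459.UT

open Pool.Agent.N783.PQ (LocIm)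
open Pool.Agent.H459.UF (cu cu_monic cu_deg norm_eq)

section alg

variable {k : Type} [Field k]

theorem modf {A B : k} {P : k[X]} {a₀ a₁ a₂ : k}
    (h : cu A B ∣ P - (C a₀ + C a₁ * X + C a₂ * X ^ 2)) :
    P %ₘ cu A B = C a₀ + C a₁ * X + C a₂ * X ^ 2 := by
  obtain ⟨q, hq⟩ := h
  refine (div_modByMonic_unique q _ (cu_monic A B) ⟨by rw [← hq]; ring, ?_⟩).2
  rw [degree_eq_natDegree (cu_monic A B).ne_zero, cu_deg]
  refine lt_of_le_of_lt (b := ((2 : ℕ) : WithBot ℕ)) ?_ (by exact_mod_cast (by norm_num : 2 < 3))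
  compute_degree
  exact le_rfl

theorem cub_rep (A B : k) (p : k[X]) : ∃ c₀ c₁ c₂ : k,
    cu A B ∣ p - (C c₀ + C c₁ * X + C c₂ * X ^ 2) := by
  refine ⟨(p %ₘ cu A B).coeff 0, (p %ₘ cu A B).coeff 1, (p %ₘ cu A B).coeff 2, ?_⟩
  have h1 : (p %ₘ cu A B).natDegree < 3 := by
    have := natDegree_modByMonic_lt p (cu_monic A B) (by
      intro h
      have h2 := congrArg natDegree h
      rw [cu_deg, natDegree_one] at h2
      omega)
    rwa [cu_deg] at this
  have h2 : p %ₘ cu A B = C ((p %ₘ cu A B).coeff 0) + C ((p %ₘ cu A B).coeff 1) * X +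
      C ((p %ₘ cu A B).coeff 2) * X ^ 2 := by
    conv_lhs => rw [as_sum_range_C_mul_X_pow' (p %ₘ cu A B) h1]
    simp [Finset.sum_range_succ]
  rw [← h2]
  refine ⟨p /ₘ cu A B, ?_⟩
  have := modByMonic_add_div p (cu A B)
  linear_combination -this

/-- The norm of a class. -/
theorem norm_cub {A B : k} {p : k[X]} {c₀ c₁ c₂ : k}
    (h : cu A B ∣ p - (C c₀ + C c₁ * X + C c₂ * X ^ 2)) :
    Algebra.norm k (AdjoinRoot.mk (cu A B) p) =
      c₀ * ((c₀ - c₂ * A) * (c₀ - c₂ * A) - (-(c₂ * B) - c₁ * A) * c₁) -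
      (-(c₂ * B)) * (c₁ * (c₀ - c₂ * A) - (-(c₂ * B) - c₁ * A) * c₂) +
      (-(c₁ * B)) * (c₁ * c₁ - (c₀ - c₂ * A) * c₂) := by
  rw [norm_eq (cu_monic A B) p 3 (cu_deg A B)]
  obtain ⟨q, hq⟩ := h
  have hX : (X : k[X]) ^ 3 = cu A B - C A * X - C B := by
    unfold cu
    ring
  have e0 : (p * X ^ 0) %ₘ cu A B = C c₀ + C c₁ * X + C c₂ * X ^ 2 :=
    modf ⟨q, by rw [← hq]; ring⟩
  have e1 : (p * X ^ 1) %ₘ cu A B = C (-(c₂ * B)) + C (c₀ - c₂ * A) * X + C c₁ * X ^ 2 := by
    refine modf ⟨q * X + C c₂, ?_⟩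
    simp only [map_neg, map_mul, map_sub]
    linear_combination X * hq + C c₂ * hX
  have e2 : (p * X ^ 2) %ₘ cu A B = C (-(c₁ * B)) + C (-(c₂ * B) - c₁ * A) * X +
      C (c₀ - c₂ * A) * X ^ 2 := by
    refine modf ⟨q * X ^ 2 + C c₂ * X + C c₁, ?_⟩
    simp only [map_neg, map_mul, map_sub]
    linear_combination X ^ 2 * hq + (C c₂ * X + C c₁) * hX
  rw [Matrix.det_fin_three]
  simp only [Matrix.of_apply, Fin.isValue, Fin.val_zero, Fin.val_one, Fin.val_two]
  rw [e0, e1, e2]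
  have t : ∀ a b c : k, (C a + C b * X + C c * X ^ 2).coeff 0 = a ∧
      (C a + C b * X + C c * X ^ 2).coeff 1 = b ∧ (C a + C b * X + C c * X ^ 2).coeff 2 = c := by
    intro a b c
    refine ⟨by simp, ?_, ?_⟩
    · simp [coeff_C, coeff_X]
    · simp [coeff_C, coeff_X]
  rw [(t _ _ _).1, (t _ _ _).1, (t _ _ _).1, (t _ _ _).2.1, (t _ _ _).2.1, (t _ _ _).2.1,
    (t _ _ _).2.2, (t _ _ _).2.2, (t _ _ _).2.2]
  ring

/-- The norm in terms of the components. -/
theorem norm_root {A B r : k} (hr : r ^ 3 + A * r + B = 0) (p : k[X]) : ∃ U b : k,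
    4 * Algebra.norm k (AdjoinRoot.mk (cu A B) p) =
      p.eval r * (U ^ 2 - (-3 * r ^ 2 - 4 * A) * b ^ 2) := by
  obtain ⟨c₀, c₁, c₂, h⟩ := cub_rep A B p
  rw [norm_cub h]
  obtain ⟨q, hq⟩ := h
  have h1 : p.eval r = c₀ + c₁ * r + c₂ * r ^ 2 := by
    have h2 := congrArg (eval r) hq
    have h3 : (cu A B).eval r = 0 := by
      rw [← hr]
      simp [cu]
    rw [eval_mul, h3, zero_mul] at h2
    simp only [eval_sub, eval_add, eval_mul, eval_C, eval_pow, eval_X] at h2
    linear_combination h2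
  have hB : B = -r ^ 3 - A * r := by linear_combination hr
  refine ⟨2 * (c₀ - c₂ * (r ^ 2 + A)) - (c₁ - c₂ * r) * r, c₁ - c₂ * r, ?_⟩
  rw [h1, hB]
  ring

/-- If the component of a class of square norm is `δ`, then the discriminant is a norm. -/
theorem step_alg [CharZero k] {A B r δ : k} (hr : r ^ 3 + A * r + B = 0) {p : k[X]}
    (hN : IsSquare (Algebra.norm k (AdjoinRoot.mk (cu A B) p)))
    (hN0 : Algebra.norm k (AdjoinRoot.mk (cu A B) p) ≠ 0) (hδ : δ ≠ 0)
    (hsq : IsSquare (p.eval r * δ)) : ∃ x y : k, x ^ 2 - δ * y ^ 2 = -3 * r ^ 2 - 4 * A := by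
  obtain ⟨D, hD⟩ : ∃ D, D = -3 * r ^ 2 - 4 * A := ⟨_, rfl⟩
  obtain ⟨U, b, h1⟩ := norm_root hr p
  rw [← hD] at h1 ⊢
  obtain ⟨m, hm⟩ := hN
  obtain ⟨n, hn⟩ := hsq
  rw [hm] at h1 hN0
  have hm0 : m ≠ 0 := fun h => hN0 (by rw [h, mul_zero])
  have hp0 : p.eval r ≠ 0 := by
    intro h
    rw [h, zero_mul] at h1
    have : (4 : k) ≠ 0 := by norm_num
    exact hN0 ((mul_eq_zero.1 h1).resolve_left this)
  have hn0 : n ≠ 0 := by
    rintro rfl
    rw [mul_zero] at hn
    exact (mul_ne_zero hp0 hδ) hn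
  -- `δ (U² - D b²) = (2 m δ / n)²`
  have h2 : U ^ 2 - D * b ^ 2 = δ * (2 * m / n) ^ 2 := by
    have h3 : n ^ 2 * (U ^ 2 - D * b ^ 2) = δ * (2 * m) ^ 2 := by
      have : n ^ 2 = p.eval r * δ := by rw [hn]; ring
      rw [this]
      linear_combination -δ * h1
    field_simp
    linear_combination h3
  by_cases hb : b = 0
  · rw [hb] at h2
    have hδs : δ = (U * n / (2 * m)) ^ 2 := by
      field_simp
      field_simp at h2
      linear_combination -h2
    obtain ⟨e, he⟩ : ∃ e, e = U * n / (2 * m) := ⟨_, rfl⟩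
    rw [← he] at hδs
    have he0 : e ≠ 0 := by
      rintro h
      apply hδ
      rw [hδs, h]
      ring
    refine ⟨(1 + D) / 2, (D - 1) / (2 * e), ?_⟩
    rw [hδs]
    field_simp
    ring
  · refine ⟨U / b, 2 * m / n / b, ?_⟩
    field_simp
    field_simp at h2
    linear_combination h2

end alg

section val

variable {k : Type} [Field k] [CharZero k] {v : Valuation k (WithZero (Multiplicative ℤ))}

/-- The type. -/
structure TT (v : Valuation k (WithZero (Multiplicative ℤ))) (A B : k) : Prop where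
  two : v 2 < 1
  sq : ∀ x : k, v x < v 4 → IsSquare (1 + x)
  n0 : 27 + 3 * A + B ≠ 0
  hN : v (27 + 3 * A + B) < v 64
  hA : v (A + 27) ≤ v (27 + 3 * A + B)

theorem v_nat_le (v : Valuation k (WithZero (Multiplicative ℤ))) (n : ℕ) : v (n : k) ≤ 1 := by
  induction n with
  | zero => simp
  | succ n ih =>
    push_cast
    exact (v.map_add _ _).trans (max_le ih (by rw [map_one]))

theorem v_one_add {x : k} (h : v x < 1) : v (1 + x) = 1 := by
  rw [Valuation.map_add_eq_of_lt_left]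
  · exact map_one v
  · rw [map_one]
    exact h

variable {A B : k}

theorem TT.v4 (H : TT v A B) : v 4 = v 2 ^ 2 := by
  rw [← map_pow]
  norm_num

theorem TT.v2p (H : TT v A B) : 0 < v 2 := zero_lt_iff.2 ((Valuation.ne_zero_iff _).2 two_ne_zero)

theorem TT.v64 (H : TT v A B) : v 64 = v 2 ^ 6 := by
  rw [← map_pow]
  norm_num

theorem TT.v3 (H : TT v A B) : v 3 = 1 := by
  have : (3 : k) = 1 + 2 := by norm_num
  rw [this]
  exact v_one_add H.two

theorem TT.v9 (H : TT v A B) : v 9 = 1 := by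
  have : (9 : k) = 3 * 3 := by norm_num
  rw [this, map_mul, H.v3, mul_one]

theorem pow_le_of {a : WithZero (Multiplicative ℤ)} (h : a ≤ 1) {m n : ℕ} (hmn : m ≤ n) :
    a ^ n ≤ a ^ m := pow_le_pow_right_of_le_one' h hmn

theorem TT.N4 (H : TT v A B) : v (27 + 3 * A + B) < v 4 := by
  refine H.hN.trans_le ?_
  rw [H.v64, H.v4]
  exact pow_le_of H.two.le (by norm_num)

theorem TT.N1 (H : TT v A B) : v (27 + 3 * A + B) < 1 := by
  refine H.N4.trans_le ?_
  rw [H.v4]
  exact pow_le_one' H.two.le 2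

/-- the root of absolute value less than one -/
theorem TT.near (H : TT v A B) {r : k} (hr : r ^ 3 + A * r + B = 0) (hv : v r < 1) :
    v (r + 6) ≤ v (27 + 3 * A + B) ∧ v (r - 3) = 1 := by
  have h1 : v (r - 3) = 1 := by
    have e : r - 3 = -(3 - r) := by ring
    rw [e, Valuation.map_neg, Valuation.map_sub_eq_of_lt_left, H.v3]
    rw [H.v3]
    exact hv
  have e : (r - 3) ^ 2 * (r + 6) = -((A + 27) * (r - 3)) - (27 + 3 * A + B) := by
    linear_combination hr
  have h2 := congrArg v e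
  rw [map_mul, map_pow, h1, one_pow, one_mul] at h2
  refine ⟨?_, h1⟩
  rw [h2]
  refine (Valuation.map_sub _ _ _).trans (max_le ?_ le_rfl)
  rw [Valuation.map_neg, map_mul, h1, mul_one]
  exact H.hA

/-- the derivative at the root is a square -/
theorem TT.der (H : TT v A B) {r : k} (hr : r ^ 3 + A * r + B = 0) (hv : v r < 1) :
    IsSquare (3 * r ^ 2 + A) ∧ v (3 * r ^ 2 + A) = 1 := by
  obtain ⟨h1, h2⟩ := H.near hr hv
  obtain ⟨x, hx⟩ : ∃ x, x = ((A + 27) + 3 * (r + 6) * ((r + 6) - 12)) / 81 := ⟨_, rfl⟩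
  have e : 3 * r ^ 2 + A = 81 * (1 + x) := by
    rw [hx]
    field_simp
    ring
  have h81 : v 81 = 1 := by
    have : (81 : k) = 9 * 9 := by norm_num
    rw [this, map_mul, H.v9, mul_one]
  have hxv : v x < v 4 := by
    rw [hx, map_div₀, h81, div_one]
    refine (Valuation.map_add _ _ _).trans_lt (max_lt (H.hA.trans_lt H.N4) ?_)
    rw [map_mul, map_mul, H.v3, one_mul]
    have h3 : v (r + 6 - 12) ≤ 1 := by
      refine (Valuation.map_sub _ _ _).trans (max_le (h1.trans H.N1.le) ?_)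
      exact_mod_cast v_nat_le v 12
    exact lt_of_le_of_lt (mul_le_mul' h1 h3) (by rw [mul_one]; exact H.N4)
  have h4 : v 4 ≤ 1 := by
    rw [H.v4]
    exact pow_le_one' H.two.le 2
  rw [e]
  constructor
  · obtain ⟨y, hy⟩ := H.sq x hxv
    rw [hy]
    exact ⟨9 * y, by ring⟩
  · rw [map_mul, h81, one_mul, v_one_add (hxv.trans_le h4)]

/-- the discriminant of the quadratic factor -/
theorem TT.dsc (H : TT v A B) {r : k} (hr : r ^ 3 + A * r + B = 0) (hv : v r < 1) :
    ∃ w : k, w ≠ 0 ∧ -3 * r ^ 2 - 4 * A = -(27 + 3 * A + B) * w ^ 2 := by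
  obtain ⟨h1, h2⟩ := H.near hr hv
  obtain ⟨N, hN⟩ : ∃ N, N = 27 + 3 * A + B := ⟨_, rfl⟩
  obtain ⟨s, hs⟩ : ∃ s, s = r + 6 := ⟨_, rfl⟩
  have hrs : r = s - 6 := by rw [hs]; ring
  have hN0 : N ≠ 0 := by rw [hN]; exact H.n0
  have hNv := H.hN
  have hN4 := H.N4
  rw [← hN] at h1 hNv hN4 ⊢
  rw [← hs] at h1
  have hz : r - 3 = s - 9 := by rw [hrs]; ring
  rw [hz] at h2
  have h9 : s - 9 ≠ 0 := by
    intro h0
    rw [h0, map_zero] at h2
    exact zero_ne_one h2
  have e0 : (s - 9) * (9 + 3 * r + r ^ 2 + A) = -N := by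
    rw [hN, hrs]
    rw [hrs] at hr
    linear_combination hr
  -- `D = s² + 4 N / (s - 9)`
  have e1 : -3 * r ^ 2 - 4 * A = s ^ 2 + 4 * N / (s - 9) := by
    field_simp
    rw [hrs] at e0 ⊢
    linear_combination (-4 : k) * e0
  obtain ⟨x, hx⟩ : ∃ x, x = s ^ 2 * (s - 9) / (4 * N) := ⟨_, rfl⟩
  have hNv0 : 0 < v N := zero_lt_iff.2 ((Valuation.ne_zero_iff _).2 hN0)
  have hxv : v x < v 4 := by
    rw [hx, map_div₀, map_mul, map_mul, map_pow, h2, mul_one]
    have h3 : v s ^ 2 ≤ v N * v N := by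
      rw [pow_two]
      exact mul_le_mul' h1 h1
    have h4 : (0 : WithZero (Multiplicative ℤ)) < v 4 * v N := by
      rw [H.v4]
      exact mul_pos (pow_pos H.v2p 2) hNv0
    rw [div_lt_iff₀ h4]
    refine h3.trans_lt ?_
    have h5 : v N < v 4 * v 4 := by
      refine hNv.trans_le ?_
      rw [H.v64, H.v4, ← pow_add]
      exact pow_le_of H.two.le (by norm_num)
    calc v N * v N < v 4 * v 4 * v N := mul_lt_mul_of_pos_right h5 hNv0
      _ = v 4 * (v 4 * v N) := by rw [mul_assoc]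
  obtain ⟨y, hy⟩ := H.sq x hxv
  have h4 : v 4 ≤ 1 := by
    rw [H.v4]
    exact pow_le_one' H.two.le 2
  obtain ⟨z, hz'⟩ := H.sq (-s / 9) (by
    rw [map_div₀, Valuation.map_neg, H.v9, div_one]
    exact h1.trans_lt hN4)
  have hy0 : y ≠ 0 := by
    rintro rfl
    rw [mul_zero] at hy
    have := v_one_add (hxv.trans_le h4)
    rw [hy, map_zero] at this
    exact zero_ne_one this
  have hz0 : z ≠ 0 := by
    rintro rfl
    rw [mul_zero] at hz'
    apply h9
    have : (9 : k) ≠ 0 := by norm_num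
    field_simp at hz'
    linear_combination -hz'
  refine ⟨2 * y / (3 * z), by
    refine div_ne_zero (mul_ne_zero two_ne_zero hy0) (mul_ne_zero (by norm_num) hz0), ?_⟩
  rw [e1]
  have e2 : s ^ 2 + 4 * N / (s - 9) = (4 * N / (s - 9)) * (1 + x) := by
    rw [hx]
    field_simp
    ring
  have e3 : s - 9 = -9 * (z * z) := by
    rw [← hz']
    ring
  have hz9 : (-9 * (z * z) : k) ≠ 0 := by rw [← e3]; exact h9
  rw [e2, hy, e3]
  field_simp
  ring

/-- differences of abscissas -/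
theorem TT.pts (H : TT v A B) {r : k} (hr : r ^ 3 + A * r + B = 0) (hv : v r < 1) {x y : k}
    (hxy : y ^ 2 = x ^ 3 + A * x + B) (hx : x ≠ r) : IsSquare (x - r) := by
  obtain ⟨h1, h2⟩ := H.near hr hv
  obtain ⟨N, hN⟩ : ∃ N, N = 27 + 3 * A + B := ⟨_, rfl⟩
  have hNv := H.hN
  have hN4 := H.N4
  rw [← hN] at h1 hNv hN4
  rcases lt_or_ge (v (x - 3)) (v 4) with h3 | h3
  · have e : x - r = 9 * (1 + ((x - 3) - (r + 6)) / 9) := by
      field_simp
      ring
    obtain ⟨y', hy'⟩ := H.sq (((x - 3) - (r + 6)) / 9) (by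
      rw [map_div₀, H.v9, div_one]
      exact (Valuation.map_sub _ _ _).trans_lt (max_lt h3 (h1.trans_lt hN4)))
    rw [e, hy']
    exact ⟨3 * y', by ring⟩
  · have h4p : (0 : WithZero (Multiplicative ℤ)) < v 4 := by
      rw [H.v4]
      exact pow_pos H.v2p 2
    have hz0 : x - 3 ≠ 0 := by
      intro h0
      rw [h0, map_zero] at h3
      exact absurd h4p (not_lt.2 h3)
    have hvz : 0 < v (x - 3) := h4p.trans_le h3
    obtain ⟨t, ht⟩ : ∃ t, t = 9 + 3 * r + r ^ 2 + A := ⟨_, rfl⟩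
    have e0 : (r - 3) * t = -N := by
      rw [hN, ht]
      linear_combination hr
    have htv : v t = v N := by
      have := congrArg v e0
      rwa [map_mul, h2, one_mul, Valuation.map_neg] at this
    obtain ⟨w, hw⟩ : ∃ w, w = (r + 6) / (x - 3) + t / (x - 3) ^ 2 := ⟨_, rfl⟩
    have hwv : v w < v 4 := by
      rw [hw]
      refine (Valuation.map_add _ _ _).trans_lt (max_lt ?_ ?_)
      · rw [map_div₀, div_lt_iff₀ hvz]
        refine h1.trans_lt (hNv.trans_le ?_)
        refine le_trans ?_ (mul_le_mul' le_rfl h3)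
        rw [H.v64, H.v4, ← pow_add]
        exact pow_le_of H.two.le (by norm_num)
      · rw [map_div₀, map_pow, div_lt_iff₀ (pow_pos hvz 2), htv]
        refine hNv.trans_le ?_
        refine le_trans ?_ (mul_le_mul' le_rfl (pow_le_pow_left' h3 2))
        rw [H.v64, H.v4, ← pow_mul, ← pow_add]
    have h4 : v 4 ≤ 1 := by
      rw [H.v4]
      exact pow_le_one' H.two.le 2
    obtain ⟨q, hq⟩ := H.sq w hwv
    have hq0 : q ≠ 0 := by
      rintro rfl
      rw [mul_zero] at hq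
      have := v_one_add (hwv.trans_le h4)
      rw [hq, map_zero] at this
      exact zero_ne_one this
    have e1 : y ^ 2 = (x - r) * ((x - 3) ^ 2 * (q * q)) := by
      rw [← hq, hw, hxy, ht]
      field_simp
      linear_combination hr
    refine ⟨y / ((x - 3) * q), ?_⟩
    field_simp
    linear_combination -e1

/-- **Classes in the image of the curve are squares at `r`.** -/
theorem TT.loc (H : TT v A B) {r : k} (hr : r ^ 3 + A * r + B = 0) (hv : v r < 1) {h : k[X]}
    (hl : LocIm k (cu A B) h) : IsSquare (h.eval r) := by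
  have e1 : (cu A B).eval r = 0 := by
    rw [← hr]
    simp [cu]
  have e2 : (derivative (cu A B)).eval r = 3 * r ^ 2 + A := by
    unfold cu
    simp
    norm_num
  obtain ⟨d1, d2⟩ := H.der hr hv
  refine lr_loc (cu_monic A B) (cu_deg A B) e1 ?_ ?_ ?_ hl
  · rw [e2]
    intro h0
    rw [h0, map_zero] at d2
    exact zero_ne_one d2
  · rw [e2]
    exact d1
  · intro x y hxy hx
    refine H.pts hr hv ?_ hx (y := y)
    rw [hxy]
    simp [cu]

end val

end Pool.Agent.H459.UT
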